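import Pool.Agent.AAP.DefsD

/-!
# AAP-Amb: ambiguous ideals

`L/F` cyclic with generator `σ`, `v` a nonzero prime of `F`; the primes of `L` not above `v` have
trivial inertia group, those above `v` have inertia groups of order `e`. Then the number
`[ker nm : range dv]` for the units of `L` is at most `h_F e`.
-/

open NumberField Pointwise

namespace Pool.Agent.AAP

section

variable {F L : Type} [Field F] [NumberField F] [Field L] [NumberField L] [Algebra F L]

private theorem max_of {p : Ideal (𝓞 F)} [p.IsPrime] (hp : p ≠ ⊥) : p.IsMaximal :=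
  Ideal.IsPrime.isMaximal inferInstance hp

open Classical in
/-- the product of the primes above `p` -/
private noncomputable def pab (L : Type) [Field L] [NumberField L] [Algebra F L]
    (p : Ideal (𝓞 F)) [p.IsMaximal] : Ideal (𝓞 L) := ∏ P ∈ (p.primesOver (𝓞 L)).toFinset, P

omit [NumberField F] in
private theorem pab_dvd (p : Ideal (𝓞 F)) [p.IsMaximal] (hp : p ≠ ⊥) {I : Ideal (𝓞 L)}
    (h : ∀ P ∈ p.primesOver (𝓞 L), P ∣ I) : pab L p ∣ I := by
  classical
  unfold pab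
  refine Finset.prod_primes_dvd _ (fun P hP => ?_) fun P hP => h P (Set.mem_toFinset.1 hP)
  rw [Set.mem_toFinset] at hP
  have := hP.1
  have := hP.2
  exact Ideal.prime_of_isPrime (Ideal.ne_bot_of_liesOver_of_ne_bot hp P) hP.1

variable [IsGalois F L]

private theorem ram_eq (P : Ideal (𝓞 L)) [P.IsPrime] (p : Ideal (𝓞 F)) [p.IsPrime] [P.LiesOver p]
    (hp : p ≠ ⊥) : P.ramificationIdx (𝓞 F) = Nat.card (Ideal.inertia Gal(L/F) P) := by
  have hm : p.IsMaximal := Ideal.IsPrime.isMaximal inferInstance hp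
  rw [Ideal.card_inertia_eq_ramificationIdxIn (G := Gal(L/F)) p P,
    Ideal.ramificationIdxIn_eq_ramificationIdx p P Gal(L/F)]

private theorem pab_pow (p : Ideal (𝓞 F)) [p.IsMaximal] (hp : p ≠ ⊥) {e : ℕ}
    (h : ∀ P ∈ p.primesOver (𝓞 L), Nat.card (Ideal.inertia Gal(L/F) P) = e) :
    p.map (algebraMap (𝓞 F) (𝓞 L)) = pab L p ^ e := by
  classical
  rw [Ideal.map_algebraMap_eq_finsetProd_pow hp]
  unfold pab
  rw [← Finset.prod_pow]
  refine Finset.prod_congr rfl fun P hP => ?_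
  rw [Set.mem_toFinset] at hP
  have h1 := hP.1
  have h2 := hP.2
  rw [ram_eq P p hp, h P hP]

private theorem pab_smul (p : Ideal (𝓞 F)) [p.IsMaximal] (g : Gal(L/F)) :
    g • pab L p = pab L p := by
  classical
  unfold pab
  rw [Finset.smul_prod']
  refine Finset.prod_bijective (fun P => g • P) (MulAction.bijective g) (fun P => ?_)
    fun P _ => rfl
  rw [Set.mem_toFinset, Set.mem_toFinset]
  constructor
  · rintro ⟨h1, h2⟩
    exact ⟨inferInstance, inferInstance⟩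
  · rintro ⟨h1, h2⟩
    have h3 : P = g⁻¹ • (g • P) := (inv_smul_smul g P).symm
    rw [h3]
    exact ⟨inferInstance, inferInstance⟩

/-- the structure of the ideals stable under the Galois group -/
private theorem stable_ideal (v : Ideal (𝓞 F)) [v.IsMaximal]
    (hunr : ∀ w : Ideal (𝓞 L), w.IsPrime → w ≠ ⊥ → w.under (𝓞 F) ≠ v →
      Ideal.inertia Gal(L/F) w = ⊥) (I : Ideal (𝓞 L)) :
    I ≠ ⊥ → (∀ g : Gal(L/F), g • I = I) →
      ∃ (J : Ideal (𝓞 F)) (k : ℕ), J ≠ ⊥ ∧ I = J.map (algebraMap (𝓞 F) (𝓞 L)) * pab L v ^ k := by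
  induction I using IsNoetherian.induction with
  | hgt I ih =>
    intro h0 hst
    by_cases htop : I = ⊤
    · refine ⟨⊤, 0, top_ne_bot, ?_⟩
      rw [htop, Ideal.map_top, pow_zero, mul_one]
    obtain ⟨w, hw, hIw⟩ := Ideal.exists_le_maximal I htop
    have hw0 : w ≠ ⊥ := fun h => h0 (le_bot_iff.1 (h ▸ hIw))
    have hwp : w.IsPrime := hw.isPrime
    have hp0 : w.under (𝓞 F) ≠ ⊥ := Ideal.IsIntegral.comap_ne_bot (𝓞 F) hw0
    have hpm : (w.under (𝓞 F)).IsMaximal := max_of hp0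
    obtain ⟨C, hC⟩ := pab_dvd (L := L) (w.under (𝓞 F)) hp0 (I := I) fun P hP => by
      have h1 := hP.1
      have h2 := hP.2
      obtain ⟨g, hg⟩ := Ideal.exists_smul_eq_of_isGaloisGroup (w.under (𝓞 F)) w P Gal(L/F)
      rw [← hg, Ideal.dvd_iff_le, ← hst g]
      exact (Ideal.pointwise_smul_le_pointwise_smul_iff (a := g)).2 hIw
    have hC0 : C ≠ ⊥ := by
      rintro rfl
      exact h0 (by rw [hC, Ideal.mul_bot])
    have hP0 : pab L (w.under (𝓞 F)) ≠ 0 := by
      intro h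
      apply h0
      rw [hC, h, zero_mul]
      rfl
    have hCst : ∀ g : Gal(L/F), g • C = C := by
      intro g
      have h1 := hst g
      rw [hC, smul_mul', pab_smul] at h1
      exact mul_left_cancel₀ hP0 h1
    have hIC : I < C := by
      refine lt_of_le_of_ne (hC ▸ Ideal.mul_le_right) fun h => ?_
      have h1 : pab L (w.under (𝓞 F)) * C = 1 * C := by rw [← hC, one_mul, h]
      have h2 := mul_right_cancel₀ hC0 h1
      have h3 : w ∣ pab L (w.under (𝓞 F)) := by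
        classical
        unfold pab
        exact Finset.dvd_prod_of_mem _ (Set.mem_toFinset.2 ⟨hwp, inferInstance⟩)
      rw [h2, Ideal.dvd_iff_le, Ideal.one_eq_top, top_le_iff] at h3
      exact hw.ne_top h3
    obtain ⟨J, k, hJ, hk⟩ := ih C hIC hC0 hCst
    by_cases hv : w.under (𝓞 F) = v
    · refine ⟨J, k + 1, hJ, ?_⟩
      have h1 : pab L (w.under (𝓞 F)) = pab L v := by
        subst hv
        rfl
      rw [hC, hk, h1, pow_succ]
      ring
    · have h1 : (w.under (𝓞 F)).map (algebraMap (𝓞 F) (𝓞 L)) = pab L (w.under (𝓞 F)) ^ 1 := by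
        refine pab_pow (w.under (𝓞 F)) hp0 fun P hP => ?_
        have h1 := hP.1
        have h2 := hP.2
        have h3 : P ≠ ⊥ := Ideal.ne_bot_of_liesOver_of_ne_bot hp0 P
        rw [hunr P h1 h3 (by rw [← h2.over]; exact hv)]
        exact Nat.card_unique
      rw [pow_one] at h1
      refine ⟨w.under (𝓞 F) * J, k, ?_, ?_⟩
      · exact mul_ne_zero hp0 hJ
      · rw [hC, hk, ← h1, Ideal.map_mul, mul_assoc]

private theorem norm_one {σ : Gal(L/F)} (hσ : ∀ τ, τ ∈ Subgroup.zpowers σ) {d : ℕ}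
    (hd : d = Nat.card Gal(L/F)) {u : (𝓞 L)ˣ} (hu : nm (ua F L σ) d u = 1) :
    Algebra.norm F (algebraMap (𝓞 L) L (u : 𝓞 L)) = 1 := by
  classical
  have hord : orderOf σ = d := by
    rw [hd]
    exact orderOf_eq_card_of_forall_mem_zpowers hσ
  apply (algebraMap F L).injective
  rw [Algebra.norm_eq_prod_automorphisms, map_one]
  have h1 : ∏ g : Gal(L/F), g (algebraMap (𝓞 L) L (u : 𝓞 L)) =
      ∏ i ∈ Finset.range d, (σ ^ i) (algebraMap (𝓞 L) L (u : 𝓞 L)) := by
    symm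
    refine Finset.prod_bij (fun i _ => σ ^ i) (fun i _ => Finset.mem_univ _) ?_ ?_ fun i _ => rfl
    · intro i hi j hj hij
      rw [Finset.mem_range, ← hord] at hi hj
      exact pow_injOn_Iio_orderOf hi hj hij
    · intro g _
      have h2 := hσ g
      rw [mem_zpowers_iff_mem_range_orderOf, Finset.mem_image] at h2
      obtain ⟨i, hi, hg⟩ := h2
      rw [hord] at hi
      exact ⟨i, hi, hg⟩
  rw [h1]
  have h2 : ∀ i : ℕ, (((((ua F L σ) ^ i) u : (𝓞 L)ˣ) : 𝓞 L) : L) =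
      (σ ^ i) (algebraMap (𝓞 L) L (u : 𝓞 L)) := by
    intro i
    rw [← map_pow, ua_apply]
    rfl
  rw [Finset.prod_congr rfl fun i _ => (h2 i).symm]
  have h3 : (((nm (ua F L σ) d u : (𝓞 L)ˣ) : 𝓞 L) : L) = 1 := by
    rw [hu]
    simp
  rw [← h3]
  change _ = (((∏ i ∈ Finset.range d, ((ua F L σ) ^ i) u : (𝓞 L)ˣ) : 𝓞 L) : L)
  rw [Units.coe_prod]
  exact (map_prod (algebraMap (𝓞 L) L) _ _).symm

end

theorem amb (F L : Type) [Field F] [NumberField F] [Field L] [NumberField L] [Algebra F L]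
    [IsGalois F L] (σ : Gal(L/F)) (hσ : ∀ τ, τ ∈ Subgroup.zpowers σ)
    (d : ℕ) (hd : d = Nat.card Gal(L/F)) (v : Ideal (𝓞 F)) (hv : v.IsPrime) (hv0 : v ≠ ⊥)
    (hunr : ∀ w : Ideal (𝓞 L), w.IsPrime → w ≠ ⊥ → w.under (𝓞 F) ≠ v →
      Ideal.inertia Gal(L/F) w = ⊥)
    (e : ℕ) (he : ∀ w : Ideal (𝓞 L), w.IsPrime → w.under (𝓞 F) = v →
      Nat.card (Ideal.inertia Gal(L/F) w) = e)
    (hfin : (dv (ua F L σ)).range.relIndex (nm (ua F L σ) d).ker ≠ 0) :
    (dv (ua F L σ)).range.relIndex (nm (ua F L σ) d).ker ≤ classNumber F * e := by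
  classical
  have hvm : v.IsMaximal := max_of hv0
  have hcyc : IsCyclic Gal(L/F) := ⟨σ, hσ⟩
  -- a prime above `v`
  obtain ⟨w0, hw0⟩ : (v.primesOver (𝓞 L)).Nonempty := by
    have := (inferInstance : Nonempty (v.primesOver (𝓞 L)))
    exact Set.nonempty_coe_sort.1 this
  have he0 : 0 < e := by
    have h1 := hw0.1
    have h2 := hw0.2
    rw [← he w0 h1 h2.over.symm]
    exact Nat.card_pos
  have hW : v.map (algebraMap (𝓞 F) (𝓞 L)) = pab L v ^ e :=
    pab_pow v hv0 fun P hP => he P hP.1 hP.2.over.symm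
  -- the data of a unit of norm one
  have key : ∀ u : (nm (ua F L σ) d).ker, ∃ (x : 𝓞 L) (J : Ideal (𝓞 F)) (k : ℕ), x ≠ 0 ∧ J ≠ ⊥ ∧
      k < e ∧ (u : (𝓞 L)ˣ) * (σ • x) = x ∧
      Ideal.span {x} = J.map (algebraMap (𝓞 F) (𝓞 L)) * pab L v ^ k := by
    intro u
    obtain ⟨x, hx0, hx⟩ := groupCohomology.exists_mul_galRestrict_of_norm_eq_one
      (A := 𝓞 F) (B := 𝓞 L) (K := F) (L := L) hσ (norm_one hσ hd u.2)
    have hx' : ((u : (𝓞 L)ˣ) : 𝓞 L) * (σ • x) = x := by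
      have h1 : galRestrict (𝓞 F) F L (𝓞 L) σ x = σ • x := by
        apply IsIntegralClosure.algebraMap_injective (𝓞 L) (𝓞 F) L
        rw [algebraMap_galRestrict_apply]
        rfl
      rw [← h1]
      exact hx
    have hI0 : Ideal.span {x} ≠ (⊥ : Ideal (𝓞 L)) := by
      rwa [Ne, Ideal.span_singleton_eq_bot]
    have hσx : σ • Ideal.span {x} = (Ideal.span {x} : Ideal (𝓞 L)) := by
      rw [Ideal.pointwise_smul_def, Ideal.map_span, Set.image_singleton]
      change Ideal.span {σ • x} = _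
      rw [Ideal.span_singleton_eq_span_singleton]
      exact ⟨(u : (𝓞 L)ˣ), by rw [mul_comm]; exact hx'⟩
    have hst : ∀ g : Gal(L/F), g • Ideal.span {x} = (Ideal.span {x} : Ideal (𝓞 L)) := by
      have h1 : σ ∈ MulAction.stabilizer Gal(L/F) (Ideal.span {x} : Ideal (𝓞 L)) := hσx
      intro g
      have h2 : Subgroup.zpowers σ ≤ MulAction.stabilizer Gal(L/F) (Ideal.span {x} : Ideal (𝓞 L)) :=
        (Subgroup.zpowers_le).2 h1
      exact h2 (hσ g)
    obtain ⟨J, k, hJ, hk⟩ := stable_ideal v hunr _ hI0 hst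
    refine ⟨x, v ^ (k / e) * J, k % e, hx0, mul_ne_zero (pow_ne_zero _ hv0) hJ,
      Nat.mod_lt _ he0, hx', ?_⟩
    rw [hk, Ideal.map_mul, Ideal.map_pow, hW, ← pow_mul]
    have h1 : pab L v ^ k = pab L v ^ (e * (k / e)) * pab L v ^ (k % e) := by
      rw [← pow_add, Nat.div_add_mod]
    rw [h1]
    ring
  choose x J k hx0 hJ hk hx hI using key
  let f : (nm (ua F L σ) d).ker → ClassGroup (𝓞 F) × Fin e := fun u =>
    (ClassGroup.mk0 ⟨J u, mem_nonZeroDivisors_of_ne_zero (hJ u)⟩, ⟨k u, hk u⟩)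
  have hf : ∀ a b, f a = f b → (a : (𝓞 L)ˣ) / b ∈ (dv (ua F L σ)).range := by
    intro a b hab
    have h1 := congrArg Prod.fst hab
    have h2 : k a = k b := congrArg (fun z => (z.2 : ℕ)) hab
    change ClassGroup.mk0 _ = ClassGroup.mk0 _ at h1
    rw [ClassGroup.mk0_eq_mk0_iff] at h1
    obtain ⟨r, t, hr, ht, hrt⟩ := h1
    change Ideal.span {r} * J a = Ideal.span {t} * J b at hrt
    have h3 : Ideal.span {algebraMap (𝓞 F) (𝓞 L) r * x a} =
        Ideal.span {algebraMap (𝓞 F) (𝓞 L) t * x b} := by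
      rw [← Ideal.span_singleton_mul_span_singleton, ← Ideal.span_singleton_mul_span_singleton,
        hI a, hI b, h2]
      have h4 : ∀ z : 𝓞 F, Ideal.span {algebraMap (𝓞 F) (𝓞 L) z} =
          (Ideal.span {z}).map (algebraMap (𝓞 F) (𝓞 L)) := by
        intro z
        rw [Ideal.map_span, Set.image_singleton]
      rw [h4, h4, ← mul_assoc, ← mul_assoc, ← Ideal.map_mul, ← Ideal.map_mul, hrt]
    rw [Ideal.span_singleton_eq_span_singleton] at h3
    obtain ⟨η, hη⟩ := h3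
    have hs : ∀ z : 𝓞 F, σ • algebraMap (𝓞 F) (𝓞 L) z = algebraMap (𝓞 F) (𝓞 L) z :=
      fun z => smul_algebraMap σ z
    have h5 := congrArg (fun z => σ • z) hη
    simp only [smul_mul', hs] at h5
    -- h5 : r * σ x_a * σ η = t * σ x_b
    have ht0 : algebraMap (𝓞 F) (𝓞 L) t ≠ 0 := by
      rw [Ne, FaithfulSMul.algebraMap_eq_zero_iff]
      exact ht
    have hr0 : algebraMap (𝓞 F) (𝓞 L) r ≠ 0 := by
      rw [Ne, FaithfulSMul.algebraMap_eq_zero_iff]
      exact hr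
    have hsa : σ • x a ≠ 0 := by
      intro h
      exact hx0 a (by rw [← hx a, h, mul_zero])
    have e1 := hx a
    have e2 := hx b
    -- a * σ η' ...
    have h6 : (a : (𝓞 L)ˣ) * (η : 𝓞 L) = ((b : (𝓞 L)ˣ) : 𝓞 L) * (σ • (η : 𝓞 L)) := by
      have h7 : (algebraMap (𝓞 F) (𝓞 L) r * (σ • x a)) * ((a : (𝓞 L)ˣ) * (η : 𝓞 L)) =
          (algebraMap (𝓞 F) (𝓞 L) r * (σ • x a)) *
            (((b : (𝓞 L)ˣ) : 𝓞 L) * (σ • (η : 𝓞 L))) := by
        calc (algebraMap (𝓞 F) (𝓞 L) r * (σ • x a)) * ((a : (𝓞 L)ˣ) * (η : 𝓞 L))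
            = algebraMap (𝓞 F) (𝓞 L) r * (((a : (𝓞 L)ˣ) : 𝓞 L) * (σ • x a)) * η := by ring
          _ = algebraMap (𝓞 F) (𝓞 L) r * x a * η := by rw [e1]
          _ = algebraMap (𝓞 F) (𝓞 L) t * x b := hη
          _ = algebraMap (𝓞 F) (𝓞 L) t * (((b : (𝓞 L)ˣ) : 𝓞 L) * (σ • x b)) := by rw [e2]
          _ = (algebraMap (𝓞 F) (𝓞 L) t * (σ • x b)) * ((b : (𝓞 L)ˣ) : 𝓞 L) := by ring
          _ = (algebraMap (𝓞 F) (𝓞 L) r * (σ • x a) * (σ • (η : 𝓞 L))) *
              ((b : (𝓞 L)ˣ) : 𝓞 L) := by rw [h5]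
          _ = _ := by ring
      exact mul_left_cancel₀ (mul_ne_zero hr0 hsa) h7
    have h8 : (a : (𝓞 L)ˣ) * η = (b : (𝓞 L)ˣ) * ua F L σ η := by
      ext1
      exact h6
    refine ⟨η, ?_⟩
    change ua F L σ η / η = _
    rw [div_eq_div_iff_mul_eq_mul, mul_comm, ← h8, mul_comm]
  let Q := (nm (ua F L σ) d).ker ⧸ ((dv (ua F L σ)).range.subgroupOf (nm (ua F L σ) d).ker)
  have hinj : Function.Injective fun q : Q => f q.out := by
    intro q q' hqq
    have h1 := hf _ _ hqq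
    have h2 : q.out⁻¹ * q'.out ∈ (dv (ua F L σ)).range.subgroupOf (nm (ua F L σ) d).ker := by
      rw [Subgroup.mem_subgroupOf]
      have h3 := Subgroup.inv_mem _ h1
      rw [inv_div] at h3
      rw [Subgroup.coe_mul, Subgroup.coe_inv, inv_mul_eq_div]
      exact h3
    rw [← QuotientGroup.eq, QuotientGroup.out_eq', QuotientGroup.out_eq'] at h2
    exact h2
  have h1 : (dv (ua F L σ)).range.relIndex (nm (ua F L σ) d).ker = Nat.card Q := rfl
  rw [h1]
  refine (Nat.card_le_card_of_injective _ hinj).trans (le_of_eq ?_)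
  rw [Nat.card_prod, Nat.card_eq_fintype_card, Nat.card_eq_fintype_card, Fintype.card_fin]
  rfl

end Pool.Agent.AAP
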