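import Pool.Agent.AAP.DefsD

/-!
# AAP-BIdx (1.0h): the Herbrand quotient of `ℤ[C_d]^J / ℤ`

`B` is generated by `s ^ i (η j)`, `i < d`, `j ∈ J`, and the only relations are the constant ones:
`B ≅ ℤ[C]^J / ℤ (N, ..., N)`, `C` cyclic of order `d`, `N` the norm element.
`B` is stable under `s`, so under `dv s`, `nm s d`.
(1) `ker (dv s) ⊓ B = B.map (nm s d)`: let `x = ∏ (s^i η_j)^{a(i,j)}` with `s x = x`: the exponents
`a(i-1,j) - a(i,j)` are constant `= c`; sum over `i` gives `d c = 0`; so `a(i,j) = a_j`,
`x = ∏_j nm(η_j)^{a_j} = nm(∏ η_j^{a_j})`.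
(2) `[ker (nm s d) ⊓ B : B.map (dv s)] = d`: `x = ∏ (s^i η_j)^{a(i,j)}`, `A_j = ∑_i a(i,j)`;
`nm x = ∏_j nm(η_j)^{A_j}` is `1` iff all `A_j` are equal `= A` (relation with exponents `A_j`).
Map `x ↦ A mod d` (well defined: `a` is unique up to constants, which change `A` by multiples of
`d`) from `ker nm ⊓ B` to `ℤ/d`: surjective (`∏_j η_j^A`), kernel `B.map (dv s)`: if
`A = d k`, subtract `k`: then all `A_j = 0` and `x` is a product of `(s^i η_j/η_j)^{a(i,j)}`, in
the image of `dv s` (`s^i - 1` is a multiple of `s - 1`); conversely `dv` has `A_j = 0`.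
-/

namespace Pool.Agent.AAP

private def bE {A ι : Type*} [CommGroup A] [Fintype ι] (v : ι → A) :
    Multiplicative (ι → ℤ) →* A where
  toFun a := ∏ i, v i ^ (Multiplicative.toAdd a) i
  map_one' := by simp
  map_mul' a b := by simp [zpow_add, Finset.prod_mul_distrib]

private theorem bE_apply {A ι : Type*} [CommGroup A] [Fintype ι] (v : ι → A) (a : ι → ℤ) :
    bE v (Multiplicative.ofAdd a) = ∏ i, v i ^ a i := rfl

private theorem bE_range {A ι : Type*} [CommGroup A] [Fintype ι] (v : ι → A) :
    (bE v).range = Subgroup.closure (Set.range v) := by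
  classical
  apply le_antisymm
  · rintro _ ⟨a, rfl⟩
    exact Subgroup.prod_mem _ fun i _ => Subgroup.zpow_mem _ (Subgroup.subset_closure (Set.mem_range_self i)) _
  · rw [Subgroup.closure_le]
    rintro _ ⟨i, rfl⟩
    refine ⟨Multiplicative.ofAdd (Pi.single i 1), ?_⟩
    rw [bE_apply, Finset.prod_eq_single i]
    · rw [Pi.single_eq_same, zpow_one]
    · intro j _ hj
      rw [Pi.single_eq_of_ne hj, zpow_zero]
    · intro h
      exact absurd (Finset.mem_univ i) h

private def bv {A J : Type*} [CommGroup A] (d : ℕ) (s : MulAut A) (η : J → A)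
    (i : Fin d × J) : A := (s ^ (i.1 : ℕ)) (η i.2)

private theorem bOf {d : ℕ} [NeZero d] (k : Fin d) : Fin.ofNat d (k : ℕ) = k := by
  apply Fin.ext
  rw [Fin.val_ofNat, Nat.mod_eq_of_lt k.2]

section

variable {A J : Type*} [CommGroup A] [Fintype J] {d : ℕ} [NeZero d] (s : MulAut A)
  (hs : s ^ d = 1) (η : J → A)

omit [Fintype J] in
include hs in
private theorem bv_s (m : ℕ) (i : Fin d) (j : J) :
    (s ^ m) (bv d s η (i, j)) = bv d s η (i + Fin.ofNat d m, j) := by
  unfold bv
  have h1 : ((i + Fin.ofNat d m : Fin d) : ℕ) = (m + i) % d := by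
    rw [Fin.val_add, Fin.val_ofNat, Nat.add_mod_mod, add_comm]
  simp only
  rw [h1, ← pow_eq_pow_mod _ hs, pow_add, MulAut.mul_apply]

include hs in
private theorem bE_pow (m : ℕ) (a : Fin d × J → ℤ) :
    (s ^ m) (bE (bv d s η) (Multiplicative.ofAdd a)) =
      bE (bv d s η) (Multiplicative.ofAdd fun i => a (i.1 - Fin.ofNat d m, i.2)) := by
  rw [bE_apply, bE_apply, map_prod]
  refine Fintype.prod_equiv ((Equiv.addRight (Fin.ofNat d m)).prodCongr (Equiv.refl J)) _ _ fun i => ?_
  obtain ⟨i, j⟩ := i
  rw [map_zpow, bv_s s hs]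
  simp only [Equiv.prodCongr_apply, Prod.map_apply, Equiv.coe_addRight, Equiv.refl_apply,
    add_sub_cancel_right]

include hs in
private theorem bE_dv (a : Fin d × J → ℤ) :
    dv s (bE (bv d s η) (Multiplicative.ofAdd a)) =
      bE (bv d s η) (Multiplicative.ofAdd fun i => a (i.1 - 1, i.2) - a i) := by
  have h1 := bE_pow s hs η 1 a
  rw [pow_one] at h1
  change s _ / _ = _
  rw [h1, ← map_div]
  rfl

include hs in
private theorem bE_nm (a : Fin d × J → ℤ) :
    nm s d (bE (bv d s η) (Multiplicative.ofAdd a)) =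
      bE (bv d s η) (Multiplicative.ofAdd fun i => ∑ k : Fin d, a (k, i.2)) := by
  change ∏ m ∈ Finset.range d, (s ^ m) _ = _
  rw [Finset.prod_congr rfl fun m _ => bE_pow s hs η m a, ← map_prod, ← ofAdd_sum]
  congr 2
  funext i
  rw [Finset.sum_apply, Finset.sum_range]
  simp only [bOf]
  exact Equiv.sum_comp (Equiv.subLeft i.1) fun k => a (k, i.2)

end

theorem bidx {A : Type*} [CommGroup A] (d : ℕ) (hd : 0 < d) (s : MulAut A) (hs : s ^ d = 1)
    {J : Type*} [Fintype J] [Nonempty J] (η : J → A)
    (hrel : ∀ a : Fin d × J → ℤ, ∏ i, ((s ^ (i.1 : ℕ)) (η i.2)) ^ a i = 1 → ∃ c : ℤ, ∀ i, a i = c)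
    (hrel' : ∏ i : Fin d × J, ((s ^ (i.1 : ℕ)) (η i.2)) = 1)
    (B : Subgroup A)
    (hB : B = Subgroup.closure (Set.range fun i : Fin d × J => (s ^ (i.1 : ℕ)) (η i.2))) :
    B.map (dv s) ≤ B ∧ B.map (nm s d) ≤ B ∧
      (B.map (nm s d)).relIndex ((dv s).ker ⊓ B) = 1 ∧
      (B.map (dv s)).relIndex ((nm s d).ker ⊓ B) = d := by
  have hne : NeZero d := ⟨hd.ne'⟩
  classical
  have hv : (fun i : Fin d × J => (s ^ (i.1 : ℕ)) (η i.2)) = bv d s η := rfl
  have hBr : B = (bE (bv d s η)).range := by
    rw [bE_range, hB]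
    rfl
  have hrel1 : ∀ a : Fin d × J → ℤ, bE (bv d s η) (Multiplicative.ofAdd a) = 1 →
      ∃ c : ℤ, ∀ i, a i = c := hrel
  have hconst : ∀ c : ℤ, bE (bv d s η) (Multiplicative.ofAdd fun _ => c) = 1 := by
    intro c
    rw [bE_apply, Finset.prod_zpow]
    have h1 : ∏ i, bv d s η i = 1 := hrel'
    rw [h1, one_zpow]
  have hmul : ∀ a b : Fin d × J → ℤ, bE (bv d s η) (Multiplicative.ofAdd a) =
      bE (bv d s η) (Multiplicative.ofAdd b) → ∃ c : ℤ, ∀ i, a i - b i = c := by
    intro a b h
    apply hrel1 (fun i => a i - b i)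
    have h1 : bE (bv d s η) (Multiplicative.ofAdd fun i => a i - b i) =
        bE (bv d s η) (Multiplicative.ofAdd a) / bE (bv d s η) (Multiplicative.ofAdd b) := by
      rw [← map_div]
      rfl
    rw [h1, h, div_self']
  have hsum : ∀ (b : Fin d × J → ℤ) (j : J), ∑ k : Fin d, (b (k - 1, j) - b (k, j)) = 0 := by
    intro b j
    rw [Finset.sum_sub_distrib, sub_eq_zero]
    exact Equiv.sum_comp (Equiv.subRight (1 : Fin d)) fun k => b (k, j)
  have hdz : (d : ℤ) ≠ 0 := by exact_mod_cast hd.ne'
  refine ⟨?_, ?_, ?_, ?_⟩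
  · rw [hBr]
    rintro _ ⟨_, ⟨a, rfl⟩, rfl⟩
    exact ⟨_, (bE_dv s hs η (Multiplicative.toAdd a)).symm⟩
  · rw [hBr]
    rintro _ ⟨_, ⟨a, rfl⟩, rfl⟩
    exact ⟨_, (bE_nm s hs η (Multiplicative.toAdd a)).symm⟩
  · rw [Subgroup.relIndex_eq_one, hBr]
    rintro _ ⟨h1, ⟨a, rfl⟩⟩
    obtain ⟨a, rfl⟩ := Multiplicative.ofAdd.surjective a
    have h1' : dv s (bE (bv d s η) (Multiplicative.ofAdd a)) = 1 := h1
    rw [bE_dv s hs] at h1'
    obtain ⟨c, hc⟩ := hrel1 _ h1'
    have hc0 : c = 0 := by
      obtain ⟨j⟩ := (inferInstance : Nonempty J)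
      have h2 := hsum a j
      rw [Finset.sum_congr rfl fun k _ => hc (k, j), Finset.sum_const, Finset.card_univ,
        Fintype.card_fin, nsmul_eq_mul] at h2
      exact (mul_eq_zero.1 h2).resolve_left hdz
    have h3 : ∀ (k : Fin d) (j : J), a (k, j) = a (0, j) := by
      have h4 : ∀ (m : ℕ) (j : J), a (Fin.ofNat d m, j) = a (0, j) := by
        intro m j
        induction m with
        | zero => rfl
        | succ m ih =>
          have h5 := hc (Fin.ofNat d (m + 1), j)
          have h6 : Fin.ofNat d (m + 1) - 1 = Fin.ofNat d m := by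
            rw [sub_eq_iff_eq_add]
            apply Fin.ext
            rw [Fin.val_add, Fin.val_ofNat, Fin.val_ofNat]
            have h7 : ((1 : Fin d) : ℕ) = 1 % d := rfl
            rw [h7, ← Nat.add_mod]
          simp only at h5
          rw [h6, hc0, ih, sub_eq_zero] at h5
          exact h5.symm
      intro k j
      rw [← bOf k]
      exact h4 _ j
    refine ⟨bE (bv d s η) (Multiplicative.ofAdd fun i => if i.1 = 0 then a (0, i.2) else 0),
      ⟨_, rfl⟩, ?_⟩
    rw [bE_nm s hs]
    congr 2
    funext i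
    rw [h3 i.1 i.2]
    simp
  · -- the second index
    obtain ⟨j0⟩ := (inferInstance : Nonempty J)
    let Φ : Multiplicative (Fin d × J → ℤ) →* Multiplicative (ZMod d) :=
      { toFun := fun a => Multiplicative.ofAdd
          ((∑ k : Fin d, (Multiplicative.toAdd a) (k, j0) : ℤ) : ZMod d)
        map_one' := by simp
        map_mul' := fun a b => by simp [Finset.sum_add_distrib] }
    have hΦ : ∀ a : Fin d × J → ℤ, Φ (Multiplicative.ofAdd a) = 1 ↔
        (d : ℤ) ∣ ∑ k : Fin d, a (k, j0) := by
      intro a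
      rw [← ZMod.intCast_zmod_eq_zero_iff_dvd]
      exact Iff.rfl
    let K' : Subgroup (Multiplicative (Fin d × J → ℤ)) :=
      (nm s d).ker.comap (bE (bv d s η))
    have hK' : ∀ a : Fin d × J → ℤ, Multiplicative.ofAdd a ∈ K' ↔
        ∀ j, ∑ k : Fin d, a (k, j) = ∑ k : Fin d, a (k, j0) := by
      intro a
      have h1 : Multiplicative.ofAdd a ∈ K' ↔
          nm s d (bE (bv d s η) (Multiplicative.ofAdd a)) = 1 := Iff.rfl
      rw [h1, bE_nm s hs]
      constructor
      · intro h j
        obtain ⟨c, hc⟩ := hrel1 _ h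
        have h2 := hc (0, j)
        have h3 := hc (0, j0)
        simp only at h2 h3
        rw [h2, h3]
      · intro h
        have h2 : (fun i : Fin d × J => ∑ k : Fin d, a (k, i.2)) =
            fun _ => ∑ k : Fin d, a (k, j0) := by
          funext i
          exact h i.2
        rw [h2]
        exact hconst _
    have hmap : K'.map (bE (bv d s η)) = (nm s d).ker ⊓ B := by
      rw [hBr]
      show (Subgroup.comap (bE (bv d s η)) (nm s d).ker).map (bE (bv d s η)) = _
      rw [Subgroup.map_comap_eq, inf_comm]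
    have hker : (B.map (dv s)).comap (bE (bv d s η)) ⊓ K' = Φ.ker ⊓ K' := by
      ext a
      obtain ⟨a, rfl⟩ := Multiplicative.ofAdd.surjective a
      rw [Subgroup.mem_inf, Subgroup.mem_inf]
      refine and_congr_left fun hak => ?_
      rw [hK'] at hak
      have h1 : Multiplicative.ofAdd a ∈ Φ.ker ↔ Φ (Multiplicative.ofAdd a) = 1 := Iff.rfl
      rw [h1, hΦ, Subgroup.mem_comap]
      constructor
      · rintro ⟨x, hx, hxa⟩
        rw [hBr] at hx
        obtain ⟨b, rfl⟩ := hx
        obtain ⟨b, rfl⟩ := Multiplicative.ofAdd.surjective b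
        rw [bE_dv s hs] at hxa
        obtain ⟨c, hc⟩ := hmul _ _ hxa
        have h2 := hsum b j0
        have h3 : ∑ k : Fin d, a (k, j0) =
            ∑ k : Fin d, (b (k - 1, j0) - b (k, j0)) - d * c := by
          have h4 : ∀ k : Fin d, a (k, j0) = (b (k - 1, j0) - b (k, j0)) - c := by
            intro k
            have := hc (k, j0)
            simp only at this
            omega
          rw [Finset.sum_congr rfl fun k _ => h4 k, Finset.sum_sub_distrib, Finset.sum_const,
            Finset.card_univ, Fintype.card_fin, nsmul_eq_mul]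
        rw [h3, h2, zero_sub, dvd_neg]
        exact dvd_mul_right _ _
      · rintro ⟨c, hc⟩
        have hz : ∀ j, ∑ k : Fin d, (a (k, j) - c) = 0 := by
          intro j
          rw [Finset.sum_sub_distrib, hak j, hc, Finset.sum_const, Finset.card_univ,
            Fintype.card_fin, nsmul_eq_mul, sub_self]
        refine ⟨bE (bv d s η) (Multiplicative.ofAdd fun i =>
          -∑ k ∈ Finset.univ.filter (fun k : Fin d => k ≤ i.1), (a (k, i.2) - c)),
          by rw [hBr]; exact ⟨_, rfl⟩, ?_⟩
        rw [bE_dv s hs]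
        have h5 : (fun i : Fin d × J =>
            -∑ k ∈ Finset.univ.filter (fun k : Fin d => k ≤ i.1 - 1), (a (k, i.2) - c) -
            -∑ k ∈ Finset.univ.filter (fun k : Fin d => k ≤ i.1), (a (k, i.2) - c)) =
            fun i => a i - c := by
          funext i
          obtain ⟨i, j⟩ := i
          simp only
          by_cases hi : i = 0
          · subst hi
            have h6 : (Finset.univ.filter (fun k : Fin d => k ≤ 0 - 1)) = Finset.univ := by
              ext k
              simp only [Finset.mem_filter, Finset.mem_univ, true_and, iff_true]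
              rw [Fin.le_def]
              have hk := k.2
              have h7 : ((0 - 1 : Fin d) : ℕ) = d - 1 := by
                rcases Nat.lt_or_ge 1 d with h1 | h1
                · have h9 : ((1 : Fin d) : ℕ) = 1 := Nat.mod_eq_of_lt h1
                  have h10 : ((0 : Fin d) : ℕ) = 0 := rfl
                  rw [Fin.val_sub, h9, h10, add_zero, Nat.mod_eq_of_lt (by omega)]
                · have hd1 : d = 1 := by omega
                  have := (0 - 1 : Fin d).2
                  omega
              omega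
            have h8 : (Finset.univ.filter (fun k : Fin d => k ≤ 0)) = {0} := by
              ext k
              simp only [Finset.mem_filter, Finset.mem_univ, true_and, Finset.mem_singleton]
              exact ⟨fun h => le_antisymm h (Nat.zero_le _), fun h => h.le⟩
            rw [h6, h8, hz j, Finset.sum_singleton]
            ring
          · have hi' : 0 < (i : ℕ) := by
              rcases Nat.eq_zero_or_pos (i : ℕ) with h | h
              · exact absurd (Fin.ext (by simpa using h)) hi
              · exact h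
            have h7 : ((i - 1 : Fin d) : ℕ) = (i : ℕ) - 1 := by
              have hi2 := i.2
              have h9 : ((1 : Fin d) : ℕ) = 1 := Nat.mod_eq_of_lt (by omega : 1 < d)
              rw [Fin.val_sub, h9]
              have : d - 1 + (i : ℕ) = ((i : ℕ) - 1) + d := by omega
              rw [this, Nat.add_mod_right, Nat.mod_eq_of_lt (by omega)]
            have h8 : (Finset.univ.filter (fun k : Fin d => k ≤ i)) =
                insert i (Finset.univ.filter (fun k : Fin d => k ≤ i - 1)) := by
              ext k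
              simp only [Finset.mem_filter, Finset.mem_univ, true_and, Finset.mem_insert]
              rw [Fin.le_def, Fin.le_def, h7, Fin.ext_iff]
              omega
            have h9 : i ∉ Finset.univ.filter (fun k : Fin d => k ≤ i - 1) := by
              simp only [Finset.mem_filter, Finset.mem_univ, true_and]
              rw [Fin.le_def, h7]
              omega
            rw [h8, Finset.sum_insert h9]
            ring
        rw [h5]
        have h10 : bE (bv d s η) (Multiplicative.ofAdd fun i => a i - c) =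
            bE (bv d s η) (Multiplicative.ofAdd a) /
              bE (bv d s η) (Multiplicative.ofAdd fun _ => c) := by
          rw [← map_div]
          rfl
        rw [h10, hconst, div_one]
    have hsurj : K'.map Φ = ⊤ := by
      rw [eq_top_iff]
      intro y _
      obtain ⟨y, rfl⟩ := Multiplicative.ofAdd.surjective y
      obtain ⟨α, rfl⟩ := ZMod.intCast_surjective y
      refine ⟨Multiplicative.ofAdd fun i => if i.1 = 0 then α else 0, ?_, ?_⟩
      · have := (hK' (fun i => if i.1 = 0 then α else 0)).2 (fun j => rfl)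
        exact this
      · show Multiplicative.ofAdd (((∑ k : Fin d, if k = 0 then α else 0 : ℤ)) : ZMod d) = _
        rw [Finset.sum_ite_eq', if_pos (Finset.mem_univ _)]
    rw [← hmap, ← Subgroup.relIndex_comap, ← Subgroup.inf_relIndex_right, hker,
      Subgroup.inf_relIndex_right, Subgroup.relIndex_ker, hsurj, Subgroup.card_top,
      Nat.card_congr Multiplicative.toAdd, Nat.card_zmod]

end Pool.Agent.AAP
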