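import Pool.Agent.AAP.RedE

/-!
# AAP3-BcCore (0.5h): the core theorem for `1 ≤ n ≤ p - 1`

The same as `redCoreS` of `RedE.lean` (hypothesis `n + 1 < p`), which you can use if `n + 1 < p`; copy its
proof. The hypothesis `n + 1 < p` is used there for `2 < p`, and in the last but one part (on distinct
characters): if `n = p - 1`, choose instead `a` of `hχ`, a `u` with `u ≡ a mod N`, `u ≡ 1 mod p`
(`exists_unit`), `σ` with `gq σ = u`, so `A σ = a`, `B σ = 1`, `χ₁ σ = β a`, `χ₂ σ = α a`.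
-/

open NumberField Pointwise Matrix

namespace Pool.Agent.AAP

open Pool.Agent.Helper60.FM

theorem redCoreT (n N p c : ℕ) [NeZero N] [NeZero (N * p)] [Fact p.Prime] (hn : 1 ≤ n)
    (hnp : n < p) (hp2 : 2 < p) (hpN : ¬ p ∣ N) (hc1 : 1 < c) (hc2 : c < N * p)
    (hcN : c.Coprime N) (hpc : ¬ p ∣ c)
    {E : Type} [NormedField E] [IsUltrametricDist E] [CompleteSpace E] [NormedAlgebra ℚ_[p] E]
    (V : GQ →* GL (Fin 2) E) (hV : Continuous V) (heven : IsEven V) (S : Set ℕ)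
    (hunr : ∀ ℓ : ℕ, ℓ.Prime → ℓ ∉ S → UnramAt V ℓ)
    (α β : (ZMod N)ˣ →* Eˣ) (hχ : n = p - 1 → ∃ a, 1 ≤ ‖(β a : E) - α a‖)
    (k : ℕ) (hred : ∀ (g : GQ) (a : (ZMod N)ˣ) (b : ℕ),
      ActsAs N g (a : ZMod N).val → ActsAs p g b →
        ‖tr V g - (b : E) ^ k * (α a + β a * (b : E) ^ n)‖ < 1)
    (hloc : ∀ (K : Type) [Field K] [NumberField K] [IsCyclotomicExtension {N * p} ℚ K]
      (P : Ideal (𝓞 K)), P.IsPrime → (∃ ℓ ∈ S, (ℓ : 𝓞 K) ∈ P) →
      ∃ σ : Gal(K/ℚ), σ • P = P ∧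
        1 ≤ ‖((β / α) (ZMod.unitsMap (dvd_mul_right N p) (gq (N * p) K σ)) : E) *
          (((gq (N * p) K σ : (ZMod (N * p))ˣ) : ZMod (N * p)).val : E) ^ (n - 1) - 1‖)
    (huu : ‖(uu N p c n (β / α) : E)‖ = 1) : HasLine V := by
  by_cases hlt : n + 1 < p
  · exact redCoreS n N p c hn hlt hpN hc1 hc2 hcN hpc V hV heven S hunr α β k hred hloc
      (fun _ => huu)
  obtain ⟨a, ha⟩ := hχ (by omega)
  classical
  obtain ⟨K, _, _, hK, _⟩ := exists_cyc (N * p)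
  have : IsAbelianGalois ℚ K := IsCyclotomicExtension.isAbelianGalois {N * p} ℚ K
  have hpp : p.Prime := Fact.out
  have hNp : (N * p) ≠ 0 := NeZero.ne _
  have hN0 : N ≠ 0 := NeZero.ne _
  let j : K →+* Qb := (IsAlgClosed.lift : K →ₐ[ℚ] Qb).toRingHom
  obtain ⟨t, ht⟩ := teich p E
  let A : Gal(K/ℚ) →* (ZMod N)ˣ :=
    (ZMod.unitsMap (dvd_mul_right N p)).comp (gq (N * p) K).toMonoidHom
  let B : Gal(K/ℚ) →* (ZMod p)ˣ :=
    (ZMod.unitsMap (dvd_mul_left p N)).comp (gq (N * p) K).toMonoidHom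
  have hA : ∀ σ, A σ = ZMod.unitsMap (dvd_mul_right N p) (gq (N * p) K σ) := fun _ => rfl
  have hB : ∀ σ, B σ = ZMod.unitsMap (dvd_mul_left p N) (gq (N * p) K σ) := fun _ => rfl
  let ω : Gal(K/ℚ) → ℕ := fun σ => ((B σ : (ZMod p)ˣ) : ZMod p).val
  have hωv : ∀ σ, ω σ = ((gq (N * p) K σ : (ZMod (N * p))ˣ) : ZMod (N * p)).val % p := by
    intro σ
    change ((B σ : (ZMod p)ˣ) : ZMod p).val = _
    rw [hB, val_unitsMap]
  have hζ : IsPrimitiveRoot (zt (N * p) K ^ N) p :=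
    (zt_spec (N * p) K).pow (Nat.pos_of_ne_zero hNp) rfl
  have hω : ∀ σ : Gal(K/ℚ), σ (zt (N * p) K ^ N) = (zt (N * p) K ^ N) ^ ω σ := by
    intro σ
    rw [gq_pow, hωv]
    conv_lhs => rw [← Nat.div_add_mod ((gq (N * p) K σ : (ZMod (N * p))ˣ) : ZMod (N * p)).val p,
      pow_add, pow_mul, hζ.pow_eq_one, one_pow, one_mul]
  -- norms
  have hp1 : ‖(p : E)‖ < 1 := (norm_natCast_lt_one_iff (p := p) p).2 dvd_rfl
  have h2E : ‖(2 : E)‖ = 1 := by
    have h1 := norm_natCast_eq_one (p := p) (E := E) (n := 2)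
      (fun h => by have := Nat.le_of_dvd (by norm_num) h; omega)
    exact_mod_cast h1
  have hωn : ∀ σ, ‖(ω σ : E)‖ = 1 := by
    intro σ
    apply norm_natCast_eq_one (p := p)
    intro h
    have h1 : ω σ < p := ZMod.val_lt _
    have h2 : ω σ = 0 := Nat.eq_zero_of_dvd_of_lt h h1
    have h3 : ((B σ : (ZMod p)ˣ) : ZMod p) = 0 := (ZMod.val_eq_zero _).1 h2
    exact (B σ).ne_zero h3
  have hmodp : ∀ i : ℕ, Cg (i : E) ((i % p : ℕ) : E) := by
    intro i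
    have h1 : (i : E) - ((i % p : ℕ) : E) = (p : E) * ((i / p : ℕ) : E) := by
      rw [sub_eq_iff_eq_add, ← Nat.cast_mul, ← Nat.cast_add, Nat.div_add_mod]
    rw [Cg, h1, norm_mul]
    exact mul_lt_one_of_nonneg_of_lt_one_left (norm_nonneg _) hp1 (norm_natCast_le_one _)
  have hgω : ∀ σ, Cg ((((gq (N * p) K σ : (ZMod (N * p))ˣ) : ZMod (N * p)).val : ℕ) : E) (ω σ) := by
    intro σ
    rw [hωv]
    exact hmodp _
  have htω : ∀ σ, Cg (t (B σ) : E) (ω σ) := fun σ => ht (B σ)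
  have hωone : ∀ σ, ‖(ω σ : E)‖ ≤ 1 := fun σ => (hωn σ).le
  have htn : ∀ σ, ‖(t (B σ) : E)‖ = 1 := fun σ => norm_chi t _
  have hαn : ∀ a, ‖(α a : E)‖ = 1 := fun σ => norm_chi α _
  have hβn : ∀ a, ‖(β a : E)‖ = 1 := fun σ => norm_chi β _
  let χ₁ : Gal(K/ℚ) →* Eˣ := (β.comp A) * (t.comp B) ^ (n + k)
  let χ₂ : Gal(K/ℚ) →* Eˣ := (α.comp A) * (t.comp B) ^ k
  have hχ₁ : ∀ σ, (χ₁ σ : E) = β (A σ) * (t (B σ) : E) ^ (n + k) := by
    intro σ
    change (((β.comp A) σ * ((t.comp B) ^ (n + k)) σ : Eˣ) : E) = _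
    rw [Units.val_mul, MonoidHom.pow_apply, Units.val_pow_eq_pow_val]
    rfl
  have hχ₂ : ∀ σ, (χ₂ σ : E) = α (A σ) * (t (B σ) : E) ^ k := by
    intro σ
    change (((α.comp A) σ * ((t.comp B) ^ k) σ : Eˣ) : E) = _
    rw [Units.val_mul, MonoidHom.pow_apply, Units.val_pow_eq_pow_val]
    rfl
  let χ : (ZMod N)ˣ →* Eˣ := β / α
  have hχβ : ∀ a, (χ a : E) * α a = β a := by
    intro a
    change ((β a / α a : Eˣ) : E) * α a = β a
    rw [← Units.val_mul, div_mul_cancel]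
  have hχn : ∀ a, ‖(χ a : E)‖ = 1 := fun a => norm_chi χ _
  -- residual trace
  have htr : ∀ (g : GQ) (σ : Gal(K/ℚ)), (∀ x, j (σ x) = g (j x)) →
      ‖trace (V g : Matrix (Fin 2) (Fin 2) E) - χ₁ σ - χ₂ σ‖ < 1 := by
    intro g σ hg
    have h1 := acts (N * p) K j g σ hg N (dvd_mul_right N p)
    have h2 := acts (N * p) K j g σ hg p (dvd_mul_left p N)
    have h3 := hred g (A σ) (ω σ) h1 h2
    have h4 : Cg (trace (V g : Matrix (Fin 2) (Fin 2) E)) (χ₁ σ + χ₂ σ) := by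
      refine Cg.trans (show Cg _ _ from h3) ?_
      have e1 : (ω σ : E) ^ k * (α (A σ) + β (A σ) * (ω σ : E) ^ n) =
        β (A σ) * (ω σ : E) ^ (n + k) + α (A σ) * (ω σ : E) ^ k := by ring
      rw [e1, hχ₁, hχ₂]
      refine Cg.add (Cg.mul Cg.rfl ?_ (hβn _).le ?_) (Cg.mul Cg.rfl ?_ (hαn _).le ?_)
      · exact ((htω σ).pow (hωone σ) _).symm
      · rw [norm_pow, htn, one_pow]
      · exact ((htω σ).pow (hωone σ) _).symm
      · rw [norm_pow, htn, one_pow]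
    rw [Cg, ← sub_sub] at h4
    exact h4
  -- parity
  have hpar : (χ (-1) : E) = (-1) ^ n := by
    obtain ⟨c, hc⟩ := exists_isCC
    let σ : Gal(K/ℚ) := (geqv K j).symm (res (imField K j) c)
    have hσ : ∀ x, j (σ x) = c (j x) := geqv_symm_res K j c
    have h1 := gq_conj (N * p) K j c hc σ hσ
    have hA1 : A σ = -1 := by
      rw [hA, h1]
      ext
      rw [ZMod.unitsMap_val, Units.val_neg, Units.val_one, Units.val_neg, Units.val_one,
        ZMod.cast_neg (dvd_mul_right N p), ZMod.cast_one (dvd_mul_right N p)]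
    have hB1 : B σ = -1 := by
      rw [hB, h1]
      ext
      rw [ZMod.unitsMap_val, Units.val_neg, Units.val_one, Units.val_neg, Units.val_one,
        ZMod.cast_neg (dvd_mul_left p N), ZMod.cast_one (dvd_mul_left p N)]
    have hsq : ∀ χ' : Gal(K/ℚ) →* Eˣ, (χ' σ : E) * χ' σ = 1 := by
      intro χ'
      have h2 : σ * σ = 1 := by
        apply (gq (N * p) K).injective
        rw [map_mul, h1, map_one, neg_mul_neg, one_mul]
      rw [← Units.val_mul, ← map_mul, h2, map_one, Units.val_one]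
    have h3 := chi_eq_of_det_one h2E V (χ₁ σ) (χ₂ σ) c (isCC_mul_self hc) (hsq χ₁) (hsq χ₂)
      (htr c σ hσ) (heven c hc)
    have ht1 : (t (-1) : E) = -1 := by
      have h4 : (t (-1) : E) * t (-1) = 1 := by
        rw [← Units.val_mul, ← map_mul, neg_mul_neg, one_mul, map_one, Units.val_one]
      rcases mul_self_eq_one_iff.1 h4 with h5 | h5
      · exfalso
        have h6 := ht (-1)
        rw [h5, Units.val_neg, Units.val_one] at h6
        have h7 : ((-1 : ZMod p).val : E) = (p : E) - 1 := by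
          have : (-1 : ZMod p).val = p - 1 := by
            rcases p with _ | q
            · exact absurd hpp Nat.not_prime_zero
            · exact ZMod.val_neg_one q
          rw [this, Nat.cast_sub hpp.one_le, Nat.cast_one]
        rw [h7] at h6
        have h8 : Cg (2 : E) 0 := by
          have h9 : (2 : E) = (1 - ((p : E) - 1)) + p := by ring
          rw [Cg, sub_zero, h9]
          exact norm_add_lt_one E h6 hp1
        rw [Cg, sub_zero, h2E] at h8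
        exact lt_irrefl _ h8
      · exact h5
    rw [hχ₁, hχ₂, hA1, hB1, ht1, ← hχβ, pow_add] at h3
    have h5 : (α (-1) : E) ≠ 0 := Units.ne_zero _
    have h6 : ((-1 : E)) ^ k ≠ 0 := pow_ne_zero _ (neg_ne_zero.2 one_ne_zero)
    have h7 : ((χ (-1) : E) * (-1) ^ n) * ((α (-1) : E) * (-1) ^ k) = 1 * ((α (-1) : E) * (-1) ^ k) := by
      rw [one_mul]
      refine Eq.trans ?_ h3
      ring
    have h8 := mul_right_cancel₀ (mul_ne_zero h5 h6) h7
    have h9 : ((-1 : E) ^ n) * (-1) ^ n = 1 := by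
      rw [← pow_add, ← two_mul, pow_mul, neg_one_sq, one_pow]
    calc (χ (-1) : E) = (χ (-1) : E) * ((-1 : E) ^ n * (-1) ^ n) := by rw [h9, mul_one]
      _ = ((χ (-1) : E) * (-1) ^ n) * (-1) ^ n := by ring
      _ = (-1) ^ n := by rw [h8, one_mul]
  -- the main theorem
  refine absMain p (by omega) K j (zt (N * p) K ^ N) hζ ω hω χ₁ χ₂
    S ?_ ?_ ?_ V hV htr ?_ heven
  · -- decomposition groups
    intro P hP hP0 hPℓ
    obtain ⟨σ, hσ, hσ1⟩ := hloc K P hP hPℓ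
    change 1 ≤ ‖(χ (ZMod.unitsMap (dvd_mul_right N p) (gq (N * p) K σ)) : E) *
          (((gq (N * p) K σ : (ZMod (N * p))ˣ) : ZMod (N * p)).val : E) ^ (n - 1) - 1‖ at hσ1
    refine ⟨σ, hσ, ?_⟩
    by_contra hcon
    push Not at hcon
    rw [← not_lt] at hσ1
    apply hσ1
    rw [← hA]
    have h2 : Cg ((ω σ : E) * χ₂ σ) (χ₁ σ) := hcon
    set x : E := (t (B σ) : E) with hx
    have hx0 : x ≠ 0 := Units.ne_zero _
    have hα0 : (α (A σ) : E) ≠ 0 := Units.ne_zero _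
    have h3 : Cg (x * χ₂ σ) (χ₁ σ) := by
      refine Cg.trans (Cg.mul (htω σ) Cg.rfl (hωone σ) ?_) h2
      exact (norm_chi χ₂ σ).le
    rw [hχ₁, hχ₂, ← hχβ] at h3
    -- multiply by the inverse
    have h4 : Cg ((x * (α (A σ) * x ^ k)) * (x * (α (A σ) * x ^ k))⁻¹)
        ((χ (A σ) * α (A σ) * x ^ (n + k)) * (x * (α (A σ) * x ^ k))⁻¹) := by
      refine Cg.mul h3 Cg.rfl ?_ ?_
      · rw [norm_mul, norm_mul, norm_pow, htn, hχn, hαn]
        norm_num
      · rw [norm_inv, norm_mul, norm_mul, norm_pow, htn, hαn]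
        norm_num
    rw [mul_inv_cancel₀ (mul_ne_zero hx0 (mul_ne_zero hα0 (pow_ne_zero _ hx0)))] at h4
    have h5 : (χ (A σ) * α (A σ) * x ^ (n + k)) * (x * (α (A σ) * x ^ k))⁻¹ =
        (χ (A σ) : E) * x ^ (n - 1) := by
      obtain ⟨n', rfl⟩ : ∃ n', n = n' + 1 := ⟨n - 1, by omega⟩
      rw [Nat.add_sub_cancel]
      field_simp
      ring
    rw [h5] at h4
    refine Cg.trans (?_ : Cg _ ((χ (A σ) : E) * x ^ (n - 1))) h4.symm
    refine Cg.mul Cg.rfl ?_ (hχn _).le ?_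
    · refine Cg.pow ((hgω σ).trans (htω σ).symm) (htn σ).le _
    · rw [norm_pow, htn, one_pow]
  · -- the class group
    intro 𝔞 h𝔞 h𝔞p hrel
    let ψ : Gal(K/ℚ) → E := fun σ => (ω σ : E) * (χ₂ σ * (χ₁ σ)⁻¹ : Eˣ)
    have hq : ∀ σ, ‖(((χ₂ σ * (χ₁ σ)⁻¹ : Eˣ)) : E)‖ = 1 := by
      intro σ
      rw [← map_inv, Units.val_mul, norm_mul, norm_chi, norm_chi, one_mul]
    refine cls p hp1 ψ ?_ ?_ (fun σ => fl c (N * p) (gq (N * p) K σ)⁻¹) ?_ 𝔞 h𝔞 h𝔞p ?_ hrel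
    · intro σ
      change ‖(ω σ : E) * (χ₂ σ * (χ₁ σ)⁻¹ : Eˣ)‖ = 1
      rw [norm_mul, hωn, hq, one_mul]
    · intro σ τ
      change Cg ((ω (σ * τ) : E) * (χ₂ (σ * τ) * (χ₁ (σ * τ))⁻¹ : Eˣ)) (((ω σ : E) *
        (χ₂ σ * (χ₁ σ)⁻¹ : Eˣ)) * ((ω τ : E) * (χ₂ τ * (χ₁ τ)⁻¹ : Eˣ)))
      have h1 : ((χ₂ (σ * τ) * (χ₁ (σ * τ))⁻¹ : Eˣ) : E) =
          ((χ₂ σ * (χ₁ σ)⁻¹ : Eˣ) : E) * ((χ₂ τ * (χ₁ τ)⁻¹ : Eˣ) : E) := by
        rw [← Units.val_mul, map_mul, map_mul, mul_inv]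
        congr 1
        exact mul_mul_mul_comm _ _ _ _
      have h2 : Cg (ω (σ * τ) : E) ((ω σ : E) * ω τ) := by
        refine (htω _).symm.trans ?_
        rw [map_mul, map_mul, Units.val_mul]
        exact Cg.mul (htω σ) (htω τ) (hωone σ) (hωone τ)
      rw [h1, mul_mul_mul_comm]
      refine Cg.mul h2 Cg.rfl ?_ ?_
      · rw [norm_mul, hωn, hωn, one_mul]
      · rw [norm_mul, hq, hq, one_mul]
    · have h1 : Cg (∑ σ, ((fl c (N * p) (gq (N * p) K σ)⁻¹ : ℕ) : E) * ψ σ)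
          (uu N p c n χ) := by
        rw [uu, ← Equiv.sum_comp ((gq (N * p) K).toEquiv.trans (Equiv.inv _))]
        refine Cg.sum _ _ _ fun σ _ => ?_
        change Cg (((fl c (N * p) (gq (N * p) K σ)⁻¹ : ℕ) : E) * ψ σ)
          ((fl c (N * p) (gq (N * p) K σ)⁻¹ : E) *
            χ (ZMod.unitsMap (dvd_mul_right N p) (gq (N * p) K σ)⁻¹) *
            ((((gq (N * p) K σ)⁻¹ : (ZMod (N * p))ˣ) : ZMod (N * p)).val : E) ^ (n - 1))
        rw [mul_assoc, ← map_inv (gq (N * p) K), ← hA]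
        refine Cg.mul Cg.rfl ?_ (norm_natCast_le_one _) ?_
        · -- `ψ σ ≡ χ (σ⁻¹) ω(σ⁻¹) ^ (n-1)`
          have e1 : Cg (ψ σ) ((t (B σ) : E) * (χ₂ σ * (χ₁ σ)⁻¹ : Eˣ)) :=
            Cg.mul (htω σ).symm Cg.rfl (htn σ).le (hq σ).le
          have e2 : (t (B σ) : E) * (χ₂ σ * (χ₁ σ)⁻¹ : Eˣ) =
              (χ (A σ⁻¹) : E) * (t (B σ⁻¹) : E) ^ (n - 1) := by
            have e3 : (((χ₁ σ)⁻¹ : Eˣ) : E) = (χ₁ σ : E)⁻¹ := Units.val_inv_eq_inv_val _
            rw [Units.val_mul, e3, hχ₁, hχ₂, ← hχβ, map_inv, map_inv, map_inv, map_inv,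
              Units.val_inv_eq_inv_val, Units.val_inv_eq_inv_val]
            have hx0 : (t (B σ) : E) ≠ 0 := Units.ne_zero _
            have hα0 : (α (A σ) : E) ≠ 0 := Units.ne_zero _
            have hχ0 : (χ (A σ) : E) ≠ 0 := Units.ne_zero _
            obtain ⟨n', rfl⟩ : ∃ n', n = n' + 1 := ⟨n - 1, by omega⟩
            rw [Nat.add_sub_cancel, inv_pow]
            field_simp
            ring
          rw [e2] at e1
          refine e1.trans (Cg.mul Cg.rfl ?_ (hχn _).le ?_)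
          · exact Cg.pow ((htω _).trans (hgω _).symm) (norm_natCast_le_one _) _
          · rw [norm_pow]
            exact pow_le_one₀ (norm_nonneg _) (norm_natCast_le_one _)
        · rw [norm_mul, hχn, one_mul, norm_pow]
          exact pow_le_one₀ (norm_nonneg _) (norm_natCast_le_one _)
      exact h1.norm_eq huu
    · have h1 : c.Coprime (N * p) :=
        hcN.mul_right ((Nat.Prime.coprime_iff_not_dvd hpp).2 hpc).symm
      have h2 := stickAll (N * p) c (by nlinarith [Nat.pos_of_ne_zero hN0]) hc1 hc2 h1 K 𝔞 h𝔞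
      rw [← Equiv.prod_comp ((gq (N * p) K).toEquiv.trans (Equiv.inv _))] at h2
      have h3 : ∏ σ : Gal(K/ℚ), ((gq (N * p) K).symm
          (((gq (N * p) K).toEquiv.trans (Equiv.inv _)) σ)⁻¹ • 𝔞) ^
            fl c (N * p) (((gq (N * p) K).toEquiv.trans (Equiv.inv _)) σ) =
          ∏ σ : Gal(K/ℚ), (σ • 𝔞) ^ fl c (N * p) (gq (N * p) K σ)⁻¹ := by
        refine Finset.prod_congr rfl fun σ _ => ?_
        change ((gq (N * p) K).symm (((gq (N * p) K σ)⁻¹)⁻¹) • 𝔞) ^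
          fl c (N * p) ((gq (N * p) K σ)⁻¹) = _
        rw [inv_inv, MulEquiv.symm_apply_apply]
      rw [h3] at h2
      exact h2
  · -- distinct characters
    obtain ⟨u, hu1, hu2⟩ := exists_unit N p ((Nat.Prime.coprime_iff_not_dvd hpp).2 hpN).symm
      (a : ZMod N).val 1 (ZMod.val_coe_unit_coprime a) (Nat.coprime_one_left _)
    obtain ⟨σ, hσ⟩ := (gq (N * p) K).surjective u
    have hAσ : A σ = a := by
      rw [hA, hσ]
      apply Units.ext
      rw [ZMod.unitsMap_val, ← ZMod.natCast_val, hu1, ZMod.natCast_zmod_val]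
    have hBσ : B σ = 1 := by
      rw [hB, hσ]
      apply Units.ext
      rw [ZMod.unitsMap_val, ← ZMod.natCast_val, hu2, Nat.cast_one, Units.val_one]
    refine ⟨σ, ?_⟩
    by_contra hcon
    push Not at hcon
    have h2 : Cg (χ₁ σ : E) (χ₂ σ) := hcon
    rw [hχ₁, hχ₂, hAσ, hBσ, map_one, Units.val_one, one_pow, one_pow, mul_one, mul_one] at h2
    exact absurd h2 (not_lt.2 ha)
  · -- unramified
    intro ℓ hℓ1 hℓ2
    exact hunr ℓ hℓ1 hℓ2

end Pool.Agent.AAP
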