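import Mathlib

/-!
# Even Galois representations at almost all primes: cyclotomic fields, notation
-/

open NumberField Pointwise

namespace Pool.Agent.AAP

section

variable (m : ℕ) [NeZero m] (K : Type) [Field K] [NumberField K] [IsCyclotomicExtension {m} ℚ K]

/-- a primitive `m`-th root of unity of `K` -/
noncomputable def zt : K := IsCyclotomicExtension.zeta m ℚ K

theorem zt_spec : IsPrimitiveRoot (zt m K) m := IsCyclotomicExtension.zeta_spec m ℚ K

/-- the isomorphism `Gal(K/ℚ) ≃ (ZMod m)ˣ`, `σ ζ = ζ ^ (gq m K σ)` -/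
noncomputable def gq : Gal(K/ℚ) ≃* (ZMod m)ˣ :=
  IsCyclotomicExtension.autEquivPow (n := m) K
    (Polynomial.cyclotomic.irreducible_rat (Nat.pos_of_ne_zero (NeZero.ne m)))

theorem gq_spec (σ : Gal(K/ℚ)) : σ (zt m K) = zt m K ^ ((gq m K σ : (ZMod m)ˣ) : ZMod m).val :=
  (IsPrimitiveRoot.autToPow_spec ℚ (IsCyclotomicExtension.zeta_spec m ℚ K) σ).symm

end

/-- the exponent `⌊c a / m⌋` -/
def fl (c m : ℕ) (a : (ZMod m)ˣ) : ℕ := c * (a : ZMod m).val / m

section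

variable {E : Type*} [NormedField E]

/-- `∑ ⌊c a / (N p)⌋ χ(a) a ^ (n - 1)` -/
noncomputable def uu (N p c n : ℕ) [NeZero (N * p)] (χ : (ZMod N)ˣ →* Eˣ) : E :=
  ∑ a : (ZMod (N * p))ˣ, (fl c (N * p) a : E) * χ (ZMod.unitsMap (dvd_mul_right N p) a) *
    ((a : ZMod (N * p)).val : E) ^ (n - 1)

/-- `∑ χ(a) a ^ n` over the residues prime to `N p` -/
noncomputable def ss (N p n : ℕ) [NeZero (N * p)] (χ : (ZMod N)ˣ →* Eˣ) : E :=
  ∑ a : (ZMod (N * p))ˣ, (χ (ZMod.unitsMap (dvd_mul_right N p) a) : E) *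
    ((a : ZMod (N * p)).val : E) ^ n

/-- the rational number `N ^ (n - 1) B_n(r / N)` -/
noncomputable def bb (N n r : ℕ) : ℚ :=
  (N : ℚ) ^ (n - 1) * (Polynomial.bernoulli n).eval ((r : ℚ) / N)

/-- the generalized Bernoulli number `∑ χ(r) N ^ (n - 1) B_n(r / N)` -/
noncomputable def TT (N n : ℕ) [NeZero N] (χ : (ZMod N)ˣ →* Eˣ) : E :=
  ∑ r : (ZMod N)ˣ, (χ r : E) * ((bb N n (r : ZMod N).val : ℚ) : E)

end

end Pool.Agent.AAP
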