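import Pool.Agent.AAP.Cg
import Pool.Agent.AAP.Cyc

/-!
# AAP3-BcTei (0.5h): characters of order prime to `p`

Write `φ = card (ZMod N)ˣ = p ^ k * m` with `p ∤ m` (`Nat.exists_eq_pow_mul_and_not_dvd`) and choose
`s ≥ 1` with `s ≡ 0 mod p ^ k`, `s ≡ 1 mod m` (`Nat.chineseRemainder`; add `φ` to get `s ≥ 1`).
`(α ^ s) a ^ m = α a ^ (s m) = 1`, as `φ ∣ s m`. `x = α a ^ (s - 1)` has `x ^ (p ^ k) = 1`
(`φ ∣ (s - 1) p ^ k`), and `‖x‖ = 1`, hence `‖x - 1‖ < 1`: `(x - 1) ^ (p ^ k) - (x ^ (p ^ k) - 1)` is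
`p` times an element of norm at most one (`(Commute.all x (-1)).add_pow_prime_pow_eq` or
`exists_add_pow_prime_pow_eq`; or go by induction on `k` with `exists_add_pow_prime_eq`:
if `Cg (y ^ p) 1` and `‖y‖ = 1` then `Cg y 1`), so `‖x - 1‖ ^ (p ^ k) ≤ ‖p‖ < 1`.
`Cg x y` means `‖x - y‖ < 1` (see `Cg.lean`, with `Cg.mul`, `Cg.pow`, ...); `norm_natCast_lt_one_iff`
and `norm_natCast_le_one` are used in `RedE.lean`, `norm_chi` (values of characters have norm one).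
-/

namespace Pool.Agent.AAP

private lemma bct_p {p : ℕ} [Fact p.Prime] (E : Type*) [NormedField E]
    [NormedAlgebra ℚ_[p] E] : ‖(p : E)‖ < 1 := by
  have h1 : (p : E) = algebraMap ℚ_[p] E (p : ℚ_[p]) := by simp
  rw [h1, norm_algebraMap']
  exact Padic.norm_p_lt_one

private lemma bct_step {p : ℕ} [Fact p.Prime] {E : Type*} [NormedField E]
    [IsUltrametricDist E] [NormedAlgebra ℚ_[p] E] {y : E} (hy : ‖y‖ ≤ 1) (h : Cg (y ^ p) 1) :
    Cg y 1 := by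
  have hp : p.Prime := Fact.out
  have hy1 : ‖y - 1‖ ≤ 1 := by
    have h1 : ‖y + (-1)‖ ≤ max ‖y‖ ‖(-1 : E)‖ := IsUltrametricDist.norm_add_le_max _ _
    rw [← sub_eq_add_neg, norm_neg, norm_one] at h1
    exact h1.trans (max_le hy le_rfl)
  have h2 := add_pow_prime_eq hp (y - 1) 1
  rw [sub_add_cancel, one_pow] at h2
  have h3 : ‖∑ k ∈ Finset.Ioo 0 p, (y - 1) ^ (k - 1) * 1 ^ (p - k - 1) *
      ((p.choose k / p : ℕ) : E)‖ ≤ 1 := by
    refine IsUltrametricDist.norm_sum_le_of_forall_le_of_nonneg zero_le_one ?_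
    intro k _
    rw [one_pow, mul_one, norm_mul, norm_pow]
    exact mul_le_one₀ (pow_le_one₀ (norm_nonneg _) hy1) (norm_nonneg _)
      (IsUltrametricDist.norm_natCast_le_one E _)
  have h4 : ‖(y - 1) ^ p‖ < 1 := by
    have e : (y - 1) ^ p = (y ^ p - 1) + -((p : E) * ((y - 1) *
        ∑ k ∈ Finset.Ioo 0 p, (y - 1) ^ (k - 1) * 1 ^ (p - k - 1) *
          ((p.choose k / p : ℕ) : E))) := by
      linear_combination -h2
    rw [e]
    refine lt_of_le_of_lt (IsUltrametricDist.norm_add_le_max _ _) (max_lt h ?_)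
    rw [norm_neg, norm_mul, norm_mul]
    exact lt_of_le_of_lt (mul_le_of_le_one_right (norm_nonneg _)
      (mul_le_one₀ hy1 (norm_nonneg _) h3)) (bct_p E)
  rw [norm_pow] at h4
  by_contra hcon
  have h5 : 1 ≤ ‖y - 1‖ := not_lt.1 hcon
  exact absurd h4 (not_lt.2 (one_le_pow₀ h5))

private lemma bct_root {p : ℕ} [Fact p.Prime] {E : Type*} [NormedField E]
    [IsUltrametricDist E] [NormedAlgebra ℚ_[p] E] (k : ℕ) :
    ∀ x : E, x ^ (p ^ k) = 1 → Cg x 1 := by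
  induction k with
  | zero =>
    intro x hx
    rw [pow_zero, pow_one] at hx
    exact Cg.of_eq hx
  | succ k ih =>
    intro x hx
    have hp : p.Prime := Fact.out
    have h1 : (x ^ p) ^ (p ^ k) = 1 := by rw [← pow_mul, ← pow_succ', hx]
    have h2 : ‖x‖ = 1 := by
      have h3 : ‖x‖ ^ (p ^ (k + 1)) = 1 := by rw [← norm_pow, hx, norm_one]
      exact (pow_eq_one_iff_of_nonneg (norm_nonneg _) (pow_ne_zero _ hp.ne_zero)).1 h3
    exact bct_step h2.le (ih _ h1)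

theorem teiPow (N p : ℕ) [NeZero N] [Fact p.Prime]
    (E : Type*) [NormedField E] [IsUltrametricDist E] [NormedAlgebra ℚ_[p] E] :
    ∃ s m : ℕ, ¬ p ∣ m ∧ ∀ α : (ZMod N)ˣ →* Eˣ,
      (∀ a, Cg (((α ^ s) a : Eˣ) : E) (α a)) ∧ ∀ a, (((α ^ s) a : Eˣ) : E) ^ m = 1 := by
  have hp : p.Prime := Fact.out
  have hcard : Fintype.card (ZMod N)ˣ ≠ 0 := Fintype.card_ne_zero
  obtain ⟨k, m, hm, hkm⟩ := Nat.exists_eq_pow_mul_and_not_dvd hcard p hp.ne_one
  have hcop : Nat.Coprime (p ^ k) m := Nat.Coprime.pow_left k ((Nat.Prime.coprime_iff_not_dvd hp).2 hm)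
  obtain ⟨s0, hs0, hs1⟩ := Nat.chineseRemainder hcop 0 1
  have hm0 : m ≠ 0 := fun h => hm (h ▸ dvd_zero p)
  have hdp : p ^ k ∣ s0 + p ^ k * m :=
    dvd_add ((Nat.modEq_zero_iff_dvd).1 hs0) (dvd_mul_right _ _)
  have hpos : 1 ≤ s0 + p ^ k * m :=
    le_add_left (Nat.mul_pos (pow_pos hp.pos k) (Nat.pos_of_ne_zero hm0))
  have hdm : m ∣ s0 + p ^ k * m - 1 := by
    have h1 : s0 + p ^ k * m ≡ 1 + 0 [MOD m] :=
      Nat.ModEq.add hs1 ((Nat.modEq_zero_iff_dvd).2 (dvd_mul_left _ _))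
    rw [add_zero] at h1
    exact (Nat.modEq_iff_dvd' hpos).1 h1.symm
  refine ⟨s0 + p ^ k * m, m, hm, ?_⟩
  intro α
  have hα : ∀ a, (α a) ^ (p ^ k * m) = 1 := by
    intro a
    rw [← map_pow, ← hkm, pow_card_eq_one, map_one]
  have hαd : ∀ a n, p ^ k * m ∣ n → (((α a : Eˣ) : E)) ^ n = 1 := by
    intro a n hn
    obtain ⟨q, rfl⟩ := hn
    rw [← Units.val_pow_eq_pow_val, pow_mul, hα, one_pow, Units.val_one]
  constructor
  · intro a
    rw [MonoidHom.pow_apply, Units.val_pow_eq_pow_val]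
    have hx : Cg (((α a : Eˣ) : E) ^ (s0 + p ^ k * m - 1)) 1 := by
      refine bct_root (p := p) k _ ?_
      rw [← pow_mul]
      refine hαd a _ ?_
      have h1 : m * p ^ k ∣ (s0 + p ^ k * m - 1) * p ^ k := mul_dvd_mul hdm dvd_rfl
      rwa [mul_comm m (p ^ k)] at h1
    have hn : ‖((α a : Eˣ) : E)‖ = 1 := by
      have h3 : ‖((α a : Eˣ) : E)‖ ^ (p ^ k * m) = 1 := by
        rw [← norm_pow, hαd a _ dvd_rfl, norm_one]
      exact (pow_eq_one_iff_of_nonneg (norm_nonneg _)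
        (mul_ne_zero (pow_ne_zero _ hp.ne_zero) hm0)).1 h3
    have h4 := hx.mul (Cg.rfl (x := ((α a : Eˣ) : E))) (by rw [norm_one]) hn.le
    rw [one_mul, ← pow_succ, Nat.sub_add_cancel hpos] at h4
    exact h4
  · intro a
    rw [MonoidHom.pow_apply, Units.val_pow_eq_pow_val, ← pow_mul]
    exact hαd a _ (mul_dvd_mul hdp dvd_rfl)

end Pool.Agent.AAP
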