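import Pool.Agent.Helper60.FM.Main
import Pool.Agent.Helper60.FM.Transport

/-!
# Even Galois representations at almost all primes: congruences modulo the maximal ideal
-/

open NumberField Pointwise Matrix

namespace Pool.Agent.AAP

open Pool.Agent.Helper60.FM

section

variable {E : Type*} [NormedField E] [IsUltrametricDist E]

/-- congruence modulo the maximal ideal -/
def Cg (x y : E) : Prop := ‖x - y‖ < 1

omit [IsUltrametricDist E] in
theorem Cg.rfl {x : E} : Cg x x := by simp [Cg]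

omit [IsUltrametricDist E] in
theorem Cg.of_eq {x y : E} (h : x = y) : Cg x y := by subst h; exact Cg.rfl

omit [IsUltrametricDist E] in
theorem Cg.symm {x y : E} (h : Cg x y) : Cg y x := by
  rw [Cg, norm_sub_rev]
  exact h

theorem Cg.trans {x y z : E} (h : Cg x y) (h' : Cg y z) : Cg x z := sub_lt_one_trans h h'

theorem Cg.norm_le {x y : E} (h : Cg x y) (hy : ‖y‖ ≤ 1) : ‖x‖ ≤ 1 := by
  have h1 := norm_add_le_one (E := E) (le_of_lt h) hy
  rwa [sub_add_cancel] at h1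

theorem Cg.norm_eq {x y : E} (h : Cg x y) (hy : ‖y‖ = 1) : ‖x‖ = 1 := by
  refine le_antisymm (h.norm_le hy.le) ?_
  by_contra hcon
  push Not at hcon
  have h1 := norm_add_lt_one (E := E) h.symm hcon
  rw [sub_add_cancel, hy] at h1
  exact lt_irrefl _ h1

theorem Cg.mul {x x' y y' : E} (h : Cg x x') (h' : Cg y y') (hx : ‖x'‖ ≤ 1) (hy : ‖y'‖ ≤ 1) :
    Cg (x * y) (x' * y') := mul_sub_mul_lt (h.norm_le hx) hy h h'

theorem Cg.add {x x' y y' : E} (h : Cg x x') (h' : Cg y y') : Cg (x + y) (x' + y') := by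
  have h1 := norm_add_lt_one (E := E) h h'
  rw [Cg]
  rwa [add_sub_add_comm]

theorem Cg.neg {x x' : E} (h : Cg x x') : Cg (-x) (-x') := by
  rw [Cg, ← neg_sub', norm_neg]
  exact h

theorem Cg.sub {x x' y y' : E} (h : Cg x x') (h' : Cg y y') : Cg (x - y) (x' - y') := by
  rw [sub_eq_add_neg, sub_eq_add_neg]
  exact h.add h'.neg

theorem Cg.pow {x x' : E} (h : Cg x x') (hx : ‖x'‖ ≤ 1) (n : ℕ) : Cg (x ^ n) (x' ^ n) := by
  induction n with
  | zero => rw [pow_zero, pow_zero]; exact Cg.rfl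
  | succ n ih =>
    rw [pow_succ, pow_succ]
    exact ih.mul h (by rw [norm_pow]; exact pow_le_one₀ (norm_nonneg _) hx) hx

theorem Cg.sum {ι : Type*} (s : Finset ι) (f g : ι → E) (h : ∀ i ∈ s, Cg (f i) (g i)) :
    Cg (∑ i ∈ s, f i) (∑ i ∈ s, g i) := by
  classical
  induction s using Finset.induction_on with
  | empty => simp [Cg]
  | insert a s ha ih =>
    rw [Finset.sum_insert ha, Finset.sum_insert ha]
    exact (h a (Finset.mem_insert_self a s)).add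
      (ih fun i hi => h i (Finset.mem_insert_of_mem hi))

end

/-- The theorem of helper60 for an abstract field `K`. -/
theorem absMain (p : ℕ) [Fact p.Prime] (hp : p ≠ 2)
    {E : Type*} [NormedField E] [IsUltrametricDist E] [CompleteSpace E] [NormedAlgebra ℚ_[p] E]
    (K : Type) [Field K] [NumberField K] [IsAbelianGalois ℚ K] (j : K →+* Qb)
    (ζ : K) (hζ : IsPrimitiveRoot ζ p) (ω : Gal(K/ℚ) → ℕ) (hω : ∀ σ, σ ζ = ζ ^ ω σ)
    (χ₁ χ₂ : Gal(K/ℚ) →* Eˣ) (S : Set ℕ)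
    (hdec : ∀ P : Ideal (𝓞 K), P.IsPrime → P ≠ ⊥ → (∃ ℓ ∈ S, (ℓ : 𝓞 K) ∈ P) →
      ∃ σ : Gal(K/ℚ), σ • P = P ∧ 1 ≤ ‖(ω σ : E) * χ₂ σ - χ₁ σ‖)
    (hcl : ∀ 𝔞 : Ideal (𝓞 K), 𝔞 ≠ ⊥ → (𝔞 ^ p).IsPrincipal →
      (∀ n : Gal(K/ℚ) → ℕ, ‖∑ σ, (n σ : E) * (ω σ * (χ₂ σ * (χ₁ σ)⁻¹ : Eˣ))‖ < 1 →
        (∏ σ, (σ • 𝔞) ^ n σ).IsPrincipal) → 𝔞.IsPrincipal)
    (hχ : ∃ σ, 1 ≤ ‖(χ₁ σ : E) - χ₂ σ‖)
    (V : GQ →* GL (Fin 2) E) (hV : Continuous V)
    (htr : ∀ (g : GQ) (σ : Gal(K/ℚ)), (∀ x, j (σ x) = g (j x)) →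
      ‖trace (V g : Matrix (Fin 2) (Fin 2) E) - χ₁ σ - χ₂ σ‖ < 1)
    (hunr : ∀ ℓ : ℕ, ℓ.Prime → ℓ ∉ S → UnramAt V ℓ)
    (heven : ∀ c : GQ, IsCC c → det (V c : Matrix (Fin 2) (Fin 2) E) = 1) :
    ∃ v : Fin 2 → E, v ≠ 0 ∧ ∀ g, ∃ c : E,
      (V g : Matrix (Fin 2) (Fin 2) E) *ᵥ v = c • v := by
  classical
  let γ := geqv K j
  refine main_distinct p (imField K j) hp (aeqv K j ζ)
    (hζ.map_of_injective (f := aeqv K j) (aeqv K j).injective) (fun σ => ω (γ.symm σ)) ?_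
    (χ₁.comp γ.symm.toMonoidHom) (χ₂.comp γ.symm.toMonoidHom) S ?_ ?_ ?_ V hV ?_
    hunr heven
  · intro σ
    rw [← geqv_symm_apply, hω, map_pow]
  · intro P hP hP0 hℓ
    obtain ⟨ℓ, hℓS, hℓP⟩ := hℓ
    obtain ⟨σ, hσ, hσ1⟩ := hdec (pull K j P) (pull_isPrime K j P hP) (pull_ne_bot K j P hP0)
      ⟨ℓ, hℓS, natCast_mem_pull K j P ℓ hℓP⟩
    refine ⟨γ σ, ?_, ?_⟩
    · apply pull_injective K j
      rw [pull_smul, MulEquiv.symm_apply_apply, hσ]
    · simpa using hσ1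
  · intro 𝔞 h𝔞 h𝔞p h
    rw [← pull_isPrincipal]
    refine hcl (pull K j 𝔞) (pull_ne_bot K j 𝔞 h𝔞) ?_ ?_
    · rw [← map_pow, pull_isPrincipal]
      exact h𝔞p
    · intro n hn
      have h1 := h (fun σ => n (γ.symm σ)) ?_
      · rw [← pull_isPrincipal, map_prod] at h1
        convert h1 using 1
        rw [← Equiv.prod_comp γ.symm.toEquiv]
        refine Finset.prod_congr rfl (fun σ _ => ?_)
        rw [map_pow, pull_smul]
        rfl
      · convert hn using 2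
        rw [← Equiv.sum_comp γ.symm.toEquiv]
        rfl
  · obtain ⟨σ, hσ⟩ := hχ
    exact ⟨γ σ, by simpa using hσ⟩
  · intro g
    exact htr g (γ.symm (res (imField K j) g)) (geqv_symm_res K j g)

end Pool.Agent.AAP
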