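import Pool.Agent.AAP.NumB
import Pool.Agent.AAP.Cg

/-!
# AAP3-BcU1 (0.8h): the number `uu` for `n = 1`

`uu N p c 1 χ = ∑ ⌊c a / (N p)⌋ χ(a)`. With `m = N p`, `c a = m ⌊c a / m⌋ + r_a`, where
`r_a = (cu * a).val` for the unit `cu` of `c` (see the start of the proof of `numA2` in `NumA2.lean`), and
`χ(cu) = 1` as `c ≡ 1 mod N`: `m uu = c S - S`, `S = ∑_{a ∈ (Z/m)ˣ} χ(a) a` (`a` the representative in
`[0, m)`). By `nb_sum` of `NumB.lean` (private there: copy it) `S` is the sum over all `(r, j)`,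
`r ∈ (Z/N)ˣ`, `j < p`, of `χ(r) (r + N j)` minus the sum over the `(r, j)` with `p ∣ r + N j`. The first
one is `∑_r χ(r) (p r + N p (p-1)/2) = p ∑ χ(r) r`, as `∑_r χ(r) = 0` (`χ ≠ 1`). In the second
`r + N j = p b` with `0 ≤ b < N` and `b` prime to `N` (`b` runs exactly once over these numbers), `r ≡ p b`,
so it is `χ(p) p ∑_b χ(b) b`. And `TT N 1 χ = ∑ χ(r) (r/N - 1/2) = (1/N) ∑ χ(r) r`. Together
`m uu = (c - 1) p (1 - χ(p)) N TT N 1 χ`.
-/

namespace Pool.Agent.AAP

/-- the residues prime to `N p` -/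
private theorem bu_sum (N p : ℕ) [NeZero N] [NeZero (N * p)] [Fact p.Prime] {E : Type*}
    [AddCommMonoid E] (F : (ZMod N)ˣ → ℕ → E) :
    ∑ a : (ZMod (N * p))ˣ, F (ZMod.unitsMap (dvd_mul_right N p) a) (a : ZMod (N * p)).val =
      ∑ x ∈ (Finset.univ : Finset ((ZMod N)ˣ × Fin p)).filter
        (fun x => ¬ p ∣ (x.1 : ZMod N).val + N * (x.2 : ℕ)),
        F x.1 ((x.1 : ZMod N).val + N * (x.2 : ℕ)) := by
  classical
  have hN : 0 < N := Nat.pos_of_ne_zero (NeZero.ne N)
  have hp : p.Prime := Fact.out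
  have hval : ∀ a : (ZMod (N * p))ˣ, ((ZMod.unitsMap (dvd_mul_right N p) a : (ZMod N)ˣ) :
      ZMod N).val = (a : ZMod (N * p)).val % N := by
    intro a
    rw [ZMod.unitsMap_val, ZMod.cast_eq_val, ZMod.val_natCast]
  have hlt : ∀ a : (ZMod (N * p))ˣ, (a : ZMod (N * p)).val / N < p := by
    intro a
    exact Nat.div_lt_of_lt_mul (ZMod.val_lt _)
  have hrec : ∀ a : (ZMod (N * p))ˣ, ((ZMod.unitsMap (dvd_mul_right N p) a : (ZMod N)ˣ) :
      ZMod N).val + N * ((a : ZMod (N * p)).val / N) = (a : ZMod (N * p)).val := by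
    intro a
    rw [hval, Nat.mod_add_div]
  refine Finset.sum_bij (fun a _ => (ZMod.unitsMap (dvd_mul_right N p) a,
    (⟨(a : ZMod (N * p)).val / N, hlt a⟩ : Fin p))) ?_ ?_ ?_ ?_
  · intro a _
    rw [Finset.mem_filter]
    refine ⟨Finset.mem_univ _, ?_⟩
    show ¬ p ∣ ((ZMod.unitsMap (dvd_mul_right N p) a : (ZMod N)ˣ) : ZMod N).val +
      N * ((a : ZMod (N * p)).val / N)
    rw [hrec]
    have h1 := (ZMod.val_coe_unit_coprime a).coprime_mul_left_right
    intro h2
    exact (Nat.Prime.coprime_iff_not_dvd hp).1 h1.symm h2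
  · intro a _ b _ hab
    have h1 := congrArg Prod.fst hab
    have h2 : (a : ZMod (N * p)).val / N = (b : ZMod (N * p)).val / N :=
      congrArg (fun x : (ZMod N)ˣ × Fin p => (x.2 : ℕ)) hab
    apply Units.ext
    apply ZMod.val_injective
    rw [← hrec a, ← hrec b, h2]
    have h3 : ZMod.unitsMap (dvd_mul_right N p) a = ZMod.unitsMap (dvd_mul_right N p) b := h1
    rw [h3]
  · rintro ⟨r, j⟩ hx
    have hx2 : ¬ p ∣ (r : ZMod N).val + N * (j : ℕ) := (Finset.mem_filter.1 hx).2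
    have hc : ((r : ZMod N).val + N * (j : ℕ)).Coprime (N * p) := by
      refine Nat.Coprime.mul_right ?_ ((Nat.Prime.coprime_iff_not_dvd hp).2 hx2).symm
      rw [Nat.coprime_add_mul_left_left]
      exact ZMod.val_coe_unit_coprime r
    have hm : (r : ZMod N).val + N * (j : ℕ) < N * p := by
      have h1 := ZMod.val_lt (r : ZMod N)
      have h2 := j.2
      calc (r : ZMod N).val + N * (j : ℕ) < N + N * (j : ℕ) := by omega
        _ = N * ((j : ℕ) + 1) := by ring
        _ ≤ N * p := Nat.mul_le_mul_left _ h2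
    have hv : ((ZMod.unitOfCoprime _ hc : (ZMod (N * p))ˣ) : ZMod (N * p)).val =
        (r : ZMod N).val + N * (j : ℕ) := by
      rw [ZMod.coe_unitOfCoprime, ZMod.val_natCast_of_lt hm]
    refine ⟨ZMod.unitOfCoprime _ hc, Finset.mem_univ _, ?_⟩
    refine Prod.ext ?_ ?_
    · apply Units.ext
      apply ZMod.val_injective
      show ((ZMod.unitsMap (dvd_mul_right N p) (ZMod.unitOfCoprime _ hc) : (ZMod N)ˣ) :
        ZMod N).val = (r : ZMod N).val
      rw [hval, hv, Nat.add_mul_mod_self_left, Nat.mod_eq_of_lt (ZMod.val_lt _)]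
    · apply Fin.ext
      show ((ZMod.unitOfCoprime _ hc : (ZMod (N * p))ˣ) : ZMod (N * p)).val / N = (j : ℕ)
      rw [hv, Nat.add_mul_div_left _ _ hN, Nat.div_eq_of_lt (ZMod.val_lt _), zero_add]
  · intro a _
    show _ = F (ZMod.unitsMap (dvd_mul_right N p) a)
      (((ZMod.unitsMap (dvd_mul_right N p) a : (ZMod N)ˣ) : ZMod N).val +
        N * ((a : ZMod (N * p)).val / N))
    rw [hrec]

/-- the characteristic of `E` is zero -/
private theorem bu_charZero (p : ℕ) [Fact p.Prime] (E : Type*) [NormedField E]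
    [NormedAlgebra ℚ_[p] E] : CharZero E :=
  charZero_of_injective_algebraMap (algebraMap ℚ_[p] E).injective

private theorem bu_chi {N : ℕ} [NeZero N] {E : Type*} [Field E]
    (χ : (ZMod N)ˣ →* Eˣ) (pu : (ZMod N)ˣ) (h1 : χ pu ≠ 1) : ∑ r : (ZMod N)ˣ, (χ r : E) = 0 := by
  have h2 : (χ pu : E) * ∑ r : (ZMod N)ˣ, (χ r : E) = ∑ r : (ZMod N)ˣ, (χ r : E) := by
    rw [Finset.mul_sum, ← Equiv.sum_comp (Equiv.mulLeft pu) (fun r => (χ r : E))]
    refine Finset.sum_congr rfl fun r _ => ?_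
    rw [Equiv.coe_mulLeft, map_mul, Units.val_mul]
  have h3 : ((χ pu : E) - 1) * ∑ r : (ZMod N)ˣ, (χ r : E) = 0 := by
    rw [sub_mul, h2, one_mul, sub_self]
  rcases mul_eq_zero.1 h3 with h | h
  · exfalso
    apply h1
    apply Units.ext
    rw [Units.val_one]
    exact sub_eq_zero.1 h
  · exact h

/-- the sum over the multiples of `p` -/
private theorem bu_mult (N p : ℕ) [NeZero N] [Fact p.Prime] {E : Type*} [AddCommMonoid E]
    (F : (ZMod N)ˣ → ℕ → E) (pu : (ZMod N)ˣ) (hpu : (pu : ZMod N) = p) :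
    ∑ x ∈ (Finset.univ : Finset ((ZMod N)ˣ × Fin p)).filter
        (fun x => p ∣ (x.1 : ZMod N).val + N * (x.2 : ℕ)),
        F x.1 ((x.1 : ZMod N).val + N * (x.2 : ℕ)) =
      ∑ b : (ZMod N)ˣ, F (pu * b) (p * (b : ZMod N).val) := by
  classical
  have hN : 0 < N := Nat.pos_of_ne_zero (NeZero.ne N)
  have hp : p.Prime := Fact.out
  have hval : ∀ b : (ZMod N)ˣ, ((pu * b : (ZMod N)ˣ) : ZMod N).val =
      (p * (b : ZMod N).val) % N := by
    intro b
    have h1 : ((pu * b : (ZMod N)ˣ) : ZMod N) = ((p * (b : ZMod N).val : ℕ) : ZMod N) := by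
      rw [Units.val_mul, hpu, Nat.cast_mul, ZMod.natCast_zmod_val]
    rw [h1, ZMod.val_natCast]
  have hlt : ∀ b : (ZMod N)ˣ, (p * (b : ZMod N).val) / N < p := by
    intro b
    apply Nat.div_lt_of_lt_mul
    rw [mul_comm N p]
    exact Nat.mul_lt_mul_of_pos_left (ZMod.val_lt _) hp.pos
  have hrec : ∀ b : (ZMod N)ˣ, ((pu * b : (ZMod N)ˣ) : ZMod N).val +
      N * ((p * (b : ZMod N).val) / N) = p * (b : ZMod N).val := by
    intro b
    rw [hval, Nat.mod_add_div]
  symm
  refine Finset.sum_bij (fun b _ => (pu * b, (⟨(p * (b : ZMod N).val) / N, hlt b⟩ : Fin p)))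
    ?_ ?_ ?_ ?_
  · intro b _
    rw [Finset.mem_filter]
    refine ⟨Finset.mem_univ _, ?_⟩
    show p ∣ ((pu * b : (ZMod N)ˣ) : ZMod N).val + N * ((p * (b : ZMod N).val) / N)
    rw [hrec]
    exact dvd_mul_right _ _
  · intro b _ b' _ h
    have h1 : pu * b = pu * b' := congrArg Prod.fst h
    exact mul_left_cancel h1
  · rintro ⟨r, j⟩ hx
    obtain ⟨b0, hb0⟩ : p ∣ (r : ZMod N).val + N * (j : ℕ) := (Finset.mem_filter.1 hx).2
    have hm : (r : ZMod N).val + N * (j : ℕ) < N * p := by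
      have h1 := ZMod.val_lt (r : ZMod N)
      have h2 := j.2
      calc (r : ZMod N).val + N * (j : ℕ) < N + N * (j : ℕ) := by omega
        _ = N * ((j : ℕ) + 1) := by ring
        _ ≤ N * p := Nat.mul_le_mul_left _ h2
    have hb0N : b0 < N := by
      rw [hb0, mul_comm p b0] at hm
      exact Nat.lt_of_mul_lt_mul_right hm
    have hc : b0.Coprime N := by
      have h1 : ((r : ZMod N).val + N * (j : ℕ)).Coprime N := by
        rw [Nat.coprime_add_mul_left_left]
        exact ZMod.val_coe_unit_coprime r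
      rw [hb0] at h1
      exact h1.coprime_mul_left
    have hv : ((ZMod.unitOfCoprime _ hc : (ZMod N)ˣ) : ZMod N).val = b0 := by
      rw [ZMod.coe_unitOfCoprime, ZMod.val_natCast_of_lt hb0N]
    refine ⟨ZMod.unitOfCoprime _ hc, Finset.mem_univ _, ?_⟩
    refine Prod.ext ?_ ?_
    · apply Units.ext
      apply ZMod.val_injective
      show ((pu * ZMod.unitOfCoprime _ hc : (ZMod N)ˣ) : ZMod N).val = (r : ZMod N).val
      rw [hval, hv, ← hb0, Nat.add_mul_mod_self_left, Nat.mod_eq_of_lt (ZMod.val_lt _)]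
    · apply Fin.ext
      show (p * ((ZMod.unitOfCoprime _ hc : (ZMod N)ˣ) : ZMod N).val) / N = (j : ℕ)
      rw [hv, ← hb0, Nat.add_mul_div_left _ _ hN, Nat.div_eq_of_lt (ZMod.val_lt _), zero_add]
  · intro b _
    show F (pu * b) (p * (b : ZMod N).val) = F (pu * b)
      (((pu * b : (ZMod N)ˣ) : ZMod N).val + N * ((p * (b : ZMod N).val) / N))
    rw [hrec]

theorem uu_one (N p c : ℕ) [NeZero N] [NeZero (N * p)] [Fact p.Prime]
    (hcN : c ≡ 1 [MOD N]) (hpc : ¬ p ∣ c)
    {E : Type*} [NormedField E] [IsUltrametricDist E] [NormedAlgebra ℚ_[p] E]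
    (χ : (ZMod N)ˣ →* Eˣ) (pu : (ZMod N)ˣ) (hpu : (pu : ZMod N) = p) (h1 : χ pu ≠ 1) :
    (uu N p c 1 χ : E) = ((c : E) - 1) * (1 - χ pu) * TT N 1 χ := by
  classical
  have hp : p.Prime := Fact.out
  have hN : 0 < N := Nat.pos_of_ne_zero (NeZero.ne N)
  have hcz : CharZero E := bu_charZero p E
  have hNE : (N : E) ≠ 0 := Nat.cast_ne_zero.2 hN.ne'
  have hpE : (p : E) ≠ 0 := Nat.cast_ne_zero.2 hp.pos.ne'
  have hχ0 := bu_chi χ pu h1
  obtain ⟨W, hW⟩ : ∃ W : E, W = ∑ r : (ZMod N)ˣ, (χ r : E) * ((r : ZMod N).val : E) := ⟨_, rfl⟩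
  -- the generalized Bernoulli number
  have hTT : (N : E) * TT N 1 χ = W := by
    have hb : ∀ r : (ZMod N)ˣ, (((bb N 1 (r : ZMod N).val : ℚ)) : E) =
        ((r : ZMod N).val : E) / N - 2⁻¹ := by
      intro r
      unfold bb
      rw [Nat.sub_self, pow_zero, one_mul, Polynomial.bernoulli_one, Polynomial.eval_sub,
        Polynomial.eval_X, Polynomial.eval_C, Rat.cast_sub, Rat.cast_div, Rat.cast_natCast,
        Rat.cast_natCast, Rat.cast_inv, Rat.cast_ofNat]
    unfold TT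
    simp only [hb, mul_sub]
    rw [Finset.sum_sub_distrib, ← Finset.sum_mul, hχ0, zero_mul, sub_zero, hW, Finset.mul_sum]
    refine Finset.sum_congr rfl fun r _ => ?_
    field_simp
  -- the sum over the residues prime to `N p`
  have hss : ss N p 1 χ = (p : E) * (1 - χ pu) * W := by
    have e1 : ss N p 1 χ = ∑ x ∈ (Finset.univ : Finset ((ZMod N)ˣ × Fin p)).filter
        (fun x => ¬ p ∣ (x.1 : ZMod N).val + N * (x.2 : ℕ)),
        (χ x.1 : E) * (((x.1 : ZMod N).val + N * (x.2 : ℕ) : ℕ) : E) := by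
      have h2 := bu_sum N p (fun r m => (χ r : E) * (m : E))
      unfold ss
      simp only [pow_one]
      exact h2
    have e2 := Finset.sum_filter_add_sum_filter_not (Finset.univ : Finset ((ZMod N)ˣ × Fin p))
      (fun x => p ∣ (x.1 : ZMod N).val + N * (x.2 : ℕ))
      (fun x => (χ x.1 : E) * (((x.1 : ZMod N).val + N * (x.2 : ℕ) : ℕ) : E))
    have e3 := bu_mult N p (fun r m => (χ r : E) * (m : E)) pu hpu
    have e4 : ∑ b : (ZMod N)ˣ, (χ (pu * b) : E) * ((p * (b : ZMod N).val : ℕ) : E) =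
        (p : E) * χ pu * W := by
      rw [hW, Finset.mul_sum]
      refine Finset.sum_congr rfl fun b _ => ?_
      rw [map_mul, Units.val_mul, Nat.cast_mul]
      ring
    have e5 : ∑ x : (ZMod N)ˣ × Fin p,
        (χ x.1 : E) * (((x.1 : ZMod N).val + N * (x.2 : ℕ) : ℕ) : E) = (p : E) * W := by
      rw [Fintype.sum_prod_type]
      have h2 : ∀ r : (ZMod N)ˣ, ∑ j : Fin p,
          (χ r : E) * (((r : ZMod N).val + N * (j : ℕ) : ℕ) : E) =
          (p : E) * ((χ r : E) * ((r : ZMod N).val : E)) +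
            (χ r : E) * (N * ∑ j : Fin p, ((j : ℕ) : E)) := by
        intro r
        rw [← Finset.mul_sum]
        have h3 : ∑ j : Fin p, (((r : ZMod N).val + N * (j : ℕ) : ℕ) : E) =
            (p : E) * ((r : ZMod N).val : E) + N * ∑ j : Fin p, ((j : ℕ) : E) := by
          push_cast
          rw [Finset.sum_add_distrib, Finset.sum_const, Finset.card_univ, Fintype.card_fin,
            nsmul_eq_mul, Finset.mul_sum]
        rw [h3]
        ring
      simp only [h2]
      rw [Finset.sum_add_distrib, ← Finset.mul_sum, ← Finset.sum_mul, hχ0, zero_mul, add_zero, hW]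
    rw [e3, e4, e5] at e2
    rw [e1]
    have e6 : ∑ x ∈ (Finset.univ : Finset ((ZMod N)ˣ × Fin p)).filter
        (fun x => ¬ p ∣ (x.1 : ZMod N).val + N * (x.2 : ℕ)),
        (χ x.1 : E) * (((x.1 : ZMod N).val + N * (x.2 : ℕ) : ℕ) : E) =
        (p : E) * W - (p : E) * χ pu * W := by
      rw [← e2]
      ring
    rw [e6]
    ring
  -- floors
  have hcop : Nat.Coprime c (N * p) :=
    Nat.Coprime.mul_right (by rw [Nat.Coprime, hcN.gcd_eq, Nat.gcd_one_left])
      ((Nat.Prime.coprime_iff_not_dvd hp).2 hpc).symm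
  let cu : (ZMod (N * p))ˣ := ZMod.unitOfCoprime c hcop
  have hχc : χ (ZMod.unitsMap (dvd_mul_right N p) cu) = 1 := by
    have h1 : ZMod.unitsMap (dvd_mul_right N p) cu = 1 := by
      apply Units.ext
      rw [ZMod.unitsMap_def, Units.coe_map, ZMod.coe_unitOfCoprime]
      have h2 : ((c : ℕ) : ZMod N) = ((1 : ℕ) : ZMod N) := (ZMod.natCast_eq_natCast_iff _ _ _).2 hcN
      simpa using h2
    rw [h1, map_one]
  have hr : ∀ a : (ZMod (N * p))ˣ, ((cu * a : (ZMod (N * p))ˣ) : ZMod (N * p)).val =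
      (c * (a : ZMod (N * p)).val) % (N * p) := by
    intro a
    have h1 : ((cu * a : (ZMod (N * p))ˣ) : ZMod (N * p)) =
        ((c * (a : ZMod (N * p)).val : ℕ) : ZMod (N * p)) := by
      rw [Units.val_mul, ZMod.coe_unitOfCoprime, Nat.cast_mul, ZMod.natCast_zmod_val]
    rw [h1, ZMod.val_natCast]
  have hss2 : ss N p 1 χ = ∑ a : (ZMod (N * p))ˣ,
      (χ (ZMod.unitsMap (dvd_mul_right N p) a) : E) *
        (((cu * a : (ZMod (N * p))ˣ) : ZMod (N * p)).val : E) := by
    unfold ss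
    rw [← Equiv.sum_comp (Equiv.mulLeft cu)]
    refine Finset.sum_congr rfl fun a _ => ?_
    rw [Equiv.coe_mulLeft, map_mul, map_mul, hχc, one_mul, pow_one]
  have hss3 : ss N p 1 χ = ∑ a : (ZMod (N * p))ˣ,
      (χ (ZMod.unitsMap (dvd_mul_right N p) a) : E) * ((a : ZMod (N * p)).val : E) := by
    unfold ss
    simp only [pow_one]
  have hfl : ∀ a : (ZMod (N * p))ˣ, ((N : E) * p) * (fl c (N * p) a : E) =
      (c : E) * ((a : ZMod (N * p)).val : E) -
        (((cu * a : (ZMod (N * p))ˣ) : ZMod (N * p)).val : E) := by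
    intro a
    have h2 := Nat.div_add_mod (c * (a : ZMod (N * p)).val) (N * p)
    have h3 := congrArg (fun t : ℕ => (t : E)) h2
    simp only [Nat.cast_add, Nat.cast_mul] at h3
    rw [hr a]
    unfold fl
    rw [← h3]
    ring
  have hmain : ((N : E) * p) * uu N p c 1 χ = ((c : E) - 1) * ss N p 1 χ := by
    have h2 : ((N : E) * p) * uu N p c 1 χ = ∑ a : (ZMod (N * p))ˣ,
        (χ (ZMod.unitsMap (dvd_mul_right N p) a) : E) * ((c : E) * ((a : ZMod (N * p)).val : E) -
        (((cu * a : (ZMod (N * p))ˣ) : ZMod (N * p)).val : E)) := by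
      unfold uu
      rw [Finset.mul_sum]
      refine Finset.sum_congr rfl fun a _ => ?_
      rw [← hfl a, Nat.sub_self, pow_zero]
      ring
    rw [h2]
    simp only [mul_sub]
    rw [Finset.sum_sub_distrib, ← hss2, sub_mul, one_mul]
    congr 1
    rw [hss3, Finset.mul_sum]
    refine Finset.sum_congr rfl fun a _ => ?_
    ring
  rw [hss, ← hTT] at hmain
  have hm0 : (N : E) * p ≠ 0 := mul_ne_zero hNE hpE
  apply mul_left_cancel₀ hm0
  rw [hmain]
  ring

end Pool.Agent.AAP
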