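import Pool.Agent.AAP.NumB
import Pool.Agent.AAP.NumA2
import Pool.Agent.AAP.Cg

/-!
# AAP3-BcUp (1.0h): the number `uu` for `n = p - 1`

(1) As `numA2` (`NumA2.lean`), now for all `c` prime to `N p`: with the unit `cu` modulo `N p` of `c`,
`∑ χ(a) r_a ^ n = χ(c)⁻¹ ∑ χ(c a) r_a ^ n = χ(c)⁻¹ ss`, so
`n (N p) c ^ (n-1) uu ≡ (c ^ n - χ(c)⁻¹) ss mod p ^ 2`.
(2) As `numB` (`NumB.lean`), now for `n = p - 1` and `χ ≠ 1`: in `nb_key` the power sums
`∑_{j<p} j ^ i` are `≡ p B_i mod p ^ 2` for `i + 1 < p`, i.e. for `i < n`; the term with `i = n` does not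
depend on `r`, and neither does the term with `i = n` of `bb N n r`, and `∑_r χ(r) = 0`; so
`ss ≡ p N TT mod p ^ 2`.
(3) As `uu_norm2` (`RedD.lean`): `X = n N c ^ (n-1) uu`, `Y = (c ^ n - χ(c)⁻¹) N TT` satisfy
`‖p (X - Y)‖ ≤ ‖p‖ ^ 2`, so `‖X - Y‖ < 1`; `c ^ n ≡ 1 mod p` (`n = p - 1`), so
`‖c ^ n - χ(c)⁻¹‖ = ‖χ(c) - 1‖ = 1`, `‖Y‖ = 1`, hence `‖uu‖ = 1`.
-/

open NumberField Pointwise Matrix

namespace Pool.Agent.AAP

open Pool.Agent.Helper60.FM

private theorem numA3 (N n p c : ℕ) [NeZero (N * p)] [Fact p.Prime] (hn : 2 ≤ n)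
    (hcN : c.Coprime N) (hpc : ¬ p ∣ c)
    {E : Type*} [NormedField E] [IsUltrametricDist E] [NormedAlgebra ℚ_[p] E]
    (χ : (ZMod N)ˣ →* Eˣ) :
    ‖(n : E) * (N * p) * c ^ (n - 1) * uu N p c n χ -
      ((c : E) ^ n - ((χ (ZMod.unitOfCoprime c hcN))⁻¹ : Eˣ)) * ss N p n χ‖ ≤ ‖(p : E)‖ ^ 2 := by
  have hp : p.Prime := Fact.out
  have hcop : Nat.Coprime c (N * p) :=
    Nat.Coprime.mul_right hcN ((Nat.Prime.coprime_iff_not_dvd hp).2 hpc).symm
  let cu : (ZMod (N * p))ˣ := ZMod.unitOfCoprime c hcop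
  have hχc : χ (ZMod.unitsMap (dvd_mul_right N p) cu) = χ (ZMod.unitOfCoprime c hcN) := by
    have h1 : ZMod.unitsMap (dvd_mul_right N p) cu = ZMod.unitOfCoprime c hcN := by
      apply Units.ext
      rw [ZMod.unitsMap_def, Units.coe_map, ZMod.coe_unitOfCoprime, ZMod.coe_unitOfCoprime]
      simp
    rw [h1]
  have hr : ∀ a : (ZMod (N * p))ˣ, ((cu * a : (ZMod (N * p))ˣ) : ZMod (N * p)).val =
      (c * (a : ZMod (N * p)).val) % (N * p) := by
    intro a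
    have h1 : ((cu * a : (ZMod (N * p))ˣ) : ZMod (N * p)) =
        ((c * (a : ZMod (N * p)).val : ℕ) : ZMod (N * p)) := by
      rw [Units.val_mul, ZMod.coe_unitOfCoprime, Nat.cast_mul, ZMod.natCast_zmod_val]
    rw [h1, ZMod.val_natCast]
  have hχ1 : ∀ a : (ZMod (N * p))ˣ,
      ‖(χ (ZMod.unitsMap (dvd_mul_right N p) a) : E)‖ = 1 := by
    intro a
    have h1 : ((χ (ZMod.unitsMap (dvd_mul_right N p) a) : Eˣ) : E) ^
        Fintype.card (ZMod (N * p))ˣ = 1 := by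
      rw [← Units.val_pow_eq_pow_val, ← map_pow, ← map_pow, pow_card_eq_one, map_one, map_one,
        Units.val_one]
    exact (isOfFinOrder_iff_pow_eq_one.2 ⟨_, Fintype.card_pos, h1⟩).norm_eq_one
  -- the terms
  have key : ∀ a : (ZMod (N * p))ˣ, ‖(χ (ZMod.unitsMap (dvd_mul_right N p) a) : E) *
      ((n : E) * (N * p) * (fl c (N * p) a : E) *
        ((c : E) * ((a : ZMod (N * p)).val : E)) ^ (n - 1) -
        ((c : E) * ((a : ZMod (N * p)).val : E)) ^ n +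
        (((cu * a : (ZMod (N * p))ˣ) : ZMod (N * p)).val : E) ^ n)‖ ≤ ‖(p : E)‖ ^ 2 := by
    intro a
    rw [norm_mul, hχ1, one_mul]
    have hra := hr a
    generalize ((cu * a : (ZMod (N * p))ˣ) : ZMod (N * p)).val = w at hra ⊢
    obtain ⟨k, hk⟩ := Polynomial.powAddExpansion ((c * (a : ZMod (N * p)).val : ℕ) : ℤ)
      (-((N * p * fl c (N * p) a : ℕ) : ℤ)) n
    have h1 : ((c * (a : ZMod (N * p)).val : ℕ) : ℤ) +
        (-((N * p * fl c (N * p) a : ℕ) : ℤ)) =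
        (w : ℤ) := by
      rw [hra]
      have h2 := Nat.div_add_mod (c * (a : ZMod (N * p)).val) (N * p)
      unfold fl
      have h3 : ((c * (a : ZMod (N * p)).val : ℕ) : ℤ) =
          ((N * p * (c * (a : ZMod (N * p)).val / (N * p)) : ℕ) : ℤ) +
            ((c * (a : ZMod (N * p)).val % (N * p) : ℕ) : ℤ) := by
        rw [← Nat.cast_add, h2]
      rw [h3]
      ring
    rw [h1] at hk
    have h2 := congrArg (fun t : ℤ => (t : E)) hk
    push_cast at h2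
    rw [h2]
    have h3 : (n : E) * (N * p) * (fl c (N * p) a : E) *
        ((c : E) * ((a : ZMod (N * p)).val : E)) ^ (n - 1) -
        ((c : E) * ((a : ZMod (N * p)).val : E)) ^ n +
        (((c : E) * ((a : ZMod (N * p)).val : E)) ^ n +
          (n : E) * ((c : E) * ((a : ZMod (N * p)).val : E)) ^ (n - 1) *
            -((N : E) * p * (fl c (N * p) a : E)) +
          (k : E) * (-((N : E) * p * (fl c (N * p) a : E))) ^ 2) =
        ((k * ((N * fl c (N * p) a : ℕ) : ℤ) ^ 2 : ℤ) : E) * (p : E) ^ 2 := by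
      push_cast
      ring
    rw [h3, norm_mul, norm_pow]
    refine (mul_le_mul_of_nonneg_right
      (IsUltrametricDist.norm_intCast_le_one E _) (by positivity)).trans (le_of_eq (one_mul _))
  have hss : ((χ (ZMod.unitOfCoprime c hcN))⁻¹ : Eˣ) * ss N p n χ = ∑ a : (ZMod (N * p))ˣ,
      (χ (ZMod.unitsMap (dvd_mul_right N p) a) : E) *
        (((cu * a : (ZMod (N * p))ˣ) : ZMod (N * p)).val : E) ^ n := by
    unfold ss
    rw [← Equiv.sum_comp (Equiv.mulLeft cu), Finset.mul_sum]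
    refine Finset.sum_congr rfl fun a _ => ?_
    rw [Equiv.coe_mulLeft, map_mul, map_mul, hχc, Units.val_mul, ← mul_assoc, ← mul_assoc,
      Units.inv_mul, one_mul]
  have e : (n : E) * (N * p) * c ^ (n - 1) * uu N p c n χ -
      ((c : E) ^ n - ((χ (ZMod.unitOfCoprime c hcN))⁻¹ : Eˣ)) * ss N p n χ = ∑ a : (ZMod (N * p))ˣ,
      (χ (ZMod.unitsMap (dvd_mul_right N p) a) : E) *
      ((n : E) * (N * p) * (fl c (N * p) a : E) *
        ((c : E) * ((a : ZMod (N * p)).val : E)) ^ (n - 1) -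
        ((c : E) * ((a : ZMod (N * p)).val : E)) ^ n +
        (((cu * a : (ZMod (N * p))ˣ) : ZMod (N * p)).val : E) ^ n) := by
    simp only [mul_add, mul_sub, Finset.sum_add_distrib, Finset.sum_sub_distrib]
    rw [← hss]
    have e1 : ∑ a : (ZMod (N * p))ˣ, (χ (ZMod.unitsMap (dvd_mul_right N p) a) : E) *
        ((n : E) * (N * p) * (fl c (N * p) a : E) *
        ((c : E) * ((a : ZMod (N * p)).val : E)) ^ (n - 1)) =
        (n : E) * (N * p) * c ^ (n - 1) * uu N p c n χ := by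
      unfold uu
      rw [Finset.mul_sum]
      refine Finset.sum_congr rfl fun a _ => ?_
      rw [mul_pow]
      ring
    have e2 : ∑ a : (ZMod (N * p))ˣ, (χ (ZMod.unitsMap (dvd_mul_right N p) a) : E) *
        ((c : E) * ((a : ZMod (N * p)).val : E)) ^ n = (c : E) ^ n * ss N p n χ := by
      unfold ss
      rw [Finset.mul_sum]
      refine Finset.sum_congr rfl fun a _ => ?_
      rw [mul_pow]
      ring
    rw [e1, e2]
    ring
  rw [e]
  exact IsUltrametricDist.norm_sum_le_of_forall_le_of_nonneg (by positivity) fun a _ => key a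

private theorem nb_unit {p : ℕ} [Fact p.Prime] {m : ℕ} (h : ¬ p ∣ m) : ‖(m : ℚ_[p])‖ = 1 :=
  Padic.norm_natCast_eq_one_iff.2 ((Nat.Prime.coprime_iff_not_dvd Fact.out).2 h)

private theorem nb_inv {p : ℕ} [Fact p.Prime] {m : ℕ} (h : ¬ p ∣ m) :
    ((m : ℚ_[p]))⁻¹ ∈ PadicInt.subring p := by
  rw [PadicInt.mem_subring_iff, norm_inv, nb_unit h, inv_one]

private theorem nb_bern {p : ℕ} [Fact p.Prime] : ∀ k : ℕ, k + 1 < p →
    ((_root_.bernoulli k : ℚ) : ℚ_[p]) ∈ PadicInt.subring p := by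
  intro k
  induction k using Nat.strong_induction_on with
  | _ k ih =>
    intro hk
    rcases Nat.eq_zero_or_pos k with rfl | hk0
    · rw [_root_.bernoulli_zero, Rat.cast_one]
      exact Subring.one_mem _
    · have h1 := sum_bernoulli (k + 1)
      rw [Finset.sum_range_succ, if_neg (by omega), Nat.choose_succ_self_right] at h1
      have h2 : ((k + 1 : ℕ) : ℚ_[p]) * ((_root_.bernoulli k : ℚ) : ℚ_[p]) =
          - ∑ i ∈ Finset.range k, (((k + 1).choose i : ℕ) : ℚ_[p]) *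
            ((_root_.bernoulli i : ℚ) : ℚ_[p]) := by
        have h3 : ((k + 1 : ℕ) : ℚ) * _root_.bernoulli k =
            - ∑ i ∈ Finset.range k, (((k + 1).choose i : ℕ) : ℚ) * _root_.bernoulli i := by
          linarith
        have h4 := congrArg (fun x : ℚ => (x : ℚ_[p])) h3
        simp only [Rat.cast_mul, Rat.cast_natCast, Rat.cast_neg, Rat.cast_sum] at h4
        exact h4
      have h3 : ‖((k + 1 : ℕ) : ℚ_[p]) * ((_root_.bernoulli k : ℚ) : ℚ_[p])‖ ≤ 1 := by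
        rw [← PadicInt.mem_subring_iff, h2]
        refine Subring.neg_mem _ (Subring.sum_mem _ fun i hi => Subring.mul_mem _ ?_ ?_)
        · exact natCast_mem _ _
        · rw [Finset.mem_range] at hi
          exact ih i hi (by omega)
      rw [norm_mul, nb_unit (fun h => absurd (Nat.le_of_dvd (by omega) h) (by omega)),
        one_mul] at h3
      exact (PadicInt.mem_subring_iff p).2 h3

/-- power sums modulo `p ^ 2` -/
private theorem nb_pow {p : ℕ} [Fact p.Prime] {i : ℕ} (hi : i + 1 < p) :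
    ∃ y ∈ PadicInt.subring p, (∑ j ∈ Finset.range p, (j : ℚ_[p]) ^ i) -
      p * ((_root_.bernoulli i : ℚ) : ℚ_[p]) = (p : ℚ_[p]) ^ 2 * y := by
  refine ⟨∑ k ∈ Finset.range i, ((_root_.bernoulli k : ℚ) : ℚ_[p]) * (((i + 1).choose k : ℕ) : ℚ_[p]) *
    (p : ℚ_[p]) ^ (i - 1 - k) * ((i + 1 : ℕ) : ℚ_[p])⁻¹, ?_, ?_⟩
  · refine Subring.sum_mem _ fun k hk => ?_
    rw [Finset.mem_range] at hk
    refine Subring.mul_mem _ (Subring.mul_mem _ (Subring.mul_mem _ (nb_bern k (by omega))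
      (natCast_mem _ _)) (Subring.pow_mem _ (natCast_mem _ _) _)) (nb_inv ?_)
    exact fun h => absurd (Nat.le_of_dvd (by omega) h) (by omega)
  · have h1 := sum_range_pow p i
    have h2 := congrArg (fun x : ℚ => (x : ℚ_[p])) h1
    simp only [Rat.cast_mul, Rat.cast_natCast, Rat.cast_sum, Rat.cast_pow, Rat.cast_div,
      Rat.cast_add, Rat.cast_one] at h2
    rw [h2, Finset.sum_range_succ, Nat.choose_succ_self_right, Finset.mul_sum]
    have h3 : ((i : ℚ_[p]) + 1) ≠ 0 := by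
      exact_mod_cast (Nat.succ_ne_zero i)
    have h4 : i + 1 - i = 1 := by omega
    rw [h4, pow_one]
    have h5 : ((_root_.bernoulli i : ℚ) : ℚ_[p]) * ((i + 1 : ℕ) : ℚ_[p]) * (p : ℚ_[p]) /
        ((i : ℚ_[p]) + 1) = p * ((_root_.bernoulli i : ℚ) : ℚ_[p]) := by
      push_cast
      field_simp
    rw [h5, add_sub_cancel_right]
    refine Finset.sum_congr rfl fun k hk => ?_
    rw [Finset.mem_range] at hk
    have h6 : i + 1 - k = 2 + (i - 1 - k) := by omega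
    rw [h6, pow_add]
    push_cast
    field_simp

/-- the key congruence -/
private theorem nb_key {p : ℕ} [Fact p.Prime] (N n r : ℕ) (hN : N ≠ 0) (hn : 1 ≤ n)
    (hnp : n < p) :
    ‖(∑ j ∈ Finset.range p, ((r + N * j : ℕ) : ℚ_[p]) ^ n) -
      p * N * ((bb N n r : ℚ) : ℚ_[p]) -
      (N : ℚ_[p]) ^ n * ((∑ j ∈ Finset.range p, (j : ℚ_[p]) ^ n) -
        p * ((_root_.bernoulli n : ℚ) : ℚ_[p]))‖ ≤ ‖(p : ℚ_[p])‖ ^ 2 := by
  have hN' : (N : ℚ_[p]) ≠ 0 := Nat.cast_ne_zero.2 hN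
  have hNQ : (N : ℚ) ≠ 0 := Nat.cast_ne_zero.2 hN
  have h1 : ∑ j ∈ Finset.range p, ((r + N * j : ℕ) : ℚ_[p]) ^ n =
      ∑ i ∈ Finset.range (n + 1), (N : ℚ_[p]) ^ i * (r : ℚ_[p]) ^ (n - i) * (n.choose i : ℕ) *
        ∑ j ∈ Finset.range p, (j : ℚ_[p]) ^ i := by
    simp only [Finset.mul_sum]
    rw [Finset.sum_comm]
    refine Finset.sum_congr rfl fun j _ => ?_
    have h2 : ((r + N * j : ℕ) : ℚ_[p]) = (N : ℚ_[p]) * j + r := by
      push_cast
      ring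
    rw [h2, add_pow]
    refine Finset.sum_congr rfl fun i _ => ?_
    rw [mul_pow]
    ring
  have h2 : (N : ℚ) * bb N n r = ∑ i ∈ Finset.range (n + 1), (N : ℚ) ^ i * (r : ℚ) ^ (n - i) *
      (n.choose i : ℕ) * _root_.bernoulli i := by
    unfold bb Polynomial.bernoulli
    rw [Polynomial.eval_finsetSum, ← mul_assoc, ← pow_succ', Nat.sub_add_cancel hn,
      Finset.mul_sum]
    refine Finset.sum_congr rfl fun i hi => ?_
    rw [Finset.mem_range] at hi
    rw [Polynomial.eval_monomial, div_pow]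
    have h3 : (N : ℚ) ^ n = (N : ℚ) ^ i * (N : ℚ) ^ (n - i) := by
      rw [← pow_add]
      congr 1
      omega
    rw [h3]
    field_simp
  have h3 : (p : ℚ_[p]) * N * ((bb N n r : ℚ) : ℚ_[p]) =
      ∑ i ∈ Finset.range (n + 1), (N : ℚ_[p]) ^ i * (r : ℚ_[p]) ^ (n - i) * (n.choose i : ℕ) *
        (p * ((_root_.bernoulli i : ℚ) : ℚ_[p])) := by
    have h4 := congrArg (fun x : ℚ => (x : ℚ_[p])) h2
    simp only [Rat.cast_mul, Rat.cast_natCast, Rat.cast_sum, Rat.cast_pow] at h4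
    rw [mul_assoc, h4, Finset.mul_sum]
    refine Finset.sum_congr rfl fun i _ => ?_
    ring
  rw [h1, h3, ← Finset.sum_sub_distrib, Finset.sum_range_succ]
  have h8 : (N : ℚ_[p]) ^ n * (r : ℚ_[p]) ^ (n - n) * (n.choose n : ℕ) *
      ∑ j ∈ Finset.range p, (j : ℚ_[p]) ^ n -
      (N : ℚ_[p]) ^ n * (r : ℚ_[p]) ^ (n - n) * (n.choose n : ℕ) *
        (p * ((_root_.bernoulli n : ℚ) : ℚ_[p])) =
      (N : ℚ_[p]) ^ n * ((∑ j ∈ Finset.range p, (j : ℚ_[p]) ^ n) -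
        p * ((_root_.bernoulli n : ℚ) : ℚ_[p])) := by
    rw [Nat.sub_self, pow_zero, Nat.choose_self, Nat.cast_one]
    ring
  rw [h8, add_sub_cancel_right]
  refine IsUltrametricDist.norm_sum_le_of_forall_le_of_nonneg (by positivity) fun i hi => ?_
  rw [Finset.mem_range] at hi
  obtain ⟨y, hy, h4⟩ := nb_pow (p := p) (i := i) (by omega)
  rw [← mul_sub, h4, norm_mul _ ((p : ℚ_[p]) ^ 2 * y), norm_mul ((p : ℚ_[p]) ^ 2) y, norm_pow (p : ℚ_[p])]
  have h5 : ‖(N : ℚ_[p]) ^ i * (r : ℚ_[p]) ^ (n - i) * (n.choose i : ℕ)‖ ≤ 1 := by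
    rw [← PadicInt.mem_subring_iff]
    exact Subring.mul_mem _ (Subring.mul_mem _ (Subring.pow_mem _ (natCast_mem _ _) _)
      (Subring.pow_mem _ (natCast_mem _ _) _)) (natCast_mem _ _)
  have h6 : ‖y‖ ≤ 1 := (PadicInt.mem_subring_iff p).1 hy
  have h7 : 0 ≤ ‖(p : ℚ_[p])‖ ^ 2 := by positivity
  calc ‖(N : ℚ_[p]) ^ i * (r : ℚ_[p]) ^ (n - i) * (n.choose i : ℕ)‖ * (‖(p : ℚ_[p])‖ ^ 2 * ‖y‖)
      ≤ 1 * (‖(p : ℚ_[p])‖ ^ 2 * 1) := by
        refine mul_le_mul h5 (mul_le_mul_of_nonneg_left h6 h7) (by positivity) zero_le_one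
    _ = ‖(p : ℚ_[p])‖ ^ 2 := by ring

/-- the residues prime to `N p` -/
private theorem nb_sum (N p : ℕ) [NeZero N] [NeZero (N * p)] [Fact p.Prime] {E : Type*}
    [AddCommMonoid E] (F : (ZMod N)ˣ → ℕ → E) :
    ∑ a : (ZMod (N * p))ˣ, F (ZMod.unitsMap (dvd_mul_right N p) a) (a : ZMod (N * p)).val =
      ∑ x ∈ (Finset.univ : Finset ((ZMod N)ˣ × Fin p)).filter
        (fun x => ¬ p ∣ (x.1 : ZMod N).val + N * (x.2 : ℕ)),
        F x.1 ((x.1 : ZMod N).val + N * (x.2 : ℕ)) := by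
  classical
  have hN : 0 < N := Nat.pos_of_ne_zero (NeZero.ne N)
  have hp : p.Prime := Fact.out
  have hval : ∀ a : (ZMod (N * p))ˣ, ((ZMod.unitsMap (dvd_mul_right N p) a : (ZMod N)ˣ) :
      ZMod N).val = (a : ZMod (N * p)).val % N := by
    intro a
    rw [ZMod.unitsMap_val, ZMod.cast_eq_val, ZMod.val_natCast]
  have hlt : ∀ a : (ZMod (N * p))ˣ, (a : ZMod (N * p)).val / N < p := by
    intro a
    exact Nat.div_lt_of_lt_mul (ZMod.val_lt _)
  have hrec : ∀ a : (ZMod (N * p))ˣ, ((ZMod.unitsMap (dvd_mul_right N p) a : (ZMod N)ˣ) :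
      ZMod N).val + N * ((a : ZMod (N * p)).val / N) = (a : ZMod (N * p)).val := by
    intro a
    rw [hval, Nat.mod_add_div]
  refine Finset.sum_bij (fun a _ => (ZMod.unitsMap (dvd_mul_right N p) a,
    (⟨(a : ZMod (N * p)).val / N, hlt a⟩ : Fin p))) ?_ ?_ ?_ ?_
  · intro a _
    rw [Finset.mem_filter]
    refine ⟨Finset.mem_univ _, ?_⟩
    show ¬ p ∣ ((ZMod.unitsMap (dvd_mul_right N p) a : (ZMod N)ˣ) : ZMod N).val +
      N * ((a : ZMod (N * p)).val / N)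
    rw [hrec]
    have h1 := (ZMod.val_coe_unit_coprime a).coprime_mul_left_right
    intro h2
    exact (Nat.Prime.coprime_iff_not_dvd hp).1 h1.symm h2
  · intro a _ b _ hab
    have h1 := congrArg Prod.fst hab
    have h2 : (a : ZMod (N * p)).val / N = (b : ZMod (N * p)).val / N :=
      congrArg (fun x : (ZMod N)ˣ × Fin p => (x.2 : ℕ)) hab
    apply Units.ext
    apply ZMod.val_injective
    rw [← hrec a, ← hrec b, h2]
    have h3 : ZMod.unitsMap (dvd_mul_right N p) a = ZMod.unitsMap (dvd_mul_right N p) b := h1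
    rw [h3]
  · rintro ⟨r, j⟩ hx
    have hx2 : ¬ p ∣ (r : ZMod N).val + N * (j : ℕ) := (Finset.mem_filter.1 hx).2
    have hc : ((r : ZMod N).val + N * (j : ℕ)).Coprime (N * p) := by
      refine Nat.Coprime.mul_right ?_ ((Nat.Prime.coprime_iff_not_dvd hp).2 hx2).symm
      rw [Nat.coprime_add_mul_left_left]
      exact ZMod.val_coe_unit_coprime r
    have hm : (r : ZMod N).val + N * (j : ℕ) < N * p := by
      have h1 := ZMod.val_lt (r : ZMod N)
      have h2 := j.2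
      calc (r : ZMod N).val + N * (j : ℕ) < N + N * (j : ℕ) := by omega
        _ = N * ((j : ℕ) + 1) := by ring
        _ ≤ N * p := Nat.mul_le_mul_left _ h2
    have hv : ((ZMod.unitOfCoprime _ hc : (ZMod (N * p))ˣ) : ZMod (N * p)).val =
        (r : ZMod N).val + N * (j : ℕ) := by
      rw [ZMod.coe_unitOfCoprime, ZMod.val_natCast_of_lt hm]
    refine ⟨ZMod.unitOfCoprime _ hc, Finset.mem_univ _, ?_⟩
    refine Prod.ext ?_ ?_
    · apply Units.ext
      apply ZMod.val_injective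
      show ((ZMod.unitsMap (dvd_mul_right N p) (ZMod.unitOfCoprime _ hc) : (ZMod N)ˣ) :
        ZMod N).val = (r : ZMod N).val
      rw [hval, hv, Nat.add_mul_mod_self_left, Nat.mod_eq_of_lt (ZMod.val_lt _)]
    · apply Fin.ext
      show ((ZMod.unitOfCoprime _ hc : (ZMod (N * p))ˣ) : ZMod (N * p)).val / N = (j : ℕ)
      rw [hv, Nat.add_mul_div_left _ _ hN, Nat.div_eq_of_lt (ZMod.val_lt _), zero_add]
  · intro a _
    show _ = F (ZMod.unitsMap (dvd_mul_right N p) a)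
      (((ZMod.unitsMap (dvd_mul_right N p) a : (ZMod N)ˣ) : ZMod N).val +
        N * ((a : ZMod (N * p)).val / N))
    rw [hrec]

private theorem numB3 (N n p : ℕ) [NeZero N] [NeZero (N * p)] [Fact p.Prime] (hn : 2 ≤ n)
    (hnp : n < p) {E : Type*} [NormedField E] [IsUltrametricDist E] [NormedAlgebra ℚ_[p] E]
    (χ : (ZMod N)ˣ →* Eˣ) (hS : ∑ r, (χ r : E) = 0) :
    ‖ss N p n χ - (p : E) * N * TT N n χ‖ ≤ ‖(p : E)‖ ^ 2 := by
  classical
  have hN : N ≠ 0 := NeZero.ne N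
  -- norms of natural numbers and of values of the character
  have hφ : ∀ x : ℚ_[p], ‖algebraMap ℚ_[p] E x‖ = ‖x‖ := fun x => norm_algebraMap' E x
  have hpE : ‖(p : E)‖ = ‖(p : ℚ_[p])‖ := by
    rw [← hφ, map_natCast]
  have hp1 : ‖(p : E)‖ ≤ 1 := by
    rw [hpE, ← PadicInt.mem_subring_iff]
    exact natCast_mem _ _
  have hnat : ∀ m : ℕ, ‖(m : E)‖ ≤ 1 := by
    intro m
    rw [← map_natCast (algebraMap ℚ_[p] E) m, hφ, ← PadicInt.mem_subring_iff]
    exact natCast_mem _ _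
  have hχ : ∀ r, ‖(χ r : E)‖ = 1 := by
    intro r
    have h1 : (χ r : E) ^ Fintype.card (ZMod N)ˣ = 1 := by
      rw [← Units.val_pow_eq_pow_val, ← map_pow, pow_card_eq_one, map_one, Units.val_one]
    have h2 : ‖(χ r : E)‖ ^ Fintype.card (ZMod N)ˣ = 1 := by
      rw [← norm_pow, h1, norm_one]
    exact (pow_eq_one_iff_of_nonneg (norm_nonneg _) Fintype.card_ne_zero).1 h2
  -- the sum over all residues prime to `N`
  obtain ⟨T, hT⟩ : ∃ T : (ZMod N)ˣ × Fin p → E, ∀ x, T x = (χ x.1 : E) *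
      (((x.1 : ZMod N).val + N * (x.2 : ℕ) : ℕ) : E) ^ n := ⟨_, fun _ => rfl⟩
  have h1 : ss N p n χ = ∑ x ∈ (Finset.univ : Finset ((ZMod N)ˣ × Fin p)).filter
      (fun x => ¬ p ∣ (x.1 : ZMod N).val + N * (x.2 : ℕ)), T x := by
    unfold ss
    rw [nb_sum N p (fun r m => (χ r : E) * (m : E) ^ n)]
    exact Finset.sum_congr rfl fun x _ => (hT x).symm
  have h2 := Finset.sum_filter_add_sum_filter_not (Finset.univ : Finset ((ZMod N)ˣ × Fin p))
    (fun x => p ∣ (x.1 : ZMod N).val + N * (x.2 : ℕ)) T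
  have h3 : ‖∑ x ∈ (Finset.univ : Finset ((ZMod N)ˣ × Fin p)).filter
      (fun x => p ∣ (x.1 : ZMod N).val + N * (x.2 : ℕ)), T x‖ ≤ ‖(p : E)‖ ^ 2 := by
    refine IsUltrametricDist.norm_sum_le_of_forall_le_of_nonneg (by positivity) fun x hx => ?_
    obtain ⟨m, hm⟩ := (Finset.mem_filter.1 hx).2
    rw [hT, hm, norm_mul, hχ, one_mul, norm_pow, Nat.cast_mul, norm_mul]
    have h4 : ‖(p : E)‖ * ‖(m : E)‖ ≤ ‖(p : E)‖ := mul_le_of_le_one_right (norm_nonneg _) (hnat m)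
    calc (‖(p : E)‖ * ‖(m : E)‖) ^ n ≤ ‖(p : E)‖ ^ n :=
          pow_le_pow_left₀ (mul_nonneg (norm_nonneg _) (norm_nonneg _)) h4 n
      _ ≤ ‖(p : E)‖ ^ 2 := pow_le_pow_of_le_one (norm_nonneg _) hp1 hn
  have h4 : ‖∑ x, T x - (p : E) * N * TT N n χ‖ ≤ ‖(p : E)‖ ^ 2 := by
    have h5 : ∑ x, T x - (p : E) * N * TT N n χ = ∑ r : (ZMod N)ˣ, (χ r : E) *
        algebraMap ℚ_[p] E ((∑ j ∈ Finset.range p,
          (((r : ZMod N).val + N * j : ℕ) : ℚ_[p]) ^ n) -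
            p * N * ((bb N n (r : ZMod N).val : ℚ) : ℚ_[p])) := by
      unfold TT
      rw [Fintype.sum_prod_type, Finset.mul_sum, ← Finset.sum_sub_distrib]
      refine Finset.sum_congr rfl fun r _ => ?_
      rw [map_sub, map_sum, map_mul, map_mul, map_natCast, map_natCast, map_ratCast, mul_sub,
        Finset.sum_range]
      simp only [hT, map_pow, map_natCast]
      rw [Finset.mul_sum]
      ring
    have h6 : ∑ r : (ZMod N)ˣ, (χ r : E) * algebraMap ℚ_[p] E ((∑ j ∈ Finset.range p,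
          (((r : ZMod N).val + N * j : ℕ) : ℚ_[p]) ^ n) -
            p * N * ((bb N n (r : ZMod N).val : ℚ) : ℚ_[p])) =
        ∑ r : (ZMod N)ˣ, (χ r : E) * algebraMap ℚ_[p] E ((∑ j ∈ Finset.range p,
          (((r : ZMod N).val + N * j : ℕ) : ℚ_[p]) ^ n) -
            p * N * ((bb N n (r : ZMod N).val : ℚ) : ℚ_[p]) -
          (N : ℚ_[p]) ^ n * ((∑ j ∈ Finset.range p, (j : ℚ_[p]) ^ n) -
            p * ((_root_.bernoulli n : ℚ) : ℚ_[p]))) := by
      have h7 : ∑ r : (ZMod N)ˣ, (χ r : E) * algebraMap ℚ_[p] E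
          ((N : ℚ_[p]) ^ n * ((∑ j ∈ Finset.range p, (j : ℚ_[p]) ^ n) -
            p * ((_root_.bernoulli n : ℚ) : ℚ_[p]))) = 0 := by
        rw [← Finset.sum_mul, hS, zero_mul]
      rw [← sub_zero (∑ r : (ZMod N)ˣ, (χ r : E) * algebraMap ℚ_[p] E ((∑ j ∈ Finset.range p,
          (((r : ZMod N).val + N * j : ℕ) : ℚ_[p]) ^ n) -
            p * N * ((bb N n (r : ZMod N).val : ℚ) : ℚ_[p]))), ← h7, ← Finset.sum_sub_distrib]
      refine Finset.sum_congr rfl fun r _ => ?_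
      rw [← mul_sub, ← map_sub]
    rw [h5, h6]
    refine IsUltrametricDist.norm_sum_le_of_forall_le_of_nonneg (by positivity) fun r _ => ?_
    rw [norm_mul, hχ, one_mul, hφ, hpE]
    exact nb_key N n _ hN (by omega) hnp
  have h5 : ss N p n χ - (p : E) * N * TT N n χ = (∑ x, T x - (p : E) * N * TT N n χ) -
      ∑ x ∈ (Finset.univ : Finset ((ZMod N)ˣ × Fin p)).filter
        (fun x => p ∣ (x.1 : ZMod N).val + N * (x.2 : ℕ)), T x := by
    rw [h1, ← h2]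
    ring
  rw [h5, sub_eq_add_neg]
  refine (IsUltrametricDist.norm_add_le_max _ _).trans (max_le h4 ?_)
  rw [norm_neg]
  exact h3

theorem uu_top (N p c : ℕ) [NeZero N] [NeZero (N * p)] [Fact p.Prime] (hp : 2 < p)
    (hpN : ¬ p ∣ N) (hcN : c.Coprime N) (hpc : ¬ p ∣ c)
    {E : Type*} [NormedField E] [IsUltrametricDist E] [NormedAlgebra ℚ_[p] E]
    (χ : (ZMod N)ˣ →* Eˣ) (hχ : 1 ≤ ‖(χ (ZMod.unitOfCoprime c hcN) : E) - 1‖)
    (hT : ‖(TT N (p - 1) χ : E)‖ = 1) : ‖(uu N p c (p - 1) χ : E)‖ = 1 := by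
  have hp1 : ‖(p : E)‖ < 1 := (norm_natCast_lt_one_iff (p := p) p).2 dvd_rfl
  have hp0 : 0 < ‖(p : E)‖ := by
    have h1 : (p : E) = algebraMap ℚ_[p] E (p : ℚ_[p]) := by simp
    rw [h1, norm_algebraMap', norm_pos_iff]
    exact Nat.cast_ne_zero.2 (Fact.out : p.Prime).ne_zero
  have hc0 : 0 < c := Nat.pos_of_ne_zero (by rintro rfl; exact hpc (dvd_zero p))
  have hS : ∑ r, (χ r : E) = 0 := by
    have h1 : (χ (ZMod.unitOfCoprime c hcN) : E) * ∑ r, (χ r : E) = ∑ r, (χ r : E) := by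
      rw [Finset.mul_sum, ← Equiv.sum_comp (Equiv.mulLeft (ZMod.unitOfCoprime c hcN))
        (fun r => (χ r : E))]
      refine Finset.sum_congr rfl fun r _ => ?_
      rw [Equiv.coe_mulLeft, map_mul, Units.val_mul]
    have h2 : ((χ (ZMod.unitOfCoprime c hcN) : E) - 1) * ∑ r, (χ r : E) = 0 := by
      rw [sub_mul, h1, one_mul, sub_self]
    rcases mul_eq_zero.1 h2 with h3 | h3
    · rw [h3, norm_zero] at hχ
      exact absurd hχ (not_le.2 one_pos)
    · exact h3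
  have hn : 2 ≤ p - 1 := by omega
  have hA := numA3 N (p - 1) p c hn hcN hpc χ
  have hB := numB3 N (p - 1) p hn (by omega) χ hS
  have hx := norm_chi χ (ZMod.unitOfCoprime c hcN)
  have hxi : ‖(((χ (ZMod.unitOfCoprime c hcN))⁻¹ : Eˣ) : E)‖ = 1 := by
    rw [Units.val_inv_eq_inv_val, norm_inv, hx, inv_one]
  have hcp : Cg ((c : E) ^ (p - 1)) 1 := by
    have h3 : (p : ℕ) ∣ c ^ (p - 1) - 1 := by
      have h4 : (c : ZMod p) ≠ 0 := by
        rw [Ne, ZMod.natCast_eq_zero_iff]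
        exact hpc
      have h5 := ZMod.pow_card_sub_one_eq_one h4
      rw [← ZMod.natCast_eq_zero_iff, Nat.cast_sub (Nat.one_le_pow _ _ hc0), Nat.cast_pow, h5,
        Nat.cast_one, sub_self]
    rw [Cg]
    have h4 := (norm_natCast_lt_one_iff (p := p) (E := E) _).2 h3
    rwa [Nat.cast_sub (Nat.one_le_pow _ _ hc0), Nat.cast_pow, Nat.cast_one] at h4
  have hD : ‖(c : E) ^ (p - 1) - ((χ (ZMod.unitOfCoprime c hcN))⁻¹ : Eˣ)‖ = 1 := by
    refine Cg.norm_eq (Cg.sub hcp Cg.rfl) ?_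
    have h1 : (1 : E) - ((χ (ZMod.unitOfCoprime c hcN))⁻¹ : Eˣ) =
        (((χ (ZMod.unitOfCoprime c hcN))⁻¹ : Eˣ) : E) *
          ((χ (ZMod.unitOfCoprime c hcN) : E) - 1) := by
      rw [mul_sub, Units.inv_mul, mul_one]
    rw [h1, norm_mul, hxi, one_mul]
    refine le_antisymm ?_ hχ
    rw [sub_eq_add_neg]
    refine (IsUltrametricDist.norm_add_le_max _ _).trans (max_le hx.le ?_)
    rw [norm_neg, norm_one]
  have hN : ‖(N : E)‖ = 1 := norm_natCast_eq_one (p := p) hpN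
  obtain ⟨D, hDdef⟩ : ∃ D : E, D = (c : E) ^ (p - 1) - ((χ (ZMod.unitOfCoprime c hcN))⁻¹ : Eˣ) :=
    ⟨_, rfl⟩
  rw [← hDdef] at hA hD
  set X : E := ((p - 1 : ℕ) : E) * N * c ^ (p - 1 - 1) * uu N p c (p - 1) χ with hX
  set Y : E := D * N * TT N (p - 1) χ with hY
  have h1 : ‖(p : E) * (X - Y)‖ ≤ ‖(p : E)‖ ^ 2 := by
    have e1 : (p : E) * (X - Y) = (((p - 1 : ℕ) : E) * (N * p) * c ^ (p - 1 - 1) *
      uu N p c (p - 1) χ - D * ss N p (p - 1) χ) +
      D * (ss N p (p - 1) χ - (p : E) * N * TT N (p - 1) χ) := by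
      rw [hX, hY]
      ring
    rw [e1]
    refine (IsUltrametricDist.norm_add_le_max _ _).trans (max_le hA ?_)
    rw [norm_mul, hD, one_mul]
    exact hB
  have h2 : ‖X - Y‖ < 1 := by
    rw [norm_mul, sq] at h1
    exact (le_of_mul_le_mul_left h1 hp0).trans_lt hp1
  have h3 : ‖Y‖ = 1 := by
    rw [hY, norm_mul, norm_mul, hD, hN, hT, one_mul, one_mul]
  have h4 : ‖X‖ = 1 := Cg.norm_eq h2 h3
  have h5 : ‖(uu N p c (p - 1) χ : E)‖ ≤ 1 := by
    refine IsUltrametricDist.norm_sum_le_of_forall_le_of_nonneg zero_le_one fun a _ => ?_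
    rw [norm_mul, norm_mul, norm_chi, mul_one, norm_pow]
    exact mul_le_one₀ (norm_natCast_le_one _) (pow_nonneg (norm_nonneg _) _)
      (pow_le_one₀ (norm_nonneg _) (norm_natCast_le_one _))
  refine le_antisymm h5 ?_
  rw [hX, norm_mul] at h4
  have h6 : ‖((p - 1 : ℕ) : E) * N * c ^ (p - 1 - 1)‖ ≤ 1 := by
    have e1 : ((p - 1 : ℕ) : E) * N * c ^ (p - 1 - 1) = (((p - 1) * N * c ^ (p - 1 - 1) : ℕ) : E) := by
      push_cast
      rfl
    rw [e1]
    exact norm_natCast_le_one _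
  calc (1 : ℝ) = ‖((p - 1 : ℕ) : E) * N * c ^ (p - 1 - 1)‖ * ‖(uu N p c (p - 1) χ : E)‖ := h4.symm
    _ ≤ 1 * ‖(uu N p c (p - 1) χ : E)‖ := mul_le_mul_of_nonneg_right h6 (norm_nonneg _)
    _ = _ := one_mul _

end Pool.Agent.AAP
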