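import Pool.Agent.AAP.RedF
import Pool.Agent.AAP.BcTei
import Pool.Agent.AAP.BcLoc
import Pool.Agent.AAP.BcU1
import Pool.Agent.AAP.BcUp
import Pool.Agent.AAP.BcCore

/-!
# Even Galois representations: the criterion with generalized Bernoulli numbers, all reductions
-/

open NumberField Pointwise Matrix

namespace Pool.Agent.AAP

open Pool.Agent.Helper60.FM

/-- characters of order prime to `p` -/
theorem redCritM (n N p : ℕ) [NeZero N] [Fact p.Prime] (hp2 : 2 < p) (hn : 1 ≤ n) (hnp : n < p)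
    (hpN : ¬ p ∣ N)
    {E : Type} [NormedField E] [IsUltrametricDist E] [CompleteSpace E] [NormedAlgebra ℚ_[p] E]
    (V : GQ →* GL (Fin 2) E) (hV : Continuous V) (heven : IsEven V)
    (α β : (ZMod N)ˣ →* Eˣ) (hm : ∃ m : ℕ, ¬ p ∣ m ∧ ∀ a, (((β / α) a : Eˣ) : E) ^ m = 1)
    (hχ : n = p - 1 → ∃ a, 1 ≤ ‖(β a : E) - α a‖)
    (k : ℕ) (hred : ∀ (g : GQ) (a : (ZMod N)ˣ) (b : ℕ),
      ActsAs N g (a : ZMod N).val → ActsAs p g b →
        ‖tr V g - (b : E) ^ k * (α a + β a * (b : E) ^ n)‖ < 1)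
    (htame : ∀ (ℓ : ℕ) (a : (ZMod N)ˣ), ℓ.Prime → ℓ ≠ p → (a : ZMod N) = ℓ →
      ‖(β a : E) * (ℓ : E) ^ (n - 1) - α a‖ < 1 → ∀ 𝔓 : Ideal ZQ, 𝔓.IsPrime → (ℓ : ZQ) ∈ 𝔓 →
        ∀ g ∈ In 𝔓, ∃ m : ℕ, ¬ p ∣ m ∧ V g ^ m = 1)
    (h1 : n = 1 → ∀ a : (ZMod N)ˣ, (a : ZMod N) = p → 1 ≤ ‖(β a : E) - α a‖)
    (hT : ‖(TT N n (β / α) : E)‖ = 1) : HasLine V := by
  classical
  have hpp : p.Prime := Fact.out
  have hNp : NeZero (N * p) := ⟨mul_ne_zero (NeZero.ne N) hpp.ne_zero⟩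
  have co : N.Coprime p := ((Nat.Prime.coprime_iff_not_dvd hpp).2 hpN).symm
  -- the quotient character
  have hχn : ∀ a, ‖(((β / α) a : Eˣ) : E) - 1‖ = ‖(β a : E) - α a‖ := by
    intro a
    have h2 : ((β / α) a : E) * α a = β a := by
      change ((β a / α a : Eˣ) : E) * α a = β a
      rw [← Units.val_mul, div_mul_cancel]
    have h3 : (β a : E) - α a = (((β / α) a : Eˣ) - 1) * α a := by
      rw [sub_mul, h2, one_mul]
    rw [h3, norm_mul, norm_chi α a, mul_one]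
  have hχ1 : n = p - 1 → β / α ≠ 1 := by
    intro h hcon
    obtain ⟨a, ha⟩ := hχ h
    rw [← hχn, hcon, MonoidHom.one_apply, Units.val_one, sub_self, norm_zero] at ha
    exact absurd ha (not_le.2 zero_lt_one)
  have h1' : n = 1 → ∀ a : (ZMod N)ˣ, (a : ZMod N) = p → 1 ≤ ‖(((β / α) a : Eˣ) : E) - 1‖ := by
    intro h a ha
    rw [hχn]
    exact h1 h a ha
  -- the number `c`
  obtain ⟨c, hcN, hpc, hc1, hclt, huu⟩ : ∃ c : ℕ, c.Coprime N ∧ ¬ p ∣ c ∧ 1 < c ∧ c < N * p ∧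
      ‖(uu N p c n (β / α) : E)‖ = 1 := by
    rcases Nat.lt_or_ge (n + 1) p with hn1 | hn1
    · obtain ⟨g, hg⟩ := IsCyclic.exists_generator (α := (ZMod p)ˣ)
      have hord : orderOf g = p - 1 := by
        rw [orderOf_eq_card_of_forall_mem_zpowers hg, Nat.card_eq_fintype_card,
          ZMod.card_units_eq_totient, Nat.totient_prime hpp]
      obtain ⟨c, hcN, hcp, hclt⟩ : ∃ c : ℕ, c ≡ 1 [MOD N] ∧ c ≡ (g : ZMod p).val [MOD p] ∧
          c < N * p := by
        refine ⟨Nat.chineseRemainder co 1 (g : ZMod p).val, (Nat.chineseRemainder co _ _).2.1,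
          (Nat.chineseRemainder co _ _).2.2, ?_⟩
        exact Nat.chineseRemainder_lt_mul co _ _ (NeZero.ne N) hpp.ne_zero
      have hcast : (c : ZMod p) = (g : ZMod p) := by
        have h1 := (ZMod.natCast_eq_natCast_iff _ _ _).2 hcp
        rw [h1, ZMod.natCast_zmod_val]
      have hpc : ¬ p ∣ c := by
        intro h
        rw [← ZMod.natCast_eq_zero_iff, hcast] at h
        exact g.ne_zero h
      have hpow : ∀ i : ℕ, 0 < i → i < p - 1 → ¬ p ∣ c ^ i - 1 := by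
        intro i hi hi' h
        have hc0 : 0 < c := Nat.pos_of_ne_zero (by rintro rfl; exact hpc (dvd_zero p))
        rw [← ZMod.natCast_eq_zero_iff, Nat.cast_sub (Nat.one_le_pow _ _ hc0), Nat.cast_pow,
          hcast, Nat.cast_one, sub_eq_zero] at h
        have h2 : g ^ i = 1 := by
          ext
          rw [Units.val_pow_eq_pow_val, h, Units.val_one]
        have h3 := orderOf_dvd_of_pow_eq_one h2
        rw [hord] at h3
        exact absurd (Nat.le_of_dvd hi h3) (not_le.2 hi')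
      have hc0 : 0 < c := Nat.pos_of_ne_zero (by rintro rfl; exact hpc (dvd_zero p))
      have hc1 : 1 < c := by
        rcases Nat.lt_trichotomy c 1 with h | h | h
        · omega
        · exfalso
          have h1 := hpow 1 one_pos (by omega)
          rw [h] at h1
          exact h1 (by norm_num)
        · exact h
      refine ⟨c, by rw [Nat.Coprime, hcN.gcd_eq, Nat.gcd_one_left], hpc, hc1, hclt, ?_⟩
      rcases Nat.lt_or_ge n 2 with hn2 | hn2
      · have hn1' : n = 1 := by omega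
        subst hn1'
        have hcop : p.Coprime N := co.symm
        have h3 := h1' rfl (ZMod.unitOfCoprime p hcop) (ZMod.coe_unitOfCoprime p hcop)
        have h4 : (β / α) (ZMod.unitOfCoprime p hcop) ≠ 1 := by
          intro h
          rw [h, Units.val_one, sub_self, norm_zero] at h3
          exact absurd h3 (not_le.2 zero_lt_one)
        rw [uu_one N p c hcN hpc (β / α) _ (ZMod.coe_unitOfCoprime p hcop) h4, norm_mul, norm_mul,
          hT, mul_one]
        have h5 : ‖(c : E) - 1‖ = 1 := by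
          have h6 : (c : E) - 1 = ((c ^ 1 - 1 : ℕ) : E) := by
            rw [Nat.cast_sub (Nat.one_le_pow _ _ hc0)]
            push_cast
            ring
          rw [h6]
          exact norm_natCast_eq_one (p := p) (hpow 1 one_pos (by omega))
        rw [h5, one_mul, norm_sub_rev]
        refine le_antisymm ?_ h3
        rw [sub_eq_add_neg]
        refine (IsUltrametricDist.norm_add_le_max _ _).trans (max_le (norm_chi _ _).le ?_)
        rw [norm_neg, norm_one]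
      · exact uu_norm2 N n p c hn2 hn1 hpN hcN hpc (hpow n (by omega) (by omega)) (β / α) hT
    · have hn1' : n = p - 1 := by omega
      obtain ⟨a, ha⟩ := hχ hn1'
      obtain ⟨c, hcN, hcp, hclt⟩ : ∃ c : ℕ, c ≡ (a : ZMod N).val [MOD N] ∧ c ≡ 1 [MOD p] ∧
          c < N * p := by
        refine ⟨Nat.chineseRemainder co (a : ZMod N).val 1, (Nat.chineseRemainder co _ _).2.1,
          (Nat.chineseRemainder co _ _).2.2, ?_⟩
        exact Nat.chineseRemainder_lt_mul co _ _ (NeZero.ne N) hpp.ne_zero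
      have hpc : ¬ p ∣ c := by
        intro h
        have h2 : p ∣ 1 := (hcp.dvd_iff (dvd_refl p)).1 h
        exact hpp.one_lt.ne' (Nat.dvd_one.1 h2)
      have hccop : c.Coprime N := by
        rw [Nat.Coprime, hcN.gcd_eq]
        exact ZMod.val_coe_unit_coprime a
      have hca : ZMod.unitOfCoprime c hccop = a := by
        ext
        rw [ZMod.coe_unitOfCoprime, (ZMod.natCast_eq_natCast_iff _ _ _).2 hcN,
          ZMod.natCast_zmod_val]
      have hχa : 1 ≤ ‖(((β / α) (ZMod.unitOfCoprime c hccop) : Eˣ) : E) - 1‖ := by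
        rw [hca, hχn]
        exact ha
      have hc1 : 1 < c := by
        rcases Nat.lt_trichotomy c 1 with h | h | h
        · exfalso
          have h0 : c = 0 := by omega
          rw [h0] at hpc
          exact hpc (dvd_zero p)
        · exfalso
          subst h
          have h2 : ZMod.unitOfCoprime 1 hccop = 1 := by
            ext
            rw [ZMod.coe_unitOfCoprime, Nat.cast_one, Units.val_one]
          rw [h2, map_one, Units.val_one, sub_self, norm_zero] at hχa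
          exact absurd hχa (not_le.2 zero_lt_one)
        · exact h
      refine ⟨c, hccop, hpc, hc1, hclt, ?_⟩
      rw [hn1'] at hT ⊢
      exact uu_top N p c hp2 hpN hccop hpc (β / α) hχa hT
  refine redCoreT n N p c hn hnp hp2 hpN hc1 hclt hcN hpc V hV heven
    ({ℓ | ℓ ∣ N * p} ∪ {ℓ | ℓ.Prime ∧ ∃ a : (ZMod N)ˣ, (a : ZMod N) = ℓ ∧
      1 ≤ ‖(β a : E) * (ℓ : E) ^ (n - 1) - α a‖}) ?_ α β hχ k hred ?_ huu
  · intro ℓ hℓ hℓS
    rw [Set.mem_union, not_or] at hℓS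
    obtain ⟨h1, h2⟩ := hℓS
    have h1' : ¬ ℓ ∣ N * p := h1
    have hℓN : ℓ.Coprime N := (Nat.Prime.coprime_iff_not_dvd hℓ).2
      fun h => h1' (h.mul_right p)
    have hℓp : ℓ ≠ p := by
      rintro rfl
      exact h1' (dvd_mul_left _ _)
    have h3 : ‖(β (ZMod.unitOfCoprime ℓ hℓN) : E) * (ℓ : E) ^ (n - 1) -
        α (ZMod.unitOfCoprime ℓ hℓN)‖ < 1 := by
      by_contra hcon
      rw [not_lt] at hcon
      exact h2 ⟨hℓ, _, ZMod.coe_unitOfCoprime ℓ hℓN, hcon⟩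
    refine unramAt_of_pt V ℓ ?_
    intro 𝔓 hP hℓP g hg
    obtain ⟨m, hm, hmV⟩ := htame ℓ _ hℓ hℓp (ZMod.coe_unitOfCoprime ℓ hℓN) h3 𝔓 hP hℓP g hg
    refine one_of_tame n N p hp2 V ⟨α, β, k, hred⟩ 𝔓 hP ?_ g hg m hm hmV
    intro hmem
    have h4 : IsCoprime (ℓ : ℤ) ((N * p : ℕ) : ℤ) := Nat.isCoprime_iff_coprime.mpr
      ((Nat.Prime.coprime_iff_not_dvd hℓ).mpr h1')
    obtain ⟨a, b, hab⟩ := h4
    have h5 : (1 : ZQ) ∈ 𝔓 := by
      have h6 : (1 : ZQ) = (a : ZQ) * (ℓ : ZQ) + (b : ZQ) * ((N * p : ℕ) : ZQ) := by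
        exact_mod_cast congrArg (fun z : ℤ => (z : ZQ)) hab.symm
      rw [h6]
      exact 𝔓.add_mem (𝔓.mul_mem_left _ hℓP) (𝔓.mul_mem_left _ hmem)
    exact hP.ne_top ((Ideal.eq_top_iff_one 𝔓).mpr h5)
  · intro K _ _ _ P hP hPS
    obtain ⟨ℓ, hℓS, hℓP⟩ := hPS
    by_cases hdv : ℓ ∣ N * p
    · have h1 : ∃ ℓ : ℕ, ℓ.Prime ∧ ℓ ∣ N * p ∧ (ℓ : 𝓞 K) ∈ P := by
        have h2 : ((∏ q ∈ (N * p).primeFactorsList.toFinset,
            q ^ (N * p).factorization q : ℕ) : 𝓞 K) ∈ P := by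
          have h3 : ∏ q ∈ (N * p).primeFactorsList.toFinset, q ^ (N * p).factorization q =
              N * p := Nat.prod_factorization_pow_eq_self (NeZero.ne _)
          rw [h3]
          obtain ⟨e, he⟩ := hdv
          rw [he, Nat.cast_mul]
          exact Ideal.mul_mem_right _ _ hℓP
        rw [Nat.cast_prod] at h2
        obtain ⟨q, hq, hqP⟩ := (Ideal.IsPrime.prod_mem_iff (hp := hP)).1 h2
        rw [Nat.cast_pow] at hqP
        rw [List.mem_toFinset] at hq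
        exact ⟨q, Nat.prime_of_mem_primeFactorsList hq, Nat.dvd_of_mem_primeFactorsList hq,
          hP.mem_of_pow_mem _ hqP⟩
      exact locB N n p hn hnp hpN K (β / α) hm hχ1 h1' hT P hP h1
    · rcases hℓS with h | h
      · exact absurd h hdv
      · obtain ⟨hℓ, a, ha, ha1⟩ := h
        exact locFrob n N p α β ℓ hℓ hdv a ha ha1 K P hP hℓP

/-- the criterion -/
theorem redCritT (n N p : ℕ) [NeZero N] [Fact p.Prime] (hp2 : 2 < p) (hn : 1 ≤ n) (hnp : n < p)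
    (hpN : ¬ p ∣ N)
    {E : Type} [NormedField E] [IsUltrametricDist E] [CompleteSpace E] [NormedAlgebra ℚ_[p] E]
    (V : GQ →* GL (Fin 2) E) (hV : Continuous V) (heven : IsEven V)
    (α β : (ZMod N)ˣ →* Eˣ)
    (hχ : n = p - 1 → ∃ a, 1 ≤ ‖(β a : E) - α a‖)
    (k : ℕ) (hred : ∀ (g : GQ) (a : (ZMod N)ˣ) (b : ℕ),
      ActsAs N g (a : ZMod N).val → ActsAs p g b →
        ‖tr V g - (b : E) ^ k * (α a + β a * (b : E) ^ n)‖ < 1)
    (htame : ∀ (ℓ : ℕ) (a : (ZMod N)ˣ), ℓ.Prime → ℓ ≠ p → (a : ZMod N) = ℓ →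
      ‖(β a : E) * (ℓ : E) ^ (n - 1) - α a‖ < 1 → ∀ 𝔓 : Ideal ZQ, 𝔓.IsPrime → (ℓ : ZQ) ∈ 𝔓 →
        ∀ g ∈ In 𝔓, ∃ m : ℕ, ¬ p ∣ m ∧ V g ^ m = 1)
    (h1 : n = 1 → ∀ a : (ZMod N)ˣ, (a : ZMod N) = p → 1 ≤ ‖(β a : E) - α a‖)
    (hT : ‖(TT N n (β / α) : E)‖ = 1) : HasLine V := by
  obtain ⟨s, m, hm, hs⟩ := teiPow N p E
  have hα := (hs α).1
  have hβ := (hs β).1
  have hdist : ∀ a, Cg ((((β ^ s) a : Eˣ) : E) - ((α ^ s) a : Eˣ)) ((β a : E) - α a) :=
    fun a => Cg.sub (hβ a) (hα a)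
  have hge : ∀ a, 1 ≤ ‖(β a : E) - α a‖ →
      1 ≤ ‖(((β ^ s) a : Eˣ) : E) - ((α ^ s) a : Eˣ)‖ := by
    intro a ha
    by_contra hcon
    rw [not_le] at hcon
    have h2 : Cg (((β ^ s) a : Eˣ) : E) ((α ^ s) a : Eˣ) := hcon
    have h3 : Cg (β a : E) (α a) := (hβ a).symm.trans (h2.trans (hα a))
    exact absurd ha (not_le.2 h3)
  have hdiv : β ^ s / α ^ s = (β / α) ^ s := (div_pow β α s).symm
  have hne : ∀ γ δ : (ZMod N)ˣ →* Eˣ, (∃ a, 1 ≤ ‖(δ a : E) - γ a‖) → δ / γ ≠ 1 := by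
    rintro γ δ ⟨a, ha⟩ hcon
    have h2 : δ = γ := div_eq_one.1 hcon
    rw [h2, sub_self, norm_zero] at ha
    exact absurd ha (not_le.2 zero_lt_one)
  refine redCritM n N p hp2 hn hnp hpN V hV heven (α ^ s) (β ^ s) ⟨m, hm, ?_⟩ ?_ k ?_ ?_ ?_ ?_
  · intro a
    rw [hdiv]
    exact (hs (β / α)).2 a
  · intro h
    obtain ⟨a, ha⟩ := hχ h
    exact ⟨a, hge a ha⟩
  · intro g a b hga hgb
    have h2 : Cg (tr V g) ((b : E) ^ k * (α a + β a * (b : E) ^ n)) := hred g a b hga hgb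
    refine h2.trans (Cg.mul Cg.rfl (Cg.add (hα a).symm (Cg.mul (hβ a).symm Cg.rfl
      (norm_chi _ _).le ?_)) ?_ ?_)
    · rw [norm_pow]
      exact pow_le_one₀ (norm_nonneg _) (norm_natCast_le_one _)
    · rw [norm_pow]
      exact pow_le_one₀ (norm_nonneg _) (norm_natCast_le_one _)
    · refine (IsUltrametricDist.norm_add_le_max _ _).trans (max_le (norm_chi _ _).le ?_)
      rw [norm_mul, norm_chi, one_mul, norm_pow]
      exact pow_le_one₀ (norm_nonneg _) (norm_natCast_le_one _)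
  · intro ℓ a hℓ hℓp ha h
    refine htame ℓ a hℓ hℓp ha ?_
    have h2 : Cg ((((β ^ s) a : Eˣ) : E) * (ℓ : E) ^ (n - 1)) ((α ^ s) a : Eˣ) := h
    have h3 : Cg ((β a : E) * (ℓ : E) ^ (n - 1)) ((((β ^ s) a : Eˣ) : E) * (ℓ : E) ^ (n - 1)) :=
      Cg.mul (hβ a).symm Cg.rfl (norm_chi _ _).le (by
        rw [norm_pow]
        exact pow_le_one₀ (norm_nonneg _) (norm_natCast_le_one _))
    exact h3.trans (h2.trans (hα a))
  · intro h a ha
    exact hge a (h1 h a ha)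
  · rw [hdiv]
    refine Cg.norm_eq (tt_cg N n p hnp hpN _ (β / α) ?_ ?_ (hs (β / α)).1) hT
    · intro h
      rw [← hdiv]
      obtain ⟨a, ha⟩ := hχ h
      exact hne _ _ ⟨a, hge a ha⟩
    · intro h
      exact hne _ _ (hχ h)

end Pool.Agent.AAP
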