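import Pool.Agent.AAP.LocTT

/-!
# AAP3-BcTT (0.7h): integrality of the generalized Bernoulli numbers, `n ≤ p - 1`

Compare with `tt_le` of `LocTT.lean` (`n + 1 < p`); copy what you need (the private lemmas
`lt_bern`, `lt_bb`, `lt_unitE`, `lt_chi`).
`bb N n r = N ^ (n-1) B_n(r/N) = ∑_{i ≤ n} C(n,i) B_i r ^ (n-i) N ^ (i-1)` (see the proof of `lt_bb`), and
`B_i` is `p`-integral for `i + 1 < p`. For `n = p - 1` the term `i = n` of `TT N n χ` is
`N ^ (n-1) B_n ∑ χ(r) = 0` as `χ ≠ 1` (`∑ χ(r) = 0`: multiply by `χ(b) ≠ 1`), so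
`TT N n χ = ∑ χ(r) x_r` with `x_r` the sum of the other terms, of norm at most one, independent of
`χ`. This gives (1) and (2).
-/

namespace Pool.Agent.AAP

private theorem lt_unit {p : ℕ} [Fact p.Prime] {m : ℕ} (h : ¬ p ∣ m) : ‖(m : ℚ_[p])‖ = 1 :=
  Padic.norm_natCast_eq_one_iff.2 ((Nat.Prime.coprime_iff_not_dvd Fact.out).2 h)

private theorem lt_unitE {p : ℕ} [Fact p.Prime] (E : Type*) [NormedField E] [NormedAlgebra ℚ_[p] E]
    {m : ℕ} (h : ¬ p ∣ m) : ‖(m : E)‖ = 1 := by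
  have h1 : (m : E) = algebraMap ℚ_[p] E (m : ℚ_[p]) := (map_natCast _ _).symm
  rw [h1, norm_algebraMap', lt_unit h]

private theorem lt_bern {p : ℕ} [Fact p.Prime] : ∀ k : ℕ, k + 1 < p →
    ((_root_.bernoulli k : ℚ) : ℚ_[p]) ∈ PadicInt.subring p := by
  intro k
  induction k using Nat.strong_induction_on with
  | _ k ih =>
    intro hk
    rcases Nat.eq_zero_or_pos k with rfl | hk0
    · rw [_root_.bernoulli_zero, Rat.cast_one]
      exact Subring.one_mem _
    · have h1 := sum_bernoulli (k + 1)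
      rw [Finset.sum_range_succ, if_neg (by omega), Nat.choose_succ_self_right] at h1
      have h2 : ((k + 1 : ℕ) : ℚ_[p]) * ((_root_.bernoulli k : ℚ) : ℚ_[p]) =
          - ∑ i ∈ Finset.range k, (((k + 1).choose i : ℕ) : ℚ_[p]) *
            ((_root_.bernoulli i : ℚ) : ℚ_[p]) := by
        have h3 : ((k + 1 : ℕ) : ℚ) * _root_.bernoulli k =
            - ∑ i ∈ Finset.range k, (((k + 1).choose i : ℕ) : ℚ) * _root_.bernoulli i := by
          linarith
        have h4 := congrArg (fun x : ℚ => (x : ℚ_[p])) h3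
        simp only [Rat.cast_mul, Rat.cast_natCast, Rat.cast_neg, Rat.cast_sum] at h4
        exact h4
      have h3 : ‖((k + 1 : ℕ) : ℚ_[p]) * ((_root_.bernoulli k : ℚ) : ℚ_[p])‖ ≤ 1 := by
        rw [← PadicInt.mem_subring_iff, h2]
        refine Subring.neg_mem _ (Subring.sum_mem _ fun i hi => Subring.mul_mem _ ?_ ?_)
        · exact natCast_mem _ _
        · rw [Finset.mem_range] at hi
          exact ih i hi (by omega)
      rw [norm_mul, lt_unit (fun h => absurd (Nat.le_of_dvd (by omega) h) (by omega)),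
        one_mul] at h3
      exact (PadicInt.mem_subring_iff p).2 h3

private theorem lt_chi (N : ℕ) [NeZero N] {E : Type*} [NormedField E]
    (χ : (ZMod N)ˣ →* Eˣ) (r : (ZMod N)ˣ) : ‖(χ r : E)‖ = 1 := by
  refine (pow_eq_one_iff_of_nonneg (norm_nonneg _) (Nat.card_pos (α := (ZMod N)ˣ)).ne').mp ?_
  rw [← norm_pow, ← Units.val_pow_eq_pow_val, ← map_pow, pow_card_eq_one']
  simp

private theorem lt_low {p : ℕ} [Fact p.Prime] (N n r : ℕ) (hpN : ¬ p ∣ N) (hnp : n < p) :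
    ‖((bb N n r - (N : ℚ) ^ (n - 1) * _root_.bernoulli n : ℚ) : ℚ_[p])‖ ≤ 1 := by
  have h1 : bb N n r - (N : ℚ) ^ (n - 1) * _root_.bernoulli n =
      (N : ℚ) ^ (n - 1) * ∑ i ∈ Finset.range n, _root_.bernoulli i * (n.choose i : ℕ) *
        ((r : ℚ) / N) ^ (n - i) := by
    unfold bb Polynomial.bernoulli
    rw [Polynomial.eval_finsetSum, Finset.sum_range_succ]
    simp only [Polynomial.eval_monomial]
    rw [Nat.choose_self, Nat.sub_self, pow_zero]
    push_cast
    ring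
  rw [h1, ← PadicInt.mem_subring_iff]
  simp only [Rat.cast_mul, Rat.cast_sum, Rat.cast_pow, Rat.cast_natCast, Rat.cast_div]
  refine Subring.mul_mem _ (Subring.pow_mem _ (natCast_mem _ _) _)
    (Subring.sum_mem _ fun i hi => Subring.mul_mem _ (Subring.mul_mem _ ?_ (natCast_mem _ _))
      (Subring.pow_mem _ ?_ _))
  · rw [Finset.mem_range] at hi
    exact lt_bern i (by omega)
  · rw [PadicInt.mem_subring_iff, norm_div, lt_unit hpN, div_one, ← PadicInt.mem_subring_iff]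
    exact natCast_mem _ _

private theorem lt_repr (N n p : ℕ) [NeZero N] [Fact p.Prime] (hnp : n < p) (hpN : ¬ p ∣ N)
    {E : Type*} [NormedField E] [IsUltrametricDist E] [NormedAlgebra ℚ_[p] E] :
    ∃ x : (ZMod N)ˣ → E, (∀ r, ‖x r‖ ≤ 1) ∧ ∀ χ : (ZMod N)ˣ →* Eˣ, (n = p - 1 → χ ≠ 1) →
      (TT N n χ : E) = ∑ r, (χ r : E) * x r := by
  have hE : ∀ q : ℚ, ‖(q : E)‖ = ‖(q : ℚ_[p])‖ := by
    intro q
    have h1 : (q : E) = algebraMap ℚ_[p] E (q : ℚ_[p]) := (map_ratCast _ _).symm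
    rw [h1, norm_algebraMap']
  have : CharZero E := charZero_of_injective_algebraMap (algebraMap ℚ_[p] E).injective
  by_cases hn : n = p - 1
  · refine ⟨fun r => ((bb N n (r : ZMod N).val - (N : ℚ) ^ (n - 1) * _root_.bernoulli n : ℚ) : E),
      fun r => ?_, fun χ hχ => ?_⟩
    · rw [hE]
      exact lt_low N n _ hpN hnp
    · have h2 : ∑ r : (ZMod N)ˣ, (χ r : E) = 0 := by
        have h3 := sum_hom_units_eq_zero ((Units.coeHom E).comp χ) (by
          intro h
          apply hχ hn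
          ext r
          have h4 := DFunLike.congr_fun h r
          exact h4)
        exact h3
      have h3 : ∀ r : (ZMod N)ˣ, (χ r : E) *
          ((bb N n (r : ZMod N).val - (N : ℚ) ^ (n - 1) * _root_.bernoulli n : ℚ) : E) =
          (χ r : E) * ((bb N n (r : ZMod N).val : ℚ) : E) -
            (χ r : E) * (((N : ℚ) ^ (n - 1) * _root_.bernoulli n : ℚ) : E) := by
        intro r
        rw [Rat.cast_sub, mul_sub]
      simp only [h3]
      rw [Finset.sum_sub_distrib, ← Finset.sum_mul, h2, zero_mul, sub_zero]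
      rfl
  · refine ⟨fun r => ((bb N n (r : ZMod N).val : ℚ) : E), fun r => ?_, fun χ _ => rfl⟩
    rw [hE]
    have h1 := lt_low N n (r : ZMod N).val hpN hnp
    have h2 : ‖(((N : ℚ) ^ (n - 1) * _root_.bernoulli n : ℚ) : ℚ_[p])‖ ≤ 1 := by
      rw [← PadicInt.mem_subring_iff, Rat.cast_mul, Rat.cast_pow, Rat.cast_natCast]
      exact Subring.mul_mem _ (Subring.pow_mem _ (natCast_mem _ _) _) (lt_bern n (by omega))
    have h3 : ((bb N n (r : ZMod N).val : ℚ) : ℚ_[p]) =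
        ((bb N n (r : ZMod N).val - (N : ℚ) ^ (n - 1) * _root_.bernoulli n : ℚ) : ℚ_[p]) +
          (((N : ℚ) ^ (n - 1) * _root_.bernoulli n : ℚ) : ℚ_[p]) := by
      rw [← Rat.cast_add, sub_add_cancel]
    rw [h3, ← PadicInt.mem_subring_iff]
    exact Subring.add_mem _ ((PadicInt.mem_subring_iff p).2 h1)
      ((PadicInt.mem_subring_iff p).2 h2)

/-- (1) `TT` is integral -/
theorem tt_le' (N n p : ℕ) [NeZero N] [Fact p.Prime] (hnp : n < p) (hpN : ¬ p ∣ N)
    {E : Type*} [NormedField E] [IsUltrametricDist E] [NormedAlgebra ℚ_[p] E]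
    (χ : (ZMod N)ˣ →* Eˣ) (hχ : n = p - 1 → χ ≠ 1) : ‖(TT N n χ : E)‖ ≤ 1 := by
  obtain ⟨x, hx, h⟩ := lt_repr N n p hnp hpN (E := E)
  rw [h χ hχ]
  refine IsUltrametricDist.norm_sum_le_of_forall_le_of_nonneg zero_le_one fun r _ => ?_
  rw [norm_mul, lt_chi, one_mul]
  exact hx r

/-- (2) `TT` modulo the maximal ideal depends only on the values of the character modulo the
maximal ideal -/
theorem tt_cg (N n p : ℕ) [NeZero N] [Fact p.Prime] (hnp : n < p) (hpN : ¬ p ∣ N)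
    {E : Type*} [NormedField E] [IsUltrametricDist E] [NormedAlgebra ℚ_[p] E]
    (χ χ' : (ZMod N)ˣ →* Eˣ) (hχ : n = p - 1 → χ ≠ 1) (hχ' : n = p - 1 → χ' ≠ 1)
    (h : ∀ a, Cg (χ a : E) (χ' a)) : Cg (TT N n χ : E) (TT N n χ') := by
  obtain ⟨x, hx, hT⟩ := lt_repr N n p hnp hpN (E := E)
  rw [hT χ hχ, hT χ' hχ']
  exact Cg.sum _ _ _ fun r _ => (h r).mul Cg.rfl (lt_chi N χ' r).le (hx r)

end Pool.Agent.AAP
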