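import Mathlib

/-!
# AAP2-Bd: functions bounded by `(C n) ^ (C n)`

The class of these functions is closed under products and powers and contains the constants, the
exponential functions of linear functions and the factorials of linear functions.
-/

open Nat

namespace Pool.Agent.AAP

/-- `f n ≤ (C n) ^ (C n)` for some `C` and all `n ≥ 1` -/
def Bd (f : ℕ → ℕ) : Prop := ∃ C : ℕ, ∀ n, 1 ≤ n → f n ≤ (C * n) ^ (C * n)

private lemma bd_le {C C' n : ℕ} (h : C ≤ C') (hn : 1 ≤ n) :
    (C * n) ^ (C * n) ≤ (C' * n) ^ (C' * n) := by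
  rcases Nat.eq_zero_or_pos C' with h0 | h0
  · have h1 : C = 0 := by omega
    rw [h0, h1]
  · have h1 : 1 ≤ C' * n := Nat.mul_pos h0 hn
    have h2 : C * n ≤ C' * n := Nat.mul_le_mul_right n h
    exact (Nat.pow_le_pow_left h2 _).trans (Nat.pow_le_pow_right h1 h2)

private lemma bd_aux {C n x y : ℕ} (hC : 1 ≤ C) (hn : 1 ≤ n) (hx : x ≤ C * n) (hy : y ≤ C * n) :
    x ^ y ≤ (C * n) ^ (C * n) :=
  (Nat.pow_le_pow_left hx _).trans (Nat.pow_le_pow_right (Nat.mul_pos hC hn) hy)

theorem Bd.mono {f g : ℕ → ℕ} (hg : Bd g) (h : ∀ n, 1 ≤ n → f n ≤ g n) : Bd f := by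
  obtain ⟨C, hC⟩ := hg
  exact ⟨C, fun n hn => (h n hn).trans (hC n hn)⟩

theorem Bd.mul {f g : ℕ → ℕ} (hf : Bd f) (hg : Bd g) : Bd fun n => f n * g n := by
  obtain ⟨C, hC⟩ := hf
  obtain ⟨C', hC'⟩ := hg
  refine ⟨C + C', fun n hn => ?_⟩
  have h1 : C * n ≤ (C + C') * n := Nat.mul_le_mul_right n (Nat.le_add_right _ _)
  have h2 : C' * n ≤ (C + C') * n := Nat.mul_le_mul_right n (Nat.le_add_left _ _)
  calc f n * g n ≤ (C * n) ^ (C * n) * (C' * n) ^ (C' * n) := Nat.mul_le_mul (hC n hn) (hC' n hn)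
    _ ≤ ((C + C') * n) ^ (C * n) * ((C + C') * n) ^ (C' * n) :=
        Nat.mul_le_mul (Nat.pow_le_pow_left h1 _) (Nat.pow_le_pow_left h2 _)
    _ = ((C + C') * n) ^ ((C + C') * n) := by rw [← pow_add, ← add_mul]

theorem Bd.const (a : ℕ) : Bd fun _ => a := by
  refine ⟨a + 1, fun n hn => ?_⟩
  have h1 : a ^ 1 ≤ ((a + 1) * n) ^ ((a + 1) * n) := by
    apply bd_aux (Nat.succ_pos a) hn
    · nlinarith
    · exact Nat.mul_pos (Nat.succ_pos a) hn
  rwa [pow_one] at h1

theorem Bd.pow {f : ℕ → ℕ} (hf : Bd f) (k : ℕ) : Bd fun n => f n ^ k := by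
  induction k with
  | zero =>
    have h : (fun n => f n ^ 0) = fun _ => 1 := by
      funext n
      exact pow_zero _
    rw [h]
    exact Bd.const 1
  | succ k ih =>
    have h : (fun n => f n ^ (k + 1)) = fun n => f n ^ k * f n := by
      funext n
      exact pow_succ _ _
    rw [h]
    exact Bd.mul ih hf

theorem Bd.pow_lin (a b c : ℕ) : Bd fun n => a ^ (b * n + c) := by
  refine ⟨a + b + c + 1, fun n hn => ?_⟩
  apply bd_aux (by omega) hn
  · nlinarith
  · nlinarith

theorem Bd.fact (a b : ℕ) : Bd fun n => (a * n + b)! := by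
  refine ⟨a + b + 1, fun n hn => ?_⟩
  refine (Nat.factorial_le_pow _).trans ?_
  apply bd_aux (by omega) hn
  · nlinarith
  · nlinarith

theorem Bd.prod {ι : Type*} (s : Finset ι) (f : ι → ℕ → ℕ) (h : ∀ i ∈ s, Bd (f i)) :
    Bd fun n => ∏ i ∈ s, f i n := by
  classical
  induction s using Finset.induction_on with
  | empty =>
    have h' : (fun n => ∏ i ∈ (∅ : Finset ι), f i n) = fun _ => 1 := by
      funext n
      exact Finset.prod_empty
    rw [h']
    exact Bd.const 1
  | insert j s hj ih =>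
    have h' : (fun n => ∏ i ∈ insert j s, f i n) = fun n => f j n * ∏ i ∈ s, f i n := by
      funext n
      exact Finset.prod_insert hj
    rw [h']
    exact Bd.mul (h j (Finset.mem_insert_self j s))
      (ih fun i hi => h i (Finset.mem_insert_of_mem hi))

end Pool.Agent.AAP
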