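import Pool.Agent.AAP.Cyc

/-!
# AAP2-BernInt: denominators and size of the values of Bernoulli polynomials

`(k + 1)! B_k` is an integer and `|B_k| ≤ k!`, by the recursion for the Bernoulli numbers; then
`N (n+1)! bb N n r = ∑_k C(n,k) (n+1)! B_k r ^ (n-k) N ^ k`.
-/

open Nat

namespace Pool.Agent.AAP

private theorem bi_rec (k : ℕ) (hk : 1 ≤ k) : ((k + 1 : ℕ) : ℚ) * _root_.bernoulli k =
    - ∑ i ∈ Finset.range k, (((k + 1).choose i : ℕ) : ℚ) * _root_.bernoulli i := by
  have h1 := sum_bernoulli (k + 1)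
  rw [Finset.sum_range_succ, if_neg (by omega), Nat.choose_succ_self_right] at h1
  linarith

private theorem bi_geom (k : ℕ) : ∑ i ∈ Finset.range k, (1 / 2 : ℚ) ^ (k - i) = 1 - (1 / 2) ^ k := by
  induction k with
  | zero => simp
  | succ k ih =>
    rw [Finset.sum_range_succ']
    simp only [Nat.add_sub_add_right, Nat.sub_zero]
    rw [ih, pow_succ]
    ring

/-- integrality -/
private theorem bi_int (k : ℕ) : ∀ n, k ≤ n →
    ∃ z : ℤ, (z : ℚ) = (((n + 1)! : ℕ) : ℚ) * _root_.bernoulli k := by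
  induction k using Nat.strong_induction_on with
  | _ k ih =>
    intro n hn
    rcases Nat.eq_zero_or_pos k with rfl | hk
    · exact ⟨((n + 1)! : ℕ), by rw [_root_.bernoulli_zero, mul_one]; norm_cast⟩
    · -- `k! B_i` is an integer for `i < k`
      have h1 : ∀ i ∈ Finset.range k, ∃ z : ℤ, (z : ℚ) = ((k ! : ℕ) : ℚ) * _root_.bernoulli i := by
        intro i hi
        rw [Finset.mem_range] at hi
        obtain ⟨z, hz⟩ := ih i hi (k - 1) (by omega)
        rw [Nat.sub_add_cancel hk] at hz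
        exact ⟨z, hz⟩
      choose! z hz using h1
      obtain ⟨c, hc⟩ : (k + 1)! ∣ (n + 1)! := Nat.factorial_dvd_factorial (by omega)
      refine ⟨(c : ℤ) * - ∑ i ∈ Finset.range k, (((k + 1).choose i : ℕ) : ℤ) * z i, ?_⟩
      have h2 := bi_rec k hk
      have h3 : (((k + 1)! : ℕ) : ℚ) * _root_.bernoulli k =
          - ∑ i ∈ Finset.range k, (((k + 1).choose i : ℕ) : ℚ) * z i := by
        rw [Nat.factorial_succ, Nat.cast_mul, mul_comm ((k + 1 : ℕ) : ℚ), mul_assoc, h2,
          mul_neg, Finset.mul_sum]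
        congr 1
        refine Finset.sum_congr rfl fun i hi => ?_
        rw [hz i hi]
        ring
      rw [hc, Nat.cast_mul, mul_comm (((k + 1)! : ℕ) : ℚ), mul_assoc, h3]
      push_cast
      ring

private theorem bi_two (j : ℕ) : 2 ^ j ≤ (j + 1)! := by
  induction j with
  | zero => simp
  | succ j ih =>
    rw [Nat.factorial_succ (j + 1), pow_succ, mul_comm]
    exact Nat.mul_le_mul (by omega) ih

/-- size -/
private theorem bi_abs (k : ℕ) : |_root_.bernoulli k| ≤ ((k ! : ℕ) : ℚ) := by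
  induction k using Nat.strong_induction_on with
  | _ k ih =>
    rcases Nat.eq_zero_or_pos k with rfl | hk
    · rw [_root_.bernoulli_zero]
      simp
    · have h2 := bi_rec k hk
      have hk1 : (0 : ℚ) < ((k + 1 : ℕ) : ℚ) := by positivity
      have hF : (0 : ℚ) < (((k + 1)! : ℕ) : ℚ) := by exact_mod_cast Nat.factorial_pos _
      have h3 : ((k + 1 : ℕ) : ℚ) * |_root_.bernoulli k| ≤
          ∑ i ∈ Finset.range k, (((k + 1)! : ℕ) : ℚ) * (1 / 2) ^ (k - i) := by
        rw [← abs_of_pos hk1, ← abs_mul, h2, abs_neg]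
        refine (Finset.abs_sum_le_sum_abs _ _).trans (Finset.sum_le_sum fun i hi => ?_)
        rw [Finset.mem_range] at hi
        rw [abs_mul, abs_of_nonneg (Nat.cast_nonneg _)]
        have h4 := ih i hi
        have h5 : (((k + 1).choose i : ℕ) : ℚ) * ((i ! : ℕ) : ℚ) * (((k + 1 - i)! : ℕ) : ℚ) =
            (((k + 1)! : ℕ) : ℚ) := by
          exact_mod_cast Nat.choose_mul_factorial_mul_factorial (by omega : i ≤ k + 1)
        have h6 : (2 : ℚ) ^ (k - i) ≤ (((k + 1 - i)! : ℕ) : ℚ) := by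
          have h7 := bi_two (k - i)
          rw [show k - i + 1 = k + 1 - i by omega] at h7
          exact_mod_cast h7
        have h7 : (0 : ℚ) < 2 ^ (k - i) := by positivity
        calc (((k + 1).choose i : ℕ) : ℚ) * |_root_.bernoulli i|
            ≤ (((k + 1).choose i : ℕ) : ℚ) * ((i ! : ℕ) : ℚ) :=
              mul_le_mul_of_nonneg_left h4 (Nat.cast_nonneg _)
          _ = (((k + 1).choose i : ℕ) : ℚ) * ((i ! : ℕ) : ℚ) * (2 ^ (k - i) * (1 / 2) ^ (k - i)) := by
              rw [← mul_pow]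
              norm_num
          _ ≤ (((k + 1).choose i : ℕ) : ℚ) * ((i ! : ℕ) : ℚ) *
              ((((k + 1 - i)! : ℕ) : ℚ) * (1 / 2) ^ (k - i)) := by
              refine mul_le_mul_of_nonneg_left (mul_le_mul_of_nonneg_right h6 (by positivity))
                (by positivity)
          _ = (((k + 1)! : ℕ) : ℚ) * (1 / 2) ^ (k - i) := by
              rw [← mul_assoc, h5]
      rw [← Finset.mul_sum, bi_geom] at h3
      have h4 : (((k + 1)! : ℕ) : ℚ) * (1 - (1 / 2) ^ k) ≤ (((k + 1)! : ℕ) : ℚ) := by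
        have h5 : (0 : ℚ) ≤ (((k + 1)! : ℕ) : ℚ) * (1 / 2) ^ k := by positivity
        linarith
      have h5 := h3.trans h4
      rw [Nat.factorial_succ, Nat.cast_mul] at h5
      exact le_of_mul_le_mul_left h5 hk1

theorem bernInt (N n r : ℕ) (hN : 1 ≤ N) (hn : 1 ≤ n) (hr : r ≤ N) :
    ∃ z : ℤ, (z : ℚ) = ((N * (n + 1)! : ℕ) : ℚ) * bb N n r ∧
      |z| ≤ (((n + 1)! ^ 2 * (2 * N) ^ n : ℕ) : ℤ) := by
  have h1 : ∀ k ∈ Finset.range (n + 1), ∃ z : ℤ,
      (z : ℚ) = (((n + 1)! : ℕ) : ℚ) * _root_.bernoulli k := by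
    intro k hk
    rw [Finset.mem_range] at hk
    exact bi_int k n (by omega)
  choose! w hw using h1
  have hN0 : (N : ℚ) ≠ 0 := by
    have : N ≠ 0 := by omega
    exact_mod_cast this
  refine ⟨∑ k ∈ Finset.range (n + 1), ((n.choose k : ℕ) : ℤ) * w k * ((r ^ (n - k) * N ^ k : ℕ) : ℤ),
    ?_, ?_⟩
  · unfold bb
    unfold Polynomial.bernoulli
    rw [Polynomial.eval_finsetSum, Finset.mul_sum, Finset.mul_sum, Int.cast_sum]
    refine Finset.sum_congr rfl fun k hk => ?_
    have h3 := hw k hk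
    rw [Finset.mem_range] at hk
    rw [Polynomial.eval_monomial]
    have h4 : (N : ℚ) * (N : ℚ) ^ (n - 1) = (N : ℚ) ^ (n - k) * (N : ℚ) ^ k := by
      rw [← _root_.pow_succ', ← _root_.pow_add]
      congr 1
      omega
    have h5 : (N : ℚ) ^ (n - k) * ((r : ℚ) / N) ^ (n - k) = (r : ℚ) ^ (n - k) := by
      rw [← mul_pow, mul_div_cancel₀ _ hN0]
    push_cast
    rw [h3]
    linear_combination (-(((n + 1)! : ℕ) : ℚ) * _root_.bernoulli k * ((n.choose k : ℕ) : ℚ) *
      (N : ℚ) ^ k) * h5 - (((n + 1)! : ℕ) : ℚ) * _root_.bernoulli k * ((n.choose k : ℕ) : ℚ) *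
      ((r : ℚ) / N) ^ (n - k) * h4
  · have h2 : ∀ k ∈ Finset.range (n + 1), |w k| ≤ (((n + 1)! * (n + 1)! : ℕ) : ℤ) := by
      intro k hk
      have h3 : |(w k : ℚ)| ≤ (((n + 1)! * (n + 1)! : ℕ) : ℚ) := by
        rw [hw k hk, abs_mul, abs_of_nonneg (Nat.cast_nonneg _), Nat.cast_mul]
        refine mul_le_mul_of_nonneg_left ((bi_abs k).trans ?_) (Nat.cast_nonneg _)
        rw [Finset.mem_range] at hk
        exact_mod_cast Nat.factorial_le (by omega)
      exact_mod_cast h3
    calc |∑ k ∈ Finset.range (n + 1), ((n.choose k : ℕ) : ℤ) * w k *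
          ((r ^ (n - k) * N ^ k : ℕ) : ℤ)|
        ≤ ∑ k ∈ Finset.range (n + 1), ((n.choose k : ℕ) : ℤ) *
            ((((n + 1)! * (n + 1)! : ℕ) : ℤ) * ((N ^ n : ℕ) : ℤ)) := by
          refine (Finset.abs_sum_le_sum_abs _ _).trans (Finset.sum_le_sum fun k hk => ?_)
          rw [abs_mul, abs_mul, abs_of_nonneg (Int.natCast_nonneg _),
            abs_of_nonneg (Int.natCast_nonneg _), mul_assoc]
          refine mul_le_mul_of_nonneg_left ?_ (Int.natCast_nonneg _)
          refine mul_le_mul (h2 k hk) ?_ (Int.natCast_nonneg _) (Int.natCast_nonneg _)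
          rw [Finset.mem_range] at hk
          have h3 : r ^ (n - k) * N ^ k ≤ N ^ (n - k) * N ^ k :=
            Nat.mul_le_mul_right _ (Nat.pow_le_pow_left hr _)
          rw [← pow_add, Nat.sub_add_cancel (by omega)] at h3
          exact_mod_cast h3
      _ = (((n + 1)! ^ 2 * (2 * N) ^ n : ℕ) : ℤ) := by
          rw [← Finset.sum_mul]
          have h3 : ∑ k ∈ Finset.range (n + 1), ((n.choose k : ℕ) : ℤ) = 2 ^ n := by
            exact_mod_cast Nat.sum_range_choose n
          rw [h3]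
          push_cast
          ring

end Pool.Agent.AAP
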