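import Mathlib

/-!
# AAP-Cls (1.0h): an eigenspace killed by a unit

`ψ : Gal(K/ℚ) → E` multiplicative modulo the maximal ideal; `hrel` says that the class of `𝔞` is
killed by all relations of `ψ`; `ν₀` kills the class of `𝔞` and `ψ(ν₀)` is a unit. Then `𝔞` is
principal.
PROOF. Let `k` be the residue field of `E` (`Helper60.FM.kE`, or work with norms directly), `R` the
set of all `∑ ν(σ) ψ(σ) mod 𝔪`, `ν : Gal(K/ℚ) → ℕ`. It is closed under sums and products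
(`ψ(σ) ψ(τ) ≡ ψ(στ)`), contains `1 ≡ ψ(1)` and is finite (`ν` modulo `p`, since `p ≡ 0`). It is a
finite domain, so a field (or: some power `u ^ n`, `n ≥ 1`, of the nonzero element `u = ψ(ν₀)` is
`1`, by the pigeonhole principle). So there is `ν' : Gal → ℕ` with
`(∑ ν' ψ) (∑ ν₀ ψ) ≡ 1`. Put `μ(ρ) = ∑_{τσ = ρ} ν'(τ) ν₀(σ)` and `ν = μ + (p - 1) δ_1`: then
`∑ ν ψ ≡ 1 + (p - 1) = p ≡ 0`, hence `∏ (ρ • 𝔞) ^ μ(ρ) * 𝔞 ^ (p - 1)` is principal. The first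
factor is `∏_τ τ • (∏_σ (σ • 𝔞) ^ ν₀(σ)) ^ ν'(τ)`, principal. So `𝔞 ^ (p - 1)` is principal
(cancel nonzero principal ideals), and `𝔞 ^ p` is principal, so `𝔞` is principal.
-/

open NumberField Pointwise

namespace Pool.Agent.AAP

private theorem cls_add_lt {E : Type*} [NormedField E] [IsUltrametricDist E] {a b : E}
    (ha : ‖a‖ < 1) (hb : ‖b‖ < 1) : ‖a + b‖ < 1 :=
  lt_of_le_of_lt (IsUltrametricDist.norm_add_le_max a b) (max_lt ha hb)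

private theorem cls_mul_lt {E : Type*} [NormedField E] {a b : E}
    (ha : ‖a‖ ≤ 1) (hb : ‖b‖ < 1) : ‖a * b‖ < 1 := by
  rw [norm_mul]
  have h0 := norm_nonneg a
  have h1 := norm_nonneg b
  nlinarith

private theorem cls_sum_lt {E : Type*} [NormedField E] [IsUltrametricDist E] {ι : Type*}
    (s : Finset ι) (f : ι → E) (h : ∀ i ∈ s, ‖f i‖ < 1) : ‖∑ i ∈ s, f i‖ < 1 := by
  classical
  induction s using Finset.induction_on with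
  | empty => simp
  | insert a s ha ih =>
    rw [Finset.sum_insert ha]
    exact cls_add_lt (h a (Finset.mem_insert_self a s))
      (ih fun i hi => h i (Finset.mem_insert_of_mem hi))

private theorem cls_conv {E : Type*} [NormedField E] {G : Type*} [Group G] [Fintype G]
    (ν ν' : G → ℕ) (ψ : G → E) :
    ∑ ρ, ((∑ τ, ν τ * ν' (τ⁻¹ * ρ) : ℕ) : E) * ψ ρ =
      ∑ τ, ∑ σ, (ν τ : E) * (ν' σ : E) * ψ (τ * σ) := by
  have h1 : ∀ ρ, ((∑ τ, ν τ * ν' (τ⁻¹ * ρ) : ℕ) : E) * ψ ρ =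
      ∑ τ, (ν τ : E) * (ν' (τ⁻¹ * ρ) : E) * ψ ρ := by
    intro ρ
    push_cast
    rw [Finset.sum_mul]
  simp_rw [h1]
  rw [Finset.sum_comm]
  apply Finset.sum_congr rfl
  intro τ _
  rw [← (Group.mulLeft_bijective τ).sum_comp]
  apply Finset.sum_congr rfl
  intro σ _
  rw [inv_mul_cancel_left]

private theorem cls_mul {E : Type*} [NormedField E] [IsUltrametricDist E] {G : Type*} [Group G]
    [Fintype G] (ψ : G → E) (hmul : ∀ σ τ, ‖ψ (σ * τ) - ψ σ * ψ τ‖ < 1) (ν ν' : G → ℕ) :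
    ‖(∑ ρ, ((∑ τ, ν τ * ν' (τ⁻¹ * ρ) : ℕ) : E) * ψ ρ) -
      (∑ τ, (ν τ : E) * ψ τ) * ∑ σ, (ν' σ : E) * ψ σ‖ < 1 := by
  rw [cls_conv, Finset.sum_mul_sum, ← Finset.sum_sub_distrib]
  apply cls_sum_lt
  intro τ _
  rw [← Finset.sum_sub_distrib]
  apply cls_sum_lt
  intro σ _
  have h1 : (ν τ : E) * (ν' σ : E) * ψ (τ * σ) - (ν τ : E) * ψ τ * ((ν' σ : E) * ψ σ) =
      ((ν τ : E) * (ν' σ : E)) * (ψ (τ * σ) - ψ τ * ψ σ) := by ring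
  rw [h1]
  apply cls_mul_lt _ (hmul τ σ)
  rw [norm_mul]
  exact mul_le_one₀ (IsUltrametricDist.norm_natCast_le_one E _) (norm_nonneg _)
    (IsUltrametricDist.norm_natCast_le_one E _)

private theorem cls_le_one {E : Type*} [NormedField E] [IsUltrametricDist E] {G : Type*}
    [Fintype G] (ψ : G → E) (hψ : ∀ σ, ‖ψ σ‖ = 1) (ν : G → ℕ) :
    ‖∑ σ, (ν σ : E) * ψ σ‖ ≤ 1 := by
  classical
  apply IsUltrametricDist.norm_sum_le_of_forall_le_of_nonneg zero_le_one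
  intro σ _
  rw [norm_mul, hψ, mul_one]
  exact IsUltrametricDist.norm_natCast_le_one E _

private theorem cls_mod {E : Type*} [NormedField E] [IsUltrametricDist E] {G : Type*}
    [Fintype G] (ψ : G → E) (hψ : ∀ σ, ‖ψ σ‖ = 1) (p : ℕ) (hpE : ‖(p : E)‖ < 1) (ν : G → ℕ) :
    ‖(∑ σ, (ν σ : E) * ψ σ) - ∑ σ, ((ν σ % p : ℕ) : E) * ψ σ‖ < 1 := by
  rw [← Finset.sum_sub_distrib]
  apply cls_sum_lt
  intro σ _
  have h1 : (ν σ : E) * ψ σ - ((ν σ % p : ℕ) : E) * ψ σ = ((ν σ / p : ℕ) : E) * ψ σ * (p : E) := by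
    have h2 : (ν σ : E) = ((p * (ν σ / p) + ν σ % p : ℕ) : E) := by rw [Nat.div_add_mod]
    rw [h2]
    push_cast
    ring
  rw [h1]
  apply cls_mul_lt _ hpE
  rw [norm_mul, hψ, mul_one]
  exact IsUltrametricDist.norm_natCast_le_one E _

private theorem cls_delta {E : Type*} [NormedField E] {G : Type*} [Group G] [Fintype G]
    [DecidableEq G] (ψ : G → E) (n : ℕ) :
    ∑ σ, ((if σ = 1 then n else 0 : ℕ) : E) * ψ σ = n * ψ 1 := by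
  rw [Finset.sum_eq_single (1 : G)]
  · rw [if_pos rfl]
  · intro b _ hb
    rw [if_neg hb, Nat.cast_zero, zero_mul]
  · intro h
    exact absurd (Finset.mem_univ _) h

private theorem cls_one {E : Type*} [NormedField E] {G : Type*} [Group G]
    (ψ : G → E) (hψ : ∀ σ, ‖ψ σ‖ = 1) (hmul : ∀ σ τ, ‖ψ (σ * τ) - ψ σ * ψ τ‖ < 1) :
    ‖ψ 1 - 1‖ < 1 := by
  have h1 := hmul 1 1
  rw [mul_one] at h1
  have h2 : ψ 1 - ψ 1 * ψ 1 = - (ψ 1 * (ψ 1 - 1)) := by ring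
  rw [h2, norm_neg, norm_mul, hψ, one_mul] at h1
  exact h1

private theorem cls_pow {E : Type*} [NormedField E] [IsUltrametricDist E] {G : Type*} [Group G]
    [Fintype G] (ψ : G → E) (hψ : ∀ σ, ‖ψ σ‖ = 1)
    (hmul : ∀ σ τ, ‖ψ (σ * τ) - ψ σ * ψ τ‖ < 1) (ν₀ : G → ℕ) (n : ℕ) :
    ∃ ν : G → ℕ, ‖(∑ σ, (ν₀ σ : E) * ψ σ) ^ n - ∑ σ, (ν σ : E) * ψ σ‖ < 1 := by
  classical
  induction n with
  | zero =>
    refine ⟨fun σ => if σ = 1 then 1 else 0, ?_⟩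
    rw [cls_delta, pow_zero, Nat.cast_one, one_mul, norm_sub_rev]
    exact cls_one ψ hψ hmul
  | succ n ih =>
    obtain ⟨ν, hν⟩ := ih
    refine ⟨fun ρ => ∑ τ, ν τ * ν₀ (τ⁻¹ * ρ), ?_⟩
    have h1 := cls_mul ψ hmul ν ν₀
    have h2 : (∑ σ, (ν₀ σ : E) * ψ σ) ^ (n + 1) -
        ∑ ρ, ((∑ τ, ν τ * ν₀ (τ⁻¹ * ρ) : ℕ) : E) * ψ ρ =
        (∑ σ, (ν₀ σ : E) * ψ σ) * ((∑ σ, (ν₀ σ : E) * ψ σ) ^ n - ∑ σ, (ν σ : E) * ψ σ) +
        - ((∑ ρ, ((∑ τ, ν τ * ν₀ (τ⁻¹ * ρ) : ℕ) : E) * ψ ρ) -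
          (∑ τ, (ν τ : E) * ψ τ) * ∑ σ, (ν₀ σ : E) * ψ σ) := by ring
    rw [h2]
    apply cls_add_lt
    · exact cls_mul_lt (cls_le_one ψ hψ ν₀) hν
    · rw [norm_neg]
      exact h1

private theorem cls_inv {E : Type*} [NormedField E] [IsUltrametricDist E] {G : Type*} [Group G]
    [Fintype G] (p : ℕ) [Fact p.Prime] (hpE : ‖(p : E)‖ < 1) (ψ : G → E) (hψ : ∀ σ, ‖ψ σ‖ = 1)
    (hmul : ∀ σ τ, ‖ψ (σ * τ) - ψ σ * ψ τ‖ < 1) (ν₀ : G → ℕ)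
    (hu : ‖∑ σ, (ν₀ σ : E) * ψ σ‖ = 1) :
    ∃ ν : G → ℕ, ‖(∑ σ, (ν σ : E) * ψ σ) * (∑ σ, (ν₀ σ : E) * ψ σ) - 1‖ < 1 := by
  have hp0 : 0 < p := (Fact.out : p.Prime).pos
  choose ν hν using cls_pow ψ hψ hmul ν₀
  set u : E := ∑ σ, (ν₀ σ : E) * ψ σ with hudef
  let F : ℕ → (G → Fin p) := fun n σ => ⟨ν n σ % p, Nat.mod_lt _ hp0⟩
  obtain ⟨a, b, hab, hF⟩ := Finite.exists_ne_map_eq_of_infinite F
  have hclose : ∀ n, ‖u ^ n - ∑ σ, ((F n σ : ℕ) : E) * ψ σ‖ < 1 := by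
    intro n
    have h1 := cls_add_lt (hν n) (cls_mod ψ hψ p hpE (ν n))
    rw [sub_add_sub_cancel] at h1
    exact h1
  have key : ∀ a b : ℕ, a < b → F a = F b →
      ∃ ν : G → ℕ, ‖(∑ σ, (ν σ : E) * ψ σ) * u - 1‖ < 1 := by
    intro a b hlt hF
    have h1 : ‖u ^ a - u ^ b‖ < 1 := by
      have h2 := hclose a
      have h3 := hclose b
      rw [← hF, norm_sub_rev] at h3
      have h4 := cls_add_lt h2 h3
      rw [sub_add_sub_cancel] at h4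
      exact h4
    obtain ⟨c, rfl⟩ : ∃ c, b = a + c + 1 := ⟨b - a - 1, by omega⟩
    have h5 : ‖u ^ c * u - 1‖ < 1 := by
      have h6 : u ^ a - u ^ (a + c + 1) = - (u ^ a * (u ^ c * u - 1)) := by ring
      rw [h6, norm_neg, norm_mul, norm_pow, hu, one_pow, one_mul] at h1
      exact h1
    refine ⟨ν c, ?_⟩
    have h7 : (∑ σ, (ν c σ : E) * ψ σ) * u - 1 =
        u * (- (u ^ c - ∑ σ, (ν c σ : E) * ψ σ)) + (u ^ c * u - 1) := by ring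
    rw [h7]
    apply cls_add_lt _ h5
    apply cls_mul_lt hu.le
    rw [norm_neg]
    exact hν c
  rcases lt_or_gt_of_ne hab with h | h
  · exact key a b h hF
  · exact key b a h hF.symm

private theorem cls_prod {M : Type*} [CommMonoid M] {G : Type*} [Group G] [Fintype G]
    [MulDistribMulAction G M] (ν ν' : G → ℕ) (a : M) :
    ∏ ρ : G, (ρ • a) ^ (∑ τ, ν τ * ν' (τ⁻¹ * ρ)) =
      ∏ τ : G, (τ • ∏ σ : G, (σ • a) ^ ν' σ) ^ ν τ := by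
  simp_rw [← Finset.prod_pow_eq_pow_sum]
  rw [Finset.prod_comm]
  apply Finset.prod_congr rfl
  intro τ _
  rw [← (Group.mulLeft_bijective τ).prod_comp, Finset.smul_prod', ← Finset.prod_pow]
  apply Finset.prod_congr rfl
  intro σ _
  rw [inv_mul_cancel_left, smul_pow', smul_smul, ← pow_mul, mul_comm]

private theorem cls_cancel {R : Type*} [CommRing R] [IsDedekindDomain R] {I J : Ideal R}
    (hI : I.IsPrincipal) (h0 : I ≠ ⊥) (hIJ : (I * J).IsPrincipal) : J.IsPrincipal := by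
  obtain ⟨a, ha⟩ := hI
  obtain ⟨b, hb⟩ := hIJ
  rw [Ideal.submodule_span_eq] at ha hb
  have h1 : b ∈ Ideal.span {a} := by
    rw [← ha]
    apply (Ideal.mul_le_left : I * J ≤ I)
    rw [hb]
    exact Ideal.mem_span_singleton_self b
  obtain ⟨c, rfl⟩ := Ideal.mem_span_singleton.1 h1
  refine ⟨c, ?_⟩
  rw [Ideal.submodule_span_eq]
  have h2 : I * J = I * Ideal.span {c} := by
    rw [hb, ha, Ideal.span_singleton_mul_span_singleton]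
  exact mul_left_cancel₀ h0 h2

theorem cls (p : ℕ) [Fact p.Prime] {E : Type*} [NormedField E] [IsUltrametricDist E]
    (hpE : ‖(p : E)‖ < 1) {K : Type} [Field K] [NumberField K]
    (ψ : Gal(K/ℚ) → E) (hψ : ∀ σ, ‖ψ σ‖ = 1) (hmul : ∀ σ τ, ‖ψ (σ * τ) - ψ σ * ψ τ‖ < 1)
    (ν₀ : Gal(K/ℚ) → ℕ) (hu : ‖∑ σ, (ν₀ σ : E) * ψ σ‖ = 1)
    (𝔞 : Ideal (𝓞 K)) (h0 : 𝔞 ≠ ⊥) (hp : (𝔞 ^ p).IsPrincipal)
    (hν₀ : (∏ σ, (σ • 𝔞) ^ ν₀ σ).IsPrincipal)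
    (hrel : ∀ ν : Gal(K/ℚ) → ℕ, ‖∑ σ, (ν σ : E) * ψ σ‖ < 1 →
      (∏ σ, (σ • 𝔞) ^ ν σ).IsPrincipal) : 𝔞.IsPrincipal := by
  classical
  have hp1 : 1 ≤ p := (Fact.out : p.Prime).one_le
  obtain ⟨ν', hν'⟩ := cls_inv p hpE ψ hψ hmul ν₀ hu
  have hone := cls_one ψ hψ hmul
  have hmulc := cls_mul ψ hmul ν' ν₀
  -- the relation
  have hr : ‖∑ σ, (((∑ τ, ν' τ * ν₀ (τ⁻¹ * σ)) + (if σ = 1 then p - 1 else 0) : ℕ) : E) * ψ σ‖
      < 1 := by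
    have h1 : ∑ σ, (((∑ τ, ν' τ * ν₀ (τ⁻¹ * σ)) + (if σ = 1 then p - 1 else 0) : ℕ) : E) * ψ σ =
        (∑ σ, ((∑ τ, ν' τ * ν₀ (τ⁻¹ * σ) : ℕ) : E) * ψ σ) + ((p - 1 : ℕ) : E) * ψ 1 := by
      rw [← cls_delta, ← Finset.sum_add_distrib]
      apply Finset.sum_congr rfl
      intro σ _
      rw [Nat.cast_add, add_mul]
    rw [h1]
    have h2 : (∑ σ, ((∑ τ, ν' τ * ν₀ (τ⁻¹ * σ) : ℕ) : E) * ψ σ) + ((p - 1 : ℕ) : E) * ψ 1 =
        (((∑ ρ, ((∑ τ, ν' τ * ν₀ (τ⁻¹ * ρ) : ℕ) : E) * ψ ρ) -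
          (∑ τ, (ν' τ : E) * ψ τ) * ∑ σ, (ν₀ σ : E) * ψ σ) +
        ((∑ σ, (ν' σ : E) * ψ σ) * (∑ σ, (ν₀ σ : E) * ψ σ) - 1)) +
        (((p - 1 : ℕ) : E) * (ψ 1 - 1) + (p : E)) := by
      rw [Nat.cast_sub hp1]
      push_cast
      ring
    rw [h2]
    apply cls_add_lt (cls_add_lt hmulc hν')
    apply cls_add_lt _ hpE
    exact cls_mul_lt (IsUltrametricDist.norm_natCast_le_one E _) hone
  have h3 := hrel _ hr
  have h4 : ∏ σ : Gal(K/ℚ), (σ • 𝔞) ^ ((∑ τ, ν' τ * ν₀ (τ⁻¹ * σ)) + (if σ = 1 then p - 1 else 0)) =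
      (∏ σ : Gal(K/ℚ), (σ • 𝔞) ^ (∑ τ, ν' τ * ν₀ (τ⁻¹ * σ))) * 𝔞 ^ (p - 1) := by
    simp_rw [pow_add]
    rw [Finset.prod_mul_distrib]
    congr 1
    rw [Finset.prod_eq_single (1 : Gal(K/ℚ))]
    · rw [if_pos rfl, one_smul]
    · intro b _ hb
      rw [if_neg hb, pow_zero]
    · intro h
      exact absurd (Finset.mem_univ _) h
  rw [h4] at h3
  have h5 : (∏ σ : Gal(K/ℚ), (σ • 𝔞) ^ (∑ τ, ν' τ * ν₀ (τ⁻¹ * σ))).IsPrincipal := by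
    rw [cls_prod]
    rw [← Ideal.mem_isPrincipalSubmonoid_iff]
    apply Submonoid.prod_mem
    intro τ _
    apply Submonoid.pow_mem
    rw [Ideal.mem_isPrincipalSubmonoid_iff]
    obtain ⟨a, ha⟩ := hν₀
    rw [Ideal.submodule_span_eq] at ha
    refine ⟨τ • a, ?_⟩
    rw [Ideal.submodule_span_eq, ha, Ideal.smul_closure, Set.smul_set_singleton]
  have hσ : ∀ σ : Gal(K/ℚ), σ • 𝔞 ≠ ⊥ := by
    intro σ h
    apply h0
    have h6 : σ⁻¹ • (σ • 𝔞) = 𝔞 := inv_smul_smul σ 𝔞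
    rw [← h6, h, Ideal.smul_bot]
  have h6 : (∏ σ : Gal(K/ℚ), (σ • 𝔞) ^ (∑ τ, ν' τ * ν₀ (τ⁻¹ * σ))) ≠ ⊥ := by
    have h7 : (∏ σ : Gal(K/ℚ), (σ • 𝔞) ^ (∑ τ, ν' τ * ν₀ (τ⁻¹ * σ))) ≠ 0 := by
      rw [Finset.prod_ne_zero_iff]
      intro σ _
      exact pow_ne_zero _ (hσ σ)
    exact h7
  have h7 := cls_cancel h5 h6 h3
  have h8 : 𝔞 ^ (p - 1) ≠ ⊥ := by
    have : 𝔞 ^ (p - 1) ≠ 0 := pow_ne_zero _ h0
    exact this
  apply cls_cancel h7 h8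
  rw [← pow_succ, Nat.sub_add_cancel hp1]
  exact hp

end Pool.Agent.AAP
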