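import Mathlib

/-!
# The number of prime factors of a number bounded by `a ^ a`
-/

open Nat

namespace Pool.Agent.AAP

theorem fact_card_le_prod (S : Finset ℕ) (h : ∀ x ∈ S, 0 < x) : (S.card)! ≤ ∏ x ∈ S, x := by
  induction S using Finset.induction_on_max with
  | empty => simp
  | insert a s ha ih =>
    have hn : a ∉ s := fun h => lt_irrefl _ (ha a h)
    rw [Finset.card_insert_of_notMem hn, Finset.prod_insert hn, Nat.factorial_succ]
    refine Nat.mul_le_mul ?_ (ih fun x hx => h x (Finset.mem_insert_of_mem hx))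
    have h1 : insert a s ⊆ Finset.Icc 1 a := by
      intro x hx
      rw [Finset.mem_Icc]
      refine ⟨h x hx, ?_⟩
      rcases Finset.mem_insert.1 hx with rfl | hx
      · exact le_rfl
      · exact (ha x hx).le
    have h2 := Finset.card_le_card h1
    rw [Finset.card_insert_of_notMem hn, Nat.card_Icc] at h2
    omega

theorem pow_self_lt_fact (a : ℕ) (ha : 1 ≤ a) : a ^ a < (2 * a)! := by
  have h1 : a ! * (a + 1) ^ a ≤ (a + a)! := Nat.factorial_mul_pow_le_factorial
  have h2 : a ^ a < (a + 1) ^ a := Nat.pow_lt_pow_left (Nat.lt_succ_self a) (by omega)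
  have h3 : 1 * (a + 1) ^ a ≤ a ! * (a + 1) ^ a := Nat.mul_le_mul_right _ (Nat.factorial_pos a)
  rw [two_mul]
  omega

/-- a number between `1` and `a ^ a` has less than `2 a` prime factors -/
theorem card_primeFactors_lt (M a : ℕ) (hM : 0 < M) (ha : 1 ≤ a) (h : M ≤ a ^ a) :
    M.primeFactors.card < 2 * a := by
  by_contra hcon
  have h1 : (2 * a)! ≤ (M.primeFactors.card)! := Nat.factorial_le (not_lt.1 hcon)
  have h2 := fact_card_le_prod M.primeFactors fun x hx => (Nat.prime_of_mem_primeFactors hx).pos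
  have h3 : ∏ x ∈ M.primeFactors, x ≤ M := Nat.le_of_dvd hM (Nat.prod_primeFactors_dvd M)
  have h4 := pow_self_lt_fact a ha
  omega

end Pool.Agent.AAP
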