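import Mathlib

/-!
# AAP-Teich: the Teichmüller character

By Hensel's lemma for `X ^ (p - 1) - 1`, every class modulo `p` prime to `p` is the class of
exactly one root of unity of order dividing `p - 1`.
-/

namespace Pool.Agent.AAP

open Polynomial in
private theorem teich_hensel (p : ℕ) [hp : Fact p.Prime] (u : (ZMod p)ˣ) :
    ∃ z : ℤ_[p], z ^ (p - 1) = 1 ∧ PadicInt.toZMod z = u ∧
      ∀ z' : ℤ_[p], z' ^ (p - 1) = 1 → PadicInt.toZMod z' = u → z' = z := by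
  have hz : ∀ x : ℤ_[p], ‖x‖ < 1 ↔ PadicInt.toZMod x = 0 := by
    intro x
    rw [← RingHom.mem_ker, PadicInt.ker_toZMod, IsLocalRing.mem_maximalIdeal,
      PadicInt.mem_nonunits]
  obtain ⟨a, ha⟩ : ∃ a : ℤ_[p], PadicInt.toZMod a = (u : ZMod p) :=
    ⟨((u : ZMod p).val : ℤ_[p]), by rw [map_natCast, ZMod.natCast_zmod_val]⟩
  have hF : ∀ x : ℤ_[p], (X ^ (p - 1) - 1 : ℤ_[p][X]).aeval x = x ^ (p - 1) - 1 := by
    intro x
    simp
  have hF' : ∀ x : ℤ_[p], (derivative (X ^ (p - 1) - 1 : ℤ_[p][X])).aeval x =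
      ((p - 1 : ℕ) : ℤ_[p]) * x ^ (p - 1 - 1) := by
    intro x
    simp [derivative_X_pow]
  have hp1 : ((p - 1 : ℕ) : ZMod p) ≠ 0 := by
    intro h
    rw [ZMod.natCast_eq_zero_iff] at h
    have h1 := hp.out.one_lt
    have h2 := Nat.le_of_dvd (by omega) h
    omega
  have hn : ‖(derivative (X ^ (p - 1) - 1 : ℤ_[p][X])).aeval a‖ = 1 := by
    have h1 : ¬ ‖(derivative (X ^ (p - 1) - 1 : ℤ_[p][X])).aeval a‖ < 1 := by
      rw [hz, hF', map_mul, map_pow, ha, map_natCast]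
      intro h
      rcases mul_eq_zero.1 h with h | h
      · exact hp1 h
      · exact pow_ne_zero _ u.ne_zero h
    exact le_antisymm (PadicInt.norm_le_one _) (not_lt.1 h1)
  have hu : (u : ZMod p) ^ (p - 1) = 1 := ZMod.pow_card_sub_one_eq_one u.ne_zero
  have h0 : ‖(X ^ (p - 1) - 1 : ℤ_[p][X]).aeval a‖ <
      ‖(derivative (X ^ (p - 1) - 1 : ℤ_[p][X])).aeval a‖ ^ 2 := by
    rw [hn, one_pow, hz, hF, map_sub, map_pow, ha, map_one, hu, sub_self]
  obtain ⟨z, hz1, hz2, -, hz4⟩ := hensels_lemma h0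
  rw [hF, sub_eq_zero] at hz1
  rw [hn, hz, map_sub, ha, sub_eq_zero] at hz2
  refine ⟨z, hz1, hz2, fun z' h1 h2 => ?_⟩
  refine hz4 z' ?_ ?_
  · rw [hF, h1, sub_self]
  · rw [hn, hz, map_sub, ha, h2, sub_self]

theorem teich (p : ℕ) [Fact p.Prime] (E : Type*) [NormedField E] [NormedAlgebra ℚ_[p] E] :
    ∃ t : (ZMod p)ˣ →* Eˣ, ∀ u, ‖(t u : E) - (((u : ZMod p).val : ℕ) : E)‖ < 1 := by
  choose z hz1 hz2 hz3 using teich_hensel p
  have hone : z 1 = 1 := (hz3 1 1 (one_pow _) (by rw [map_one, Units.val_one])).symm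
  have hmul : ∀ u v, z (u * v) = z u * z v := by
    intro u v
    refine (hz3 (u * v) (z u * z v) ?_ ?_).symm
    · rw [mul_pow, hz1, hz1, one_mul]
    · rw [map_mul, hz2, hz2, Units.val_mul]
  let f : (ZMod p)ˣ →* E :=
    { toFun := fun u => algebraMap ℚ_[p] E ((z u : ℤ_[p]) : ℚ_[p])
      map_one' := by rw [hone, PadicInt.coe_one, map_one]
      map_mul' := fun u v => by rw [hmul, PadicInt.coe_mul, map_mul] }
  refine ⟨f.toHomUnits, fun u => ?_⟩
  have h1 : ((f.toHomUnits u : Eˣ) : E) = algebraMap ℚ_[p] E ((z u : ℤ_[p]) : ℚ_[p]) := rfl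
  have h2 : (((u : ZMod p).val : ℕ) : E) =
      algebraMap ℚ_[p] E (((((u : ZMod p).val : ℕ) : ℤ_[p])) : ℚ_[p]) := by
    rw [PadicInt.coe_natCast, map_natCast]
  rw [h1, h2, ← map_sub, norm_algebraMap', ← PadicInt.coe_sub, ← PadicInt.norm_def]
  rw [← PadicInt.mem_nonunits, ← IsLocalRing.mem_maximalIdeal, ← PadicInt.ker_toZMod,
    RingHom.mem_ker, map_sub, hz2, map_natCast, ZMod.natCast_zmod_val, sub_self]

end Pool.Agent.AAP
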