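import Pool.Agent.AAP.CritMain
import Pool.Agent.Helper7.HU.Main

/-!
# Even Galois representations: level one, more than half of the weights, every prime
-/

open NumberField Pointwise Matrix

namespace Pool.Agent.AAP

open Pool.Agent.Helper60.FM

theorem genBern_one (n : ℕ) {E : Type} [NormedField E] [CharZero E] (χ : (ZMod 1)ˣ →* Eˣ) :
    (genBern 1 n χ : E) = ((bernoulli n : ℚ) : E) := by
  unfold genBern
  have h1 : (Finset.univ : Finset (ZMod 1)ˣ) = {1} := by
    ext x
    rw [Subsingleton.elim x 1]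
    simp only [Finset.mem_univ, Finset.mem_singleton]
  rw [h1, Finset.sum_singleton, map_one, Units.val_one, one_mul, Nat.cast_one, one_pow, one_mul,
    Units.val_one]
  have h2 : (1 : ZMod 1).val = 0 := ZMod.val_eq_zero _ |>.2 (Subsingleton.elim _ _)
  rw [h2, Nat.cast_zero, zero_div, Polynomial.bernoulli_eval_zero]

/-- level one, the Bernoulli number is a unit -/
theorem critHalf (p : ℕ) [Fact p.Prime] (n : ℕ) (hn2 : 2 ≤ n) (hnp : n + 3 ≤ p)
    (hB : ‖((bernoulli n : ℚ) : ℚ_[p])‖ = 1)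
    {E : Type} [NormedField E] [IsUltrametricDist E] [CompleteSpace E] [NormedAlgebra ℚ_[p] E]
    (V : Gam →* GL2 E) (hV : Continuous V) (heven : Even2 V) (j : ℕ)
    (h : SumType p n 1 1 1 j V) (ht : TameCond p n 1 1 1 V) : Line V := by
  have hpp : p.Prime := Fact.out
  have : CharZero E := charZero_of_injective_algebraMap (algebraMap ℚ_[p] E).injective
  refine critMain p 1 n (p - 1 - n) (by omega) (fun h => hpp.one_lt.ne' (Nat.dvd_one.1 h))
    (by omega) (by omega) (by omega) (by omega) ⟨1, by omega⟩ V hV heven 1 1 j h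
    (fun h => by omega) (Or.inl ⟨?_, fun h => by omega, ht⟩)
  rw [genBern_one]
  have h1 : ((bernoulli n : ℚ) : E) = algebraMap ℚ_[p] E ((bernoulli n : ℚ) : ℚ_[p]) :=
    (map_ratCast _ _).symm
  rw [h1, norm_algebraMap', hB]

/-- more than half of the weights -/
theorem halfMain (p : ℕ) [Fact p.Prime] (hp : 5 ≤ p) :
    ∃ S : Finset ℕ, p < 4 * S.card + 3 ∧
      ∀ n ∈ S, Even n ∧ 2 ≤ n ∧ n + 3 ≤ p ∧ AllReducible p n := by
  refine ⟨Pool.Agent.Helper7.HU.good p, ?_, ?_⟩
  · have h1 := (Pool.Agent.Helper7.HU.half_units (p := p) hp).1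
    omega
  · intro n hn
    rw [Pool.Agent.Helper7.HU.mem_good] at hn
    obtain ⟨he, h2, h3, hB⟩ := hn
    refine ⟨he, h2, h3, ?_⟩
    intro E _ _ _ _ V hV heven ⟨⟨j, h⟩, ht⟩
    refine critHalf p n h2 h3 hB V hV heven j ?_ ?_
    · intro g a b _ hb
      have h4 := h g b hb
      simpa only [MonoidHom.one_apply, Units.val_one, one_mul] using h4
    · intro ℓ a hℓ hℓp _ h4
      refine ht ℓ hℓ hℓp ?_
      rw [MonoidHom.one_apply, Units.val_one, one_mul] at h4
      have h5 : (((ℓ ^ (n - 1) - 1 : ℕ)) : ZMod p) = 0 := by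
        rw [ZMod.natCast_eq_zero_iff]
        refine (norm_natCast_lt_one_iff (p := p) (E := E) _).1 ?_
        rw [Nat.cast_sub (Nat.one_le_pow _ _ hℓ.pos), Nat.cast_pow, Nat.cast_one]
        exact h4
      rw [Nat.cast_sub (Nat.one_le_pow _ _ hℓ.pos), Nat.cast_pow, Nat.cast_one, sub_eq_zero] at h5
      exact h5

end Pool.Agent.AAP
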