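import Pool.Agent.AAP.Stmt2

/-!
# Even Galois representations: the criterion with generalized Bernoulli numbers, definitions
-/

open Matrix

namespace Pool.Agent.AAP

variable {E : Type} [NormedField E]

/-- the generalized Bernoulli number `∑ χ(r) N ^ (n - 1) B_n(r / N)` -/
noncomputable def genBern (N n : ℕ) [NeZero N] (χ : (ZMod N)ˣ →* Eˣ) : E :=
  ∑ r : (ZMod N)ˣ, (χ r : E) *
    (((N : ℚ) ^ (n - 1) * (Polynomial.bernoulli n).eval (((r : ZMod N).val : ℚ) / N) : ℚ) : E)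

/-- `V` is `TameAt` all primes `ℓ` not dividing `N p` with `β(ℓ) ℓ ^ (n - 1) ≡ α(ℓ)` -/
def TameCond (p n N : ℕ) (α β : (ZMod N)ˣ →* Eˣ) (V : Gam →* GL2 E) : Prop :=
  ∀ (ℓ : ℕ) (a : (ZMod N)ˣ), ℓ.Prime → ℓ ≠ p → (a : ZMod N) = ℓ →
    Equ (β a * (ℓ : E) ^ (n - 1)) (α a : E) → TameAt p ℓ V

/-- the generalized Bernoulli number of `β / α` has absolute value `1`, `β(p) ≢ α(p)` if `n = 1`,
and `V` is `TameAt` all primes `ℓ` not dividing `N p` with `β(ℓ) ℓ ^ (n - 1) ≡ α(ℓ)` -/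
def BernoulliUnit (p n N : ℕ) [NeZero N] (α β : (ZMod N)ˣ →* Eˣ) (V : Gam →* GL2 E) : Prop :=
  ‖genBern N n (β / α)‖ = 1 ∧
    (n = 1 → ∀ a : (ZMod N)ˣ, (a : ZMod N) = p → ¬ Equ (β a : E) (α a)) ∧
    TameCond p n N α β V

/-- the semisimple reduction of `V` is `ω ^ j ⊗ (1 ⊕ ω ^ n)`, and `V` is `TameAt` all primes
`ℓ ≠ p` with `ℓ ^ (n - 1) ≡ 1` modulo `p` -/
def TypeOne (p n : ℕ) (V : Gam →* GL2 E) : Prop :=
  (∃ j, ∀ (g : Gam) (b : ℕ), Acts p g b → Equ (trc V g) ((b : E) ^ j * (1 + (b : E) ^ n))) ∧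
    ∀ ℓ : ℕ, ℓ.Prime → ℓ ≠ p → (ℓ : ZMod p) ^ (n - 1) = 1 → TameAt p ℓ V

/-- every continuous even `V` of type `TypeOne p n` over every complete ultrametric extension of
`ℚ_p` is reducible -/
def AllReducible (p n : ℕ) [Fact p.Prime] : Prop :=
  ∀ (E : Type) [NormedField E] [IsUltrametricDist E] [CompleteSpace E] [NormedAlgebra ℚ_[p] E]
    (V : Gam →* GL2 E), Continuous V → Even2 V → TypeOne p n V → Line V

end Pool.Agent.AAP
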