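import Pool.Agent.AAP.Stmt

/-!
# Even Galois representations at almost all primes: the two forms of the definitions
-/

open NumberField Pointwise Matrix

namespace Pool.Agent.AAP

open Pool.Agent.Helper60.FM

/-- `V` as a representation of `GQ` -/
noncomputable def old {E : Type} [NormedField E] (V : Gam →* GL2 E) : GQ →* GL (Fin 2) E := V

/-- the image of `x` under `g` -/
noncomputable def sm (g : GQ) (x : ZQ) : ZQ := g • x

theorem iner_iff (𝔓 : Ideal AI) (g : Gam) : Iner 𝔓 g ↔ (g : GQ) ∈ In (𝔓 : Ideal ZQ) := by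
  constructor
  · intro h x
    exact h x (sm g x) rfl
  · intro h x y hy
    have h1 : y = (sm g x : AI) := Subtype.ext hy
    rw [h1]
    exact h x

theorem frob_of (p : ℕ) (𝔓 : Ideal AI) (hP : 𝔓.IsPrime) (g : Gam)
    (h : IsFrob p (𝔓 : Ideal ZQ) (g : GQ)) : Frob p 𝔓 g := by
  intro x y hy
  have h1 : y = (sm g x : AI) := Subtype.ext hy
  rw [h1]
  exact h.2 x

section

variable {E : Type} [NormedField E]

/-- a character of a subgroup as a homomorphism -/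
noncomputable def toHom (H : Subgroup GQ) (χ : Gam → E)
    (h : IsChar (fun g : Gam => (g : GQ) ∈ H) χ) : H →* Eˣ :=
  MonoidHom.toHomUnits
    { toFun := fun g => χ (g : GQ)
      map_one' := h.1
      map_mul' := fun g g' => h.2 _ _ g.2 g'.2 }

theorem coe_toHom (H : Subgroup GQ) (χ : Gam → E)
    (h : IsChar (fun g : Gam => (g : GQ) ∈ H) χ) (g : H) :
    ((toHom H χ h g : Eˣ) : E) = χ (g : GQ) := rfl

theorem dih_of (p N : ℕ) (V : Gam →* GL2 E) (h : DihType p N V) : Dih p N (old V) := by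
  obtain ⟨D, δ, χ, hDN, hD, hr, hχ, hopen, ⟨hA, hB⟩, hout⟩ := h
  have hχ' : IsChar (fun g : Gam => (g : GQ) ∈ Stab δ) χ := hχ
  refine ⟨D, δ, toHom (Stab δ) χ hχ', hDN, hD, ?_, ?_, ?_, ?_, ?_⟩
  · intro q hq
    exact hr q (by rw [hq]; rfl)
  · have e : (((toHom (Stab δ) χ hχ').ker.map (Stab δ).subtype : Subgroup GQ) : Set GQ) =
        {g : Gam | Fixes δ g ∧ χ g = 1} := by
      ext g
      constructor
      · rintro ⟨x, hx, rfl⟩
        refine ⟨x.2, ?_⟩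
        have h1 : toHom (Stab δ) χ hχ' x = 1 := hx
        have h2 := congrArg (fun u : Eˣ => (u : E)) h1
        exact h2
      · rintro ⟨h1, h2⟩
        refine ⟨⟨g, h1⟩, ?_, rfl⟩
        change toHom (Stab δ) χ hχ' ⟨g, h1⟩ = 1
        exact Units.ext h2
    rw [e]
    exact hopen
  · intro s hs
    have h1 : Equ (trc V s) 0 := hA s hs
    rw [Equ, sub_zero] at h1
    exact h1
  · intro s hs h h' hh
    have h1 : Equ (trc V (h : GQ)) (χ (h : GQ) + χ ((s : Gam) * ((h : GQ) : Gam) * (s : Gam)⁻¹)) :=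
      hB s (h : GQ) hs h.2
    rw [Equ, ← sub_sub] at h1
    rw [coe_toHom, coe_toHom, hh]
    exact h1
  · intro 𝔓 hP hp h hh
    exact hout 𝔓 hP hp (h : GQ) h.2 ((iner_iff 𝔓 (h : GQ)).2 hh)

theorem fl_of (p n : ℕ) (V : Gam →* GL2 E) (h : FLType p n V) : FL p n (old V) := by
  obtain ⟨𝔓, hP, hpP, h⟩ := h
  refine ⟨𝔓, hP, hpP, ?_⟩
  rcases h with h | ⟨θ, ⟨h0, ⟨τ₀, h1, h1'⟩, h2, h3⟩, h4⟩
  · left
    intro τ hτ b hb
    have h1 : Equ (trc V (τ : GQ)) (1 + (b : E) ^ n) := h τ ((iner_iff 𝔓 τ).2 hτ) b hb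
    rw [Equ, ← sub_sub] at h1
    exact h1
  · right
    have h0' : IsChar (fun g : Gam => (g : GQ) ∈ In (𝔓 : Ideal ZQ)) θ :=
      ⟨h0.1, fun g g' hg hg' => h0.2 g g' ((iner_iff 𝔓 g).2 hg) ((iner_iff 𝔓 g').2 hg')⟩
    refine ⟨toHom (In 𝔓) θ h0', ⟨⟨τ₀, (iner_iff 𝔓 τ₀).1 h1⟩, ?_⟩, ?_, ?_, ?_⟩
    · rw [← orderOf_units, coe_toHom]
      exact h1'
    · intro τ
      ext
      rw [Units.val_pow_eq_pow_val, coe_toHom]
      exact h2 _ ((iner_iff 𝔓 _).2 τ.2)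
    · intro g hg τ τ' hτ
      ext
      rw [Units.val_pow_eq_pow_val, coe_toHom, coe_toHom, hτ]
      exact h3 g (frob_of p 𝔓 hP g hg) _ ((iner_iff 𝔓 _).2 τ.2)
    · intro τ
      have h5 : Equ (trc V (τ : GQ)) (θ (τ : GQ) ^ n + θ (τ : GQ) ^ (p * n)) :=
        h4 _ ((iner_iff 𝔓 _).2 τ.2)
      rw [Equ, ← sub_sub] at h5
      exact h5

theorem tameOut_of (p m : ℕ) (V : Gam →* GL2 E) (h : Tame p m V) : TameOut p m (old V) := by
  intro 𝔓 hP hm g hg
  exact h 𝔓 hP hm g ((iner_iff 𝔓 g).2 hg)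

end

/-- **Main theorem.** -/
theorem mainThm (n N : ℕ) (hn : 2 ≤ n) (hN : 1 ≤ N) :
    ∃ P : Finset ℕ, ∀ (p : ℕ) [Fact p.Prime], p ∉ P →
      ∀ (E : Type) [NormedField E] [IsUltrametricDist E] [CompleteSpace E] [NormedAlgebra ℚ_[p] E]
        (V : Gam →* GL2 E), Continuous V → Even2 V →
          ((RedType p n N V ∧ Tame p (N * p) V) ∨ (DihType p N V ∧ FLType p n V)) → Line V := by
  classical
  obtain ⟨P₁, h₁⟩ := redMain n N hn hN
  obtain ⟨P₂, h₂⟩ := dihMain n N (by omega) hN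
  refine ⟨P₁ ∪ P₂ ∪ {2}, ?_⟩
  intro p _ hp E _ _ _ _ V hV heven h
  have hNZ : NeZero N := ⟨by omega⟩
  rw [Finset.mem_union, Finset.mem_union, not_or, not_or, Finset.mem_singleton] at hp
  have hp2 : 2 < p := lt_of_le_of_ne (Fact.out : p.Prime).two_le (Ne.symm hp.2)
  have hV' : Continuous (old V) := hV
  have heven' : IsEven (old V) := heven
  rcases h with ⟨h, ht⟩ | ⟨hd, hf⟩
  · have h' : Red p n N (old V) := h
    exact h₁ p hp.1.1 E (old V) hV' (unrOut_of_tame n N p hp2 _ h' (tameOut_of p _ V ht)) heven' h'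
  · exact (h₂ p hp.1.2 E (old V) heven' (dih_of p N V hd) (fl_of p n V hf)).elim

end Pool.Agent.AAP
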