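import Pool.Agent.AAP.BcMain
import Pool.Agent.AAP.StmtB
import Pool.Agent.AAP.Stmt3

/-!
# Even Galois representations: the criterion with generalized Bernoulli numbers
-/

open NumberField Pointwise Matrix

namespace Pool.Agent.AAP

open Pool.Agent.Helper60.FM

theorem redSwapT (n n' N p : ℕ) [Fact p.Prime] (hnn : p - 1 ∣ n + n')
    {E : Type} [NormedField E] [IsUltrametricDist E] [NormedAlgebra ℚ_[p] E]
    (V : GQ →* GL (Fin 2) E)
    (α β : (ZMod N)ˣ →* Eˣ) (k : ℕ) (hα : ∀ a, ‖(α a : E)‖ = 1)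
    (hred : ∀ (g : GQ) (a : (ZMod N)ˣ) (b : ℕ),
      ActsAs N g (a : ZMod N).val → ActsAs p g b →
        ‖tr V g - (b : E) ^ k * (α a + β a * (b : E) ^ n)‖ < 1) (g : GQ) (a : (ZMod N)ˣ) (b : ℕ)
    (h1 : ActsAs N g (a : ZMod N).val) (h2 : ActsAs p g b) :
    ‖tr V g - (b : E) ^ (k + n) * (β a + α a * (b : E) ^ n')‖ < 1 := by
  have hb := not_dvd_of_acts p g b h2
  have hb0 : 0 < b := Nat.pos_of_ne_zero (by rintro rfl; exact hb (dvd_zero p))
  have hb1 : Cg ((b : E) ^ (n + n')) 1 := by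
    have h3 : (p : ℕ) ∣ b ^ (n + n') - 1 := by
      have h4 : (b : ZMod p) ≠ 0 := by
        rw [Ne, ZMod.natCast_eq_zero_iff]
        exact hb
      have h5 : (b : ZMod p) ^ (n + n') = 1 := by
        obtain ⟨e, he⟩ := hnn
        rw [he, pow_mul, ZMod.pow_card_sub_one_eq_one h4, one_pow]
      rw [← ZMod.natCast_eq_zero_iff, Nat.cast_sub (Nat.one_le_pow _ _ hb0), Nat.cast_pow, h5,
        Nat.cast_one, sub_self]
    rw [Cg]
    have h4 := (norm_natCast_lt_one_iff (p := p) (E := E) _).2 h3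
    rwa [Nat.cast_sub (Nat.one_le_pow _ _ hb0), Nat.cast_pow, Nat.cast_one] at h4
  have h3 : Cg (tr V g) ((b : E) ^ k * (α a + β a * (b : E) ^ n)) := hred g a b h1 h2
  refine h3.trans ?_
  have e1 : (b : E) ^ (k + n) * (β a + α a * (b : E) ^ n') =
      (b : E) ^ (k + n) * β a + (b : E) ^ k * α a * (b : E) ^ (n + n') := by
    rw [pow_add (b : E) n n']
    ring
  have e3 : (b : E) ^ k * (α a + β a * (b : E) ^ n) =
      (b : E) ^ (k + n) * β a + (b : E) ^ k * α a * 1 := by ring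
  rw [e1, e3]
  refine Cg.add Cg.rfl (Cg.mul Cg.rfl hb1.symm ?_ ?_)
  · rw [norm_mul, hα, mul_one, norm_pow]
    exact pow_le_one₀ (norm_nonneg _) (norm_natCast_le_one _)
  · rw [norm_pow]
    exact pow_le_one₀ (norm_nonneg _) (norm_natCast_le_one _)

theorem critMain (p N n n' : ℕ) [Fact p.Prime] [NeZero N] (hp : p ≠ 2) (hpN : ¬ p ∣ N)
    (hn : 1 ≤ n) (hnp : n < p) (hn' : 1 ≤ n') (hnp' : n' < p) (hnn : p - 1 ∣ n + n')
    {E : Type} [NormedField E] [IsUltrametricDist E] [CompleteSpace E] [NormedAlgebra ℚ_[p] E]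
    (V : Gam →* GL2 E) (hV : Continuous V) (heven : Even2 V)
    (α β : (ZMod N)ˣ →* Eˣ) (j : ℕ) (h : SumType p n N α β j V)
    (hns : ¬ (n = p - 1 ∧ ∀ a, Equ (α a : E) (β a)))
    (hB : BernoulliUnit p n N α β V ∨ BernoulliUnit p n' N β α V) : Line V := by
  have hpp : p.Prime := Fact.out
  have hp2 : 2 < p := lt_of_le_of_ne hpp.two_le (Ne.symm hp)
  have hV' : Continuous (old V) := hV
  have heven' : IsEven (old V) := heven
  have hred : ∀ (g : GQ) (a : (ZMod N)ˣ) (b : ℕ), ActsAs N g (a : ZMod N).val → ActsAs p g b →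
      ‖tr (old V) g - (b : E) ^ j * (α a + β a * (b : E) ^ n)‖ < 1 := h
  have hne : n = p - 1 → ∃ a, 1 ≤ ‖(α a : E) - β a‖ := by
    intro hn1
    by_contra hcon
    push Not at hcon
    exact hns ⟨hn1, hcon⟩
  have hn1' : n' = p - 1 → n = p - 1 := by
    intro h1
    obtain ⟨e, he⟩ := hnn
    rcases Nat.lt_or_ge e 2 with h2 | h2
    · exfalso
      have h3 : (p - 1) * e ≤ (p - 1) * 1 := Nat.mul_le_mul_left _ (by omega)
      omega
    · have h3 : (p - 1) * 2 ≤ (p - 1) * e := Nat.mul_le_mul_left _ h2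
      omega
  rcases hB with ⟨hT, h1, htame⟩ | ⟨hT, h1, htame⟩
  · refine redCritT n N p hp2 hn hnp hpN (old V) hV' heven' α β ?_ j hred ?_ ?_ hT
    · intro hn1
      obtain ⟨a, ha⟩ := hne hn1
      exact ⟨a, by rwa [norm_sub_rev]⟩
    · intro ℓ a hℓ hℓp ha h 𝔓 hP hℓP g hg
      exact htame ℓ a hℓ hℓp ha h 𝔓 hP hℓP g ((iner_iff 𝔓 (g : Gam)).2 hg)
    · intro hn1 a ha
      exact not_lt.1 (h1 hn1 a ha)
  · refine redCritT n' N p hp2 hn' hnp' hpN (old V) hV' heven' β α (fun h => hne (hn1' h)) (j + n)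
      (redSwapT n n' N p hnn (old V) α β j (fun a => norm_chi α a) hred) ?_ ?_ hT
    · intro ℓ a hℓ hℓp ha h 𝔓 hP hℓP g hg
      exact htame ℓ a hℓ hℓp ha h 𝔓 hP hℓP g ((iner_iff 𝔓 (g : Gam)).2 hg)
    · intro hn1 a ha
      exact not_lt.1 (h1 hn1 a ha)

end Pool.Agent.AAP
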