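import Pool.Agent.AAP.DefsE

/-!
# AAP-CycA (1.0h): the field cut out by a subgroup

`F` number field in `Qb`, `H₁` an open subgroup of `Gal(Qb/F) = F.fixingSubgroup`, normal in it,
containing all complex conjugations. `L` is the fixed field of `H₁` (as an intermediate field of
`Qb/ℚ`, or of `Qb/F`), a number field, Galois over `F` with group `F.fixingSubgroup / H₁`
(infinite Galois correspondence: Mathlib `InfiniteGalois`, an open subgroup is closed,
`InfiniteGalois.fixingSubgroup_fixedField`), `j` the inclusion, `ρ` the restriction.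
`L` is totally real: for an embedding `φ : L → ℂ` extend `φ` to `ι : Qb → ℂ` (`Qb` is algebraic
over `L`); the complex conjugation `c` with `ι (c x) = conj (ι x)` exists (the image of `Qb` in `ℂ` is
the set of all algebraic numbers, stable under conjugation; `Helper60/FM/CC.exists_isCC` is
similar); `c ∈ H₁` fixes `L`, so `φ` is real.
-/

open NumberField Pointwise

namespace Pool.Agent.AAP

open Pool.Agent.Helper60.FM

/-- a complex conjugation fixing `x` makes `ι x` real; every embedding of `Qb` gives one -/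
private theorem cyca_cc (ι : Qb →+* ℂ) : ∃ c : GQ, ∀ x, ι (c x) = starRingEnd ℂ (ι x) := by
  let ι' : Qb →+* ℂ := (starRingEnd ℂ).comp ι
  obtain ⟨σ, hσ⟩ := ComplexEmbedding.exists_comp_symm_eq_of_comp_eq (k := ℚ) ι ι'
    (Subsingleton.elim _ _)
  refine ⟨σ.symm, fun x => ?_⟩
  exact RingHom.congr_fun hσ x

/-- every embedding of a subfield extends to `Qb` -/
private theorem cyca_ext {F : IntermediateField ℚ Qb} (L : IntermediateField F Qb) (φ : L →+* ℂ) :
    ∃ ι : Qb →+* ℂ, ∀ x : L, ι (x : Qb) = φ x := by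
  let _ : Algebra L ℂ := φ.toAlgebra
  have _h1 : Algebra.IsAlgebraic F Qb := Algebra.IsAlgebraic.tower_top (K := ℚ) F
  have _h2 : Algebra.IsAlgebraic L Qb := Algebra.IsAlgebraic.tower_top (K := F) L
  let f : Qb →ₐ[L] ℂ := IsAlgClosed.lift
  exact ⟨f.toRingHom, fun x => f.commutes x⟩

theorem cycA (F : IntermediateField ℚ Qb) [FiniteDimensional ℚ F] (H₁ : Subgroup GQ)
    (hopen : IsOpen (H₁ : Set GQ)) (hle : H₁ ≤ F.fixingSubgroup)
    (hnorm : ∀ h ∈ F.fixingSubgroup, ∀ k ∈ H₁, h * k * h⁻¹ ∈ H₁)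
    (hcc : ∀ c, IsCC c → c ∈ H₁) :
    ∃ (L : Type) (_ : Field L) (_ : NumberField L) (_ : Algebra F L) (_ : IsGalois F L)
      (_ : IsTotallyReal L) (j : L →+* Qb) (ρ : F.fixingSubgroup →* Gal(L/F)),
      Function.Surjective ρ ∧ (∀ h x, j (ρ h x) = (h : GQ) (j x)) ∧
      (∀ h, ρ h = 1 ↔ (h : GQ) ∈ H₁) ∧ (∀ x : F, j (algebraMap F L x) = x) ∧
      (∀ x : Qb, (∀ h ∈ H₁, h x = x) → ∃ y, j y = x) := by
  classical
  obtain ⟨L0, hL0⟩ : ∃ L0 : IntermediateField ℚ Qb, L0 = IntermediateField.fixedField H₁ :=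
    ⟨_, rfl⟩
  have hcl : IsClosed (H₁ : Set GQ) := Subgroup.isClosed_of_isOpen H₁ hopen
  have hfix : L0.fixingSubgroup = H₁ := by
    rw [hL0]
    exact InfiniteGalois.fixingSubgroup_fixedField ⟨H₁, hcl⟩
  have hfin : FiniteDimensional ℚ L0 := by
    refine (InfiniteGalois.isOpen_iff_finite L0).1 ?_
    rw [hfix]
    exact hopen
  have hFL : F ≤ L0 := by
    intro x hx
    rw [hL0, IntermediateField.mem_fixedField_iff]
    intro f hf
    exact (IntermediateField.mem_fixingSubgroup_iff _ _).1 (hle hf) x hx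
  let L : IntermediateField F Qb := IntermediateField.extendScalars hFL
  have hLmem : ∀ x : Qb, x ∈ L ↔ x ∈ L0 := fun x => Iff.rfl
  let e : L0 ≃+* L :=
    { toFun := fun x => ⟨x.1, x.2⟩
      invFun := fun x => ⟨x.1, x.2⟩
      left_inv := fun x => rfl
      right_inv := fun x => rfl
      map_mul' := fun x y => rfl
      map_add' := fun x y => rfl }
  have hNF : NumberField L := NumberField.of_ringEquiv L0 L e
  have hH : ∀ g : Gal(Qb/F), g ∈ L.fixingSubgroup ↔
      (((IntermediateField.fixingSubgroupEquiv F).symm g : F.fixingSubgroup) : GQ) ∈ H₁ := by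
    intro g
    rw [← hfix, IntermediateField.mem_fixingSubgroup_iff, IntermediateField.mem_fixingSubgroup_iff]
    exact Iff.rfl
  have hnor : L.fixingSubgroup.Normal := by
    refine ⟨fun k hk g => ?_⟩
    rw [hH] at hk ⊢
    rw [map_mul, map_mul, map_inv]
    exact hnorm _ ((IntermediateField.fixingSubgroupEquiv F).symm g).2 _ hk
  have hgal0 : IsGalois F Qb := inferInstance
  have hgal : IsGalois F L := (InfiniteGalois.normal_iff_isGalois L).1 hnor
  have htr : IsTotallyReal L := by
    refine ⟨fun w => ?_⟩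
    rw [InfinitePlace.isReal_iff]
    obtain ⟨ι, hι⟩ := cyca_ext L w.embedding
    obtain ⟨c, hc⟩ := cyca_cc ι
    have hcH : c ∈ H₁ := hcc c ⟨ι, hc⟩
    rw [ComplexEmbedding.isReal_iff]
    refine RingHom.ext fun x => ?_
    have h1 : c (x : Qb) = x := by
      have h2 : c ∈ L0.fixingSubgroup := by
        rw [hfix]
        exact hcH
      exact (IntermediateField.mem_fixingSubgroup_iff _ _).1 h2 x x.2
    have h3 := hc (x : Qb)
    rw [h1, hι] at h3
    exact h3.symm
  let ρ : F.fixingSubgroup →* Gal(L/F) :=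
    (AlgEquiv.restrictNormalHom L).comp (IntermediateField.fixingSubgroupEquiv F).toMonoidHom
  have hρ : ∀ (h : F.fixingSubgroup) (x : L), ((ρ h x : L) : Qb) = (h : GQ) (x : Qb) := by
    intro h x
    exact AlgEquiv.restrictNormal_commutes (IntermediateField.fixingSubgroupEquiv F h) L x
  refine ⟨L, inferInstance, hNF, inferInstance, hgal, htr, algebraMap L Qb, ρ, ?_, ?_, ?_, ?_, ?_⟩
  · exact (AlgEquiv.restrictNormalHom_surjective Qb).comp
      (IntermediateField.fixingSubgroupEquiv F).surjective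
  · intro h x
    exact hρ h x
  · intro h
    constructor
    · intro h1
      rw [← hfix, IntermediateField.mem_fixingSubgroup_iff]
      intro x hx
      have h2 := hρ h ⟨x, hx⟩
      rw [h1] at h2
      exact h2.symm
    · intro h1
      refine AlgEquiv.ext fun x => ?_
      apply Subtype.ext
      rw [hρ h x]
      rw [← hfix, IntermediateField.mem_fixingSubgroup_iff] at h1
      exact h1 x x.2
  · intro x
    rfl
  · intro x hx
    refine ⟨⟨x, ?_⟩, rfl⟩
    rw [hLmem, hL0, IntermediateField.mem_fixedField_iff]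
    exact hx

end Pool.Agent.AAP
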