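import Pool.Agent.AAP.Defs

/-!
# AAP-Lift (1.0h): lifting to inertia groups

`H` closed subgroup of `GQ`, `h` normalizes `H` and acts trivially modulo `𝔓` on the elements of
`ZQ` fixed by `H`. Then `h k` is in the inertia group of `𝔓` for some `k` in `H`.
PROOF: `C` = subring of `ZQ` fixed by `H`, `Algebra.IsInvariant C ZQ H` (trivial). For `x ∈ C`,
`h x ∈ C`, `h x - x ∈ 𝔓`, and also `h⁻¹ x - x ∈ 𝔓`. So `h⁻¹ • 𝔓` and `𝔓` have the same
intersection with `C`: by `Algebra.IsInvariant.exists_smul_of_under_eq_of_profinite` (Mathlib/RingTheory/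
Invariant/Profinite; `H` is compact and totally disconnected as a closed subgroup of `GQ`, acts
continuously on the discrete space `ZQ` since stabilizers are open) there is `k₁ ∈ H` with
`k₁ • 𝔓 = h⁻¹ • 𝔓`, so `h k₁` stabilizes `𝔓`. It induces an automorphism of
`ZQ/𝔓` over `C/(𝔓 ∩ C)` (trivial on `C`, as `k₁` is), and by
`Ideal.Quotient.stabilizerHom_surjective_of_profinite` there is `k₂ ∈ H` stabilizing `𝔓` and
inducing the inverse automorphism. Then `h k₁ k₂ ∈ In 𝔓`.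
Second statement: the same with `exists_smul_of_under_eq_of_profinite` only.
Third: an element acting as `x ↦ x ^ p` exists (`stabilizerHom_surjective_of_profinite` for `GQ`
itself: `C = ℤ`, `x ↦ x ^ p` is an automorphism of the algebraic extension `ZQ/𝔓` of `𝔽_p`).
-/

open NumberField Pointwise

namespace Pool.Agent.AAP

open Pool.Agent.Helper60.FM

/-- the ring of the elements fixed by `H` -/
private noncomputable abbrev CC (H : Subgroup GQ) : Subring ZQ := FixedPoints.subring ZQ H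

private theorem mem_CC {H : Subgroup GQ} {x : ZQ} (hx : ∀ k ∈ H, k • x = x) : x ∈ CC H :=
  fun k => hx k k.2

private theorem CC_fix {H : Subgroup GQ} {x : ZQ} (hx : x ∈ CC H) : ∀ k ∈ H, k • x = x :=
  fun k hk => hx ⟨k, hk⟩

private theorem comm_inst (H : Subgroup GQ) : SMulCommClass H (CC H) ZQ := by
  refine ⟨fun g a b => ?_⟩
  rw [Algebra.smul_def, Algebra.smul_def, smul_mul']
  have h1 : g • (algebraMap (CC H) ZQ a) = algebraMap (CC H) ZQ a := a.2 g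
  rw [h1]

private theorem inv_inst (H : Subgroup GQ) : Algebra.IsInvariant (CC H) ZQ H :=
  ⟨fun b hb => ⟨⟨b, hb⟩, rfl⟩⟩

private theorem cpt_inst {H : Subgroup GQ} (hH : IsClosed (H : Set GQ)) : CompactSpace H :=
  isCompact_iff_compactSpace.1 hH.isCompact

private theorem stab_open (x : ZQ) : IsOpen (MulAction.stabilizer GQ x : Set GQ) := by
  have h1 := stabilizer_isOpen_of_isIntegral (K := ℚ) (L := Qb) (x : Qb)
  have h2 : (MulAction.stabilizer GQ x : Set GQ) =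
      (MulAction.stabilizer GQ (x : Qb) : Set GQ) := by
    ext g
    constructor
    · intro hg
      exact congrArg Subtype.val hg
    · intro hg
      exact Subtype.ext hg
  rw [h2]
  exact h1

private theorem conj_aux (H : Subgroup GQ) (hH : IsClosed (H : Set GQ)) (P Q : Ideal ZQ)
    [P.IsPrime] [Q.IsPrime] (h : ∀ x : ZQ, (∀ k ∈ H, k • x = x) → (x ∈ P ↔ x ∈ Q)) :
    ∃ k ∈ H, k • P = Q := by
  have := comm_inst H
  have := inv_inst H
  have := cpt_inst hH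
  let _ : TopologicalSpace ZQ := ⊥
  have : DiscreteTopology ZQ := ⟨rfl⟩
  have : ContinuousSMul H ZQ := by
    rw [continuousSMul_iff_stabilizer_isOpen]
    intro b
    exact (stab_open b).preimage continuous_subtype_val
  obtain ⟨k, hk⟩ := Algebra.IsInvariant.exists_smul_of_under_eq_of_profinite
    (A := CC H) (G := H) P Q (by
      ext a
      exact h a (CC_fix a.2))
  exact ⟨k, k.2, hk.symm⟩

private theorem lift_aux (H : Subgroup GQ) (hH : IsClosed (H : Set GQ)) (Q : Ideal ZQ)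
    [Q.IsPrime] (σ : (ZQ ⧸ Q) ≃+* (ZQ ⧸ Q))
    (hσ : ∀ x : ZQ, (∀ k ∈ H, k • x = x) →
      σ (Ideal.Quotient.mk Q x) = Ideal.Quotient.mk Q x) :
    ∃ k ∈ H, k • Q = Q ∧ ∀ x : ZQ, Ideal.Quotient.mk Q (k • x) = σ (Ideal.Quotient.mk Q x) := by
  have := comm_inst H
  have := inv_inst H
  have := cpt_inst hH
  let _ : TopologicalSpace ZQ := ⊥
  have : DiscreteTopology ZQ := ⟨rfl⟩
  have : ContinuousSMul H ZQ := by
    rw [continuousSMul_iff_stabilizer_isOpen]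
    intro b
    exact (stab_open b).preimage continuous_subtype_val
  let τ : (ZQ ⧸ Q) ≃ₐ[CC H ⧸ Q.under (CC H)] (ZQ ⧸ Q) :=
    AlgEquiv.ofRingEquiv (f := σ) (by
      intro w
      obtain ⟨w, rfl⟩ := Ideal.Quotient.mk_surjective w
      exact hσ w (CC_fix w.2))
  obtain ⟨k, hk⟩ := Ideal.Quotient.stabilizerHom_surjective_of_profinite (G := H)
    (Q.under (CC H)) Q τ
  refine ⟨k.1, k.1.2, k.2, fun x => ?_⟩
  exact DFunLike.congr_fun hk (Ideal.Quotient.mk Q x)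

theorem lift_inertia (H : Subgroup GQ) (hH : IsClosed (H : Set GQ)) (𝔓 : Ideal ZQ) (hP : 𝔓.IsPrime)
    (h : GQ) (hn : ∀ k ∈ H, h * k * h⁻¹ ∈ H) (hn' : ∀ k ∈ H, h⁻¹ * k * h ∈ H)
    (hx : ∀ x : ZQ, (∀ k ∈ H, k • x = x) → h • x - x ∈ 𝔓) : ∃ k ∈ H, h * k ∈ In 𝔓 := by
  have hQ : (h⁻¹ • 𝔓).IsPrime := inferInstance
  obtain ⟨k₁, hk₁, e₁⟩ := conj_aux H hH 𝔓 (h⁻¹ • 𝔓) (by
    intro x hxH
    rw [Ideal.mem_pointwise_smul_iff_inv_smul_mem, inv_inv]
    have h1 := hx x hxH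
    constructor
    · intro h2
      have h3 := 𝔓.add_mem h1 h2
      rwa [sub_add_cancel] at h3
    · intro h2
      have h3 := 𝔓.sub_mem h2 h1
      rwa [sub_sub_cancel] at h3)
  have e₂ : (h * k₁) • 𝔓 = 𝔓 := by
    rw [mul_smul, e₁, smul_inv_smul]
  have e₃ : ∀ x : ZQ, (h * k₁) • x ∈ 𝔓 ↔ x ∈ 𝔓 := by
    intro x
    conv_lhs => rw [← e₂]
    rw [Ideal.mem_pointwise_smul_iff_inv_smul_mem, inv_smul_smul]
  let ψ : (ZQ ⧸ 𝔓) ≃+* (ZQ ⧸ 𝔓) :=
    Ideal.quotientEquiv 𝔓 𝔓 (MulSemiringAction.toRingEquiv GQ ZQ (h * k₁)) (by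
      ext x
      change x ∈ 𝔓 ↔ x ∈ Ideal.map (MulSemiringAction.toRingEquiv GQ ZQ (h * k₁)) 𝔓
      rw [Ideal.mem_map_of_equiv]
      constructor
      · intro hx
        refine ⟨(h * k₁)⁻¹ • x, ?_, smul_inv_smul (h * k₁) x⟩
        rw [← e₃, smul_inv_smul]
        exact hx
      · rintro ⟨y, hy, rfl⟩
        exact (e₃ y).2 hy)
  have hψ : ∀ x : ZQ, ψ (Ideal.Quotient.mk 𝔓 x) = Ideal.Quotient.mk 𝔓 ((h * k₁) • x) :=
    fun x => rfl
  obtain ⟨k₂, hk₂, -, e₄⟩ := lift_aux H hH 𝔓 ψ.symm (by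
    intro x hxH
    rw [RingEquiv.symm_apply_eq, hψ, mul_smul, hxH k₁ hk₁, eq_comm, Ideal.Quotient.eq]
    exact hx x hxH)
  refine ⟨k₁ * k₂, H.mul_mem hk₁ hk₂, ?_⟩
  rw [mem_In]
  intro x
  rw [← Ideal.Quotient.eq, ← mul_assoc, mul_smul, ← hψ, e₄, RingEquiv.apply_symm_apply]

theorem lift_conj (H : Subgroup GQ) (hH : IsClosed (H : Set GQ)) (𝔓 𝔔 : Ideal ZQ) (hP : 𝔓.IsPrime)
    (hQ : 𝔔.IsPrime) (hx : ∀ x : ZQ, (∀ k ∈ H, k • x = x) → (x ∈ 𝔓 ↔ x ∈ 𝔔)) :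
    ∃ k ∈ H, k • 𝔓 = 𝔔 := by
  exact conj_aux H hH 𝔓 𝔔 hx

theorem exists_frob (p : ℕ) (hp : p.Prime) (𝔓 : Ideal ZQ) (hP : 𝔓.IsPrime) (hpP : (p : ZQ) ∈ 𝔓) :
    ∃ g : GQ, IsFrob p 𝔓 g := by
  have : Fact p.Prime := ⟨hp⟩
  have hch : CharP (ZQ ⧸ 𝔓) p := by
    rw [CharP.charP_iff_prime_eq_zero hp, ← map_natCast (Ideal.Quotient.mk 𝔓),
      Ideal.Quotient.eq_zero_iff_mem]
    exact hpP
  have : ExpChar (ZQ ⧸ 𝔓) p := ExpChar.prime hp
  have hinj : Function.Injective (frobenius (ZQ ⧸ 𝔓) p) := frobenius_inj _ p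
  have hsurj : Function.Surjective (frobenius (ZQ ⧸ 𝔓) p) := by
    intro b
    obtain ⟨x, rfl⟩ := Ideal.Quotient.mk_surjective b
    obtain ⟨y, hy⟩ := IsAlgClosed.exists_pow_nat_eq (x : Qb) hp.pos
    have hyi : IsIntegral ℤ y := by
      refine IsIntegral.of_pow hp.pos ?_
      rw [hy]
      exact x.2
    refine ⟨Ideal.Quotient.mk 𝔓 ⟨y, hyi⟩, ?_⟩
    rw [frobenius_def, ← map_pow]
    congr 1
    exact Subtype.ext hy
  let σ : (ZQ ⧸ 𝔓) ≃+* (ZQ ⧸ 𝔓) := RingEquiv.ofBijective (frobenius (ZQ ⧸ 𝔓) p) ⟨hinj, hsurj⟩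
  have hσ : ∀ b, σ b = b ^ p := fun b => frobenius_def p b
  obtain ⟨g, -, e1, e2⟩ := lift_aux ⊤ isClosed_univ 𝔓 σ (by
    intro x hx
    have h1 : (x : Qb) ∈ (⊥ : IntermediateField ℚ Qb) := by
      rw [InfiniteGalois.mem_bot_iff_fixed]
      intro g
      exact congrArg Subtype.val (hx g (Subgroup.mem_top g))
    rw [IntermediateField.mem_bot] at h1
    obtain ⟨q, hq⟩ := h1
    have h2 : IsIntegral ℤ (algebraMap ℚ Qb q) := by
      rw [hq]
      exact x.2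
    have h3 : IsIntegral ℤ q := (isIntegral_algebraMap_iff (algebraMap ℚ Qb).injective).1 h2
    obtain ⟨w, hw⟩ := IsIntegrallyClosed.isIntegral_iff.1 h3
    have h4 : x = (w : ZQ) := by
      apply Subtype.ext
      rw [← hq, ← hw]
      simp
    rw [h4, map_intCast]
    exact map_intCast σ w)
  refine ⟨g, e1, fun x => ?_⟩
  rw [← Ideal.Quotient.eq, e2, hσ, map_pow]

end Pool.Agent.AAP
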