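import Pool.Agent.AAP.DefsD

/-!
# AAP-NRed (1.0h): norms modulo a ramified prime are `e`-th powers

`L/F` Galois with abelian group `G`, `w` a prime of `L` above the nonzero prime `v` of `F`, `e` the
order of the inertia group `I` at `w`. If `x ∈ 𝓞 F` is the norm `∏_{τ ∈ G} τ η` of `η ∈ 𝓞 L`, then
the class of `x` modulo `v` is an `e`-th power in `𝓞 F / v`.
PROOF. For `ι ∈ I`, `τ ∈ G`: `ι τ η ≡ τ η mod w` (by the definition of inertia, applied to `τ η`).
Choose representatives `T` of `G/I`: `x ≡ (∏_{τ ∈ T} τ η) ^ e mod w`. Let `ξ` be the class of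
`∏_{τ ∈ T} τ η` in `𝓞 L / w`. Let `φ ∈ G` with `φ y ≡ y ^ q mod w` for all `y`, `q = #(𝓞 F / v)`
(Frobenius: Mathlib `IsArithFrobAt`, `AlgHom.IsArithFrobAt`, `exists_isArithFrobAt...`, or the
surjectivity of the decomposition group `Ideal.Quotient.stabilizerHom_surjective`). Then
`ξ ^ q ≡ ∏_{τ ∈ T} φ τ η`, and `φ T` is again a set of representatives of `G/I` (`G` abelian), and
the class of `τ η` modulo `w` depends only on `τ I`: so `ξ ^ q = ξ`, hence `ξ` is in the image of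
`𝓞 F / v` (a field with `q` elements: its elements are all the roots of `X ^ q - X` in the
field `𝓞 L / w`). As `𝓞 F / v → 𝓞 L / w` is injective, we are done.
-/

open NumberField

namespace Pool.Agent.AAP

private theorem prod_quot {G : Type} [Group G] [Fintype G] (I : Subgroup G) {k : Type}
    [CommMonoid k] [Fintype (G ⧸ I)] (c : G ⧸ I → k) :
    ∏ τ : G, c (τ : G ⧸ I) = (∏ q, c q) ^ Nat.card I := by
  classical
  rw [← Finset.prod_fiberwise Finset.univ (fun τ : G => (τ : G ⧸ I)), ← Finset.prod_pow]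
  refine Finset.prod_congr rfl fun q _ => ?_
  have h1 : ∏ τ ∈ Finset.univ.filter (fun τ : G => (τ : G ⧸ I) = q), c (τ : G ⧸ I) =
      ∏ _τ ∈ Finset.univ.filter (fun τ : G => (τ : G ⧸ I) = q), c q :=
    Finset.prod_congr rfl fun τ hτ => by rw [(Finset.mem_filter.1 hτ).2]
  rw [h1, Finset.prod_const]
  congr 1
  have h2 := QuotientGroup.card_preimage_mk I ({q} : Set (G ⧸ I))
  have h3 : Nat.card ({q} : Set (G ⧸ I)) = 1 := by simp
  rw [h3, mul_one, Nat.card_eq_card_toFinset] at h2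
  rw [← h2]
  congr 1
  ext τ
  simp

private theorem mem_of_pow {k0 k : Type} [Field k0] [Finite k0] [Field k] (f : k0 →+* k) {Y : k}
    (hY : Y ^ Nat.card k0 = Y) : ∃ y, f y = Y := by
  classical
  have := Fintype.ofFinite k0
  by_contra hcon
  push Not at hcon
  set S : Finset k := Finset.univ.image f with hS
  have hSc : S.card = Fintype.card k0 := by
    rw [hS, Finset.card_image_of_injective _ f.injective, Finset.card_univ]
  have hYS : Y ∉ S := by
    intro h
    obtain ⟨y, _, hy⟩ := Finset.mem_image.1 h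
    exact hcon y hy
  have hcard : Nat.card k0 = Fintype.card k0 := Nat.card_eq_fintype_card
  have h1 : 1 < Fintype.card k0 := Fintype.one_lt_card
  set p : Polynomial k := Polynomial.X ^ Fintype.card k0 - Polynomial.X with hp
  have hp0 : p ≠ 0 := FiniteField.X_pow_card_sub_X_ne_zero k h1
  have hdeg : p.natDegree = Fintype.card k0 := FiniteField.X_pow_card_sub_X_natDegree_eq k h1
  have hroot : ∀ z ∈ insert Y S, z ∈ p.roots := by
    intro z hz
    rw [Polynomial.mem_roots hp0, Polynomial.IsRoot.def, hp]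
    simp only [Polynomial.eval_sub, Polynomial.eval_pow, Polynomial.eval_X]
    rcases Finset.mem_insert.1 hz with rfl | hz
    · rw [← hcard, hY, sub_self]
    · obtain ⟨y, _, rfl⟩ := Finset.mem_image.1 hz
      rw [← map_pow, FiniteField.pow_card, sub_self]
  have h2 := Polynomial.card_le_degree_of_subset_roots (p := p) (Z := insert Y S)
    (fun z hz => hroot z hz)
  rw [Finset.card_insert_of_notMem hYS, hSc, hdeg] at h2
  omega

theorem nred (F L : Type) [Field F] [NumberField F] [Field L] [NumberField L] [Algebra F L]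
    [IsGalois F L] (hab : ∀ σ τ : Gal(L/F), σ * τ = τ * σ)
    (v : Ideal (𝓞 F)) (hv : v.IsPrime) (hv0 : v ≠ ⊥) (w : Ideal (𝓞 L)) (hw : w.IsPrime)
    (hwv : w.under (𝓞 F) = v) (e : ℕ) (he : Nat.card (Ideal.inertia Gal(L/F) w) = e)
    (x : 𝓞 F) (η : 𝓞 L) (hx : algebraMap (𝓞 F) (𝓞 L) x = ∏ τ : Gal(L/F), τ • η) :
    ∃ ξ : 𝓞 F, Ideal.Quotient.mk v x = Ideal.Quotient.mk v ξ ^ e := by
  classical
  subst hwv
  have hinj : Function.Injective (algebraMap (𝓞 F) (𝓞 L)) := FaithfulSMul.algebraMap_injective _ _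
  have hw0 : w ≠ ⊥ := by
    rintro rfl
    exact hv0 (Ideal.comap_bot_of_injective _ hinj)
  have hwm : w.IsMaximal := hw.isMaximal hw0
  have hvm : (w.under (𝓞 F)).IsMaximal := hv.isMaximal hv0
  have hfinw : Finite (𝓞 L ⧸ w) := Ideal.finiteQuotientOfFreeOfNeBot w hw0
  have hfinv : Finite (𝓞 F ⧸ w.under (𝓞 F)) := Ideal.finiteQuotientOfFreeOfNeBot _ hv0
  obtain ⟨φ, hφ⟩ := IsArithFrobAt.exists_of_isInvariant (𝓞 F) Gal(L/F) w
  set q0 := Nat.card (𝓞 F ⧸ w.under (𝓞 F)) with hq0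
  set I := Ideal.inertia Gal(L/F) w with hI
  have := Fintype.ofFinite (Gal(L/F) ⧸ I)
  -- the function on the cosets
  set c : Gal(L/F) → 𝓞 L ⧸ w := fun τ => Ideal.Quotient.mk w (τ • η) with hc
  have hcI : ∀ τ ι : Gal(L/F), ι ∈ I → c (τ * ι) = c τ := by
    intro τ ι hι
    rw [hab τ ι]
    show Ideal.Quotient.mk w ((ι * τ) • η) = Ideal.Quotient.mk w (τ • η)
    rw [mul_smul, Ideal.Quotient.eq]
    exact hι (τ • η)
  set c' : Gal(L/F) ⧸ I → 𝓞 L ⧸ w := Quotient.lift c (by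
    intro a b hab'
    have h1 : a⁻¹ * b ∈ I := QuotientGroup.leftRel_apply.1 hab'
    have h2 := hcI a (a⁻¹ * b) h1
    rw [mul_inv_cancel_left] at h2
    exact h2.symm) with hc'
  have hc'm : ∀ τ : Gal(L/F), c' (τ : Gal(L/F) ⧸ I) = c τ := fun τ => rfl
  set Y := ∏ q, c' q with hY
  have hprod : Ideal.Quotient.mk w (algebraMap (𝓞 F) (𝓞 L) x) = Y ^ e := by
    rw [hx, map_prod, ← he, hY, ← prod_quot I c']
    rfl
  have hYq : Y ^ q0 = Y := by
    rw [hY, ← Finset.prod_pow]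
    have h1 : ∀ q : Gal(L/F) ⧸ I, c' q ^ q0 = c' (φ • q) := by
      intro q
      induction q using QuotientGroup.induction_on with
      | H τ =>
        show Ideal.Quotient.mk w (τ • η) ^ q0 = Ideal.Quotient.mk w ((φ * τ) • η)
        rw [mul_smul, ← map_pow]
        exact (Ideal.Quotient.eq.2 (hφ (τ • η))).symm
    simp only [h1]
    exact Equiv.prod_comp (MulAction.toPerm φ) c'
  let _ : Field (𝓞 L ⧸ w) := Ideal.Quotient.field w
  let _ : Field (𝓞 F ⧸ w.under (𝓞 F)) := Ideal.Quotient.field _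
  set f : 𝓞 F ⧸ w.under (𝓞 F) →+* 𝓞 L ⧸ w :=
    Ideal.quotientMap w (algebraMap (𝓞 F) (𝓞 L)) le_rfl with hf
  obtain ⟨y, hy⟩ := mem_of_pow f hYq
  obtain ⟨ξ, rfl⟩ := Ideal.Quotient.mk_surjective y
  refine ⟨ξ, f.injective ?_⟩
  rw [map_pow, hy, ← hprod]
  rfl

end Pool.Agent.AAP
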