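import Pool.Agent.AAP.Herb
import Pool.Agent.AAP.Amb
import Pool.Agent.AAP.NRed

/-! # Powers of units are `e`-th powers modulo a ramified prime -/

open NumberField Nat

namespace Pool.Agent.AAP

theorem prod_zpowers {G A : Type*} [Group G] [Finite G] [Fintype G] [CommMonoid A] (σ : G)
    (hσ : ∀ τ, τ ∈ Subgroup.zpowers σ) (d : ℕ) (hd : d = Nat.card G) (f : G → A) :
    ∏ i ∈ Finset.range d, f (σ ^ i) = ∏ τ, f τ := by
  classical
  have ho : orderOf σ = d := by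
    rw [hd]
    exact orderOf_eq_card_of_forall_mem_zpowers hσ
  rw [← ho]
  refine Finset.prod_bij (fun i _ => σ ^ i) (fun _ _ => Finset.mem_univ _) ?_ ?_ (fun _ _ => rfl)
  · intro i hi j hj h
    exact pow_injOn_Iio_orderOf (by simpa using hi) (by simpa using hj) h
  · intro τ _
    have h1 := hσ τ
    rw [mem_zpowers_iff_mem_range_orderOf] at h1
    obtain ⟨i, hi, h2⟩ := Finset.mem_image.1 h1
    exact ⟨i, hi, h2⟩

theorem upow (F L : Type) [Field F] [NumberField F] [Field L] [NumberField L] [Algebra F L]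
    [IsGalois F L] [IsTotallyReal L] (σ : Gal(L/F)) (hσ : ∀ τ, τ ∈ Subgroup.zpowers σ)
    (v : Ideal (𝓞 F)) (hv : v.IsPrime) (hv0 : v ≠ ⊥)
    (hunr : ∀ w : Ideal (𝓞 L), w.IsPrime → w ≠ ⊥ → w.under (𝓞 F) ≠ v →
      Ideal.inertia Gal(L/F) w = ⊥)
    (e : ℕ) (he : ∀ w : Ideal (𝓞 L), w.IsPrime → w.under (𝓞 F) = v →
      Nat.card (Ideal.inertia Gal(L/F) w) = e) (w : Ideal (𝓞 L)) (hw : w.IsPrime)
    (hwv : w.under (𝓞 F) = v) (ε : (𝓞 F)ˣ) :
    ∃ ξ : 𝓞 F, Ideal.Quotient.mk v ((ε : 𝓞 F) ^ (classNumber F)!) =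
      Ideal.Quotient.mk v ξ ^ e := by
  classical
  have hab : ∀ σ' τ : Gal(L/F), σ' * τ = τ * σ' := by
    intro a b
    obtain ⟨i, rfl⟩ := hσ a
    obtain ⟨j, rfl⟩ := hσ b
    simp only [← zpow_add, add_comm]
  obtain ⟨h1, h2, h3⟩ := herb F L σ hσ _ rfl
  have h4 := amb F L σ hσ _ rfl v hv hv0 hunr e he h2
  set d := Nat.card Gal(L/F) with hd
  set S := (nm (ua F L σ) d).range.relIndex (dv (ua F L σ)).ker with hS
  have hed : e ≤ d := by
    rw [← he w hw hwv]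
    exact Subgroup.card_le_card_group _
  have hd0 : 0 < d := Nat.card_pos
  have hSh : S ≤ classNumber F := by
    rw [h1] at h4
    have h5 : S * d ≤ classNumber F * d := h4.trans (Nat.mul_le_mul_left _ hed)
    exact Nat.le_of_mul_le_mul_right h5 hd0
  -- the unit of L
  let u : (𝓞 L)ˣ := Units.map (algebraMap (𝓞 F) (𝓞 L)).toMonoidHom ε
  have hu : u ∈ (dv (ua F L σ)).ker := by
    rw [MonoidHom.mem_ker]
    change ua F L σ u / u = 1
    rw [div_eq_one]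
    ext
    rw [ua_apply]
    have h6 : σ • algebraMap (𝓞 F) (𝓞 L) (ε : 𝓞 F) = algebraMap (𝓞 F) (𝓞 L) (ε : 𝓞 F) :=
      smul_algebraMap σ (ε : 𝓞 F)
    exact congrArg (algebraMap (𝓞 L) L) h6
  have h7 : u ^ S ∈ (nm (ua F L σ) d).range := by
    have h8 : (⟨u, hu⟩ : (dv (ua F L σ)).ker) ^ S ∈
        ((nm (ua F L σ) d).range.subgroupOf (dv (ua F L σ)).ker) :=
      Subgroup.pow_index_mem _ _
    exact h8
  have h9 : u ^ (classNumber F)! ∈ (nm (ua F L σ) d).range := by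
    obtain ⟨k, hk⟩ := Nat.dvd_factorial (Nat.pos_of_ne_zero h3) hSh
    rw [hk, pow_mul]
    exact Subgroup.pow_mem _ h7 k
  obtain ⟨η, hη⟩ := h9
  obtain ⟨ξ, hξ⟩ := nred F L hab v hv hv0 w hw hwv e (he w hw hwv)
    ((ε : 𝓞 F) ^ (classNumber F)!) (η : 𝓞 L) (by
      rw [← prod_zpowers σ hσ d hd (fun τ => τ • (η : 𝓞 L))]
      have h10 := congrArg (fun z : (𝓞 L)ˣ => (z : 𝓞 L)) hη
      simp only [Units.val_pow_eq_pow_val] at h10
      rw [map_pow]
      refine h10.symm.trans ?_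
      change ((∏ i ∈ Finset.range d, ((ua F L σ) ^ i) η : (𝓞 L)ˣ) : 𝓞 L) = _
      rw [Units.coe_prod]
      refine Finset.prod_congr rfl fun i _ => ?_
      rw [← map_pow, ua_apply])
  exact ⟨ξ, hξ⟩

end Pool.Agent.AAP
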