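import Pool.Agent.Helper60.FM.Transport

/-!
# Even Galois representations at almost all primes: definitions

`Qb` is an algebraic closure of `ℚ`, `GQ` its Galois group with the Krull topology, `ZQ` the ring
of all algebraic integers of `Qb`. The inertia subgroup of `GQ` at a prime ideal `𝔓` of `ZQ` is
the group of all `g` with `g x - x ∈ 𝔓` for all `x` in `ZQ`.
-/

open NumberField Pointwise Matrix

namespace Pool.Agent.AAP

open Pool.Agent.Helper60.FM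

/-- The ring of all algebraic integers. -/
abbrev ZQ : Type := integralClosure ℤ Qb

/-- The inertia group in `GQ` of the prime ideal `𝔓` of the ring of all algebraic integers. -/
noncomputable abbrev In (𝔓 : Ideal ZQ) : Subgroup GQ := Ideal.inertia GQ 𝔓

theorem mem_In {𝔓 : Ideal ZQ} {g : GQ} : g ∈ In 𝔓 ↔ ∀ x : ZQ, g • x - x ∈ 𝔓 := Iff.rfl

/-- `g` acts on the `m`-th roots of unity as raising to the `b`-th power. -/
def ActsAs (m : ℕ) (g : GQ) (b : ℕ) : Prop := ∀ ζ : Qb, ζ ^ m = 1 → g ζ = ζ ^ b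

/-- `V` is unramified at all prime ideals of `ZQ` which do not contain `m`. -/
def UnrOut {H : Type*} [Group H] (m : ℕ) (V : GQ →* H) : Prop :=
  ∀ 𝔓 : Ideal ZQ, 𝔓.IsPrime → (m : ZQ) ∉ 𝔓 → ∀ g ∈ In 𝔓, V g = 1

/-- `g` stabilizes `𝔓` and acts on `ZQ / 𝔓` as `x ↦ x ^ p`. -/
def IsFrob (p : ℕ) (𝔓 : Ideal ZQ) (g : GQ) : Prop :=
  g • 𝔓 = 𝔓 ∧ ∀ x : ZQ, g • x - x ^ p ∈ 𝔓

section

variable {E : Type*} [NormedField E]

/-- `V` is even: `det V(c) = 1` for all complex conjugations `c`. -/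
def IsEven (V : GQ →* GL (Fin 2) E) : Prop :=
  ∀ c : GQ, IsCC c → det (V c : Matrix (Fin 2) (Fin 2) E) = 1

/-- `V` has a stable line (in other words it is reducible). -/
def HasLine (V : GQ →* GL (Fin 2) E) : Prop :=
  ∃ v : Fin 2 → E, v ≠ 0 ∧ ∀ g, ∃ c : E, (V g : Matrix (Fin 2) (Fin 2) E) *ᵥ v = c • v

/-- trace -/
noncomputable abbrev tr (V : GQ →* GL (Fin 2) E) (g : GQ) : E :=
  trace (V g : Matrix (Fin 2) (Fin 2) E)

/-- The semisimple reduction of `V` is `ω ^ j ⊗ (α ⊕ β ω ^ n)` with `α`, `β` characters modulo `N`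
and `ω` the cyclotomic character modulo `p`. -/
def Red (p n N : ℕ) (V : GQ →* GL (Fin 2) E) : Prop :=
  ∃ (α β : (ZMod N)ˣ →* Eˣ) (j : ℕ), ∀ (g : GQ) (a : (ZMod N)ˣ) (b : ℕ),
    ActsAs N g (a : ZMod N).val → ActsAs p g b →
      ‖tr V g - (b : E) ^ j * (α a + β a * (b : E) ^ n)‖ < 1

/-- The subgroup of all `g` in `GQ` with `g δ = δ`. -/
noncomputable def Stab (δ : Qb) : Subgroup GQ := MulAction.stabilizer GQ δ

/-- The reduction of `V` is induced from a character `χ` of `Gal(Qb/ℚ(√D))`, `D ∣ N`, with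
`χ ^ N` unramified outside `p`. -/
def Dih (p N : ℕ) (V : GQ →* GL (Fin 2) E) : Prop :=
  ∃ (D : ℤ) (δ : Qb) (χ : Stab δ →* Eˣ), D ∣ N ∧ δ ^ 2 = D ∧ (∀ q : ℚ, δ ≠ algebraMap ℚ Qb q) ∧
    IsOpen ((χ.ker.map (Stab δ).subtype : Subgroup GQ) : Set GQ) ∧
    (∀ s ∉ Stab δ, ‖tr V s‖ < 1) ∧
    (∀ s ∉ Stab δ, ∀ h h' : Stab δ, (h' : GQ) = s * h * s⁻¹ → ‖tr V h - χ h - χ h'‖ < 1) ∧
    (∀ 𝔓 : Ideal ZQ, 𝔓.IsPrime → (p : ZQ) ∉ 𝔓 → ∀ h : Stab δ, (h : GQ) ∈ In 𝔓 →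
      ‖((χ h : E)) ^ N - 1‖ < 1)

/-- The reduction of `V` is at `p` of Fontaine-Laffaille type with weights `0` and `n`: its
restriction to an inertia group at `p` is `1 ⊕ ω ^ n`, with `ω` the cyclotomic character, or it is
`θ ^ n ⊕ θ ^ (p n)`, with `θ` a fundamental character of level two. -/
def FL (p n : ℕ) (V : GQ →* GL (Fin 2) E) : Prop :=
  ∃ 𝔓 : Ideal ZQ, 𝔓.IsPrime ∧ (p : ZQ) ∈ 𝔓 ∧
    ((∀ τ ∈ In 𝔓, ∀ b : ℕ, ActsAs p τ b → ‖tr V τ - 1 - (b : E) ^ n‖ < 1) ∨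
      ∃ θ : In 𝔓 →* Eˣ, (∃ τ, orderOf (θ τ) = p ^ 2 - 1) ∧ (∀ τ, θ τ ^ (p ^ 2 - 1) = 1) ∧
        (∀ g, IsFrob p 𝔓 g → ∀ τ τ' : In 𝔓, (τ' : GQ) = g * τ * g⁻¹ → θ τ' = θ τ ^ p) ∧
        ∀ τ : In 𝔓, ‖tr V τ - (θ τ : E) ^ n - (θ τ : E) ^ (p * n)‖ < 1)

end

/-- The statement of the main theorem. -/
def Statement : Prop :=
  ∀ n N : ℕ, 2 ≤ n → 1 ≤ N → ∃ P : Finset ℕ, ∀ (p : ℕ) [Fact p.Prime], p ∉ P →
    ∀ (E : Type) [NormedField E] [IsUltrametricDist E] [CompleteSpace E] [NormedAlgebra ℚ_[p] E]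
      (V : GQ →* GL (Fin 2) E), Continuous V → UnrOut (N * p) V → IsEven V →
        (Red p n N V ∨ (Dih p N V ∧ FL p n V)) → HasLine V

end Pool.Agent.AAP
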