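import Mathlib

/-!
# Even Galois representations at almost all primes: cyclic extensions, notation
-/

open NumberField Pointwise

namespace Pool.Agent.AAP

section

variable {A : Type*} [CommGroup A]

/-- `x ↦ s x / x` -/
def dv (s : MulAut A) : A →* A where
  toFun x := s x / x
  map_one' := by simp
  map_mul' x y := by rw [map_mul, mul_div_mul_comm]

/-- `x ↦ x * s x * ... * s ^ (d - 1) x` -/
def nm (s : MulAut A) (d : ℕ) : A →* A where
  toFun x := ∏ i ∈ Finset.range d, (s ^ i) x
  map_one' := by simp
  map_mul' x y := by simp [Finset.prod_mul_distrib]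

end

/-- the action of the Galois group on the units -/
noncomputable def ua (F L : Type) [Field F] [NumberField F] [Field L] [NumberField L]
    [Algebra F L] : Gal(L/F) →* MulAut (𝓞 L)ˣ where
  toFun σ := Units.mapEquiv (MulSemiringAction.toRingEquiv Gal(L/F) (𝓞 L) σ).toMulEquiv
  map_one' := by
    ext u
    simp
  map_mul' σ τ := by
    ext u
    simp [mul_smul]

theorem ua_apply (F L : Type) [Field F] [NumberField F] [Field L] [NumberField L]
    [Algebra F L] (σ : Gal(L/F)) (u : (𝓞 L)ˣ) : ((ua F L σ u : (𝓞 L)ˣ) : 𝓞 L) = σ • (u : 𝓞 L) :=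
  rfl

end Pool.Agent.AAP
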