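import Pool.Agent.AAP.Defs

/-!
# Even Galois representations at almost all primes: number fields inside `Qb`
-/

open NumberField Pointwise

namespace Pool.Agent.AAP

open Pool.Agent.Helper60.FM

/-- the ring of integers of a subfield of `Qb` in the ring of all algebraic integers -/
noncomputable def toZ (F : IntermediateField ℚ Qb) : 𝓞 F →+* ZQ :=
  (((algebraMap F Qb).comp (algebraMap (𝓞 F) F)).codRestrict (integralClosure ℤ Qb).toSubring
    (fun x => by
      have h : IsIntegral ℤ ((x : F)) := x.2
      exact h.map (algebraMap F Qb).toIntAlgHom))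

theorem coe_toZ (F : IntermediateField ℚ Qb) (x : 𝓞 F) : ((toZ F x : ZQ) : Qb) = ((x : F) : Qb) :=
  rfl

/-- the prime ideal `𝔓` of `ZQ` lies over `v` -/
def Over (F : IntermediateField ℚ Qb) (𝔓 : Ideal ZQ) (v : Ideal (𝓞 F)) : Prop :=
  ∀ x : 𝓞 F, toZ F x ∈ 𝔓 ↔ x ∈ v

/-- the subfield generated by `δ` -/
noncomputable abbrev FF (δ : Qb) : IntermediateField ℚ Qb := IntermediateField.adjoin ℚ {δ}

theorem fixing_FF (δ : Qb) : (FF δ).fixingSubgroup = Stab δ := by
  ext g
  rw [IntermediateField.mem_fixingSubgroup_iff]
  constructor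
  · intro h
    exact h δ (IntermediateField.mem_adjoin_simple_self ℚ δ)
  · intro h x hx
    have h1 : FF δ ≤ IntermediateField.fixedField (Subgroup.zpowers g) := by
      rw [IntermediateField.adjoin_le_iff]
      intro y hy
      rw [Set.mem_singleton_iff] at hy
      subst hy
      rw [SetLike.mem_coe, IntermediateField.mem_fixedField_iff]
      intro f hf
      have h2 : Subgroup.zpowers g ≤ Stab y := by
        rw [Subgroup.zpowers_le]
        exact h
      exact h2 hf
    exact (IntermediateField.mem_fixedField_iff _ _).1 (h1 hx) g (Subgroup.mem_zpowers g)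

end Pool.Agent.AAP
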