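import Mathlib

/-!
# AAP2-DetG (1.2h): the group determinant

`A g h = Θ(g h⁻¹)` (integer matrix), `M = |det A|`.
(1) `M ≤ (card G)! B ^ (card G)`: `Matrix.det_le` or the Leibniz formula.
(2) `M ≠ 0`: otherwise there is a nonzero `f : G → ℂ` with `∑_h Θ(g h⁻¹) f(h) = 0` for all `g`
(`Matrix.exists_mulVec_eq_zero_iff`, the determinant commutes with `Int.cast`). Multiply by `φ(g)` and
sum over `g`: `(∑ Θ φ) (∑ f φ) = 0`, so `∑_h f(h) φ(h) = 0` for all `φ : G →* ℂˣ`. The characters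
are linearly independent (`linearIndependent_monoidHom`) and there are `card G` of them
(`CommGroup.card_monoidHom_of_hasEnoughRootsOfUnity` or similar), so they span all functions on
`G`, and `f = 0` (take the conjugate of `f` as a combination of characters: `∑ |f|² = 0`).
(3) `χ : G →* Eˣ`, `x = ∑ Θ(g) χ(g)`, `‖x‖ < 1`. The vector `v = (χ(h)⁻¹)_h` (or `χ(h)`; choose the
side) satisfies `v A = x v` (or `A v = x v`), so `det A • v = adj(A) A v = x adj(A) v`
(`Matrix.adjugate_mul`), the entries of `adj(A)` are integers (norm `≤ 1`) and those of `v` have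
norm `1` (`χ(h)` has finite order). Hence `‖det A‖ ≤ ‖x‖ < 1`, so `p ∣ M`
(`Padic.norm_int_lt_one_iff`, `norm_algebraMap'`).
-/

namespace Pool.Agent.AAP

open Finset

/-- the group matrix -/
private def gmat {G : Type} [CommGroup G] (Θ : G → ℤ) : Matrix G G ℤ :=
  Matrix.of fun g h => Θ (g * h⁻¹)

private theorem gmat_apply {G : Type} [CommGroup G] (Θ : G → ℤ) (g h : G) :
    gmat Θ g h = Θ (g * h⁻¹) := rfl

private theorem dual_sum {G : Type} [CommGroup G] [Fintype G] [Fintype (G →* ℂˣ)] {k : G}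
    (hk : k ≠ 1) : ∑ φ : G →* ℂˣ, ((φ k : ℂˣ) : ℂ) = 0 := by
  obtain ⟨ψ, hψ⟩ := CommGroup.exists_apply_ne_one_of_hasEnoughRootsOfUnity G ℂ hk
  have h1 : ∑ φ : G →* ℂˣ, ((φ k : ℂˣ) : ℂ) = (ψ k : ℂ) * ∑ φ : G →* ℂˣ, ((φ k : ℂˣ) : ℂ) := by
    rw [mul_sum, ← Equiv.sum_comp (Equiv.mulLeft ψ) (fun φ : G →* ℂˣ => ((φ k : ℂˣ) : ℂ))]
    refine sum_congr rfl fun φ _ => ?_
    rw [Equiv.coe_mulLeft, MonoidHom.mul_apply, Units.val_mul]
  have h2 : (ψ k : ℂ) ≠ 1 := by
    intro h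
    exact hψ (Units.ext h)
  have h3 : (1 - (ψ k : ℂ)) * ∑ φ : G →* ℂˣ, ((φ k : ℂˣ) : ℂ) = 0 := by
    rw [sub_mul, one_mul, ← h1, sub_self]
  exact (mul_eq_zero.1 h3).resolve_left (sub_ne_zero.2 h2.symm)

private theorem gmat_det_ne {G : Type} [CommGroup G] [Fintype G] [DecidableEq G] (Θ : G → ℤ)
    (hne : ∀ φ : G →* ℂˣ, ∑ g, (Θ g : ℂ) * φ g ≠ 0) : (gmat Θ).det ≠ 0 := by
  intro hdet
  have h1 : ((Int.castRingHom ℂ).mapMatrix (gmat Θ)).det = 0 := by
    rw [← RingHom.map_det, hdet, map_zero]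
  obtain ⟨f, hf0, hf⟩ := Matrix.exists_mulVec_eq_zero_iff.2 h1
  have h2 : ∀ g, ∑ h, (Θ (g * h⁻¹) : ℂ) * f h = 0 := by
    intro g
    have h3 := congrFun hf g
    rw [Matrix.mulVec, dotProduct] at h3
    exact h3
  have h4 : ∀ φ : G →* ℂˣ, ∑ h, f h * φ h = 0 := by
    intro φ
    have h5 : (∑ g, (Θ g : ℂ) * φ g) * ∑ h, f h * φ h = 0 := by
      calc (∑ g, (Θ g : ℂ) * φ g) * ∑ h, f h * φ h =
            ∑ h, ∑ g, (Θ g : ℂ) * φ g * (f h * φ h) := by
            rw [mul_sum]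
            refine sum_congr rfl fun h _ => ?_
            rw [sum_mul]
        _ = ∑ h, ∑ g, (Θ (g * h⁻¹) : ℂ) * φ g * f h := by
            refine sum_congr rfl fun h _ => ?_
            rw [← Equiv.sum_comp (Equiv.mulRight h) (fun g => (Θ (g * h⁻¹) : ℂ) * φ g * f h)]
            refine sum_congr rfl fun g _ => ?_
            rw [Equiv.coe_mulRight, mul_inv_cancel_right, map_mul, Units.val_mul]
            ring
        _ = ∑ g, (φ g : ℂ) * ∑ h, (Θ (g * h⁻¹) : ℂ) * f h := by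
            rw [sum_comm]
            refine sum_congr rfl fun g _ => ?_
            rw [mul_sum]
            refine sum_congr rfl fun h _ => ?_
            ring
        _ = 0 := by
            refine sum_eq_zero fun g _ => ?_
            rw [h2 g, mul_zero]
    exact (mul_eq_zero.1 h5).resolve_left (hne φ)
  apply hf0
  funext g
  have : Fintype (G →* ℂˣ) := Fintype.ofFinite _
  have h6 : (∑ φ : G →* ℂˣ, ((φ g)⁻¹ : ℂˣ) * ∑ h, f h * (φ h : ℂ)) = 0 := by
    refine sum_eq_zero fun φ _ => ?_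
    rw [h4 φ, mul_zero]
  have h7 : (∑ φ : G →* ℂˣ, (((φ g)⁻¹ : ℂˣ) : ℂ) * ∑ h, f h * (φ h : ℂ)) =
      f g * Fintype.card (G →* ℂˣ) := by
    calc (∑ φ : G →* ℂˣ, (((φ g)⁻¹ : ℂˣ) : ℂ) * ∑ h, f h * (φ h : ℂ)) =
          ∑ h, f h * ∑ φ : G →* ℂˣ, ((φ (h * g⁻¹) : ℂˣ) : ℂ) := by
          simp only [mul_sum]
          rw [sum_comm]
          refine sum_congr rfl fun h _ => sum_congr rfl fun φ _ => ?_
          rw [map_mul, map_inv, Units.val_mul]
          ring
      _ = f g * ∑ φ : G →* ℂˣ, ((φ (g * g⁻¹) : ℂˣ) : ℂ) := by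
          refine sum_eq_single g (fun h _ hhg => ?_) (fun h => absurd (mem_univ g) h)
          rw [dual_sum (mul_inv_eq_one.not.2 hhg), mul_zero]
      _ = f g * Fintype.card (G →* ℂˣ) := by
          rw [mul_inv_cancel]
          simp
  rw [h7] at h6
  have h8 : (Fintype.card (G →* ℂˣ) : ℂ) ≠ 0 := by
    have : Nonempty (G →* ℂˣ) := ⟨1⟩
    exact_mod_cast Fintype.card_ne_zero
  exact (mul_eq_zero.1 h6).resolve_right h8

theorem detG {G : Type} [CommGroup G] [Fintype G] (Θ : G → ℤ) (B : ℕ)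
    (hB : ∀ g, |Θ g| ≤ B) (hne : ∀ φ : G →* ℂˣ, ∑ g, (Θ g : ℂ) * φ g ≠ 0) :
    ∃ M : ℕ, M ≠ 0 ∧ M ≤ (Fintype.card G).factorial * B ^ Fintype.card G ∧
      ∀ (p : ℕ) [Fact p.Prime] (E : Type) [NormedField E] [IsUltrametricDist E]
        [NormedAlgebra ℚ_[p] E] (χ : G →* Eˣ), ‖∑ g, (Θ g : E) * χ g‖ < 1 → p ∣ M := by
  classical
  refine ⟨(gmat Θ).det.natAbs, Int.natAbs_ne_zero.2 (gmat_det_ne Θ hne), ?_, ?_⟩
  · have h1 := Matrix.det_le (A := gmat Θ) (abv := AbsoluteValue.abs) (x := (B : ℤ))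
      (fun i j => hB _)
    have h2 : |(gmat Θ).det| ≤
        (((Fintype.card G).factorial * B ^ Fintype.card G : ℕ) : ℤ) := by
      refine le_trans h1 (le_of_eq ?_)
      rw [nsmul_eq_mul]
      push_cast
      rfl
    rw [← Int.natCast_natAbs] at h2
    exact_mod_cast h2
  · intro p _ E _ _ _ χ hx
    -- the characters have norm one
    have hχ : ∀ g, ‖((χ g : Eˣ) : E)‖ = 1 := by
      intro g
      have h1 : (χ g : Eˣ) ^ Fintype.card G = 1 := by
        rw [← map_pow, pow_card_eq_one, map_one]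
      have h2 : ‖((χ g : Eˣ) : E)‖ ^ Fintype.card G = 1 := by
        rw [← norm_pow, ← Units.val_pow_eq_pow_val, h1, Units.val_one, norm_one]
      exact (pow_eq_one_iff_of_nonneg (norm_nonneg _) Fintype.card_ne_zero).1 h2
    -- the eigenvector
    have h1 : ∀ k, ∑ g, ((χ g : Eˣ) : E) * (Θ (g * k⁻¹) : E) =
        (χ k : E) * ∑ g, (Θ g : E) * χ g := by
      intro k
      rw [← Equiv.sum_comp (Equiv.mulRight k)
        (fun g => ((χ g : Eˣ) : E) * (Θ (g * k⁻¹) : E)), mul_sum]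
      refine sum_congr rfl fun g _ => ?_
      rw [Equiv.coe_mulRight, mul_inv_cancel_right, map_mul, Units.val_mul]
      ring
    have h2 : ∀ g, ∑ k, (Θ (g * k⁻¹) : E) * ((gmat Θ).adjugate k 1 : E) =
        if g = 1 then ((gmat Θ).det : E) else 0 := by
      intro g
      have h3 := congrFun (congrFun (Matrix.mul_adjugate (gmat Θ)) g) 1
      rw [Matrix.mul_apply, Matrix.smul_apply, Matrix.one_apply, smul_eq_mul, mul_ite, mul_one,
        mul_zero] at h3
      have h4 : ((∑ k, gmat Θ g k * (gmat Θ).adjugate k 1 : ℤ) : E) =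
          ((if g = 1 then (gmat Θ).det else 0 : ℤ) : E) := by rw [h3]
      rw [Int.cast_sum] at h4
      simp only [Int.cast_mul, gmat_apply] at h4
      rw [h4]
      split_ifs
      · rfl
      · exact Int.cast_zero
    have h5 : ((gmat Θ).det : E) = (∑ g, (Θ g : E) * χ g) *
        ∑ k, ((gmat Θ).adjugate k 1 : E) * (χ k : E) := by
      calc ((gmat Θ).det : E) = ∑ g, ((χ g : Eˣ) : E) *
            ∑ k, (Θ (g * k⁻¹) : E) * ((gmat Θ).adjugate k 1 : E) := by
            simp only [h2, mul_ite, mul_zero]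
            rw [sum_ite_eq' univ (1 : G), if_pos (mem_univ _), map_one, Units.val_one, one_mul]
        _ = ∑ k, ((gmat Θ).adjugate k 1 : E) *
            ∑ g, ((χ g : Eˣ) : E) * (Θ (g * k⁻¹) : E) := by
            simp only [mul_sum]
            rw [sum_comm]
            refine sum_congr rfl fun k _ => sum_congr rfl fun g _ => ?_
            ring
        _ = _ := by
            simp only [h1]
            rw [mul_sum]
            refine sum_congr rfl fun k _ => ?_
            ring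
    have h6 : ‖∑ k, ((gmat Θ).adjugate k 1 : E) * (χ k : E)‖ ≤ 1 := by
      refine IsUltrametricDist.norm_sum_le_of_forall_le_of_nonneg zero_le_one fun k _ => ?_
      rw [norm_mul, hχ, mul_one]
      exact IsUltrametricDist.norm_intCast_le_one E _
    have h7 : ‖((gmat Θ).det : E)‖ < 1 := by
      rw [h5, norm_mul]
      calc ‖∑ g, (Θ g : E) * χ g‖ * ‖∑ k, ((gmat Θ).adjugate k 1 : E) * (χ k : E)‖ ≤
            ‖∑ g, (Θ g : E) * χ g‖ * 1 := mul_le_mul_of_nonneg_left h6 (norm_nonneg _)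
        _ < 1 := by rwa [mul_one]
    have h8 : ((gmat Θ).det : E) = algebraMap ℚ_[p] E ((gmat Θ).det : ℚ_[p]) := by
      rw [map_intCast]
    rw [h8, norm_algebraMap', Padic.norm_intCast_lt_one_iff] at h7
    exact Int.natCast_dvd.1 h7

end Pool.Agent.AAP
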