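import Pool.Agent.AAP.DefsE
import Pool.Agent.AAP.Lift

/-!
# AAP-FLa (1.3h): level one

`χ : Stab δ → Eˣ` (values of norm 1), `V` is residually induced from `χ` (`hA`, `hB`), and
`tr V(τ) ≡ 1 + ω(τ) ^ n` on the inertia group of `𝔓 ∋ p`. `δ ^ 2` is rational, so `Stab δ` has index
at most two in `GQ`; it is not everything (`s₀ ∉ Stab δ`).
(0) `In 𝔓` maps onto `(ℤ/p)ˣ` under `ω` (`p` is totally ramified in `ℚ(ζ_p)`: `ζ ≡ 1 mod 𝔓` for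
all `ζ ^ p = 1`; use `lift_inertia` for `H = Gal(Qb/ℚ(ζ_p))`: elements of `ZQ` fixed by `H` lie in
`ℤ[ζ_p]`, on which every `h` acts trivially modulo `𝔓`). Conjugation: for `s ∈ GQ`,
`In (s • 𝔓) = s In 𝔓 s⁻¹`, `tr V` and `ω` are invariant: the formula holds for all `s • 𝔓`.
(1) `In 𝔓 ≤ Stab δ`: otherwise `1 + ω(τ) ^ n ≡ 0` for all `τ ∈ In 𝔓` outside `Stab δ`,
so `ω(τ) ^ (2n) = 1` for all `τ ∈ In 𝔓` (products of two of them), `p - 1 ∣ 2n`, contradiction.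
(2) for `τ ∈ In 𝔓`, `τ' = s₀ τ s₀⁻¹`: `χ(τ) + χ(τ') ≡ 1 + ω(τ)^n`, also for `τ²`: so
`χ(τ) χ(τ') ≡ ω(τ)^n` (`2` is invertible), `{χ(τ), χ(τ')} = {1, ω(τ)^n}`: `In 𝔓` is the union of the
subgroups `χ ≡ 1` and `χ ≡ ω^n`, so it is one of them; and `χ(τ')` is the other one.
So for each prime `𝔔 = s • 𝔓` of `ZQ` over `p` (all are of this form, `lift_conj` with `H = ⊤`)
`χ ≡ 1` on `In 𝔔` or `χ ≡ ω^n` on `In 𝔔`, this does not change under `Stab δ` (`χ` is invariant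
under conjugation) and it is exchanged by `s₀`; not both as `p - 1 ∤ n`. Let `𝔓₀` be of the
second type. (iii) a prime `𝔔` is of the second type iff `𝔔 = k • 𝔓₀` with `k ∈ Stab δ` iff `𝔔` and
`𝔓₀` have the same intersection with `𝓞 (FF δ)` (`lift_conj` for `H = Stab δ`, elements of `ZQ`
fixed by `Stab δ` are in `𝓞 (FF δ)`). Take `τ ∈ In 𝔓₀` with `ω(τ)` a generator.
-/

open NumberField Pointwise

namespace Pool.Agent.AAP

open Pool.Agent.Helper60.FM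

/-! ### Galois theory -/

private theorem fla_mem_conj (s g : GQ) (𝔔 : Ideal ZQ) : g ∈ In (s • 𝔔) ↔ s⁻¹ * g * s ∈ In 𝔔 := by
  rw [mem_In, mem_In]
  constructor
  · intro h x
    have h1 := h (s • x)
    rw [Ideal.mem_pointwise_smul_iff_inv_smul_mem, smul_sub, inv_smul_smul, ← mul_smul, ← mul_smul] at h1
    exact h1
  · intro h x
    have h1 := h (s⁻¹ • x)
    rw [Ideal.mem_pointwise_smul_iff_inv_smul_mem, smul_sub]
    rw [mul_smul, mul_smul, smul_inv_smul] at h1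
    exact h1

private theorem fla_int (p : ℕ) [Fact p.Prime] (𝔓 : Ideal ZQ) (hP : 𝔓.IsPrime) (hpP : (p : ZQ) ∈ 𝔓)
    (m : ℤ) : (m : ZQ) ∈ 𝔓 ↔ (p : ℤ) ∣ m := by
  constructor
  · intro hm
    by_contra hd
    have hpp : Prime (p : ℤ) := Nat.prime_iff_prime_int.1 (Fact.out : p.Prime)
    obtain ⟨u, v, huv⟩ := (hpp.irreducible.coprime_iff_not_dvd.2 hd : IsCoprime (p : ℤ) m)
    apply hP.ne_top
    rw [Ideal.eq_top_iff_one]
    have h1 : ((u * (p : ℤ) + v * m : ℤ) : ZQ) = 1 := by rw [huv]; simp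
    rw [← h1]
    push_cast
    exact 𝔓.add_mem (𝔓.mul_mem_left _ hpP) (𝔓.mul_mem_left _ hm)
  · rintro ⟨c, rfl⟩
    push_cast
    exact 𝔓.mul_mem_right _ hpP

private theorem fla_fixed (F : IntermediateField ℚ Qb) (x : ZQ)
    (hx : ∀ k ∈ F.fixingSubgroup, k • x = x) : ∃ y : 𝓞 F, toZ F y = x := by
  have h1 : (x : Qb) ∈ F := by
    rw [← InfiniteGalois.fixedField_fixingSubgroup F, IntermediateField.mem_fixedField_iff]
    intro k hk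
    have := congrArg (fun z : ZQ => (z : Qb)) (hx k hk)
    exact this
  have h2 : IsIntegral ℤ (⟨(x : Qb), h1⟩ : F) := by
    have h3 : IsIntegral ℤ (algebraMap F Qb ⟨(x : Qb), h1⟩) := x.2
    exact (isIntegral_algebraMap_iff (algebraMap F Qb).injective).1 h3
  exact ⟨⟨⟨(x : Qb), h1⟩, h2⟩, Subtype.ext rfl⟩

private theorem fla_intpt (x : ZQ) (hx : ∀ k : GQ, k • x = x) : ∃ m : ℤ, (m : ZQ) = x := by
  have h1 : (x : Qb) ∈ (⊥ : IntermediateField ℚ Qb) := by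
    rw [InfiniteGalois.mem_bot_iff_fixed]
    intro k
    have := congrArg (fun z : ZQ => (z : Qb)) (hx k)
    exact this
  rw [IntermediateField.mem_bot] at h1
  obtain ⟨c, hc⟩ := h1
  have h3 : IsIntegral ℤ (algebraMap ℚ Qb c) := by rw [hc]; exact x.2
  have h4 : IsIntegral ℤ c := (isIntegral_algebraMap_iff (algebraMap ℚ Qb).injective).1 h3
  obtain ⟨m, hm⟩ := IsIntegrallyClosed.isIntegral_iff.1 h4
  refine ⟨m, Subtype.ext ?_⟩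
  rw [← hc, ← hm]
  simp

private theorem fla_all (p : ℕ) [Fact p.Prime] (𝔓 𝔔 : Ideal ZQ) (hP : 𝔓.IsPrime) (hpP : (p : ZQ) ∈ 𝔓)
    (hQ : 𝔔.IsPrime) (hpQ : (p : ZQ) ∈ 𝔔) : ∃ s : GQ, s • 𝔓 = 𝔔 := by
  obtain ⟨k, -, hk⟩ := lift_conj ⊤ isClosed_univ 𝔓 𝔔 hP hQ (by
    intro x hx
    obtain ⟨m, rfl⟩ := fla_intpt x (fun k => hx k (Subgroup.mem_top k))
    rw [fla_int p 𝔓 hP hpP, fla_int p 𝔔 hQ hpQ])
  exact ⟨k, hk⟩

private theorem fla_prime (s : GQ) (𝔔 : Ideal ZQ) (hQ : 𝔔.IsPrime) : (s • 𝔔).IsPrime := by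
  infer_instance

private theorem fla_p (p : ℕ) (s : GQ) (𝔔 : Ideal ZQ) (hpQ : (p : ZQ) ∈ 𝔔) : (p : ZQ) ∈ s • 𝔔 := by
  rw [Ideal.mem_pointwise_smul_iff_inv_smul_mem]
  have : s⁻¹ • (p : ZQ) = (p : ZQ) := by
    have := map_natCast (MulSemiringAction.toRingHom GQ ZQ s⁻¹) p
    exact this
  rw [this]
  exact hpQ

/-! ### roots of unity -/

private theorem fla_acts (p : ℕ) [Fact p.Prime] (ζ : Qb) (hζ : IsPrimitiveRoot ζ p) (g : GQ) (b : ℕ)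
    (h : g ζ = ζ ^ b) : ActsAs p g b := by
  intro z hz
  obtain ⟨i, -, hi⟩ := hζ.eq_pow_of_pow_eq_one hz
  rw [← hi, map_pow, h, ← pow_mul, ← pow_mul, mul_comm]

private theorem fla_acts_conj (p : ℕ) (g s : GQ) (b : ℕ) (h : ActsAs p g b) :
    ActsAs p (s * g * s⁻¹) b := by
  intro z hz
  have h1 : (s⁻¹ z) ^ p = 1 := by rw [← map_pow, hz, map_one]
  have h2 := h _ h1
  change s (g (s⁻¹ z)) = _
  rw [h2, map_pow]
  congr 1
  exact AlgEquiv.apply_symm_apply s z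

private theorem fla_acts_mul (p : ℕ) (g h : GQ) (b c : ℕ) (hg : ActsAs p g b) (hh : ActsAs p h c) :
    ActsAs p (g * h) (b * c) := by
  intro z hz
  change g (h z) = _
  rw [hh z hz, map_pow, hg z hz, pow_mul]

private theorem fla_root (p : ℕ) [Fact p.Prime] : ∃ ζ : Qb, IsPrimitiveRoot ζ p := by
  have : NeZero (p : Qb) := ⟨Nat.cast_ne_zero.2 (Fact.out : p.Prime).ne_zero⟩
  exact HasEnoughRootsOfUnity.exists_primitiveRoot Qb p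

private theorem fla_omega (p : ℕ) [Fact p.Prime] (g : GQ) : ∃ b : ℕ, ActsAs p g b := by
  obtain ⟨ζ, hζ⟩ := fla_root p
  have h1 : (g ζ) ^ p = 1 := by rw [← map_pow, hζ.pow_eq_one, map_one]
  obtain ⟨i, -, hi⟩ := hζ.eq_pow_of_pow_eq_one h1
  exact ⟨i, fla_acts p ζ hζ g i hi.symm⟩

private theorem fla_gal (p : ℕ) [Fact p.Prime] (ζ : Qb) (hζ : IsPrimitiveRoot ζ p) (b : ℕ)
    (hb : b.Coprime p) : ∃ g : GQ, g ζ = ζ ^ b := by
  have hp0 : 0 < p := (Fact.out : p.Prime).pos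
  refine minpoly.exists_algEquiv_of_root' (Algebra.IsAlgebraic.isAlgebraic ζ) ?_
  rw [← Polynomial.cyclotomic_eq_minpoly_rat hζ hp0]
  have h2 : IsPrimitiveRoot (ζ ^ b) p := hζ.pow_of_coprime b hb
  have h3 := Polynomial.cyclotomic_eq_minpoly_rat h2 hp0
  rw [h3]
  exact minpoly.aeval _ _

private theorem fla_zeta (p : ℕ) [Fact p.Prime] (𝔓 : Ideal ZQ) (hP : 𝔓.IsPrime) (hpP : (p : ZQ) ∈ 𝔓)
    (z : ZQ) (hz : IsPrimitiveRoot z p) : z - 1 ∈ 𝔓 := by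
  have h1 := congrArg (Polynomial.eval (1 : ZQ)) (Polynomial.cyclotomic_eq_prod_X_sub_primitiveRoots hz)
  rw [Polynomial.eval_one_cyclotomic_prime, Polynomial.eval_prod] at h1
  rw [h1] at hpP
  obtain ⟨μ, hμ, hm⟩ := (hP.prod_mem_iff).1 hpP
  rw [Polynomial.eval_sub, Polynomial.eval_X, Polynomial.eval_C] at hm
  have hp0 : 0 < p := (Fact.out : p.Prime).pos
  have hμ' : IsPrimitiveRoot μ p := (mem_primitiveRoots hp0).1 hμ
  obtain ⟨j, -, hj⟩ := hμ'.eq_pow_of_pow_eq_one hz.pow_eq_one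
  rw [← hj]
  have h2 : μ - 1 ∣ μ ^ j - 1 ^ j := sub_dvd_pow_sub_pow μ 1 j
  rw [one_pow] at h2
  refine 𝔓.mem_of_dvd h2 ?_
  have h3 : μ - 1 = -(1 - μ) := by ring
  rw [h3]
  exact 𝔓.neg_mem hm

private theorem fla_surj (p : ℕ) [Fact p.Prime] (𝔓 : Ideal ZQ) (hP : 𝔓.IsPrime) (hpP : (p : ZQ) ∈ 𝔓)
    (b : ℕ) (hb : b.Coprime p) : ∃ τ ∈ In 𝔓, ActsAs p τ b := by
  have hp0 : 0 < p := (Fact.out : p.Prime).pos
  have hnz : NeZero p := ⟨hp0.ne'⟩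
  obtain ⟨ζ, hζ⟩ := fla_root p
  obtain ⟨g, hg⟩ := fla_gal p ζ hζ b hb
  have hint : IsIntegral ℤ ζ := hζ.isIntegral hp0
  obtain ⟨z, hzc⟩ : ∃ z : ZQ, (z : Qb) = ζ := ⟨⟨ζ, hint⟩, rfl⟩
  have hz : IsPrimitiveRoot z p := by
    refine IsPrimitiveRoot.of_map_of_injective (f := algebraMap ZQ Qb) ?_ Subtype.coe_injective
    change IsPrimitiveRoot (z : Qb) p
    rw [hzc]
    exact hζ
  have hmem : ∀ k : GQ, k ∈ (FF ζ).fixingSubgroup ↔ k ζ = ζ := by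
    intro k
    rw [fixing_FF]
    exact MulAction.mem_stabilizer_iff
  have hgz : g • z = z ^ b := by
    apply Subtype.ext
    change g (z : Qb) = ((z ^ b : ZQ) : Qb)
    rw [hzc, hg, ← hzc]
    rfl
  have hzz := fla_zeta p 𝔓 hP hpP z hz
  have hgz' : g • z - z ∈ 𝔓 := by
    rw [hgz]
    have h2 : z - 1 ∣ z ^ b - 1 ^ b := sub_dvd_pow_sub_pow z 1 b
    rw [one_pow] at h2
    have h3 := 𝔓.mem_of_dvd h2 hzz
    have h4 : z ^ b - z = (z ^ b - 1) - (z - 1) := by ring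
    rw [h4]
    exact 𝔓.sub_mem h3 hzz
  obtain ⟨k, hk, hkI⟩ := lift_inertia (FF ζ).fixingSubgroup
    (InfiniteGalois.fixingSubgroup_isClosed (FF ζ)) 𝔓 hP g
    (by
      intro k hk
      rw [hmem] at hk ⊢
      have h1 : (g⁻¹ ζ) ^ p = 1 := by rw [← map_pow, hζ.pow_eq_one, map_one]
      obtain ⟨c, -, hc⟩ := hζ.eq_pow_of_pow_eq_one h1
      change g (k (g⁻¹ ζ)) = ζ
      rw [← hc, map_pow, hk, hc]
      exact AlgEquiv.apply_symm_apply g ζ)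
    (by
      intro k hk
      rw [hmem] at hk ⊢
      change g⁻¹ (k (g ζ)) = ζ
      rw [hg, map_pow, hk, ← hg]
      exact AlgEquiv.symm_apply_apply g ζ)
    (by
      intro x hx
      obtain ⟨y, rfl⟩ := fla_fixed (FF ζ) x hx
      have hcyc : IsCyclotomicExtension {p} ℚ (FF ζ) :=
        hζ.intermediateField_adjoin_isCyclotomicExtension ℚ
      obtain ⟨ζ', hζ'c⟩ : ∃ ζ' : FF ζ, (ζ' : Qb) = ζ :=
        ⟨⟨ζ, IntermediateField.mem_adjoin_simple_self ℚ ζ⟩, rfl⟩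
      have hζ' : IsPrimitiveRoot ζ' p := by
        refine IsPrimitiveRoot.of_map_of_injective (f := algebraMap (FF ζ) Qb) ?_
          (algebraMap (FF ζ) Qb).injective
        change IsPrimitiveRoot ((ζ' : FF ζ) : Qb) p
        rw [hζ'c]
        exact hζ
      have hIC := IsCyclotomicExtension.Rat.isIntegralClosure_adjoin_singleton_of_prime hζ'
      have hyi : IsIntegral ℤ (y : FF ζ) := y.2
      obtain ⟨w, hw⟩ := hIC.isIntegral_iff.1 hyi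
      have hw1 : (w : FF ζ) ∈ (Polynomial.aeval (R := ℤ) ζ').range :=
        (Algebra.adjoin_singleton_eq_range_aeval ℤ ζ') ▸ w.2
      obtain ⟨P, hP1⟩ := hw1
      have hP2 : Polynomial.aeval z P = toZ (FF ζ) y := by
        apply Subtype.ext
        have e1 : ((Polynomial.aeval z P : ZQ) : Qb) = Polynomial.aeval ζ P := by
          rw [← hzc]
          exact (Polynomial.aeval_algebraMap_apply Qb z P).symm
        have e2 : (((Polynomial.aeval ζ' P : FF ζ)) : Qb) = Polynomial.aeval ζ P := by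
          have e3 := Polynomial.aeval_algebraMap_apply Qb ζ' P
          have e4 : algebraMap (FF ζ) Qb ζ' = ζ := hζ'c
          rw [e4] at e3
          exact e3.symm
        rw [e1, ← e2, coe_toZ]
        congr 1
        rw [← hw]
        exact hP1
      rw [← hP2]
      have h5 : g • (Polynomial.aeval z P : ZQ) = (P.map (algebraMap ℤ ZQ)).eval (g • z) := by
        rw [Polynomial.eval_map, Polynomial.aeval_def]
        have h6 := Polynomial.hom_eval₂ P (algebraMap ℤ ZQ) (MulSemiringAction.toRingHom GQ ZQ g) z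
        have h7 : (MulSemiringAction.toRingHom GQ ZQ g).comp (algebraMap ℤ ZQ) = algebraMap ℤ ZQ :=
          Subsingleton.elim _ _
        rw [h7] at h6
        exact h6
      have h8 : (Polynomial.aeval z P : ZQ) = (P.map (algebraMap ℤ ZQ)).eval z := by
        rw [Polynomial.eval_map, Polynomial.aeval_def]
      rw [h5, h8]
      exact 𝔓.mem_of_dvd (Polynomial.sub_dvd_eval_sub _ _ _) hgz')
  refine ⟨g * k, hkI, fla_acts p ζ hζ _ b ?_⟩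
  change g (k ζ) = ζ ^ b
  rw [(hmem k).1 hk, hg]

/-! ### the residue field -/

private theorem fla_res.{u} {E : Type u} [NormedField E] [IsUltrametricDist E] :
    ∃ (k : Type u) (_ : Field k) (R : E → k), R 1 = 1 ∧ (∀ a : ℕ, R a = a) ∧
      (∀ x y, ‖x‖ ≤ 1 → ‖y‖ ≤ 1 → R (x + y) = R x + R y) ∧
      (∀ x y, ‖x‖ ≤ 1 → ‖y‖ ≤ 1 → R (x * y) = R x * R y) ∧
      (∀ x y, ‖x‖ ≤ 1 → ‖y‖ ≤ 1 → (R x = R y ↔ ‖x - y‖ < 1)) := by
  classical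
  let O : Subring E :=
    { carrier := {x | ‖x‖ ≤ 1}
      mul_mem' := fun {a b} ha hb => by
        change ‖a * b‖ ≤ 1
        rw [norm_mul]
        exact mul_le_one₀ ha (norm_nonneg _) hb
      one_mem' := by
        change ‖(1 : E)‖ ≤ 1
        rw [norm_one]
      add_mem' := fun {a b} ha hb =>
        le_trans (IsUltrametricDist.norm_add_le_max a b) (max_le ha hb)
      zero_mem' := by
        change ‖(0 : E)‖ ≤ 1
        rw [norm_zero]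
        exact zero_le_one
      neg_mem' := fun {a} ha => by
        change ‖-a‖ ≤ 1
        rw [norm_neg]
        exact ha }
  let I : Ideal O :=
    { carrier := {x | ‖(x : E)‖ < 1}
      add_mem' := fun {a b} ha hb =>
        lt_of_le_of_lt (IsUltrametricDist.norm_add_le_max (a : E) b) (max_lt ha hb)
      zero_mem' := by
        change ‖((0 : O) : E)‖ < 1
        rw [ZeroMemClass.coe_zero, norm_zero]
        exact zero_lt_one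
      smul_mem' := fun c {x} hx => by
        change ‖((c * x : O) : E)‖ < 1
        rw [MulMemClass.coe_mul, norm_mul]
        exact lt_of_le_of_lt (mul_le_of_le_one_left (norm_nonneg _) c.2) hx }
  have hmemI : ∀ x : O, x ∈ I ↔ ‖(x : E)‖ < 1 := fun x => Iff.rfl
  have hmax : I.IsMaximal := by
    rw [Ideal.isMaximal_iff]
    constructor
    · rw [hmemI, OneMemClass.coe_one, norm_one]
      exact lt_irrefl 1
    · intro J x hJ hx hxJ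
      rw [hmemI, not_lt] at hx
      have hx1 : ‖(x : E)‖ = 1 := le_antisymm x.2 hx
      have hx0 : (x : E) ≠ 0 := by
        intro h0
        rw [h0, norm_zero] at hx1
        exact zero_ne_one hx1
      have hinv : ‖(x : E)⁻¹‖ ≤ 1 := by rw [norm_inv, hx1, inv_one]
      have h1 : (⟨(x : E)⁻¹, hinv⟩ : O) * x = 1 := Subtype.ext (inv_mul_cancel₀ hx0)
      rw [← h1]
      exact J.mul_mem_left _ hxJ
  have hOI : ∀ (x y : O), (Ideal.Quotient.mk I x = Ideal.Quotient.mk I y ↔ ‖(x : E) - y‖ < 1) := by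
    intro x y
    rw [Ideal.Quotient.eq]
    exact Iff.rfl
  let R : E → O ⧸ I := fun x => if h : ‖x‖ ≤ 1 then Ideal.Quotient.mk I ⟨x, h⟩ else 0
  have hR : ∀ (x : E) (h : ‖x‖ ≤ 1), R x = Ideal.Quotient.mk I ⟨x, h⟩ := fun x h => dif_pos h
  refine ⟨O ⧸ I, Ideal.Quotient.field I, R, ?_, ?_, ?_, ?_, ?_⟩
  · rw [hR 1 (by rw [norm_one])]
    exact map_one (Ideal.Quotient.mk I)
  · intro a
    have ha : ‖(a : E)‖ ≤ 1 := (natCast_mem O a : (a : E) ∈ O)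
    rw [hR a ha]
    have h1 : (⟨(a : E), ha⟩ : O) = (a : O) := rfl
    rw [h1, map_natCast]
  · intro x y hx hy
    have hxy : ‖x + y‖ ≤ 1 := le_trans (IsUltrametricDist.norm_add_le_max x y) (max_le hx hy)
    rw [hR x hx, hR y hy, hR (x + y) hxy]
    exact map_add (Ideal.Quotient.mk I) ⟨x, hx⟩ ⟨y, hy⟩
  · intro x y hx hy
    have hxy : ‖x * y‖ ≤ 1 := by
      rw [norm_mul]
      exact mul_le_one₀ hx (norm_nonneg _) hy
    rw [hR x hx, hR y hy, hR (x * y) hxy]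
    exact map_mul (Ideal.Quotient.mk I) ⟨x, hx⟩ ⟨y, hy⟩
  · intro x y hx hy
    rw [hR x hx, hR y hy]
    exact hOI ⟨x, hx⟩ ⟨y, hy⟩

private theorem fla_gen (p : ℕ) [Fact p.Prime] (k : Type*) [Field k] (hk : (p : k) = 0) :
    ∃ b : ℕ, b.Coprime p ∧ ∀ i, (b : k) ^ i = 1 → p - 1 ∣ i := by
  have hchar : ringChar k = p := CharP.ringChar_of_prime_eq_zero Fact.out hk
  have hcp : CharP k p := hchar ▸ ringChar.charP k
  obtain ⟨u, hu⟩ := IsCyclic.exists_generator (α := (ZMod p)ˣ)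
  have ho : orderOf u = p - 1 := by
    rw [orderOf_eq_card_of_forall_mem_zpowers hu, Nat.card_eq_fintype_card, ZMod.card_units]
  refine ⟨(u : ZMod p).val, ZMod.val_coe_unit_coprime u, fun i hi => ?_⟩
  rw [← ho]
  apply orderOf_dvd_of_pow_eq_one
  apply Units.ext
  rw [Units.val_pow_eq_pow_val, Units.val_one]
  have h1 : (((u : ZMod p).val ^ i : ℕ) : k) = ((1 : ℕ) : k) := by
    rw [Nat.cast_pow, Nat.cast_one]
    exact hi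
  have h2 := (CharP.natCast_eq_natCast k p).1 h1
  have h3 := (ZMod.natCast_eq_natCast_iff _ _ p).2 h2
  rw [Nat.cast_pow, Nat.cast_one, ZMod.natCast_zmod_val] at h3
  exact h3

private theorem fla_norm (δ : Qb) (D : ℤ) (hD : δ ^ 2 = D) (s h : GQ) (hh : h ∈ Stab δ) :
    s * h * s⁻¹ ∈ Stab δ := by
  have hm : ∀ g : GQ, g ∈ Stab δ ↔ g δ = δ := fun g => MulAction.mem_stabilizer_iff
  rw [hm] at hh ⊢
  have h1 : (s⁻¹ δ) ^ 2 = δ ^ 2 := by rw [← map_pow, hD, map_intCast]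
  change s (h (s⁻¹ δ)) = δ
  have h3 : s (s⁻¹ δ) = δ := AlgEquiv.apply_symm_apply s δ
  rcases sq_eq_sq_iff_eq_or_eq_neg.1 h1 with h2 | h2
  · rw [h2] at h3 ⊢
    rw [hh]
    exact h3
  · rw [h2] at h3 ⊢
    rw [map_neg, hh]
    exact h3

private theorem fla_tr {E : Type*} [NormedField E] (V : GQ →* GL (Fin 2) E) (s g : GQ) :
    tr V (s⁻¹ * g * s) = tr V g := by
  unfold tr
  rw [map_mul, map_mul, map_inv]
  exact Matrix.trace_units_conj' (V s) (V g : Matrix (Fin 2) (Fin 2) E)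

/-- the structure of the restriction of `X` to the inertia groups at `p` -/
private theorem fla_core (p n : ℕ) [Fact p.Prime] (hn : 1 ≤ n) (hp : 2 * n + 1 < p) (k : Type*)
    [Field k] (hk : (p : k) = 0) (δ : Qb) (D : ℤ) (hD : δ ^ 2 = D) (s₀ : GQ) (hs₀ : s₀ ∉ Stab δ)
    (X : Stab δ →* k)
    (P1 : ∀ 𝔔 : Ideal ZQ, 𝔔.IsPrime → (p : ZQ) ∈ 𝔔 → ∀ τ ∈ In 𝔔, ∀ b : ℕ, ActsAs p τ b →
      τ ∉ Stab δ → 1 + (b : k) ^ n = 0)
    (P2 : ∀ 𝔔 : Ideal ZQ, 𝔔.IsPrime → (p : ZQ) ∈ 𝔔 → ∀ h : Stab δ, (h : GQ) ∈ In 𝔔 → ∀ b : ℕ,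
      ActsAs p (h : GQ) b → ∀ s ∉ Stab δ, ∀ h' : Stab δ, (h' : GQ) = s * h * s⁻¹ →
        X h + X h' = 1 + (b : k) ^ n)
    (𝔓 : Ideal ZQ) (hP : 𝔓.IsPrime) (hpP : (p : ZQ) ∈ 𝔓) :
    ∃ (𝔓₀ : Ideal ZQ) (τ : Stab δ), 𝔓₀.IsPrime ∧ (p : ZQ) ∈ 𝔓₀ ∧ (τ : GQ) ∈ In 𝔓₀ ∧
      (∀ i : ℕ, X τ ^ i = 1 → p - 1 ∣ i * n) ∧
      (∀ 𝔔 : Ideal ZQ, 𝔔.IsPrime → (p : ZQ) ∈ 𝔔 →
        ¬ (∀ x : 𝓞 (FF δ), toZ (FF δ) x ∈ 𝔔 ↔ toZ (FF δ) x ∈ 𝔓₀) →
        ∀ h : Stab δ, (h : GQ) ∈ In 𝔔 → X h = 1) ∧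
      (∃ 𝔔 : Ideal ZQ, 𝔔.IsPrime ∧ (p : ZQ) ∈ 𝔔 ∧
        ¬ (∀ x : 𝓞 (FF δ), toZ (FF δ) x ∈ 𝔔 ↔ toZ (FF δ) x ∈ 𝔓₀)) := by
  classical
  obtain ⟨b₀, hb₀, hgen⟩ := fla_gen p k hk
  -- `2` is not zero
  have h2k : (2 : k) ≠ 0 := by
    intro h2
    have hchar : ringChar k = p := CharP.ringChar_of_prime_eq_zero Fact.out hk
    have hcp : CharP k p := hchar ▸ ringChar.charP k
    have h3 : ((2 : ℕ) : k) = 0 := by exact_mod_cast h2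
    have h4 := (CharP.cast_eq_zero_iff k p 2).1 h3
    have h5 := Nat.le_of_dvd (by norm_num) h4
    omega
  have hX0 : ∀ h : Stab δ, X h ≠ 0 := by
    intro h h0
    have h1 : X h * X h⁻¹ = 1 := by rw [← map_mul, mul_inv_cancel, map_one]
    rw [h0, zero_mul] at h1
    exact zero_ne_one h1
  have F0 : ∀ 𝔔 : Ideal ZQ, 𝔔.IsPrime → (p : ZQ) ∈ 𝔔 → ∀ τ ∈ In 𝔔, τ ∈ Stab δ := by
    intro 𝔔 hQ hpQ τ hτ
    by_contra hτS
    obtain ⟨c, hc⟩ := fla_omega p τ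
    have e1 := P1 𝔔 hQ hpQ τ hτ c hc hτS
    obtain ⟨σ, hσ, hσb⟩ := fla_surj p 𝔔 hQ hpQ b₀ hb₀
    have e2 : (b₀ : k) ^ (2 * n) = 1 := by
      by_cases hσS : σ ∈ Stab δ
      · have e3 : σ * τ ∉ Stab δ := fun h => hτS ((Subgroup.mul_mem_cancel_left _ hσS).1 h)
        have e4 := P1 𝔔 hQ hpQ (σ * τ) (mul_mem hσ hτ) (b₀ * c) (fla_acts_mul p σ τ b₀ c hσb hc) e3
        rw [Nat.cast_mul, mul_pow] at e4
        have e5 : (c : k) ^ n = -1 := by linear_combination e1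
        rw [e5] at e4
        have e6 : (b₀ : k) ^ n = 1 := by linear_combination -e4
        rw [mul_comm, pow_mul, e6, one_pow]
      · have e4 := P1 𝔔 hQ hpQ σ hσ b₀ hσb hσS
        have e6 : (b₀ : k) ^ n = -1 := by linear_combination e4
        rw [mul_comm, pow_mul, e6]
        norm_num
    have e7 := Nat.le_of_dvd (by omega) (hgen _ e2)
    omega
  obtain ⟨T1, hT1⟩ : ∃ T : Ideal ZQ → Prop, ∀ 𝔔, T 𝔔 ↔ ∀ h : Stab δ, (h : GQ) ∈ In 𝔔 → X h = 1 :=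
    ⟨_, fun _ => Iff.rfl⟩
  obtain ⟨T2, hT2⟩ : ∃ T : Ideal ZQ → Prop, ∀ 𝔔, T 𝔔 ↔ ∀ h : Stab δ, (h : GQ) ∈ In 𝔔 →
      ∀ b : ℕ, ActsAs p (h : GQ) b → X h = (b : k) ^ n := ⟨_, fun _ => Iff.rfl⟩
  have key : ∀ 𝔔 : Ideal ZQ, 𝔔.IsPrime → (p : ZQ) ∈ 𝔔 → ∀ h : Stab δ, (h : GQ) ∈ In 𝔔 →
      ∀ b : ℕ, ActsAs p (h : GQ) b → X h = 1 ∨ X h = (b : k) ^ n := by
    intro 𝔔 hQ hpQ h hh b hb
    obtain ⟨h', hh'⟩ : ∃ h' : Stab δ, (h' : GQ) = s₀ * h * s₀⁻¹ :=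
      ⟨⟨_, fla_norm δ D hD s₀ h h.2⟩, rfl⟩
    have e1 := P2 𝔔 hQ hpQ h hh b hb s₀ hs₀ h' hh'
    have e2 := P2 𝔔 hQ hpQ (h * h) (mul_mem hh hh) (b * b)
      (fla_acts_mul p h h b b hb hb) s₀ hs₀ (h' * h') (by
        rw [Subgroup.coe_mul, Subgroup.coe_mul, hh']
        group)
    rw [map_mul, map_mul, Nat.cast_mul, mul_pow] at e2
    have e3 : (2 : k) * ((X h - 1) * (X h - (b : k) ^ n)) = 0 := by
      linear_combination e2 - (X h' + 1 + (b : k) ^ n - X h) * e1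
    rcases mul_eq_zero.1 e3 with e4 | e4
    · exact absurd e4 h2k
    · rcases mul_eq_zero.1 e4 with e5 | e5
      · exact Or.inl (sub_eq_zero.1 e5)
      · exact Or.inr (sub_eq_zero.1 e5)
  have F1 : ∀ 𝔔 : Ideal ZQ, 𝔔.IsPrime → (p : ZQ) ∈ 𝔔 → T1 𝔔 ∨ T2 𝔔 := by
    intro 𝔔 hQ hpQ
    by_contra hcon
    rw [not_or, hT1, hT2] at hcon
    obtain ⟨c1, c2⟩ := hcon
    push Not at c1 c2
    obtain ⟨x, hx, hx1⟩ := c1
    obtain ⟨y, hy, b, hb, hy1⟩ := c2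
    obtain ⟨c, hc⟩ := fla_omega p (x : GQ)
    have hxc : X x = (c : k) ^ n := by
      rcases key 𝔔 hQ hpQ x hx c hc with h | h
      · exact absurd h hx1
      · exact h
    have hyc : X y = 1 := by
      rcases key 𝔔 hQ hpQ y hy b hb with h | h
      · exact h
      · exact absurd h hy1
    rcases key 𝔔 hQ hpQ (x * y) (mul_mem hx hy) (c * b) (fla_acts_mul p x y c b hc hb) with h | h
    · rw [map_mul, hyc, mul_one] at h
      exact hx1 h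
    · rw [map_mul, hyc, mul_one, Nat.cast_mul, mul_pow, hxc] at h
      have hc0 : (c : k) ^ n ≠ 0 := hxc ▸ hX0 x
      have h3 : (b : k) ^ n = 1 := by
        have h4 : (c : k) ^ n * (b : k) ^ n = (c : k) ^ n * 1 := by rw [mul_one]; exact h.symm
        exact mul_left_cancel₀ hc0 h4
      exact hy1 (by rw [hyc, h3])
  have F2 : ∀ 𝔔 : Ideal ZQ, 𝔔.IsPrime → (p : ZQ) ∈ 𝔔 → T1 𝔔 → T2 𝔔 → False := by
    intro 𝔔 hQ hpQ h1 h2
    rw [hT1] at h1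
    rw [hT2] at h2
    obtain ⟨σ, hσ, hσb⟩ := fla_surj p 𝔔 hQ hpQ b₀ hb₀
    have e1 := h1 ⟨σ, F0 𝔔 hQ hpQ σ hσ⟩ hσ
    have e2 := h2 ⟨σ, F0 𝔔 hQ hpQ σ hσ⟩ hσ b₀ hσb
    rw [e1] at e2
    have e3 := Nat.le_of_dvd (by omega) (hgen n e2.symm)
    omega
  have hconj : ∀ (s : GQ) (𝔔 : Ideal ZQ) (h : Stab δ), (h : GQ) ∈ In (s • 𝔔) → ∀ b : ℕ,
      ActsAs p (h : GQ) b → ∃ g : Stab δ, (g : GQ) = s⁻¹ * h * s ∧ (g : GQ) ∈ In 𝔔 ∧
        ActsAs p (g : GQ) b := by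
    intro s 𝔔 h hh b hb
    have h1 := fla_norm δ D hD s⁻¹ h h.2
    rw [inv_inv] at h1
    have h2 := fla_acts_conj p h s⁻¹ b hb
    rw [inv_inv] at h2
    exact ⟨⟨_, h1⟩, rfl, (fla_mem_conj s h 𝔔).1 hh, h2⟩
  have F3a : ∀ (s : GQ) (𝔔 : Ideal ZQ), s ∉ Stab δ → 𝔔.IsPrime → (p : ZQ) ∈ 𝔔 → T1 𝔔 →
      T2 (s • 𝔔) := by
    intro s 𝔔 hs hQ hpQ h1
    rw [hT1] at h1
    rw [hT2]
    intro h hh b hb
    obtain ⟨g, hg, hgI, hgb⟩ := hconj s 𝔔 h hh b hb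
    have e1 := P2 𝔔 hQ hpQ g hgI b hgb s hs h (by rw [hg]; group)
    rw [h1 g hgI] at e1
    linear_combination e1
  have F3b : ∀ (s : GQ) (𝔔 : Ideal ZQ), s ∉ Stab δ → 𝔔.IsPrime → (p : ZQ) ∈ 𝔔 → T2 𝔔 →
      T1 (s • 𝔔) := by
    intro s 𝔔 hs hQ hpQ h1
    rw [hT2] at h1
    rw [hT1]
    intro h hh
    obtain ⟨b, hb⟩ := fla_omega p (h : GQ)
    obtain ⟨g, hg, hgI, hgb⟩ := hconj s 𝔔 h hh b hb
    have e1 := P2 𝔔 hQ hpQ g hgI b hgb s hs h (by rw [hg]; group)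
    rw [h1 g hgI b hgb] at e1
    linear_combination e1
  have F4 : ∀ (s : GQ) (𝔔 : Ideal ZQ), s ∈ Stab δ → T2 𝔔 → T2 (s • 𝔔) := by
    intro s 𝔔 hs h1
    rw [hT2] at h1 ⊢
    intro h hh b hb
    obtain ⟨g, hg, hgI, hgb⟩ := hconj s 𝔔 h hh b hb
    have e1 := h1 g hgI b hgb
    have e2 : g = (⟨s, hs⟩ : Stab δ)⁻¹ * h * ⟨s, hs⟩ := Subtype.ext hg
    have e3 : X g = X h := by
      rw [e2, map_mul, map_mul, mul_assoc, mul_comm (X h), ← mul_assoc, ← map_mul, inv_mul_cancel,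
        map_one, one_mul]
    rw [← e3]
    exact e1
  -- the choice of the prime
  obtain ⟨𝔓₀, hP0, hpP0, hT⟩ : ∃ 𝔓₀ : Ideal ZQ, 𝔓₀.IsPrime ∧ (p : ZQ) ∈ 𝔓₀ ∧ T2 𝔓₀ := by
    rcases F1 𝔓 hP hpP with h | h
    · exact ⟨s₀ • 𝔓, fla_prime s₀ 𝔓 hP, fla_p p s₀ 𝔓 hpP, F3a s₀ 𝔓 hs₀ hP hpP h⟩
    · exact ⟨𝔓, hP, hpP, h⟩
  obtain ⟨σ, hσ, hσb⟩ := fla_surj p 𝔓₀ hP0 hpP0 b₀ hb₀
  refine ⟨𝔓₀, ⟨σ, F0 𝔓₀ hP0 hpP0 σ hσ⟩, hP0, hpP0, hσ, ?_, ?_, ?_⟩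
  · intro i hi
    rw [(hT2 𝔓₀).1 hT ⟨σ, F0 𝔓₀ hP0 hpP0 σ hσ⟩ hσ b₀ hσb, ← pow_mul, mul_comm] at hi
    exact hgen _ hi
  · intro 𝔔 hQ hpQ hne
    obtain ⟨s, rfl⟩ := fla_all p 𝔓₀ 𝔔 hP0 hpP0 hQ hpQ
    have hs : s ∉ Stab δ := by
      intro hs
      apply hne
      intro x
      rw [Ideal.mem_pointwise_smul_iff_inv_smul_mem]
      have h1 : s⁻¹ ∈ (FF δ).fixingSubgroup := by
        rw [fixing_FF]
        exact inv_mem hs
      have h2 : s⁻¹ • toZ (FF δ) x = toZ (FF δ) x :=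
        Subtype.ext ((IntermediateField.mem_fixingSubgroup_iff _ _).1 h1 _ (x : FF δ).2)
      rw [h2]
    exact (hT1 _).1 (F3b s 𝔓₀ hs hP0 hpP0 hT)
  · refine ⟨s₀ • 𝔓₀, fla_prime s₀ 𝔓₀ hP0, fla_p p s₀ 𝔓₀ hpP0, fun hall => ?_⟩
    have h1 := F3b s₀ 𝔓₀ hs₀ hP0 hpP0 hT
    obtain ⟨k', hk', hkk⟩ := lift_conj (FF δ).fixingSubgroup
      (InfiniteGalois.fixingSubgroup_isClosed (FF δ)) 𝔓₀ (s₀ • 𝔓₀) hP0 (fla_prime s₀ 𝔓₀ hP0) (by
        intro x hx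
        obtain ⟨y, rfl⟩ := fla_fixed (FF δ) x hx
        exact (hall y).symm)
    rw [fixing_FF] at hk'
    have h2 := F4 k' 𝔓₀ hk' hT
    rw [hkk] at h2
    exact F2 _ (fla_prime s₀ 𝔓₀ hP0) (fla_p p s₀ 𝔓₀ hpP0) h1 h2

theorem flA (p n : ℕ) [Fact p.Prime] (hn : 1 ≤ n) (hp : 2 * n + 1 < p) {E : Type*} [NormedField E]
    [IsUltrametricDist E] [NormedAlgebra ℚ_[p] E] (V : GQ →* GL (Fin 2) E) (δ : Qb) (D : ℤ)
    (hD : δ ^ 2 = D) (s₀ : GQ) (hs₀ : s₀ ∉ Stab δ) (χ : Stab δ →* Eˣ) (hχ : ∀ h, ‖(χ h : E)‖ = 1)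
    (hA : ∀ s ∉ Stab δ, ‖tr V s‖ < 1)
    (hB : ∀ s ∉ Stab δ, ∀ h h' : Stab δ, (h' : GQ) = s * h * s⁻¹ → ‖tr V h - χ h - χ h'‖ < 1)
    (𝔓 : Ideal ZQ) (hP : 𝔓.IsPrime) (hpP : (p : ZQ) ∈ 𝔓)
    (hFL : ∀ τ ∈ In 𝔓, ∀ b : ℕ, ActsAs p τ b → ‖tr V τ - 1 - (b : E) ^ n‖ < 1) :
    ∃ (𝔓₀ : Ideal ZQ) (τ : Stab δ), 𝔓₀.IsPrime ∧ (p : ZQ) ∈ 𝔓₀ ∧ (τ : GQ) ∈ In 𝔓₀ ∧
      (∀ i : ℕ, ‖(χ τ : E) ^ i - 1‖ < 1 → p - 1 ∣ i * n) ∧
      (∀ 𝔔 : Ideal ZQ, 𝔔.IsPrime → (p : ZQ) ∈ 𝔔 →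
        ¬ (∀ x : 𝓞 (FF δ), toZ (FF δ) x ∈ 𝔔 ↔ toZ (FF δ) x ∈ 𝔓₀) →
        ∀ h : Stab δ, (h : GQ) ∈ In 𝔔 → ‖(χ h : E) - 1‖ < 1) ∧
      (∃ 𝔔 : Ideal ZQ, 𝔔.IsPrime ∧ (p : ZQ) ∈ 𝔔 ∧
        ¬ (∀ x : 𝓞 (FF δ), toZ (FF δ) x ∈ 𝔔 ↔ toZ (FF δ) x ∈ 𝔓₀)) := by
  obtain ⟨k, fk, R, hR1, hRn, hRa, hRm, hRe⟩ := fla_res (E := E)
  have hpE : ‖(p : E)‖ < 1 := by
    have h1 : (p : E) = algebraMap ℚ_[p] E (p : ℚ_[p]) := (map_natCast _ p).symm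
    rw [h1, norm_algebraMap']
    exact Padic.norm_p_lt_one
  have hR0 : R 0 = 0 := by
    have := hRn 0
    rw [Nat.cast_zero, Nat.cast_zero] at this
    exact this
  have hn0 : ‖(0 : E)‖ ≤ 1 := by rw [norm_zero]; exact zero_le_one
  have hn1 : ‖(1 : E)‖ ≤ 1 := by rw [norm_one]
  have hk : (p : k) = 0 := by
    rw [← hRn p, ← hR0, hRe (p : E) 0 hpE.le hn0, sub_zero]
    exact hpE
  have hχ' : ∀ h, ‖(χ h : E)‖ ≤ 1 := fun h => (hχ h).le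
  obtain ⟨X, hX⟩ : ∃ X : Stab δ →* k, ∀ h, X h = R (χ h : E) :=
    ⟨{ toFun := fun h => R (χ h : E)
       map_one' := by rw [map_one, Units.val_one, hR1]
       map_mul' := fun a b => by rw [map_mul, Units.val_mul, hRm _ _ (hχ' a) (hχ' b)] }, fun _ => rfl⟩
  have hnat : ∀ (b m : ℕ), ‖(b : E) ^ m‖ ≤ 1 := by
    intro b m
    have h1 : (b : E) ^ m = algebraMap ℚ_[p] E ((b ^ m : ℕ) : ℚ_[p]) := by
      rw [map_natCast, Nat.cast_pow]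
    rw [h1, norm_algebraMap']
    exact_mod_cast Padic.norm_int_le_one ((b ^ m : ℕ) : ℤ)
  have hRb : ∀ (b m : ℕ), R ((b : E) ^ m) = (b : k) ^ m := by
    intro b m
    rw [← Nat.cast_pow, hRn, Nat.cast_pow]
  have hRs : ∀ (b m : ℕ), R (1 + (b : E) ^ m) = 1 + (b : k) ^ m := by
    intro b m
    rw [hRa _ _ hn1 (hnat b m), hR1, hRb]
  have hns : ∀ (b m : ℕ), ‖1 + (b : E) ^ m‖ ≤ 1 := fun b m =>
    le_trans (IsUltrametricDist.norm_add_le_max _ _) (max_le hn1 (hnat b m))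
  have hFL' : ∀ 𝔔 : Ideal ZQ, 𝔔.IsPrime → (p : ZQ) ∈ 𝔔 → ∀ τ ∈ In 𝔔, ∀ b : ℕ, ActsAs p τ b →
      ‖tr V τ - 1 - (b : E) ^ n‖ < 1 := by
    intro 𝔔 hQ hpQ τ hτ b hb
    obtain ⟨s, rfl⟩ := fla_all p 𝔓 𝔔 hP hpP hQ hpQ
    have h1 := (fla_mem_conj s τ 𝔓).1 hτ
    have h2 := fla_acts_conj p τ s⁻¹ b hb
    rw [inv_inv] at h2
    have h3 := hFL _ h1 b h2
    rw [fla_tr] at h3
    exact h3
  have hsub : ∀ a b : E, ‖a‖ < 1 → ‖b‖ < 1 → ‖a - b‖ < 1 := by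
    intro a b ha hb
    rw [sub_eq_add_neg]
    refine lt_of_le_of_lt (IsUltrametricDist.norm_add_le_max _ _) (max_lt ha ?_)
    rw [norm_neg]
    exact hb
  have hpow : ∀ (x : E) (i : ℕ), ‖x‖ ≤ 1 → ‖x ^ i‖ ≤ 1 ∧ R (x ^ i) = R x ^ i := by
    intro x i hx
    induction i with
    | zero => exact ⟨by rw [pow_zero]; exact hn1, by rw [pow_zero, pow_zero, hR1]⟩
    | succ i ih =>
      refine ⟨?_, ?_⟩
      · rw [pow_succ, norm_mul]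
        exact mul_le_one₀ ih.1 (norm_nonneg _) hx
      · rw [pow_succ, pow_succ, hRm _ _ ih.1 hx, ih.2]
  obtain ⟨𝔓₀, τ, c1, c2, c3, c4, c5, c6⟩ := fla_core p n hn hp k hk δ D hD s₀ hs₀ X
    (by
      intro 𝔔 hQ hpQ τ hτ b hb hτS
      have h1 := hFL' 𝔔 hQ hpQ τ hτ b hb
      have h2 := hsub _ _ (hA τ hτS) h1
      have h3 : tr V τ - (tr V τ - 1 - (b : E) ^ n) = (1 + (b : E) ^ n) - 0 := by ring
      rw [h3] at h2
      have h4 := (hRe _ _ (hns b n) hn0).2 h2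
      rw [hRs, hR0] at h4
      exact h4)
    (by
      intro 𝔔 hQ hpQ h hh b hb s hs h' hh'
      have h1 := hFL' 𝔔 hQ hpQ h hh b hb
      have h2 := hsub _ _ h1 (hB s hs h h' hh')
      have h3 : (tr V h - 1 - (b : E) ^ n) - (tr V h - χ h - χ h') =
          ((χ h : E) + χ h') - (1 + (b : E) ^ n) := by ring
      rw [h3] at h2
      have h4 := (hRe _ _ (le_trans (IsUltrametricDist.norm_add_le_max _ _)
        (max_le (hχ' h) (hχ' h'))) (hns b n)).2 h2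
      rw [hRs, hRa _ _ (hχ' h) (hχ' h'), ← hX, ← hX] at h4
      exact h4)
    𝔓 hP hpP
  refine ⟨𝔓₀, τ, c1, c2, c3, ?_, ?_, c6⟩
  · intro i hi
    apply c4
    have h1 := hpow (χ τ : E) i (hχ' τ)
    rw [hX, ← h1.2, ← hR1]
    exact (hRe _ _ h1.1 hn1).2 hi
  · intro 𝔔 hQ hpQ hne h hh
    have h1 := c5 𝔔 hQ hpQ hne h hh
    rw [hX, ← hR1] at h1
    exact (hRe _ _ (hχ' h) hn1).1 h1

end Pool.Agent.AAP
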