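import Pool.Agent.AAP.DefsE
import Pool.Agent.AAP.Lift

/-!
# AAP-FLb (1.0h): level two

As in `FLa`, but `tr V(τ) ≡ θ(τ) ^ n + θ(τ) ^ (p n)` on `In 𝔓`, `θ : In 𝔓 → μ_{p²-1}(E)` with an element
`τ₀` such that `θ(τ₀)` has order `p² - 1`; roots of unity of order prime to `p` are congruent only if
they are equal.
(1) `In 𝔓 ≤ Stab δ`: otherwise `θ^n + θ^{pn} ≡ 0`, `θ^{(p-1) n} = -1` on `In 𝔓` outside `Stab δ`, so
`θ^{2(p-1)n} = 1` on `In 𝔓`, `p + 1 ∣ 2n`, contradiction.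
(2) with `s₀ ∉ Stab δ`: `χ(τ) + χ(s₀ τ s₀⁻¹) ≡ θ^n + θ^{pn}`, the same for `τ²`, so the products are
congruent and `{χ(τ), χ(s₀ τ s₀⁻¹)} ≡ {θ^n, θ^{pn}}`; the subgroups `χ ≡ θ^n`, `χ ≡ θ^{pn}` of `In 𝔓`
cover it, so `χ ≡ θ^n` on `In 𝔓` or `χ ≡ θ^{pn}` on `In 𝔓`. Hence
`χ(τ₀)^i ≡ 1` implies `p² - 1 ∣ i n`.
(3) let `g` be a Frobenius element (`exists_frob`), `g • 𝔓 = 𝔓`. If `g ∈ Stab δ`, then
`χ(g τ g⁻¹) = χ(τ)`, and `θ(g τ g⁻¹) = θ(τ)^p`: so `θ(τ)^{pn} ≡ θ(τ)^n` or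
`θ^{p² n} ≡ θ^{pn}`, `p + 1 ∣ n`, contradiction. So `g ∉ Stab δ`. Any prime `𝔔 ∋ p` of `ZQ` is `k • 𝔓` with
`k ∈ GQ` (`lift_conj`, `H = ⊤`: elements of `ZQ` fixed by `GQ` are integers), and `k` or `k g` is in
`Stab δ` (index two as `δ² ∈ ℚ`), which acts trivially on `𝓞 (FF δ)`: so `𝔔` and `𝔓` have the same
intersection with `𝓞 (FF δ)`.
-/

open NumberField Pointwise

namespace Pool.Agent.AAP

open Pool.Agent.Helper60.FM

section Norms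

variable {E : Type*} [NormedField E] [IsUltrametricDist E]

private theorem cg_symm {a b : E} (h : ‖a - b‖ < 1) : ‖b - a‖ < 1 := by
  rwa [norm_sub_rev]

private theorem nadd {a b : E} (ha : ‖a‖ < 1) (hb : ‖b‖ < 1) : ‖a + b‖ < 1 :=
  (IsUltrametricDist.norm_add_le_max a b).trans_lt (max_lt ha hb)

private theorem cg_trans {a b c : E} (h : ‖a - b‖ < 1) (h' : ‖b - c‖ < 1) : ‖a - c‖ < 1 := by
  have e : a - c = (a - b) + (b - c) := by ring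
  rw [e]
  exact nadd h h'

private theorem nmul {a b : E} (ha : ‖a‖ ≤ 1) (hb : ‖b‖ < 1) : ‖a * b‖ < 1 := by
  rw [norm_mul]
  calc ‖a‖ * ‖b‖ ≤ 1 * ‖b‖ := mul_le_mul_of_nonneg_right ha (norm_nonneg _)
    _ < 1 := by rwa [one_mul]

private theorem nneg {a : E} (ha : ‖a‖ < 1) : ‖-a‖ < 1 := by rwa [norm_neg]

private theorem cg_mul {a b c d : E} (ha : ‖a‖ ≤ 1) (hd : ‖d‖ ≤ 1) (h : ‖a - b‖ < 1)
    (h' : ‖c - d‖ < 1) : ‖a * c - b * d‖ < 1 := by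
  have e : a * c - b * d = a * (c - d) + d * (a - b) := by ring
  rw [e]
  exact nadd (nmul ha h') (nmul hd h)

private theorem cg_inv {a b : E} (ha : ‖a‖ = 1) (hb : ‖b‖ = 1) (h : ‖a - b‖ < 1) :
    ‖a⁻¹ - b⁻¹‖ < 1 := by
  have ha0 : a ≠ 0 := by
    intro h0
    rw [h0, norm_zero] at ha
    exact zero_ne_one ha
  have hb0 : b ≠ 0 := by
    intro h0
    rw [h0, norm_zero] at hb
    exact zero_ne_one hb
  have e : a⁻¹ - b⁻¹ = (a⁻¹ * b⁻¹) * (b - a) := by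
    field_simp
  rw [e]
  refine nmul ?_ (cg_symm h)
  rw [norm_mul, norm_inv, norm_inv, ha, hb]
  norm_num

private theorem norm_root {a : E} {m : ℕ} (hm : m ≠ 0) (h : a ^ m = 1) : ‖a‖ = 1 := by
  have h1 : ‖a‖ ^ m = 1 := by rw [← norm_pow, h, norm_one]
  exact (pow_eq_one_iff_of_nonneg (norm_nonneg _) hm).1 h1

private theorem pow_sub_one_lt {a : E} (ha : ‖a‖ ≤ 1) (h : ‖a - 1‖ < 1) (i : ℕ) :
    ‖a ^ i - 1‖ < 1 := by
  induction i with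
  | zero => simp
  | succ i ih =>
    have e : a ^ (i + 1) - 1 = a * (a ^ i - 1) + (a - 1) := by ring
    rw [e]
    exact nadd (nmul ha ih) h

private theorem root_eq_one {m : ℕ} (hm : m ≠ 0) (hm1 : ‖(m : E)‖ = 1) {a : E} (h : a ^ m = 1)
    (h1 : ‖a - 1‖ < 1) : a = 1 := by
  by_contra hne
  have ha : ‖a‖ ≤ 1 := (norm_root hm h).le
  have h2 : (∑ i ∈ Finset.range m, a ^ i) * (a - 1) = 0 := by
    rw [geom_sum_mul, h, sub_self]
  have h3 : ∑ i ∈ Finset.range m, a ^ i = 0 :=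
    (mul_eq_zero.1 h2).resolve_right (sub_ne_zero.2 hne)
  have h4 : ∀ k : ℕ, ‖∑ i ∈ Finset.range k, (a ^ i - 1)‖ < 1 := by
    intro k
    induction k with
    | zero => simp
    | succ k ih =>
      rw [Finset.sum_range_succ]
      exact nadd ih (pow_sub_one_lt ha h1 k)
  have h5 := h4 m
  rw [Finset.sum_sub_distrib, h3, Finset.sum_const, Finset.card_range, nsmul_eq_mul, mul_one,
    zero_sub, norm_neg, hm1] at h5
  exact lt_irrefl _ h5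

private theorem root_eq {m : ℕ} (hm : m ≠ 0) (hm1 : ‖(m : E)‖ = 1) {a b : E} (ha : a ^ m = 1)
    (hb : b ^ m = 1) (h : ‖a - b‖ < 1) : a = b := by
  have hb1 : ‖b‖ = 1 := norm_root hm hb
  have hb0 : b ≠ 0 := by
    intro h0
    rw [h0, norm_zero] at hb1
    exact zero_ne_one hb1
  have h1 : a * b⁻¹ = 1 := by
    refine root_eq_one hm hm1 ?_ ?_
    · rw [mul_pow, inv_pow, ha, hb, inv_one, mul_one]
    · have e : a * b⁻¹ - 1 = b⁻¹ * (a - b) := by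
        field_simp
      rw [e]
      refine nmul ?_ h
      rw [norm_inv, hb1, inv_one]
  exact (mul_inv_eq_one₀ hb0).1 h1

private theorem two_sets (h2 : ‖(2 : E)‖ = 1) {a b c d : E} (hb : ‖b‖ ≤ 1)
    (hs : ‖a + b - (c + d)‖ < 1) (ht : ‖a ^ 2 + b ^ 2 - (c ^ 2 + d ^ 2)‖ < 1) :
    ‖a - c‖ < 1 ∨ ‖a - d‖ < 1 := by
  have e : 2 * ((a - c) * (a - d)) = 2 * b * -(a + b - (c + d)) +
      ((a + b - (c + d)) * (a + b - (c + d)) + (a ^ 2 + b ^ 2 - (c ^ 2 + d ^ 2))) := by ring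
  have h3 : ‖2 * ((a - c) * (a - d))‖ < 1 := by
    rw [e]
    refine nadd (nmul ?_ (nneg hs)) (nadd (nmul hs.le hs) ht)
    rw [norm_mul, h2, one_mul]
    exact hb
  rw [norm_mul, h2, one_mul, norm_mul] at h3
  by_contra h4
  push Not at h4
  have h5 : 1 * 1 ≤ ‖a - c‖ * ‖a - d‖ :=
    mul_le_mul h4.1 h4.2 zero_le_one (norm_nonneg _)
  linarith

end Norms

section Fields

private theorem pm {δ : Qb} {D : ℤ} (hD : δ ^ 2 = D) (g : GQ) : g δ = δ ∨ g δ = -δ := by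
  have h1 : (g δ) ^ 2 = δ ^ 2 := by rw [← map_pow, hD, map_intCast]
  exact sq_eq_sq_iff_eq_or_eq_neg.1 h1

private theorem mem_Stab {δ : Qb} {g : GQ} : g ∈ Stab δ ↔ g δ = δ := Iff.rfl

private theorem conj_mem {δ : Qb} {D : ℤ} (hD : δ ^ 2 = D) (s : GQ) {g : GQ} (hg : g ∈ Stab δ) :
    s * g * s⁻¹ ∈ Stab δ := by
  rw [mem_Stab] at hg ⊢
  have h1 : s (s⁻¹ δ) = δ := by
    have h2 : (s * s⁻¹) δ = δ := by rw [mul_inv_cancel]; rfl
    exact h2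
  have h3 : g (s⁻¹ δ) = s⁻¹ δ := by
    rcases pm hD s⁻¹ with h | h
    · rw [h, hg]
    · rw [h, map_neg, hg]
  have h4 : (s * g * s⁻¹) δ = s (g (s⁻¹ δ)) := rfl
  rw [h4, h3, h1]

private theorem mul_mem_of_not {δ : Qb} {D : ℤ} (hD : δ ^ 2 = D) {k g : GQ} (hk : k ∉ Stab δ)
    (hg : g ∉ Stab δ) : k * g ∈ Stab δ := by
  rw [mem_Stab] at hk hg ⊢
  have h1 : (k * g) δ = k (g δ) := rfl
  rw [h1, (pm hD g).resolve_left hg, map_neg, (pm hD k).resolve_left hk, neg_neg]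

private theorem int_of_fixed (x : ZQ) (h : ∀ k ∈ (⊤ : Subgroup GQ), k • x = x) :
    ∃ m : ℤ, x = (m : ZQ) := by
  have h1 : (x : Qb) ∈ (⊥ : IntermediateField ℚ Qb) := by
    rw [InfiniteGalois.mem_bot_iff_fixed]
    intro f
    have h2 := h f (Subgroup.mem_top f)
    exact congrArg Subtype.val h2
  obtain ⟨q, hq⟩ := IntermediateField.mem_bot.1 h1
  have h3 : IsIntegral ℤ (x : Qb) := x.2
  rw [← hq] at h3
  have h4 : IsIntegral ℤ q := by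
    refine (isIntegral_algHom_iff ((algebraMap ℚ Qb).toIntAlgHom) ?_).1 h3
    exact (algebraMap ℚ Qb).injective
  obtain ⟨m, hm⟩ := IsIntegrallyClosed.isIntegral_iff.1 h4
  refine ⟨m, Subtype.ext ?_⟩
  rw [← hq, ← hm]
  simp

private theorem int_mem {p : ℕ} (hp : p.Prime) {𝔓 : Ideal ZQ} (hP : 𝔓.IsPrime)
    (hpP : (p : ZQ) ∈ 𝔓) (m : ℤ) : (m : ZQ) ∈ 𝔓 ↔ (p : ℤ) ∣ m := by
  constructor
  · intro h
    by_contra hn
    have h1 : IsCoprime (p : ℤ) m :=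
      (Nat.prime_iff_prime_int.1 hp).coprime_iff_not_dvd.2 hn
    obtain ⟨u, v, huv⟩ := h1
    apply hP.ne_top
    rw [Ideal.eq_top_iff_one]
    have h2 : (1 : ZQ) = (u : ZQ) * (p : ZQ) + (v : ZQ) * (m : ZQ) := by
      have h3 : ((u * p + v * m : ℤ) : ZQ) = ((1 : ℤ) : ZQ) := by rw [huv]
      push_cast at h3
      exact h3.symm
    rw [h2]
    exact 𝔓.add_mem (𝔓.mul_mem_left _ hpP) (𝔓.mul_mem_left _ h)
  · rintro ⟨c, rfl⟩
    push_cast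
    exact 𝔓.mul_mem_right _ hpP

private theorem exists_smul_eq {p : ℕ} (hp : p.Prime) {𝔓 𝔔 : Ideal ZQ} (hP : 𝔓.IsPrime)
    (hpP : (p : ZQ) ∈ 𝔓) (hQ : 𝔔.IsPrime) (hpQ : (p : ZQ) ∈ 𝔔) : ∃ k : GQ, k • 𝔓 = 𝔔 := by
  obtain ⟨k, -, hk⟩ := lift_conj ⊤ (by simp) 𝔓 𝔔 hP hQ (by
    intro x hx
    obtain ⟨m, rfl⟩ := int_of_fixed x hx
    rw [int_mem hp hP hpP, int_mem hp hQ hpQ])
  exact ⟨k, hk⟩

private theorem smul_toZ {δ : Qb} {k : GQ} (hk : k ∈ Stab δ) (x : 𝓞 (FF δ)) :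
    k • toZ (FF δ) x = toZ (FF δ) x := by
  rw [← fixing_FF, IntermediateField.mem_fixingSubgroup_iff] at hk
  refine Subtype.ext ?_
  have h1 : ((k • toZ (FF δ) x : ZQ) : Qb) = k ((toZ (FF δ) x : ZQ) : Qb) := rfl
  rw [h1, coe_toZ]
  exact hk _ (x : FF δ).2

private theorem mem_smul_iff {δ : Qb} {k : GQ} (hk : k ∈ Stab δ) (𝔓 : Ideal ZQ) (x : 𝓞 (FF δ)) :
    toZ (FF δ) x ∈ k • 𝔓 ↔ toZ (FF δ) x ∈ 𝔓 := by
  rw [Ideal.mem_pointwise_smul_iff_inv_smul_mem, smul_toZ ((Stab δ).inv_mem hk)]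

private theorem mul_smul_ideal (k g : GQ) (𝔓 : Ideal ZQ) : (k * g) • 𝔓 = k • (g • 𝔓) := by
  ext y
  rw [Ideal.mem_pointwise_smul_iff_inv_smul_mem, Ideal.mem_pointwise_smul_iff_inv_smul_mem,
    Ideal.mem_pointwise_smul_iff_inv_smul_mem, mul_inv_rev, mul_smul]

end Fields

private theorem union_two {G : Type*} [Group G] (A B : G → Prop)
    (hAm : ∀ x y, A x → A y → A (x * y)) (hAi : ∀ x, A x → A x⁻¹)
    (hBm : ∀ x y, B x → B y → B (x * y)) (hBi : ∀ x, B x → B x⁻¹)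
    (h : ∀ x, A x ∨ B x) : (∀ x, A x) ∨ (∀ x, B x) := by
  by_contra hc
  push Not at hc
  obtain ⟨⟨x, hx⟩, y, hy⟩ := hc
  have hxB : B x := (h x).resolve_left hx
  have hyA : A y := (h y).resolve_right hy
  rcases h (x * y) with h1 | h1
  · apply hx
    have h2 := hAm _ _ h1 (hAi _ hyA)
    rwa [mul_inv_cancel_right] at h2
  · apply hy
    have h2 := hBm _ _ (hBi _ hxB) h1
    rwa [inv_mul_cancel_left] at h2

theorem flB (p n : ℕ) [Fact p.Prime] (hn : 1 ≤ n) (hp : 2 * n + 1 < p) {E : Type*} [NormedField E]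
    [IsUltrametricDist E] [NormedAlgebra ℚ_[p] E] (V : GQ →* GL (Fin 2) E) (δ : Qb) (D : ℤ)
    (hD : δ ^ 2 = D) (s₀ : GQ) (hs₀ : s₀ ∉ Stab δ) (χ : Stab δ →* Eˣ) (hχ : ∀ h, ‖(χ h : E)‖ = 1)
    (hA : ∀ s ∉ Stab δ, ‖tr V s‖ < 1)
    (hB : ∀ s ∉ Stab δ, ∀ h h' : Stab δ, (h' : GQ) = s * h * s⁻¹ → ‖tr V h - χ h - χ h'‖ < 1)
    (𝔓 : Ideal ZQ) (hP : 𝔓.IsPrime) (hpP : (p : ZQ) ∈ 𝔓) (θ : In 𝔓 →* Eˣ)
    (hθ : ∃ τ, orderOf (θ τ) = p ^ 2 - 1) (hθ1 : ∀ τ, θ τ ^ (p ^ 2 - 1) = 1)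
    (hθ2 : ∀ g, IsFrob p 𝔓 g → ∀ τ τ' : In 𝔓, (τ' : GQ) = g * τ * g⁻¹ → θ τ' = θ τ ^ p)
    (hFL : ∀ τ : In 𝔓, ‖tr V τ - (θ τ : E) ^ n - (θ τ : E) ^ (p * n)‖ < 1) :
    ∃ τ : Stab δ, (τ : GQ) ∈ In 𝔓 ∧
      (∀ i : ℕ, ‖(χ τ : E) ^ i - 1‖ < 1 → p ^ 2 - 1 ∣ i * n) ∧
      (∀ 𝔔 : Ideal ZQ, 𝔔.IsPrime → (p : ZQ) ∈ 𝔔 →
        ∀ x : 𝓞 (FF δ), toZ (FF δ) x ∈ 𝔔 ↔ toZ (FF δ) x ∈ 𝔓) := by
  have hpr : p.Prime := Fact.out
  have hp3 : 3 < p := by omega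
  set m := p ^ 2 - 1 with hm
  have hpp : p ^ 2 = m + 1 := by
    have : 1 ≤ p ^ 2 := Nat.one_le_pow _ _ hpr.pos
    omega
  have hm0 : m ≠ 0 := by
    intro h0
    rw [h0] at hpp
    have : 3 ^ 2 < p ^ 2 := Nat.pow_lt_pow_left hp3 (by norm_num)
    omega
  have hmfac : m = (p - 1) * (p + 1) := by
    rw [hm]
    have := Nat.sq_sub_sq p 1
    rw [one_pow] at this
    rw [this, mul_comm]
  have hmcop : p.Coprime m := by
    rw [hpr.coprime_iff_not_dvd]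
    intro h
    have h1 : p ∣ m + 1 := by
      rw [← hpp]
      exact dvd_pow_self p (by norm_num)
    have h2 : p ∣ 1 := (Nat.dvd_add_right h).1 h1
    exact hpr.one_lt.ne' (Nat.dvd_one.1 h2)
  have hodd : Odd p := hpr.odd_of_ne_two (by omega)
  have hmeven : Even m := by
    have h1 : Odd (p ^ 2) := hodd.pow
    rw [hpp] at h1
    rcases Nat.even_or_odd m with h2 | h2
    · exact h2
    · exact absurd h1 (by
        rw [Nat.not_odd_iff_even]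
        exact h2.add_one)
  have hnorm : ∀ k : ℕ, p.Coprime k → ‖(k : E)‖ = 1 := by
    intro k hk
    have h1 : (k : E) = algebraMap ℚ_[p] E (k : ℚ_[p]) := by simp
    rw [h1, norm_algebraMap' E]
    exact Padic.norm_natCast_eq_one_iff.2 hk
  have hm1 : ‖(m : E)‖ = 1 := hnorm m hmcop
  have h2n : ‖(2 : E)‖ = 1 := by
    have h1 := hnorm 2 (by
      rw [Nat.coprime_two_right]
      exact hodd)
    exact_mod_cast h1
  -- values of theta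
  have hθm : ∀ τ, (θ τ : E) ^ m = 1 := by
    intro τ
    have h1 := hθ1 τ
    have h2 : ((θ τ ^ m : Eˣ) : E) = ((1 : Eˣ) : E) := by rw [h1]
    rwa [Units.val_pow_eq_pow_val, Units.val_one] at h2
  have hθn : ∀ τ, ‖(θ τ : E)‖ = 1 := fun τ => norm_root hm0 (hθm τ)
  have hθk : ∀ τ k, ((θ τ : E) ^ k) ^ m = 1 := by
    intro τ k
    rw [← pow_mul, mul_comm, pow_mul, hθm, one_pow]
  have hθkn : ∀ τ k, ‖(θ τ : E) ^ k‖ = 1 := fun τ k => norm_root hm0 (hθk τ k)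
  obtain ⟨τ₀, hτ₀⟩ := hθ
  have hord : ∀ k : ℕ, (θ τ₀ : E) ^ k = 1 → m ∣ k := by
    intro k hk
    rw [← hτ₀]
    apply orderOf_dvd_of_pow_eq_one
    apply Units.ext
    rw [Units.val_pow_eq_pow_val, hk, Units.val_one]
  have hp1 : 0 < p - 1 := by omega
  -- step 1
  have step1 : ∀ τ : In 𝔓, (τ : GQ) ∈ Stab δ := by
    by_contra hcon
    push Not at hcon
    obtain ⟨τ₁, hτ₁⟩ := hcon
    have key : ∀ τ : In 𝔓, (τ : GQ) ∉ Stab δ → (θ τ : E) ^ ((p - 1) * n) = -1 := by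
      intro τ hτ
      have h1 := hA τ hτ
      have h2 := hFL τ
      have h3 : ‖(θ τ : E) ^ n + (θ τ : E) ^ (p * n)‖ < 1 := by
        have e : (θ τ : E) ^ n + (θ τ : E) ^ (p * n) =
            tr V τ + -(tr V τ - (θ τ : E) ^ n - (θ τ : E) ^ (p * n)) := by ring
        rw [e]
        exact nadd h1 (nneg h2)
      have h4 : p * n = n + (p - 1) * n := by
        have : p = 1 + (p - 1) := by omega
        conv_lhs => rw [this]
        ring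
      have h5 : (θ τ : E) ^ n + (θ τ : E) ^ (p * n) =
          (θ τ : E) ^ n * (1 + (θ τ : E) ^ ((p - 1) * n)) := by
        rw [h4, pow_add]
        ring
      rw [h5, norm_mul, hθkn, one_mul] at h3
      have h6 : -(θ τ : E) ^ ((p - 1) * n) = 1 := by
        refine root_eq_one hm0 hm1 ?_ ?_
        · rw [hmeven.neg_pow, hθk]
        · have e : -(θ τ : E) ^ ((p - 1) * n) - 1 = -(1 + (θ τ : E) ^ ((p - 1) * n)) := by ring
          rw [e]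
          exact nneg h3
      rw [← h6, neg_neg]
    have h1 := key τ₁ hτ₁
    have h2 : (θ τ₀ : E) ^ (2 * ((p - 1) * n)) = 1 := by
      rw [mul_comm, pow_mul]
      by_cases h3 : (τ₀ : GQ) ∈ Stab δ
      · have h4 : ((τ₀ * τ₁ : In 𝔓) : GQ) ∉ Stab δ := by
          intro h5
          apply hτ₁
          have h6 : (τ₁ : GQ) = (τ₀ : GQ)⁻¹ * ((τ₀ * τ₁ : In 𝔓) : GQ) := by
            rw [Subgroup.coe_mul, inv_mul_cancel_left]
          rw [h6]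
          exact (Stab δ).mul_mem ((Stab δ).inv_mem h3) h5
        have h5 := key _ h4
        rw [map_mul, Units.val_mul, mul_pow, h1] at h5
        have h6 : (θ τ₀ : E) ^ ((p - 1) * n) = 1 := by
          have h7 : -(θ τ₀ : E) ^ ((p - 1) * n) = -1 := by rw [← h5]; ring
          exact neg_injective h7
        rw [h6, one_pow]
      · rw [key τ₀ h3]
        norm_num
    have h3 := hord _ h2
    rw [hmfac] at h3
    have h4 : (p - 1) * (p + 1) ∣ (p - 1) * (2 * n) := by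
      have e : (p - 1) * (2 * n) = 2 * ((p - 1) * n) := by ring
      rw [e]
      exact h3
    have h5 := Nat.dvd_of_mul_dvd_mul_left hp1 h4
    have h6 := Nat.le_of_dvd (by omega) h5
    omega
  -- step 2
  set X : In 𝔓 → Eˣ := fun τ => χ ⟨τ, step1 τ⟩ with hX
  have hXmul : ∀ x y, X (x * y) = X x * X y := by
    intro x y
    rw [hX]
    simp only
    rw [← map_mul]
    rfl
  have hXinv : ∀ x, X x⁻¹ = (X x)⁻¹ := by
    intro x
    rw [hX]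
    simp only
    rw [← map_inv]
    rfl
  have hXn : ∀ x, ‖(X x : E)‖ = 1 := fun x => hχ _
  have hpt : ∀ τ : In 𝔓, ‖(X τ : E) - (θ τ : E) ^ n‖ < 1 ∨
      ‖(X τ : E) - (θ τ : E) ^ (p * n)‖ < 1 := by
    intro τ
    set τ' : Stab δ := ⟨s₀ * τ * s₀⁻¹, conj_mem hD s₀ (step1 τ)⟩ with hτ'
    have h1 : ∀ σ : In 𝔓, ∀ σ' : Stab δ, (σ' : GQ) = s₀ * σ * s₀⁻¹ →
        ‖(X σ : E) + χ σ' - ((θ σ : E) ^ n + (θ σ : E) ^ (p * n))‖ < 1 := by
      intro σ σ' hσ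
      have h2 := hB s₀ hs₀ ⟨σ, step1 σ⟩ σ' hσ
      have h3 := hFL σ
      have e : (X σ : E) + χ σ' - ((θ σ : E) ^ n + (θ σ : E) ^ (p * n)) =
          (tr V σ - (θ σ : E) ^ n - (θ σ : E) ^ (p * n)) + -(tr V σ - X σ - χ σ') := by ring
      rw [e]
      exact nadd h3 (nneg h2)
    have h2 := h1 τ τ' rfl
    have h3 := h1 (τ * τ) (τ' * τ') (by
      rw [Subgroup.coe_mul, Subgroup.coe_mul, hτ']
      simp only
      group)
    refine two_sets h2n (hχ τ').le h2 ?_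
    have e : (X τ : E) ^ 2 + (χ τ' : E) ^ 2 - (((θ τ : E) ^ n) ^ 2 + ((θ τ : E) ^ (p * n)) ^ 2) =
        (X (τ * τ) : E) + χ (τ' * τ') - ((θ (τ * τ) : E) ^ n + (θ (τ * τ) : E) ^ (p * n)) := by
      rw [hXmul, map_mul, map_mul, Units.val_mul, Units.val_mul, Units.val_mul]
      ring
    rw [e]
    exact h3
  have hgrp : ∀ k : ℕ, (∀ x y : In 𝔓, ‖(X x : E) - (θ x : E) ^ k‖ < 1 →
      ‖(X y : E) - (θ y : E) ^ k‖ < 1 → ‖(X (x * y) : E) - (θ (x * y) : E) ^ k‖ < 1) ∧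
      ∀ x : In 𝔓, ‖(X x : E) - (θ x : E) ^ k‖ < 1 → ‖(X x⁻¹ : E) - (θ x⁻¹ : E) ^ k‖ < 1 := by
    intro k
    constructor
    · intro x y h1 h2
      rw [hXmul, map_mul, Units.val_mul, Units.val_mul, mul_pow]
      exact cg_mul (hXn x).le (hθkn y k).le h1 h2
    · intro x h1
      rw [hXinv, map_inv, Units.val_inv_eq_inv_val, Units.val_inv_eq_inv_val, inv_pow]
      exact cg_inv (hXn x) (hθkn x k) h1
  have hcases : (∀ τ : In 𝔓, ‖(X τ : E) - (θ τ : E) ^ n‖ < 1) ∨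
      (∀ τ : In 𝔓, ‖(X τ : E) - (θ τ : E) ^ (p * n)‖ < 1) :=
    union_two (fun τ : In 𝔓 => ‖(X τ : E) - (θ τ : E) ^ n‖ < 1)
      (fun τ : In 𝔓 => ‖(X τ : E) - (θ τ : E) ^ (p * n)‖ < 1)
      (hgrp n).1 (hgrp n).2 (hgrp (p * n)).1 (hgrp (p * n)).2 hpt
  obtain ⟨w, hw, hwk⟩ : ∃ w : ℕ, (w = 1 ∨ w = p) ∧
      ∀ τ : In 𝔓, ‖(X τ : E) - (θ τ : E) ^ (w * n)‖ < 1 := by
    rcases hcases with h | h
    · exact ⟨1, Or.inl rfl, by simpa using h⟩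
    · exact ⟨p, Or.inr rfl, h⟩
  have hwm : Nat.Coprime m w := by
    rcases hw with h | h
    · rw [h]
      exact Nat.coprime_one_right m
    · rw [h]
      exact hmcop.symm
  refine ⟨⟨τ₀, step1 τ₀⟩, τ₀.2, ?_, ?_⟩
  · intro i hi
    have h1 : ‖(X τ₀ : E) ^ i - ((θ τ₀ : E) ^ (w * n)) ^ i‖ < 1 := by
      have h2 : ∀ j : ℕ, ‖(X τ₀ : E) ^ j - ((θ τ₀ : E) ^ (w * n)) ^ j‖ < 1 := by
        intro j
        induction j with
        | zero => simp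
        | succ j ih =>
          rw [pow_succ, pow_succ]
          refine cg_mul ?_ (hθkn τ₀ _).le ih (hwk τ₀)
          rw [norm_pow, hXn, one_pow]
      exact h2 i
    have h2 : ‖((θ τ₀ : E) ^ (w * n)) ^ i - 1‖ < 1 := cg_trans (cg_symm h1) hi
    have h3 : ((θ τ₀ : E) ^ (w * n)) ^ i = 1 := by
      refine root_eq_one hm0 hm1 ?_ h2
      rw [← pow_mul (θ τ₀ : E) (w * n) i]
      exact hθk τ₀ _
    rw [← pow_mul] at h3
    have h4 := hord _ h3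
    have h5 : w * n * i = w * (i * n) := by ring
    rw [h5] at h4
    exact hwm.dvd_of_dvd_mul_left h4
  · intro 𝔔 hQ hpQ x
    obtain ⟨g, hg⟩ := exists_frob p hpr 𝔓 hP hpP
    have hgS : g ∉ Stab δ := by
      intro hgS
      have hconj : g * (τ₀ : GQ) * g⁻¹ ∈ In 𝔓 := by
        rw [mem_In]
        intro y
        have h1 := mem_In.1 τ₀.2 (g⁻¹ • y)
        have h2 : (g * (τ₀ : GQ) * g⁻¹) • y - y = g • ((τ₀ : GQ) • (g⁻¹ • y) - g⁻¹ • y) := by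
          rw [smul_sub, smul_inv_smul, mul_smul, mul_smul]
        have h3 := Ideal.smul_mem_pointwise_smul g _ 𝔓 h1
        rw [hg.1] at h3
        rw [h2]
        exact h3
      have h1 : θ ⟨g * (τ₀ : GQ) * g⁻¹, hconj⟩ = θ τ₀ ^ p := hθ2 g hg τ₀ _ rfl
      have h2 : X ⟨g * (τ₀ : GQ) * g⁻¹, hconj⟩ = X τ₀ := by
        rw [hX]
        simp only
        have h3 : (⟨g * (τ₀ : GQ) * g⁻¹, step1 ⟨_, hconj⟩⟩ : Stab δ) =
            ⟨g, hgS⟩ * ⟨τ₀, step1 τ₀⟩ * (⟨g, hgS⟩)⁻¹ := rfl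
        rw [h3, map_mul, map_mul, map_inv, mul_comm (χ ⟨g, hgS⟩), mul_inv_cancel_right]
      have h3 := hwk ⟨g * (τ₀ : GQ) * g⁻¹, hconj⟩
      rw [h1, h2, Units.val_pow_eq_pow_val, ← pow_mul] at h3
      have h4 := hwk τ₀
      have h5 : (θ τ₀ : E) ^ (p * (w * n)) = (θ τ₀ : E) ^ (w * n) :=
        root_eq hm0 hm1 (hθk _ _) (hθk _ _) (cg_trans (cg_symm h3) h4)
      have h6 : (θ τ₀ : E) ^ ((p - 1) * (w * n)) = 1 := by
        have h7 : p * (w * n) = (p - 1) * (w * n) + w * n := by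
          have : p = (p - 1) + 1 := by omega
          conv_lhs => rw [this]
          ring
        rw [h7, pow_add] at h5
        have h8 : (θ τ₀ : E) ^ (w * n) ≠ 0 := by
          intro h0
          have h9 := hθkn τ₀ (w * n)
          rw [h0, norm_zero] at h9
          exact zero_ne_one h9
        exact mul_right_cancel₀ h8 (by rw [h5, one_mul])
      have h7 := hord _ h6
      have h8 : (p - 1) * (w * n) = w * ((p - 1) * n) := by ring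
      rw [h8] at h7
      have h9 := hwm.dvd_of_dvd_mul_left h7
      rw [hmfac] at h9
      have h10 := Nat.dvd_of_mul_dvd_mul_left hp1 h9
      have h11 := Nat.le_of_dvd (by omega) h10
      omega
    obtain ⟨k, hk⟩ := exists_smul_eq hpr hP hpP hQ hpQ
    by_cases hkS : k ∈ Stab δ
    · rw [← hk]
      exact mem_smul_iff hkS 𝔓 x
    · have h1 : (k * g) • 𝔓 = 𝔔 := by rw [mul_smul_ideal, hg.1, hk]
      rw [← h1]
      exact mem_smul_iff (mul_mem_of_not hD hkS hgS) 𝔓 x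

end Pool.Agent.AAP
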