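import Pool.Agent.AAP.Defs

/-!
# AAP-HX (0.7h): the kernel of the reduction of a power of a character with open kernel

`χ : Stab δ → Eˣ` has open kernel, so finite image (`GQ` is compact), its values are roots of unity
and have norm one. `H₁ = {g ∈ Stab δ : ‖χ(g) ^ k - 1‖ < 1}` is a subgroup containing `ker χ`,
open, stable under conjugation by `Stab δ` (`Eˣ` is commutative), and `Stab δ / H₁` embeds in the
units of the residue field of `E` (`g ↦ χ(g) ^ k mod 𝔪`), its image is a finite subgroup, so it is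
cyclic: choose `h₀` mapping to (the inverse of) a generator.
-/

open NumberField

namespace Pool.Agent.AAP

open Pool.Agent.Helper60.FM

/-- the valuation ring -/
private noncomputable def vs (E : Type*) [NormedField E] [IsUltrametricDist E] :
    ValuationSubring E := (NormedField.valuation (K := E)).valuationSubring

private theorem vs_unit {E : Type*} [NormedField E] [IsUltrametricDist E] (x : Eˣ) :
    x ∈ (vs E).unitGroup ↔ ‖(x : E)‖ = 1 := by
  rw [vs, Valuation.mem_unitGroup_iff, NormedField.valuation_apply, ← NNReal.coe_inj]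
  rfl

private theorem vs_lt {E : Type*} [NormedField E] [IsUltrametricDist E] (y : E) :
    (vs E).valuation y < 1 ↔ ‖y‖ < 1 := by
  have h1 : NormedField.valuation (K := E) y < 1 ↔
      (NormedField.valuation (K := E)).valuationSubring.valuation y < 1 :=
    Valuation.isEquiv_iff_val_lt_one.1
      (Valuation.isEquiv_valuation_valuationSubring (NormedField.valuation (K := E)))
  rw [vs, ← h1, NormedField.valuation_apply, ← NNReal.coe_lt_coe]
  rfl

private theorem cyc {E : Type*} [NormedField E] [IsUltrametricDist E] {S : Type*} [Group S]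
    (χ : S →* Eˣ) (hfin : Finite χ.range) (hn : ∀ h, ‖(χ h : E)‖ = 1) (k : ℕ) :
    ∃ N : Subgroup S, N.Normal ∧ χ.ker ≤ N ∧ (∀ h, h ∈ N ↔ ‖(χ h : E) ^ k - 1‖ < 1) ∧
      ∃ a, ∀ h, ∃ i : ℕ, a ^ i * h ∈ N := by
  have hmem : ∀ h, ((powMonoidHom k).comp χ) h ∈ (vs E).unitGroup := by
    intro h
    rw [vs_unit]
    simp only [MonoidHom.comp_apply, powMonoidHom_apply, Units.val_pow_eq_pow_val, norm_pow, hn,
      one_pow]
  let ψ : S →* (vs E).unitGroup := ((powMonoidHom k).comp χ).codRestrict _ hmem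
  let f : S →* (IsLocalRing.ResidueField (vs E))ˣ := (vs E).unitGroupToResidueFieldUnits.comp ψ
  have hf : ∀ h, f h = 1 ↔ ‖(χ h : E) ^ k - 1‖ < 1 := by
    intro h
    have h1 : f h = 1 ↔ ψ h ∈ (vs E).unitGroupToResidueFieldUnits.ker := by
      rw [MonoidHom.mem_ker]
      rfl
    rw [h1, ValuationSubring.ker_unitGroupToResidueFieldUnits, Subgroup.mem_comap,
      ValuationSubring.mem_principalUnitGroup_iff, vs_lt]
    rfl
  have hker : ∀ h h', χ h = χ h' → f h = f h' := by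
    intro h h' hh
    have h1 : ψ h = ψ h' := by
      apply Subtype.ext
      show (χ h) ^ k = (χ h') ^ k
      rw [hh]
    show (vs E).unitGroupToResidueFieldUnits (ψ h) = (vs E).unitGroupToResidueFieldUnits (ψ h')
    rw [h1]
  have hfr : Finite f.range := by
    refine Finite.of_surjective (fun y : χ.range => (⟨f (Classical.choose y.2), ⟨_, rfl⟩⟩ : f.range))
      ?_
    rintro ⟨_, h, rfl⟩
    refine ⟨⟨χ h, h, rfl⟩, ?_⟩
    apply Subtype.ext
    apply hker
    exact Classical.choose_spec (⟨h, rfl⟩ : χ h ∈ χ.range)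
  have := hfr
  have hcyc : IsCyclic f.range := isCyclic_subgroup_units f.range
  obtain ⟨⟨_, a, rfl⟩, ha⟩ := IsCyclic.exists_monoid_generator (α := f.range)
  refine ⟨f.ker, inferInstance, ?_, ?_, a, ?_⟩
  · intro h hh
    rw [MonoidHom.mem_ker] at hh ⊢
    rw [hker h 1 (by rw [hh, map_one]), map_one]
  · intro h
    rw [MonoidHom.mem_ker, hf]
  · intro h
    obtain ⟨i, hi⟩ := ha (⟨f h, ⟨h, rfl⟩⟩⁻¹)
    refine ⟨i, ?_⟩
    have h1 := congrArg Subtype.val hi
    have h2 : (f a) ^ i = (f h)⁻¹ := h1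
    rw [MonoidHom.mem_ker, map_mul, map_pow, h2, inv_mul_cancel]

theorem hx {E : Type*} [NormedField E] [IsUltrametricDist E] (δ : Qb) (χ : Stab δ →* Eˣ)
    (ho : IsOpen ((χ.ker.map (Stab δ).subtype : Subgroup GQ) : Set GQ)) (k : ℕ) :
    ∃ H₁ : Subgroup GQ, IsOpen (H₁ : Set GQ) ∧
      (∀ g, g ∈ H₁ ↔ ∃ h : g ∈ Stab δ, ‖(χ ⟨g, h⟩ : E) ^ k - 1‖ < 1) ∧
      (∀ h ∈ Stab δ, ∀ g ∈ H₁, h * g * h⁻¹ ∈ H₁) ∧
      (∃ h₀ ∈ Stab δ, ∀ h ∈ Stab δ, ∃ i : ℕ, h₀ ^ i * h ∈ H₁) ∧
      (∀ h : Stab δ, ‖(χ h : E)‖ = 1) := by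
  set K : Subgroup GQ := χ.ker.map (Stab δ).subtype with hK
  have hq : Finite (GQ ⧸ K) := Subgroup.quotient_finite_of_isOpen K ho
  have hfin : Finite χ.range := by
    refine Finite.of_injective (fun y : χ.range =>
      (QuotientGroup.mk ((Classical.choose y.2 : Stab δ) : GQ) : GQ ⧸ K)) ?_
    intro y y' hyy
    have h1 := QuotientGroup.eq.1 hyy
    rw [hK, Subgroup.mem_map] at h1
    obtain ⟨u, hu, hu2⟩ := h1
    have h2 : u = (Classical.choose y.2)⁻¹ * Classical.choose y'.2 := by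
      apply Subtype.ext
      rw [← Subgroup.coe_subtype, hu2]
      rfl
    rw [MonoidHom.mem_ker, h2, map_mul, map_inv, inv_mul_eq_one, Classical.choose_spec y.2,
      Classical.choose_spec y'.2] at hu
    exact Subtype.ext hu
  have hn : ∀ h : Stab δ, ‖(χ h : E)‖ = 1 := by
    intro h
    have h1 : IsOfFinOrder (⟨χ h, ⟨h, rfl⟩⟩ : χ.range) := isOfFinOrder_of_finite _
    obtain ⟨n, hn0, hn1⟩ := isOfFinOrder_iff_pow_eq_one.1 h1
    have h2 : (χ h) ^ n = 1 := congrArg Subtype.val hn1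
    have h3 : ‖(χ h : E)‖ ^ n = 1 := by
      rw [← norm_pow, ← Units.val_pow_eq_pow_val, h2, Units.val_one, norm_one]
    exact (pow_eq_one_iff_of_nonneg (norm_nonneg _) hn0.ne').1 h3
  obtain ⟨N, hN, hkN, hmN, a, ha⟩ := cyc χ hfin hn k
  refine ⟨N.map (Stab δ).subtype, ?_, ?_, ?_, ?_, hn⟩
  · exact Subgroup.isOpen_mono (Subgroup.map_mono hkN) ho
  · intro g
    rw [Subgroup.mem_map]
    constructor
    · rintro ⟨u, hu, rfl⟩
      exact ⟨u.2, (hmN u).1 hu⟩
    · rintro ⟨h, hh⟩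
      exact ⟨⟨g, h⟩, (hmN _).2 hh, rfl⟩
  · rintro h hh g hg
    rw [Subgroup.mem_map] at hg ⊢
    obtain ⟨u, hu, rfl⟩ := hg
    obtain ⟨h', hh'⟩ : ∃ h' : Stab δ, (Stab δ).subtype h' = h := ⟨⟨h, hh⟩, rfl⟩
    refine ⟨h' * u * h'⁻¹, hN.conj_mem u hu h', ?_⟩
    rw [map_mul, map_mul, map_inv, hh']
  · refine ⟨a, a.2, ?_⟩
    intro h hh
    obtain ⟨h', hh'⟩ : ∃ h' : Stab δ, (Stab δ).subtype h' = h := ⟨⟨h, hh⟩, rfl⟩
    obtain ⟨i, hi⟩ := ha h'
    refine ⟨i, ?_⟩
    rw [Subgroup.mem_map]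
    refine ⟨a ^ i * h', hi, ?_⟩
    rw [map_mul, map_pow, hh', Subgroup.coe_subtype]

end Pool.Agent.AAP
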