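import Pool.Agent.AAP.DefsE

/-!
# AAP-Quad: quadratic fields

`cardA`: two different primes above `p` in a quadratic field have norm `p` (`v v' ∣ (p)`,
`N(v) N(v') ∣ p ^ 2`); `cardB`: in any case `N(v) - 1` divides `p ^ 2 - 1` (`N(v) ∈ {p, p ^ 2}`).
`finD`: `FF δ` is a real quadratic field for `D > 0` not a square; its unit rank is `1`, so there is a unit
`ε` which is not a root of unity; `M = |N(ε ^ k - 1)| ≠ 0`; `ε ^ k - 1 ∈ v`, `p ∈ v` imply `p ∣ M`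
(`v` contains the norm `M`, and `v ∩ ℤ = (p)`).
-/

open NumberField

namespace Pool.Agent.AAP

open Pool.Agent.Helper60.FM

private theorem isInt (D : ℤ) (δ : Qb) (hD : δ ^ 2 = D) : IsIntegral ℚ δ := by
  refine ⟨Polynomial.X ^ 2 - Polynomial.C (D : ℚ), Polynomial.monic_X_pow_sub_C _ two_ne_zero, ?_⟩
  rw [Polynomial.eval₂_sub, Polynomial.eval₂_X_pow, Polynomial.eval₂_C, hD, map_intCast, sub_self]

private theorem minp (D : ℤ) (δ : Qb) (hD : δ ^ 2 = D) (hr : ∀ q : ℚ, δ ≠ algebraMap ℚ Qb q) :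
    minpoly ℚ δ = Polynomial.X ^ 2 - Polynomial.C (D : ℚ) := by
  have hi := isInt D δ hD
  have hm : (Polynomial.X ^ 2 - Polynomial.C (D : ℚ)).Monic :=
    Polynomial.monic_X_pow_sub_C _ two_ne_zero
  have hdeg : (Polynomial.X ^ 2 - Polynomial.C (D : ℚ)).natDegree = 2 :=
    Polynomial.natDegree_X_pow_sub_C
  have hdvd : minpoly ℚ δ ∣ Polynomial.X ^ 2 - Polynomial.C (D : ℚ) := by
    refine minpoly.dvd ℚ δ ?_
    simp [hD]
  have h1 : (minpoly ℚ δ).natDegree ≤ 2 := by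
    rw [← hdeg]
    exact Polynomial.natDegree_le_of_dvd hdvd hm.ne_zero
  have h2 : (minpoly ℚ δ).natDegree ≠ 1 := by
    intro h
    obtain ⟨q, hq⟩ := (minpoly.natDegree_eq_one_iff.1 h)
    exact hr q hq.symm
  have h3 : 0 < (minpoly ℚ δ).natDegree := minpoly.natDegree_pos hi
  have h4 : (minpoly ℚ δ).natDegree = 2 := by omega
  exact (Polynomial.eq_of_monic_of_dvd_of_natDegree_le (minpoly.monic hi) hm hdvd
    (by rw [h4, hdeg])).symm

theorem finrank_FF (D : ℤ) (δ : Qb) (hD : δ ^ 2 = D) (hr : ∀ q : ℚ, δ ≠ algebraMap ℚ Qb q) :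
    FiniteDimensional ℚ (FF δ) ∧ Module.finrank ℚ (FF δ) = 2 := by
  have hi := isInt D δ hD
  refine ⟨IntermediateField.adjoin.finiteDimensional hi, ?_⟩
  have h1 := IntermediateField.adjoin.finrank hi
  rw [minp D δ hD hr, Polynomial.natDegree_X_pow_sub_C] at h1
  exact h1

private theorem nrm_p (F : Type) [Field F] [NumberField F] (hF : Module.finrank ℚ F = 2) (p : ℕ) :
    Ideal.absNorm (Ideal.span {(p : 𝓞 F)}) = p ^ 2 := by
  rw [Ideal.absNorm_span_natCast, RingOfIntegers.rank, hF]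

private theorem nrm_card (F : Type) [Field F] [NumberField F] (v : Ideal (𝓞 F)) :
    Nat.card (𝓞 F ⧸ v) = Ideal.absNorm v := by
  rw [Ideal.absNorm_apply, Submodule.cardQuot_apply]

theorem cardA (F : Type) [Field F] [NumberField F] (hF : Module.finrank ℚ F = 2) (p : ℕ)
    (hp : p.Prime) (v v' : Ideal (𝓞 F)) (hv : v.IsPrime) (hv' : v'.IsPrime) (hne : v ≠ v')
    (hpv : (p : 𝓞 F) ∈ v) (hpv' : (p : 𝓞 F) ∈ v') : Nat.card (𝓞 F ⧸ v) = p := by
  have hp0 : (p : 𝓞 F) ≠ 0 := by exact_mod_cast hp.ne_zero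
  have hv0 : v ≠ ⊥ := by
    rintro rfl
    exact hp0 hpv
  have hv0' : v' ≠ ⊥ := by
    rintro rfl
    exact hp0 hpv'
  have hm : v.IsMaximal := hv.isMaximal hv0
  have hm' : v'.IsMaximal := hv'.isMaximal hv0'
  have hco : IsCoprime v v' := by
    rw [Ideal.isCoprime_iff_sup_eq]
    exact hm.coprime_of_ne hm' hne
  have h1 : Ideal.span {(p : 𝓞 F)} ≤ v * v' := by
    rw [Ideal.mul_eq_inf_of_isCoprime hco, le_inf_iff, Ideal.span_singleton_le_iff_mem,
      Ideal.span_singleton_le_iff_mem]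
    exact ⟨hpv, hpv'⟩
  have h2 := Ideal.absNorm_dvd_absNorm_of_le h1
  rw [nrm_p F hF p, map_mul] at h2
  rw [nrm_card]
  have h3 : Ideal.absNorm v ≠ 1 := by
    rw [Ne, Ideal.absNorm_eq_one_iff]
    exact hv.ne_top
  have h4 : Ideal.absNorm v' ≠ 1 := by
    rw [Ne, Ideal.absNorm_eq_one_iff]
    exact hv'.ne_top
  obtain ⟨i, hi, hvi⟩ := (Nat.dvd_prime_pow hp).1 ((dvd_mul_right _ _).trans h2)
  obtain ⟨j, hj, hvj⟩ := (Nat.dvd_prime_pow hp).1 ((dvd_mul_left _ _).trans h2)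
  rw [hvi, hvj, ← pow_add] at h2
  have h5 : i + j ≤ 2 := (Nat.pow_dvd_pow_iff_le_right hp.one_lt).1 h2
  have h6 : i ≠ 0 := by
    rintro rfl
    exact h3 hvi
  have h7 : j ≠ 0 := by
    rintro rfl
    exact h4 hvj
  have h8 : i = 1 := by omega
  rw [hvi, h8, pow_one]

theorem cardB (F : Type) [Field F] [NumberField F] (hF : Module.finrank ℚ F = 2) (p : ℕ)
    (hp : p.Prime) (v : Ideal (𝓞 F)) (hv : v.IsPrime) (hpv : (p : 𝓞 F) ∈ v) :
    Nat.card (𝓞 F ⧸ v) - 1 ∣ p ^ 2 - 1 := by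
  have h1 : Ideal.span {(p : 𝓞 F)} ≤ v := by
    rw [Ideal.span_singleton_le_iff_mem]
    exact hpv
  have h2 := Ideal.absNorm_dvd_absNorm_of_le h1
  rw [nrm_p F hF p] at h2
  rw [nrm_card]
  have h3 : Ideal.absNorm v ≠ 1 := by
    rw [Ne, Ideal.absNorm_eq_one_iff]
    exact hv.ne_top
  obtain ⟨i, hi, hvi⟩ := (Nat.dvd_prime_pow hp).1 h2
  have h6 : i ≠ 0 := by
    rintro rfl
    exact h3 hvi
  have h7 : i = 1 ∨ i = 2 := by omega
  rcases h7 with rfl | rfl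
  · rw [hvi, pow_one]
    have h8 := Nat.sub_dvd_pow_sub_pow p 1 2
    rwa [one_pow] at h8
  · rw [hvi]

private theorem rank_pos (D : ℤ) (hD0 : 0 < D) (δ : Qb) (hD : δ ^ 2 = D)
    (hr : ∀ q : ℚ, δ ≠ algebraMap ℚ Qb q) [NumberField (FF δ)] :
    0 < NumberField.Units.rank (FF δ) := by
  have hi := isInt D δ hD
  have h2 : Module.finrank ℚ (FF δ) = 2 := (finrank_FF D δ hD hr).2
  have hroot : Polynomial.aeval (Real.sqrt (D : ℝ)) (minpoly ℚ δ) = 0 := by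
    rw [minp D δ hD hr]
    have h3 : Real.sqrt (D : ℝ) ^ 2 = D := Real.sq_sqrt (by exact_mod_cast hD0.le)
    simp [h3]
  let ψ : FF δ →ₐ[ℚ] ℝ := (IntermediateField.algHomAdjoinIntegralEquiv ℚ hi).symm
    ⟨Real.sqrt (D : ℝ), (Polynomial.mem_aroots.2 ⟨minpoly.ne_zero hi, hroot⟩)⟩
  let φ : FF δ →+* ℂ := Complex.ofRealHom.comp ψ.toRingHom
  have hφ : ComplexEmbedding.IsReal φ := by
    rw [ComplexEmbedding.isReal_iff]
    ext x
    exact Complex.conj_ofReal _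
  have h3 : 0 < InfinitePlace.nrRealPlaces (FF δ) := by
    have : Nonempty { w : InfinitePlace (FF δ) // InfinitePlace.IsReal w } :=
      ⟨⟨InfinitePlace.mk φ, InfinitePlace.isReal_mk_iff.2 hφ⟩⟩
    classical
    exact Fintype.card_pos_iff.2 this
  have h4 := InfinitePlace.card_add_two_mul_card_eq_rank (FF δ)
  have h5 := InfinitePlace.card_eq_nrRealPlaces_add_nrComplexPlaces (FF δ)
  unfold NumberField.Units.rank
  rw [h5]
  have h6 : Module.finrank ℚ (FF δ) = 2 := by convert h2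
  rw [h6] at h4
  omega

private theorem exists_unit (K : Type) [Field K] [NumberField K]
    (hrk : 0 < NumberField.Units.rank K) :
    ∃ ε : (𝓞 K)ˣ, ∀ k : ℕ, 0 < k → ε ^ k ≠ 1 := by
  let i : Fin (NumberField.Units.rank K) := ⟨0, hrk⟩
  refine ⟨NumberField.Units.fundSystem K i, fun k hk h => ?_⟩
  obtain ⟨z, -, hz⟩ := NumberField.Units.exist_unique_eq_mul_prod K 1
  have h1 := hz (1, 0) (by simp)
  have h2 := hz (1, Pi.single i (k : ℤ)) (by
    have h3 : ∏ j, NumberField.Units.fundSystem K j ^ ((Pi.single i (k : ℤ) :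
        Fin (NumberField.Units.rank K) → ℤ) j) = 1 := by
      rw [Finset.prod_eq_single i]
      · rw [Pi.single_eq_same, zpow_natCast, h]
      · intro j _ hj
        rw [Pi.single_eq_of_ne hj, zpow_zero]
      · intro hi
        exact absurd (Finset.mem_univ i) hi
    show (1 : (𝓞 K)ˣ) = ((1 : NumberField.Units.torsion K) : (𝓞 K)ˣ) * _
    rw [h3]
    simp)
  have h4 := congrArg (fun w => w.2 i) (h1.trans h2.symm)
  simp at h4
  omega

theorem finD (D : ℤ) (hD0 : 0 < D) (δ : Qb) (hD : δ ^ 2 = D)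
    (hr : ∀ q : ℚ, δ ≠ algebraMap ℚ Qb q) [FiniteDimensional ℚ (FF δ)] (k : ℕ) (hk : 0 < k) :
    ∃ (ε : (𝓞 (FF δ))ˣ) (M : ℕ), M ≠ 0 ∧ ∀ p : ℕ, p.Prime → ∀ v : Ideal (𝓞 (FF δ)), v.IsPrime →
      (p : 𝓞 (FF δ)) ∈ v → (ε : 𝓞 (FF δ)) ^ k - 1 ∈ v → p ∣ M := by
  have hNF : NumberField (FF δ) := { to_charZero := inferInstance
                                     to_finiteDimensional := inferInstance }
  have hrk := rank_pos D hD0 δ hD hr
  obtain ⟨ε, hε⟩ := exists_unit (FF δ) hrk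
  have hne : (ε : 𝓞 (FF δ)) ^ k - 1 ≠ 0 := by
    intro h
    apply hε k hk
    rw [sub_eq_zero] at h
    exact Units.ext (by rw [Units.val_pow_eq_pow_val, h, Units.val_one])
  refine ⟨ε, Ideal.absNorm (Ideal.span {(ε : 𝓞 (FF δ)) ^ k - 1}), ?_, ?_⟩
  · rw [Ne, Ideal.absNorm_eq_zero_iff, Ideal.span_singleton_eq_bot]
    exact hne
  · intro p hp v hv hpv hev
    by_contra hnd
    have h1 : ((Ideal.absNorm (Ideal.span {(ε : 𝓞 (FF δ)) ^ k - 1}) : ℕ) : 𝓞 (FF δ)) ∈ v :=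
      ((Ideal.span_singleton_le_iff_mem _).2 hev) (Ideal.absNorm_mem _)
    generalize Ideal.absNorm (Ideal.span {(ε : 𝓞 (FF δ)) ^ k - 1}) = M at h1 hnd
    have hco : Nat.Coprime p M := (Nat.Prime.coprime_iff_not_dvd hp).2 hnd
    have h2 : IsCoprime (p : ℤ) (M : ℤ) := Nat.isCoprime_iff_coprime.2 hco
    obtain ⟨a, b, hab⟩ := h2
    apply hv.ne_top
    rw [Ideal.eq_top_iff_one]
    have h3 : (1 : 𝓞 (FF δ)) = (a : 𝓞 (FF δ)) * (p : 𝓞 (FF δ)) + (b : 𝓞 (FF δ)) * (M : 𝓞 (FF δ)) := by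
      exact_mod_cast (congrArg (Int.cast : ℤ → 𝓞 (FF δ)) hab).symm
    rw [h3]
    exact v.add_mem (v.mul_mem_left _ hpv) (v.mul_mem_left _ h1)

end Pool.Agent.AAP
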