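import Pool.Agent.AAP.Cg
import Pool.Agent.AAP.HX
import Pool.Agent.AAP.FLa
import Pool.Agent.AAP.FLb
import Pool.Agent.AAP.Quad
import Pool.Agent.AAP.CycB

/-!
# Even Galois representations at almost all primes: the dihedral case
-/

open NumberField Pointwise Matrix Nat

namespace Pool.Agent.AAP

open Pool.Agent.Helper60.FM

theorem norm_two {p : ℕ} [Fact p.Prime] (hp : 2 < p) {E : Type*} [NormedField E]
    [IsUltrametricDist E] [NormedAlgebra ℚ_[p] E] : ‖(2 : E)‖ = 1 := by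
  have h1 := norm_natCast_eq_one (p := p) (E := E) (n := 2)
    (fun h => by have := Nat.le_of_dvd (by norm_num) h; omega)
  exact_mod_cast h1

/-- the trace of an even involution is a unit -/
theorem norm_tr_cc {p : ℕ} [Fact p.Prime] (hp : 2 < p) {E : Type*} [NormedField E]
    [IsUltrametricDist E] [NormedAlgebra ℚ_[p] E] (V : GQ →* GL (Fin 2) E) (c : GQ)
    (hc : c * c = 1) (hdet : det (V c : Matrix (Fin 2) (Fin 2) E) = 1) : ‖tr V c‖ = 1 := by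
  have h2 : ‖(2 : E)‖ = 1 := norm_two hp
  have e1 := trace_mul_self (V c : Matrix (Fin 2) (Fin 2) E)
  have e2 : (V c : Matrix (Fin 2) (Fin 2) E) * (V c : Matrix (Fin 2) (Fin 2) E) = 1 := by
    rw [← Units.val_mul, ← map_mul, hc, map_one, Units.val_one]
  rw [e2, hdet, Matrix.trace_one, Fintype.card_fin] at e1
  have e3 : (tr V c) ^ 2 = 2 * 2 := by
    have : trace (V c : Matrix (Fin 2) (Fin 2) E) ^ 2 = 2 * 2 := by
      push_cast at e1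
      linear_combination -e1
    exact this
  have e4 : ‖tr V c‖ ^ 2 = 1 := by
    rw [← norm_pow, e3, norm_mul, h2, one_mul]
  exact (pow_eq_one_iff_of_nonneg (norm_nonneg _) two_ne_zero).1 e4

theorem exists_not_stab (δ : Qb) (hr : ∀ q : ℚ, δ ≠ algebraMap ℚ Qb q) :
    ∃ s : GQ, s ∉ Stab δ := by
  by_contra hcon
  push Not at hcon
  have h1 : δ ∈ (⊥ : IntermediateField ℚ Qb) := by
    rw [InfiniteGalois.mem_bot_iff_fixed]
    exact fun g => hcon g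
  rw [IntermediateField.mem_bot] at h1
  obtain ⟨q, hq⟩ := h1
  exact hr q hq.symm

/-- a complex conjugation fixing a square root of `D` -/
theorem pos_of_cc (D : ℤ) (δ : Qb) (hD : δ ^ 2 = D) (hr : ∀ q : ℚ, δ ≠ algebraMap ℚ Qb q)
    (c : GQ) (hc : IsCC c) (hcδ : c ∈ Stab δ) : 0 < D := by
  obtain ⟨ι, hι⟩ := hc
  have h1 := hι δ
  have h2 : c δ = δ := hcδ
  rw [h2] at h1
  obtain ⟨r, hr'⟩ := Complex.conj_eq_iff_real.1 h1.symm
  have h3 : (r : ℂ) ^ 2 = (D : ℂ) := by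
    rw [← hr', ← map_pow, hD, map_intCast]
  have h4 : r ^ 2 = (D : ℝ) := by exact_mod_cast h3
  have h5 : (0 : ℝ) ≤ D := by rw [← h4]; exact sq_nonneg r
  have h6 : (0 : ℤ) ≤ D := by exact_mod_cast h5
  refine lt_of_le_of_ne h6 (fun h => ?_)
  rw [← h] at hD
  have h7 : δ = 0 := by
    rw [Int.cast_zero] at hD
    exact pow_eq_zero_iff (two_ne_zero) |>.1 hD
  exact hr 0 (by rw [h7, map_zero])

theorem dihAt (n N : ℕ) (hn : 1 ≤ n) (hN : 1 ≤ N) (D : ℤ) (δ : Qb) (hD : δ ^ 2 = D)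
    (hr : ∀ q : ℚ, δ ≠ algebraMap ℚ Qb q) : ∃ M : ℕ, M ≠ 0 ∧ ∀ (p : ℕ) [Fact p.Prime],
      2 * n + 1 < p → ¬ p ∣ M → ∀ (E : Type) [NormedField E] [IsUltrametricDist E]
      [NormedAlgebra ℚ_[p] E] (V : GQ →* GL (Fin 2) E), IsEven V → ∀ χ : Stab δ →* Eˣ,
      IsOpen ((χ.ker.map (Stab δ).subtype : Subgroup GQ) : Set GQ) →
      (∀ s ∉ Stab δ, ‖tr V s‖ < 1) →
      (∀ s ∉ Stab δ, ∀ h h' : Stab δ, (h' : GQ) = s * h * s⁻¹ → ‖tr V h - χ h - χ h'‖ < 1) →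
      (∀ 𝔓 : Ideal ZQ, 𝔓.IsPrime → (p : ZQ) ∉ 𝔓 → ∀ h : Stab δ, (h : GQ) ∈ In 𝔓 →
        ‖((χ h : E)) ^ N - 1‖ < 1) → FL p n V → False := by
  classical
  obtain ⟨s₀, hs₀⟩ := exists_not_stab δ hr
  obtain ⟨hfd, hfr⟩ := finrank_FF D δ hD hr
  by_cases hD0 : 0 < D
  swap
  · refine ⟨1, one_ne_zero, ?_⟩
    intro p _ hp _ E _ _ _ V heven χ _ hA _ _ _
    obtain ⟨c, hc⟩ := exists_isCC
    have h1 : c ∈ Stab δ := by
      by_contra hcon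
      have h2 := hA c hcon
      rw [norm_tr_cc (p := p) (by omega) V c (isCC_mul_self hc) (heven c hc)] at h2
      exact lt_irrefl _ h2
    exact hD0 (pos_of_cc D δ hD hr c hc h1)
  obtain ⟨ε, M, hM0, hM⟩ := finD D hD0 δ hD hr ((classNumber (FF δ))! * (2 * N * n))
    (Nat.mul_pos (Nat.factorial_pos _) (Nat.mul_pos (Nat.mul_pos (by omega) (by omega)) (by omega)))
  refine ⟨M, hM0, ?_⟩
  intro p _ hp hpM E _ _ _ V heven χ hopen hA hB hout hFL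
  have hpp : p.Prime := Fact.out
  obtain ⟨H₁, hH1, hH2, hH3, ⟨h₀, hh₀, hh₀'⟩, hχ⟩ := hx (E := E) δ χ hopen (2 * N)
  have hle : H₁ ≤ (FF δ).fixingSubgroup := by
    rw [fixing_FF]
    intro g hg
    obtain ⟨h, _⟩ := (hH2 g).1 hg
    exact h
  have hccS : ∀ c, IsCC c → c ∈ Stab δ := by
    intro c hc
    by_contra hcon
    have h2 := hA c hcon
    rw [norm_tr_cc (p := p) (by omega) V c (isCC_mul_self hc) (heven c hc)] at h2
    exact lt_irrefl _ h2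
  have hcc : ∀ c, IsCC c → c ∈ H₁ := by
    intro c hc
    rw [hH2]
    refine ⟨hccS c hc, ?_⟩
    have h3 : (⟨c, hccS c hc⟩ : Stab δ) ^ 2 = 1 := by
      apply Subtype.ext
      change c ^ 2 = 1
      rw [sq, isCC_mul_self hc]
    have h4 : ((χ ⟨c, hccS c hc⟩ : Eˣ) : E) ^ (2 * N) = 1 := by
      rw [pow_mul, ← Units.val_pow_eq_pow_val, ← map_pow, h3, map_one, Units.val_one, one_pow]
    rw [h4, sub_self, norm_zero]
    exact zero_lt_one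
  have hnorm : ∀ h ∈ (FF δ).fixingSubgroup, ∀ k ∈ H₁, h * k * h⁻¹ ∈ H₁ := by
    rw [fixing_FF]
    exact hH3
  have hcyc : ∀ h ∈ (FF δ).fixingSubgroup, ∃ i : ℕ, h₀ ^ i * h ∈ H₁ := by
    rw [fixing_FF]
    exact hh₀'
  have hh₀F : h₀ ∈ (FF δ).fixingSubgroup := by
    rw [fixing_FF]
    exact hh₀
  -- powers congruent to one
  have hpow : ∀ h : Stab δ, ∀ i j : ℕ, ‖((χ h : Eˣ) : E) ^ i - 1‖ < 1 →
      ‖((χ h : Eˣ) : E) ^ (i * j) - 1‖ < 1 := by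
    intro h i j h1
    have h2 : Cg (((χ h : Eˣ) : E) ^ i) 1 := h1
    have h3 := h2.pow (by rw [norm_one]) j
    rw [one_pow, ← pow_mul] at h3
    exact h3
  -- the end of the proof
  have fin : ∀ (𝔓₀ : Ideal ZQ), 𝔓₀.IsPrime → (p : ZQ) ∈ 𝔓₀ → ∀ τ : Stab δ, (τ : GQ) ∈ In 𝔓₀ →
      (∀ 𝔔 : Ideal ZQ, 𝔔.IsPrime → (p : ZQ) ∈ 𝔔 →
        ¬ (∀ x : 𝓞 (FF δ), toZ (FF δ) x ∈ 𝔔 ↔ toZ (FF δ) x ∈ 𝔓₀) →
        ∀ h : Stab δ, (h : GQ) ∈ In 𝔔 → ‖(χ h : E) - 1‖ < 1) →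
      (∀ i : ℕ, ‖(χ τ : E) ^ i - 1‖ < 1 →
        Nat.card (𝓞 (FF δ) ⧸ 𝔓₀.comap (toZ (FF δ))) - 1 ∣ i * n) → False := by
    intro 𝔓₀ hP₀ hpP₀ τ hτ hother hord
    set v : Ideal (𝓞 (FF δ)) := 𝔓₀.comap (toZ (FF δ)) with hv
    have hvp : v.IsPrime := Ideal.comap_isPrime _ _
    have hpv : (p : 𝓞 (FF δ)) ∈ v := by
      rw [hv, Ideal.mem_comap, map_natCast]
      exact hpP₀
    have hv0 : v ≠ ⊥ := by
      intro h
      rw [h, Ideal.mem_bot] at hpv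
      exact hpp.ne_zero (by exact_mod_cast hpv)
    have hover : ∀ 𝔔 : Ideal ZQ, Over (FF δ) 𝔔 v ↔
        ∀ x : 𝓞 (FF δ), toZ (FF δ) x ∈ 𝔔 ↔ toZ (FF δ) x ∈ 𝔓₀ := fun 𝔔 => Iff.rfl
    have h1 := cycB (FF δ) H₁ hH1 hle hnorm hcc h₀ hh₀F hcyc v hvp hv0 ?_ 𝔓₀ hP₀
      (fun x => Iff.rfl) τ hτ (by rw [fixing_FF]; exact τ.2) (2 * N * n) ?_ ε
    · exact hpM (hM p hpp v hvp hpv h1)
    · intro 𝔔 hQ hQv g hg hgF
      rw [fixing_FF] at hgF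
      rw [hH2]
      refine ⟨hgF, ?_⟩
      by_cases hpQ : (p : ZQ) ∈ 𝔔
      · have h2 := hother 𝔔 hQ hpQ (fun h => hQv ((hover 𝔔).2 h)) ⟨g, hgF⟩ hg
        have h3 := hpow ⟨g, hgF⟩ 1 (2 * N) (by rw [pow_one]; exact h2)
        rw [one_mul] at h3
        exact h3
      · have h2 := hout 𝔔 hQ hpQ ⟨g, hgF⟩ hg
        have h3 := hpow ⟨g, hgF⟩ N 2 h2
        rw [mul_comm] at h3
        exact h3
    · intro i hi
      rw [hH2] at hi
      obtain ⟨hi1, hi2⟩ := hi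
      have h2 : (χ ⟨(τ : GQ) ^ i, hi1⟩ : Eˣ) = χ τ ^ i := by
        rw [← map_pow]
        rfl
      rw [h2, Units.val_pow_eq_pow_val, ← pow_mul] at hi2
      have h3 := hord _ hi2
      rw [mul_assoc] at h3
      exact h3
  obtain ⟨𝔓, hP, hpP, hFL | ⟨θ, hθ, hθ1, hθ2, hFL⟩⟩ := hFL
  · obtain ⟨𝔓₀, τ, k1, k2, k3, k4, k5, 𝔔, k6, k7, k8⟩ :=
      flA p n hn hp V δ D hD s₀ hs₀ χ hχ hA hB 𝔓 hP hpP hFL
    refine fin 𝔓₀ k1 k2 τ k3 k5 ?_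
    have hcard : Nat.card (𝓞 (FF δ) ⧸ 𝔓₀.comap (toZ (FF δ))) = p := by
      refine cardA (FF δ) hfr p hpp _ (𝔔.comap (toZ (FF δ))) (Ideal.comap_isPrime _ _)
        (Ideal.comap_isPrime _ _) ?_ ?_ ?_
      · intro h
        apply k8
        intro x
        rw [← Ideal.mem_comap, ← Ideal.mem_comap, h]
      · rw [Ideal.mem_comap, map_natCast]
        exact k2
      · rw [Ideal.mem_comap, map_natCast]
        exact k7
    rw [hcard]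
    exact k4
  · obtain ⟨τ, k1, k2, k3⟩ :=
      flB p n hn hp V δ D hD s₀ hs₀ χ hχ hA hB 𝔓 hP hpP θ hθ hθ1 hθ2 hFL
    refine fin 𝔓 hP hpP τ k1 ?_ ?_
    · intro 𝔔 hQ hpQ hne
      exact absurd (k3 𝔔 hQ hpQ) hne
    · intro i hi
      have h1 := cardB (FF δ) hfr p hpp (𝔓.comap (toZ (FF δ))) (Ideal.comap_isPrime _ _)
        (by rw [Ideal.mem_comap, map_natCast]; exact hpP)
      exact h1.trans (k2 i hi)

theorem dihMain (n N : ℕ) (hn : 1 ≤ n) (hN : 1 ≤ N) : ∃ P : Finset ℕ, ∀ (p : ℕ) [Fact p.Prime],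
    p ∉ P → ∀ (E : Type) [NormedField E] [IsUltrametricDist E]
      [NormedAlgebra ℚ_[p] E] (V : GQ →* GL (Fin 2) E),
        IsEven V → Dih p N V → FL p n V → False := by
  classical
  have key : ∀ (D : ℤ) (δ : Qb), ∃ M : ℕ, M ≠ 0 ∧ (δ ^ 2 = D →
      (∀ q : ℚ, δ ≠ algebraMap ℚ Qb q) → ∀ (p : ℕ) [Fact p.Prime],
      2 * n + 1 < p → ¬ p ∣ M → ∀ (E : Type) [NormedField E] [IsUltrametricDist E]
      [NormedAlgebra ℚ_[p] E] (V : GQ →* GL (Fin 2) E), IsEven V → ∀ χ : Stab δ →* Eˣ,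
      IsOpen ((χ.ker.map (Stab δ).subtype : Subgroup GQ) : Set GQ) →
      (∀ s ∉ Stab δ, ‖tr V s‖ < 1) →
      (∀ s ∉ Stab δ, ∀ h h' : Stab δ, (h' : GQ) = s * h * s⁻¹ → ‖tr V h - χ h - χ h'‖ < 1) →
      (∀ 𝔓 : Ideal ZQ, 𝔓.IsPrime → (p : ZQ) ∉ 𝔓 → ∀ h : Stab δ, (h : GQ) ∈ In 𝔓 →
        ‖((χ h : E)) ^ N - 1‖ < 1) → FL p n V → False) := by
    intro D δ
    by_cases h : δ ^ 2 = D ∧ ∀ q : ℚ, δ ≠ algebraMap ℚ Qb q
    · obtain ⟨M, hM0, hM⟩ := dihAt n N hn hN D δ h.1 h.2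
      exact ⟨M, hM0, fun _ _ => hM⟩
    · exact ⟨1, one_ne_zero, fun h1 h2 => absurd ⟨h1, h2⟩ h⟩
  choose M hM0 hM using key
  let T : ℤ → Finset Qb := fun D => (Polynomial.X ^ 2 - Polynomial.C (D : Qb)).roots.toFinset
  have hT : ∀ (D : ℤ) (δ : Qb), δ ^ 2 = (D : Qb) → δ ∈ T D := by
    intro D δ h
    rw [Multiset.mem_toFinset, Polynomial.mem_roots']
    refine ⟨Polynomial.X_pow_sub_C_ne_zero (by norm_num) _, ?_⟩
    rw [Polynomial.IsRoot.def, Polynomial.eval_sub, Polynomial.eval_pow, Polynomial.eval_X,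
      Polynomial.eval_C, h, sub_self]
  refine ⟨Finset.range (2 * n + 2) ∪ (Finset.Icc (-(N : ℤ)) N).biUnion fun D =>
    (T D).biUnion fun δ => (M D δ).primeFactors, ?_⟩
  intro p _ hp E _ _ _ V heven hdih hFL
  have hpp : p.Prime := Fact.out
  rw [Finset.mem_union, not_or, Finset.mem_range, not_lt] at hp
  obtain ⟨hp1, hp2⟩ := hp
  obtain ⟨D, δ, χ, hDN, hD, hr, hopen, hA, hB, hout⟩ := hdih
  refine hM D δ hD hr p (by omega) ?_ E V heven χ hopen hA hB hout hFL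
  intro hdvd
  apply hp2
  rw [Finset.mem_biUnion]
  refine ⟨D, ?_, ?_⟩
  · have h1 : |D| ≤ N := by
      have h2 := Int.le_of_dvd (by exact_mod_cast hN) ((abs_dvd D N).2 hDN)
      exact h2
    rw [Finset.mem_Icc]
    exact abs_le.1 h1
  · rw [Finset.mem_biUnion]
    exact ⟨δ, hT D δ hD, Nat.mem_primeFactors.2 ⟨hpp, hdvd, hM0 D δ⟩⟩

end Pool.Agent.AAP
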