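import Pool.Agent.AAP.Quad

/-!
# AAP2-FinDQ: real quadratic fields, with a bound

As `finD` in `Quad.lean`, with one unit `ε` (not a root of unity) for all `k` and the bound
`|N(ε ^ k - 1)| ≤ b ^ k`.
-/

open NumberField

namespace Pool.Agent.AAP

open Pool.Agent.Helper60.FM

private theorem isIntQ (D : ℤ) (δ : Qb) (hD : δ ^ 2 = D) : IsIntegral ℚ δ := by
  refine ⟨Polynomial.X ^ 2 - Polynomial.C (D : ℚ), Polynomial.monic_X_pow_sub_C _ two_ne_zero, ?_⟩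
  rw [Polynomial.eval₂_sub, Polynomial.eval₂_X_pow, Polynomial.eval₂_C, hD, map_intCast, sub_self]

private theorem minpQ (D : ℤ) (δ : Qb) (hD : δ ^ 2 = D) (hr : ∀ q : ℚ, δ ≠ algebraMap ℚ Qb q) :
    minpoly ℚ δ = Polynomial.X ^ 2 - Polynomial.C (D : ℚ) := by
  have hi := isIntQ D δ hD
  have hm : (Polynomial.X ^ 2 - Polynomial.C (D : ℚ)).Monic :=
    Polynomial.monic_X_pow_sub_C _ two_ne_zero
  have hdeg : (Polynomial.X ^ 2 - Polynomial.C (D : ℚ)).natDegree = 2 :=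
    Polynomial.natDegree_X_pow_sub_C
  have hdvd : minpoly ℚ δ ∣ Polynomial.X ^ 2 - Polynomial.C (D : ℚ) := by
    refine minpoly.dvd ℚ δ ?_
    simp [hD]
  have h1 : (minpoly ℚ δ).natDegree ≤ 2 := by
    rw [← hdeg]
    exact Polynomial.natDegree_le_of_dvd hdvd hm.ne_zero
  have h2 : (minpoly ℚ δ).natDegree ≠ 1 := by
    intro h
    obtain ⟨q, hq⟩ := (minpoly.natDegree_eq_one_iff.1 h)
    exact hr q hq.symm
  have h3 : 0 < (minpoly ℚ δ).natDegree := minpoly.natDegree_pos hi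
  have h4 : (minpoly ℚ δ).natDegree = 2 := by omega
  exact (Polynomial.eq_of_monic_of_dvd_of_natDegree_le (minpoly.monic hi) hm hdvd
    (by rw [h4, hdeg])).symm

private theorem rank_posQ (D : ℤ) (hD0 : 0 < D) (δ : Qb) (hD : δ ^ 2 = D)
    (hr : ∀ q : ℚ, δ ≠ algebraMap ℚ Qb q) [NumberField (FF δ)] :
    0 < NumberField.Units.rank (FF δ) := by
  have hi := isIntQ D δ hD
  have h2 : Module.finrank ℚ (FF δ) = 2 := (finrank_FF D δ hD hr).2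
  have hroot : Polynomial.aeval (Real.sqrt (D : ℝ)) (minpoly ℚ δ) = 0 := by
    rw [minpQ D δ hD hr]
    have h3 : Real.sqrt (D : ℝ) ^ 2 = D := Real.sq_sqrt (by exact_mod_cast hD0.le)
    simp [h3]
  let ψ : FF δ →ₐ[ℚ] ℝ := (IntermediateField.algHomAdjoinIntegralEquiv ℚ hi).symm
    ⟨Real.sqrt (D : ℝ), (Polynomial.mem_aroots.2 ⟨minpoly.ne_zero hi, hroot⟩)⟩
  let φ : FF δ →+* ℂ := Complex.ofRealHom.comp ψ.toRingHom
  have hφ : ComplexEmbedding.IsReal φ := by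
    rw [ComplexEmbedding.isReal_iff]
    ext x
    exact Complex.conj_ofReal _
  have h3 : 0 < InfinitePlace.nrRealPlaces (FF δ) := by
    have : Nonempty { w : InfinitePlace (FF δ) // InfinitePlace.IsReal w } :=
      ⟨⟨InfinitePlace.mk φ, InfinitePlace.isReal_mk_iff.2 hφ⟩⟩
    classical
    exact Fintype.card_pos_iff.2 this
  have h4 := InfinitePlace.card_add_two_mul_card_eq_rank (FF δ)
  have h5 := InfinitePlace.card_eq_nrRealPlaces_add_nrComplexPlaces (FF δ)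
  unfold NumberField.Units.rank
  rw [h5]
  have h6 : Module.finrank ℚ (FF δ) = 2 := by convert h2
  rw [h6] at h4
  omega

private theorem exists_unitQ (K : Type) [Field K] [NumberField K]
    (hrk : 0 < NumberField.Units.rank K) :
    ∃ ε : (𝓞 K)ˣ, ∀ k : ℕ, 0 < k → ε ^ k ≠ 1 := by
  let i : Fin (NumberField.Units.rank K) := ⟨0, hrk⟩
  refine ⟨NumberField.Units.fundSystem K i, fun k hk h => ?_⟩
  obtain ⟨z, -, hz⟩ := NumberField.Units.exist_unique_eq_mul_prod K 1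
  have h1 := hz (1, 0) (by simp)
  have h2 := hz (1, Pi.single i (k : ℤ)) (by
    have h3 : ∏ j, NumberField.Units.fundSystem K j ^ ((Pi.single i (k : ℤ) :
        Fin (NumberField.Units.rank K) → ℤ) j) = 1 := by
      rw [Finset.prod_eq_single i]
      · rw [Pi.single_eq_same, zpow_natCast, h]
      · intro j _ hj
        rw [Pi.single_eq_of_ne hj, zpow_zero]
      · intro hi
        exact absurd (Finset.mem_univ i) hi
    show (1 : (𝓞 K)ˣ) = ((1 : NumberField.Units.torsion K) : (𝓞 K)ˣ) * _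
    rw [h3]
    simp)
  have h4 := congrArg (fun w => w.2 i) (h1.trans h2.symm)
  simp at h4
  omega

private theorem norm_bound (K : Type) [Field K] [NumberField K] (ε : 𝓞 K) :
    ∃ b : ℕ, ∀ k : ℕ, 0 < k → Ideal.absNorm (Ideal.span {ε ^ k - 1}) ≤ b ^ k := by
  obtain ⟨a, ha⟩ : ∃ a : ℕ, ∀ σ : K →ₐ[ℚ] ℂ, ‖σ (ε : K)‖ + 1 ≤ a := by
    obtain ⟨a, ha⟩ := exists_nat_ge (∑ σ : K →ₐ[ℚ] ℂ, (‖σ (ε : K)‖ + 1))
    refine ⟨a, fun σ => le_trans ?_ ha⟩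
    exact Finset.single_le_sum (f := fun σ : K →ₐ[ℚ] ℂ => ‖σ (ε : K)‖ + 1)
      (fun τ _ => add_nonneg (norm_nonneg _) zero_le_one) (Finset.mem_univ σ)
  refine ⟨a ^ Fintype.card (K →ₐ[ℚ] ℂ), fun k hk => ?_⟩
  have h1 : ((Ideal.absNorm (Ideal.span {ε ^ k - 1}) : ℕ) : ℝ) =
      ‖(algebraMap ℚ ℂ) (Algebra.norm ℚ (((ε ^ k - 1 : 𝓞 K)) : K))‖ := by
    rw [Ideal.absNorm_span_singleton, ← Algebra.coe_norm_int, Nat.cast_natAbs, Int.cast_abs]
    simp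
  rw [Algebra.norm_eq_prod_embeddings ℚ ℂ, norm_prod] at h1
  have h2 : ∏ σ : K →ₐ[ℚ] ℂ, ‖σ (((ε ^ k - 1 : 𝓞 K)) : K)‖ ≤ ∏ _σ : K →ₐ[ℚ] ℂ, (a : ℝ) ^ k := by
    refine Finset.prod_le_prod (fun σ _ => norm_nonneg _) fun σ _ => ?_
    have h3 : σ (((ε ^ k - 1 : 𝓞 K)) : K) = σ (ε : K) ^ k - 1 := by
      rw [← map_one σ, ← map_pow, ← map_sub]
      rfl
    rw [h3]
    refine (norm_sub_le _ _).trans ?_
    rw [norm_pow, norm_one]
    calc ‖σ (ε : K)‖ ^ k + 1 = ‖σ (ε : K)‖ ^ k + 1 ^ k := by rw [one_pow]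
      _ ≤ (‖σ (ε : K)‖ + 1) ^ k := pow_add_pow_le (norm_nonneg _) zero_le_one hk.ne'
      _ ≤ (a : ℝ) ^ k := pow_le_pow_left₀ (add_nonneg (norm_nonneg _) zero_le_one) (ha σ) k
  rw [← h1, Finset.prod_const, Finset.card_univ, ← pow_mul, mul_comm k, pow_mul] at h2
  exact_mod_cast h2

theorem finDQ (D : ℤ) (hD0 : 0 < D) (δ : Qb) (hD : δ ^ 2 = D)
    (hr : ∀ q : ℚ, δ ≠ algebraMap ℚ Qb q) [FiniteDimensional ℚ (FF δ)] :
    ∃ (ε : (𝓞 (FF δ))ˣ) (b : ℕ), ∀ k : ℕ, 0 < k → ∃ M : ℕ, M ≠ 0 ∧ M ≤ b ^ k ∧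
      ∀ p : ℕ, p.Prime → ∀ v : Ideal (𝓞 (FF δ)), v.IsPrime →
        (p : 𝓞 (FF δ)) ∈ v → (ε : 𝓞 (FF δ)) ^ k - 1 ∈ v → p ∣ M := by
  have hNF : NumberField (FF δ) := { to_charZero := inferInstance
                                     to_finiteDimensional := inferInstance }
  have hrk := rank_posQ D hD0 δ hD hr
  obtain ⟨ε, hε⟩ := exists_unitQ (FF δ) hrk
  obtain ⟨b, hb⟩ := norm_bound (FF δ) (ε : 𝓞 (FF δ))
  refine ⟨ε, b, fun k hk => ?_⟩
  have hne : (ε : 𝓞 (FF δ)) ^ k - 1 ≠ 0 := by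
    intro h
    apply hε k hk
    rw [sub_eq_zero] at h
    exact Units.ext (by rw [Units.val_pow_eq_pow_val, h, Units.val_one])
  refine ⟨Ideal.absNorm (Ideal.span {(ε : 𝓞 (FF δ)) ^ k - 1}), ?_, hb k hk, ?_⟩
  · rw [Ne, Ideal.absNorm_eq_zero_iff, Ideal.span_singleton_eq_bot]
    exact hne
  · intro p hp v hv hpv hev
    by_contra hnd
    have h1 : ((Ideal.absNorm (Ideal.span {(ε : 𝓞 (FF δ)) ^ k - 1}) : ℕ) : 𝓞 (FF δ)) ∈ v :=
      ((Ideal.span_singleton_le_iff_mem _).2 hev) (Ideal.absNorm_mem _)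
    generalize Ideal.absNorm (Ideal.span {(ε : 𝓞 (FF δ)) ^ k - 1}) = M at h1 hnd
    have hco : Nat.Coprime p M := (Nat.Prime.coprime_iff_not_dvd hp).2 hnd
    have h2 : IsCoprime (p : ℤ) (M : ℤ) := Nat.isCoprime_iff_coprime.2 hco
    obtain ⟨a, b, hab⟩ := h2
    apply hv.ne_top
    rw [Ideal.eq_top_iff_one]
    have h3 : (1 : 𝓞 (FF δ)) = (a : 𝓞 (FF δ)) * (p : 𝓞 (FF δ)) + (b : 𝓞 (FF δ)) * (M : 𝓞 (FF δ)) := by
      exact_mod_cast (congrArg (Int.cast : ℤ → 𝓞 (FF δ)) hab).symm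
    rw [h3]
    exact v.add_mem (v.mul_mem_left _ hpv) (v.mul_mem_left _ h1)

end Pool.Agent.AAP
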