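import Pool.Agent.AAP.DihMain
import Pool.Agent.AAP.FinDQ
import Pool.Agent.AAP.Bd

/-!
# Even Galois representations at almost all primes: the dihedral case with a bound
-/

open NumberField Pointwise Matrix Nat

namespace Pool.Agent.AAP

open Pool.Agent.Helper60.FM

theorem dihCore (n N : ℕ) (hn : 1 ≤ n) (D : ℤ) (δ : Qb) (hD : δ ^ 2 = D)
    (s₀ : GQ) (hs₀ : s₀ ∉ Stab δ) (hfd : FiniteDimensional ℚ (FF δ))
    (hfr : Module.finrank ℚ (FF δ) = 2) (ε : (𝓞 (FF δ))ˣ) (M : ℕ)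
    (hM : ∀ p : ℕ, p.Prime → ∀ v : Ideal (𝓞 (FF δ)), v.IsPrime → (p : 𝓞 (FF δ)) ∈ v →
      (ε : 𝓞 (FF δ)) ^ ((classNumber (FF δ))! * (2 * N * n)) - 1 ∈ v → p ∣ M) :
    ∀ (p : ℕ) [Fact p.Prime],
      2 * n + 1 < p → ¬ p ∣ M → ∀ (E : Type) [NormedField E] [IsUltrametricDist E]
      [NormedAlgebra ℚ_[p] E] (V : GQ →* GL (Fin 2) E), IsEven V → ∀ χ : Stab δ →* Eˣ,
      IsOpen ((χ.ker.map (Stab δ).subtype : Subgroup GQ) : Set GQ) →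
      (∀ s ∉ Stab δ, ‖tr V s‖ < 1) →
      (∀ s ∉ Stab δ, ∀ h h' : Stab δ, (h' : GQ) = s * h * s⁻¹ → ‖tr V h - χ h - χ h'‖ < 1) →
      (∀ 𝔓 : Ideal ZQ, 𝔓.IsPrime → (p : ZQ) ∉ 𝔓 → ∀ h : Stab δ, (h : GQ) ∈ In 𝔓 →
        ‖((χ h : E)) ^ N - 1‖ < 1) → FL p n V → False := by
  classical
  intro p _ hp hpM E _ _ _ V heven χ hopen hA hB hout hFL
  have hpp : p.Prime := Fact.out
  obtain ⟨H₁, hH1, hH2, hH3, ⟨h₀, hh₀, hh₀'⟩, hχ⟩ := hx (E := E) δ χ hopen (2 * N)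
  have hle : H₁ ≤ (FF δ).fixingSubgroup := by
    rw [fixing_FF]
    intro g hg
    obtain ⟨h, _⟩ := (hH2 g).1 hg
    exact h
  have hccS : ∀ c, IsCC c → c ∈ Stab δ := by
    intro c hc
    by_contra hcon
    have h2 := hA c hcon
    rw [norm_tr_cc (p := p) (by omega) V c (isCC_mul_self hc) (heven c hc)] at h2
    exact lt_irrefl _ h2
  have hcc : ∀ c, IsCC c → c ∈ H₁ := by
    intro c hc
    rw [hH2]
    refine ⟨hccS c hc, ?_⟩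
    have h3 : (⟨c, hccS c hc⟩ : Stab δ) ^ 2 = 1 := by
      apply Subtype.ext
      change c ^ 2 = 1
      rw [sq, isCC_mul_self hc]
    have h4 : ((χ ⟨c, hccS c hc⟩ : Eˣ) : E) ^ (2 * N) = 1 := by
      rw [pow_mul, ← Units.val_pow_eq_pow_val, ← map_pow, h3, map_one, Units.val_one, one_pow]
    rw [h4, sub_self, norm_zero]
    exact zero_lt_one
  have hnorm : ∀ h ∈ (FF δ).fixingSubgroup, ∀ k ∈ H₁, h * k * h⁻¹ ∈ H₁ := by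
    rw [fixing_FF]
    exact hH3
  have hcyc : ∀ h ∈ (FF δ).fixingSubgroup, ∃ i : ℕ, h₀ ^ i * h ∈ H₁ := by
    rw [fixing_FF]
    exact hh₀'
  have hh₀F : h₀ ∈ (FF δ).fixingSubgroup := by
    rw [fixing_FF]
    exact hh₀
  -- powers congruent to one
  have hpow : ∀ h : Stab δ, ∀ i j : ℕ, ‖((χ h : Eˣ) : E) ^ i - 1‖ < 1 →
      ‖((χ h : Eˣ) : E) ^ (i * j) - 1‖ < 1 := by
    intro h i j h1
    have h2 : Cg (((χ h : Eˣ) : E) ^ i) 1 := h1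
    have h3 := h2.pow (by rw [norm_one]) j
    rw [one_pow, ← pow_mul] at h3
    exact h3
  -- the end of the proof
  have fin : ∀ (𝔓₀ : Ideal ZQ), 𝔓₀.IsPrime → (p : ZQ) ∈ 𝔓₀ → ∀ τ : Stab δ, (τ : GQ) ∈ In 𝔓₀ →
      (∀ 𝔔 : Ideal ZQ, 𝔔.IsPrime → (p : ZQ) ∈ 𝔔 →
        ¬ (∀ x : 𝓞 (FF δ), toZ (FF δ) x ∈ 𝔔 ↔ toZ (FF δ) x ∈ 𝔓₀) →
        ∀ h : Stab δ, (h : GQ) ∈ In 𝔔 → ‖(χ h : E) - 1‖ < 1) →
      (∀ i : ℕ, ‖(χ τ : E) ^ i - 1‖ < 1 →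
        Nat.card (𝓞 (FF δ) ⧸ 𝔓₀.comap (toZ (FF δ))) - 1 ∣ i * n) → False := by
    intro 𝔓₀ hP₀ hpP₀ τ hτ hother hord
    set v : Ideal (𝓞 (FF δ)) := 𝔓₀.comap (toZ (FF δ)) with hv
    have hvp : v.IsPrime := Ideal.comap_isPrime _ _
    have hpv : (p : 𝓞 (FF δ)) ∈ v := by
      rw [hv, Ideal.mem_comap, map_natCast]
      exact hpP₀
    have hv0 : v ≠ ⊥ := by
      intro h
      rw [h, Ideal.mem_bot] at hpv
      exact hpp.ne_zero (by exact_mod_cast hpv)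
    have hover : ∀ 𝔔 : Ideal ZQ, Over (FF δ) 𝔔 v ↔
        ∀ x : 𝓞 (FF δ), toZ (FF δ) x ∈ 𝔔 ↔ toZ (FF δ) x ∈ 𝔓₀ := fun 𝔔 => Iff.rfl
    have h1 := cycB (FF δ) H₁ hH1 hle hnorm hcc h₀ hh₀F hcyc v hvp hv0 ?_ 𝔓₀ hP₀
      (fun x => Iff.rfl) τ hτ (by rw [fixing_FF]; exact τ.2) (2 * N * n) ?_ ε
    · exact hpM (hM p hpp v hvp hpv h1)
    · intro 𝔔 hQ hQv g hg hgF
      rw [fixing_FF] at hgF
      rw [hH2]
      refine ⟨hgF, ?_⟩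
      by_cases hpQ : (p : ZQ) ∈ 𝔔
      · have h2 := hother 𝔔 hQ hpQ (fun h => hQv ((hover 𝔔).2 h)) ⟨g, hgF⟩ hg
        have h3 := hpow ⟨g, hgF⟩ 1 (2 * N) (by rw [pow_one]; exact h2)
        rw [one_mul] at h3
        exact h3
      · have h2 := hout 𝔔 hQ hpQ ⟨g, hgF⟩ hg
        have h3 := hpow ⟨g, hgF⟩ N 2 h2
        rw [mul_comm] at h3
        exact h3
    · intro i hi
      rw [hH2] at hi
      obtain ⟨hi1, hi2⟩ := hi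
      have h2 : (χ ⟨(τ : GQ) ^ i, hi1⟩ : Eˣ) = χ τ ^ i := by
        rw [← map_pow]
        rfl
      rw [h2, Units.val_pow_eq_pow_val, ← pow_mul] at hi2
      have h3 := hord _ hi2
      rw [mul_assoc] at h3
      exact h3
  obtain ⟨𝔓, hP, hpP, hFL | ⟨θ, hθ, hθ1, hθ2, hFL⟩⟩ := hFL
  · obtain ⟨𝔓₀, τ, k1, k2, k3, k4, k5, 𝔔, k6, k7, k8⟩ :=
      flA p n hn hp V δ D hD s₀ hs₀ χ hχ hA hB 𝔓 hP hpP hFL
    refine fin 𝔓₀ k1 k2 τ k3 k5 ?_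
    have hcard : Nat.card (𝓞 (FF δ) ⧸ 𝔓₀.comap (toZ (FF δ))) = p := by
      refine cardA (FF δ) hfr p hpp _ (𝔔.comap (toZ (FF δ))) (Ideal.comap_isPrime _ _)
        (Ideal.comap_isPrime _ _) ?_ ?_ ?_
      · intro h
        apply k8
        intro x
        rw [← Ideal.mem_comap, ← Ideal.mem_comap, h]
      · rw [Ideal.mem_comap, map_natCast]
        exact k2
      · rw [Ideal.mem_comap, map_natCast]
        exact k7
    rw [hcard]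
    exact k4
  · obtain ⟨τ, k1, k2, k3⟩ :=
      flB p n hn hp V δ D hD s₀ hs₀ χ hχ hA hB 𝔓 hP hpP θ hθ hθ1 hθ2 hFL
    refine fin 𝔓 hP hpP τ k1 ?_ ?_
    · intro 𝔔 hQ hpQ hne
      exact absurd (k3 𝔔 hQ hpQ) hne
    · intro i hi
      have h1 := cardB (FF δ) hfr p hpp (𝔓.comap (toZ (FF δ))) (Ideal.comap_isPrime _ _)
        (by rw [Ideal.mem_comap, map_natCast]; exact hpP)
      exact h1.trans (k2 i hi)

/-- the conclusion for one `δ` -/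
def Good (N : ℕ) (δ : Qb) (n p : ℕ) [Fact p.Prime] : Prop :=
  ∀ (E : Type) [NormedField E] [IsUltrametricDist E]
      [NormedAlgebra ℚ_[p] E] (V : GQ →* GL (Fin 2) E), IsEven V → ∀ χ : Stab δ →* Eˣ,
      IsOpen ((χ.ker.map (Stab δ).subtype : Subgroup GQ) : Set GQ) →
      (∀ s ∉ Stab δ, ‖tr V s‖ < 1) →
      (∀ s ∉ Stab δ, ∀ h h' : Stab δ, (h' : GQ) = s * h * s⁻¹ → ‖tr V h - χ h - χ h'‖ < 1) →
      (∀ 𝔓 : Ideal ZQ, 𝔓.IsPrime → (p : ZQ) ∉ 𝔓 → ∀ h : Stab δ, (h : GQ) ∈ In 𝔓 →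
        ‖((χ h : E)) ^ N - 1‖ < 1) → FL p n V → False

theorem dihAtQ (N : ℕ) (hN : 1 ≤ N) (D : ℤ) (δ : Qb) (hD : δ ^ 2 = D)
    (hr : ∀ q : ℚ, δ ≠ algebraMap ℚ Qb q) : ∃ F : ℕ → ℕ, Bd F ∧ ∀ n, 1 ≤ n → F n ≠ 0 ∧
      ∀ (p : ℕ) [Fact p.Prime], 2 * n + 1 < p → ¬ p ∣ F n → Good N δ n p := by
  classical
  obtain ⟨s₀, hs₀⟩ := exists_not_stab δ hr
  obtain ⟨hfd, hfr⟩ := finrank_FF D δ hD hr
  by_cases hD0 : 0 < D
  swap
  · refine ⟨fun _ => 1, Bd.const 1, fun n hn => ⟨one_ne_zero, ?_⟩⟩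
    intro p _ hp _ E _ _ _ V heven χ _ hA _ _ _
    obtain ⟨c, hc⟩ := exists_isCC
    have h1 : c ∈ Stab δ := by
      by_contra hcon
      have h2 := hA c hcon
      rw [norm_tr_cc (p := p) (by omega) V c (isCC_mul_self hc) (heven c hc)] at h2
      exact lt_irrefl _ h2
    exact hD0 (pos_of_cc D δ hD hr c hc h1)
  obtain ⟨ε, b, hb⟩ := finDQ D hD0 δ hD hr
  have hk : ∀ n, 1 ≤ n → 0 < (classNumber (FF δ))! * (2 * N * n) := fun n hn =>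
    Nat.mul_pos (Nat.factorial_pos _) (Nat.mul_pos (Nat.mul_pos (by omega) (by omega)) (by omega))
  choose M hM0 hMb hM using fun (n : ℕ) (hn : 1 ≤ n) => hb _ (hk n hn)
  refine ⟨fun n => if h : 1 ≤ n then M n h else 1, ?_, ?_⟩
  · refine (Bd.pow_lin b ((classNumber (FF δ))! * (2 * N)) 0).mono ?_
    intro n hn
    simp only [dif_pos hn, add_zero]
    refine (hMb n hn).trans (le_of_eq ?_)
    rw [mul_assoc _ (2 * N) n]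
  · intro n hn
    simp only [dif_pos hn]
    refine ⟨hM0 n hn, ?_⟩
    intro p _ hp hpM E _ _ _ V
    exact dihCore n N hn D δ hD s₀ hs₀ hfd hfr ε (M n hn) (hM n hn) p hp hpM E V

theorem dihMainQ (N : ℕ) (hN : 1 ≤ N) : ∃ F : ℕ → ℕ, Bd F ∧ ∀ n, 1 ≤ n → F n ≠ 0 ∧
    ∀ (p : ℕ) [Fact p.Prime], ¬ p ∣ F n → ∀ (E : Type) [NormedField E] [IsUltrametricDist E]
      [NormedAlgebra ℚ_[p] E] (V : GQ →* GL (Fin 2) E),
        IsEven V → Dih p N V → FL p n V → False := by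
  classical
  have key : ∀ (D : ℤ) (δ : Qb), ∃ F : ℕ → ℕ, Bd F ∧ ∀ n, 1 ≤ n → F n ≠ 0 ∧ (δ ^ 2 = D →
      (∀ q : ℚ, δ ≠ algebraMap ℚ Qb q) → ∀ (p : ℕ) [Fact p.Prime],
      2 * n + 1 < p → ¬ p ∣ F n → Good N δ n p) := by
    intro D δ
    by_cases h : δ ^ 2 = D ∧ ∀ q : ℚ, δ ≠ algebraMap ℚ Qb q
    · obtain ⟨F, hF, hF'⟩ := dihAtQ N hN D δ h.1 h.2
      exact ⟨F, hF, fun n hn => ⟨(hF' n hn).1, fun _ _ => (hF' n hn).2⟩⟩
    · exact ⟨fun _ => 1, Bd.const 1, fun n hn => ⟨one_ne_zero, fun h1 h2 => absurd ⟨h1, h2⟩ h⟩⟩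
  choose F hF hF' using key
  let T : ℤ → Finset Qb := fun D => (Polynomial.X ^ 2 - Polynomial.C (D : Qb)).roots.toFinset
  have hT : ∀ (D : ℤ) (δ : Qb), δ ^ 2 = (D : Qb) → δ ∈ T D := by
    intro D δ h
    rw [Multiset.mem_toFinset, Polynomial.mem_roots']
    refine ⟨Polynomial.X_pow_sub_C_ne_zero (by norm_num) _, ?_⟩
    rw [Polynomial.IsRoot.def, Polynomial.eval_sub, Polynomial.eval_pow, Polynomial.eval_X,
      Polynomial.eval_C, h, sub_self]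
  refine ⟨fun n => (2 * n + 1)! * ∏ D ∈ Finset.Icc (-(N : ℤ)) N, ∏ δ ∈ T D, F D δ n, ?_, ?_⟩
  · refine (Bd.fact 2 1).mul (Bd.prod _ _ fun D _ => Bd.prod _ _ fun δ _ => hF D δ)
  · intro n hn
    refine ⟨mul_ne_zero (Nat.factorial_ne_zero _) (Finset.prod_ne_zero_iff.2 fun D _ =>
      Finset.prod_ne_zero_iff.2 fun δ _ => (hF' D δ n hn).1), ?_⟩
    intro p _ hp E _ _ _ V heven hdih hFL
    have hpp : p.Prime := Fact.out
    obtain ⟨D, δ, χ, hDN, hD, hr, hopen, hA, hB, hout⟩ := hdih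
    have hp1 : 2 * n + 1 < p := by
      by_contra hcon
      exact hp (Dvd.dvd.mul_right (Nat.dvd_factorial hpp.pos (not_lt.1 hcon)) _)
    have hDm : D ∈ Finset.Icc (-(N : ℤ)) N := by
      have h1 : |D| ≤ N := Int.le_of_dvd (by exact_mod_cast hN) ((abs_dvd D N).2 hDN)
      rw [Finset.mem_Icc]
      exact abs_le.1 h1
    refine (hF' D δ n hn).2 hD hr p hp1 ?_ E V heven χ hopen hA hB hout hFL
    intro hdvd
    apply hp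
    refine Dvd.dvd.mul_left (hdvd.trans ?_) _
    exact (Finset.dvd_prod_of_mem (fun δ => F D δ n) (hT D δ hD)).trans
      (Finset.dvd_prod_of_mem (fun D => ∏ δ ∈ T D, F D δ n) hDm)

end Pool.Agent.AAP
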