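import Pool.Agent.AAP.Cyc

/-!
# AAP2-Dist (1.2h): removing the Euler factor at a prime

(1) `mult_thm`: the multiplication theorem `m ^ (n-1) ∑_{j<m} B_n((x + j)/m) = B_n(x)`.
PROOF (if it is not in Mathlib): `P_n(x) = m ^ (n-1) ∑_j B_n((x+j)/m)` as a polynomial. By
`Polynomial.bernoulli_eval_one_add` (`B_n(1 + x) = B_n(x) + n x ^ (n-1)`), `P_n(x+1) - P_n(x) =
m ^ (n-1) (B_n(x/m + 1) - B_n(x/m)) = n x ^ (n-1)`, so `P_n - B_n` takes the same value at all
natural numbers, it is a constant `c_n`. As `B_{n+1}' = (n+1) B_n`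
(`Polynomial.derivative_bernoulli_add_one`), `P_{n+1}' = (n+1) P_n`, so
`0 = (c_{n+1})' = (n+1) (P_n - B_n)`.
(2) `N = ℓ ^ k N'`, `k ≥ 1`, `ℓ ∤ N'`, `χ'` a character modulo `N'`. Write the sum over the units `r`
modulo `N` as the sum over all `r` in `[0, N)` prime to `N'`, minus those divisible by `ℓ`. First:
group `r = s + N' j`, `0 ≤ s < N'` prime to `N'`, `0 ≤ j < m = N / N'`:
`∑_j N ^ (n-1) B_n((s/N' + j)/m) = N' ^ (n-1) B_n(s/N')` by (1). Second: `r = ℓ r'`, `r'` in
`[0, N/ℓ)` prime to `N'`, `χ'(r) = χ'(ℓ) χ'(r')`, `N ^ (n-1) B_n(r'/(N/ℓ)) = ℓ ^ (n-1)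
(N/ℓ) ^ (n-1) B_n(r'/(N/ℓ))`: the same computation for `N/ℓ = ℓ ^ (k-1) N'` in place of `N`.
(For `N' = 1` the only unit of `ZMod 1` has value `s = 0`.)
-/

open NumberField

namespace Pool.Agent.AAP

private noncomputable def distP (m n : ℕ) : Polynomial ℚ :=
  Polynomial.C ((m : ℚ) ^ (n - 1)) * ∑ j ∈ Finset.range m,
    (Polynomial.bernoulli n).comp (Polynomial.C (1 / (m : ℚ)) * (Polynomial.X + Polynomial.C (j : ℚ)))

private theorem dist_eval (m n : ℕ) (x : ℚ) :
    (distP m n).eval x =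
      (m : ℚ) ^ (n - 1) * ∑ j ∈ Finset.range m, (Polynomial.bernoulli n).eval ((x + j) / m) := by
  unfold distP
  rw [Polynomial.eval_mul, Polynomial.eval_C, Polynomial.eval_finsetSum]
  refine congrArg _ (Finset.sum_congr rfl fun j _ => ?_)
  rw [Polynomial.eval_comp, Polynomial.eval_mul, Polynomial.eval_C, Polynomial.eval_add,
    Polynomial.eval_X, Polynomial.eval_C]
  refine congrArg (fun y => (Polynomial.bernoulli n).eval y) ?_
  ring

private theorem dist_step (m n : ℕ) (hm : 0 < m) (hn : 1 ≤ n) (x : ℚ) :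
    (distP m n).eval (x + 1) = (distP m n).eval x + n * x ^ (n - 1) := by
  have hm0 : (m : ℚ) ≠ 0 := by exact_mod_cast hm.ne'
  rw [dist_eval, dist_eval]
  have h1 : ∑ j ∈ Finset.range m, (Polynomial.bernoulli n).eval ((x + 1 + j) / m) -
      ∑ j ∈ Finset.range m, (Polynomial.bernoulli n).eval ((x + j) / m) =
      (n : ℚ) * (x / m) ^ (n - 1) := by
    rw [← Finset.sum_sub_distrib]
    have h2 : ∀ j ∈ Finset.range m, (Polynomial.bernoulli n).eval ((x + 1 + j) / m) -
        (Polynomial.bernoulli n).eval ((x + j) / m) =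
        (fun i : ℕ => (Polynomial.bernoulli n).eval ((x + i) / m)) (j + 1) -
        (fun i : ℕ => (Polynomial.bernoulli n).eval ((x + i) / m)) j := by
      intro j _
      have h3 : x + 1 + (j : ℚ) = x + ((j + 1 : ℕ) : ℚ) := by
        push_cast
        ring
      rw [h3]
    rw [Finset.sum_congr rfl h2,
      Finset.sum_range_sub (fun i : ℕ => (Polynomial.bernoulli n).eval ((x + i) / m)) m]
    have h4 : (x + (m : ℚ)) / m = 1 + x / m := by
      field_simp
      ring
    show (Polynomial.bernoulli n).eval ((x + (m : ℚ)) / m) -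
      (Polynomial.bernoulli n).eval ((x + ((0 : ℕ) : ℚ)) / m) = _
    rw [h4, Polynomial.bernoulli_eval_one_add, Nat.cast_zero, add_zero]
    ring
  have h5 : (m : ℚ) ^ (n - 1) * ((n : ℚ) * (x / m) ^ (n - 1)) = n * x ^ (n - 1) := by
    rw [div_pow]
    field_simp
  rw [← h5, ← h1]
  ring

private theorem dist_const (m n : ℕ) (hm : 0 < m) (hn : 1 ≤ n) :
    ∃ c : ℚ, distP m n - Polynomial.bernoulli n = Polynomial.C c := by
  refine ⟨(distP m n - Polynomial.bernoulli n).eval 0, ?_⟩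
  have h1 : ∀ k : ℕ, (distP m n - Polynomial.bernoulli n).eval (k : ℚ) =
      (distP m n - Polynomial.bernoulli n).eval 0 := by
    intro k
    induction k with
    | zero => rw [Nat.cast_zero]
    | succ k ih =>
      rw [← ih, Nat.cast_succ, Polynomial.eval_sub, Polynomial.eval_sub, dist_step m n hm hn,
        add_comm (k : ℚ) 1, Polynomial.bernoulli_eval_one_add]
      ring
  refine Polynomial.eq_of_infinite_eval_eq _ _ ?_
  refine Set.Infinite.mono (s := Set.range (fun k : ℕ => (k : ℚ))) ?_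
    (Set.infinite_range_of_injective Nat.cast_injective)
  rintro _ ⟨k, rfl⟩
  show (distP m n - Polynomial.bernoulli n).eval (k : ℚ) = _
  rw [h1 k, Polynomial.eval_C]

private theorem dist_deriv (m n : ℕ) (hm : 0 < m) (hn : 1 ≤ n) :
    Polynomial.derivative (distP m (n + 1)) = ((n : Polynomial ℚ) + 1) * distP m n := by
  have hm0 : (m : ℚ) ≠ 0 := by exact_mod_cast hm.ne'
  unfold distP
  rw [Polynomial.derivative_mul, Polynomial.derivative_C, zero_mul, zero_add,
    Polynomial.derivative_sum]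
  have h1 : ∀ j ∈ Finset.range m, Polynomial.derivative ((Polynomial.bernoulli (n + 1)).comp
      (Polynomial.C (1 / (m : ℚ)) * (Polynomial.X + Polynomial.C (j : ℚ)))) =
      Polynomial.C (1 / (m : ℚ)) * ((n : Polynomial ℚ) + 1) * (Polynomial.bernoulli n).comp
      (Polynomial.C (1 / (m : ℚ)) * (Polynomial.X + Polynomial.C (j : ℚ))) := by
    intro j _
    rw [Polynomial.derivative_comp, Polynomial.derivative_bernoulli_add_one]
    have h2 : Polynomial.derivative
        (Polynomial.C (1 / (m : ℚ)) * (Polynomial.X + Polynomial.C (j : ℚ))) =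
        Polynomial.C (1 / (m : ℚ)) := by
      rw [Polynomial.derivative_mul, Polynomial.derivative_C, zero_mul, zero_add,
        Polynomial.derivative_add, Polynomial.derivative_X, Polynomial.derivative_C, add_zero,
        mul_one]
    rw [h2, Polynomial.mul_comp, Polynomial.add_comp, Polynomial.natCast_comp,
      Polynomial.one_comp]
    ring
  rw [Finset.sum_congr rfl h1, ← Finset.mul_sum]
  have h3 : Polynomial.C ((m : ℚ) ^ (n + 1 - 1)) * Polynomial.C (1 / (m : ℚ)) =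
      Polynomial.C ((m : ℚ) ^ (n - 1)) := by
    rw [← Polynomial.C_mul]
    refine congrArg _ ?_
    obtain ⟨n', rfl⟩ : ∃ n', n = n' + 1 := ⟨n - 1, by omega⟩
    rw [Nat.add_sub_cancel, Nat.add_sub_cancel, pow_succ]
    field_simp
  rw [← h3]
  ring

private theorem dist_eq (m n : ℕ) (hm : 0 < m) (hn : 1 ≤ n) :
    distP m n = Polynomial.bernoulli n := by
  obtain ⟨c, hc⟩ := dist_const m (n + 1) hm (by omega)
  have h1 := congrArg Polynomial.derivative hc
  rw [Polynomial.derivative_C, Polynomial.derivative_sub, dist_deriv m n hm hn,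
    Polynomial.derivative_bernoulli_add_one, ← mul_sub] at h1
  rcases mul_eq_zero.1 h1 with h2 | h2
  · exfalso
    have h3 := congrArg (fun P => Polynomial.eval 0 P) h2
    simp only [Polynomial.eval_add, Polynomial.eval_natCast, Polynomial.eval_one,
      Polynomial.eval_zero] at h3
    have h4 : (0 : ℚ) ≤ n := Nat.cast_nonneg n
    linarith
  · exact sub_eq_zero.1 h2

theorem mult_thm (m n : ℕ) (hm : 0 < m) (hn : 1 ≤ n) (x : ℚ) :
    (m : ℚ) ^ (n - 1) * ∑ j ∈ Finset.range m, (Polynomial.bernoulli n).eval ((x + j) / m) =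
      (Polynomial.bernoulli n).eval x := by
  rw [← dist_eval, dist_eq m n hm hn]

private theorem dist_split {E : Type*} [AddCommMonoid E] (M K : ℕ) (g : ℕ → E) :
    ∑ r ∈ Finset.range (M * K), g r =
      ∑ j ∈ Finset.range M, ∑ s ∈ Finset.range K, g (j * K + s) := by
  induction M with
  | zero => simp
  | succ M ih => rw [Nat.succ_mul, Finset.sum_range_add, ih, Finset.sum_range_succ]

private theorem dist_bb (M N' n s : ℕ) (hM : 0 < M) (hN : 0 < N') (hn : 1 ≤ n) :
    ∑ j ∈ Finset.range M, bb (M * N') n (j * N' + s) = bb N' n s := by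
  have hM0 : (M : ℚ) ≠ 0 := by exact_mod_cast hM.ne'
  have hN0 : (N' : ℚ) ≠ 0 := by exact_mod_cast hN.ne'
  unfold bb
  rw [← mult_thm M n hM hn ((s : ℚ) / N'), Finset.mul_sum, Finset.mul_sum]
  refine Finset.sum_congr rfl fun j _ => ?_
  have h1 : (((j * N' + s : ℕ) : ℚ)) / ((M * N' : ℕ) : ℚ) = ((s : ℚ) / N' + j) / M := by
    push_cast
    field_simp
    ring
  rw [h1]
  push_cast
  rw [mul_pow]
  ring

private theorem dist_units {E : Type*} [AddCommMonoid E] (N : ℕ) [NeZero N] (g : ℕ → E) :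
    ∑ r : (ZMod N)ˣ, g (r : ZMod N).val =
      ∑ r ∈ (Finset.range N).filter (fun r => r.Coprime N), g r := by
  refine Finset.sum_bij (fun r _ => (r : ZMod N).val) ?_ ?_ ?_ ?_
  · intro r _
    exact Finset.mem_filter.2 ⟨Finset.mem_range.2 (ZMod.val_lt _), ZMod.val_coe_unit_coprime r⟩
  · intro r _ s _ h
    exact Units.ext (ZMod.val_injective N h)
  · intro r hr
    obtain ⟨h1, h2⟩ := Finset.mem_filter.1 hr
    refine ⟨ZMod.unitOfCoprime r h2, Finset.mem_univ _, ?_⟩
    rw [ZMod.coe_unitOfCoprime, ZMod.val_natCast_of_lt (Finset.mem_range.1 h1)]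
  · intro r _
    rfl

theorem tt_dist (N' k ℓ n : ℕ) [NeZero N'] [NeZero (ℓ ^ k * N')] (hℓ : ℓ.Prime) (hk : 0 < k)
    (hcop : ℓ.Coprime N') (hn : 1 ≤ n) {E : Type*} [NormedField E] [CharZero E]
    (χ' : (ZMod N')ˣ →* Eˣ) :
    (TT (ℓ ^ k * N') n (χ'.comp (ZMod.unitsMap (dvd_mul_left N' (ℓ ^ k)))) : E) =
      (1 - (χ' (ZMod.unitOfCoprime ℓ hcop) : E) * (ℓ : E) ^ (n - 1)) * TT N' n χ' := by
  have hN' : 0 < N' := Nat.pos_of_ne_zero (NeZero.ne N')
  set f : ℕ → E := fun r =>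
    if h : r.Coprime N' then ((χ' (ZMod.unitOfCoprime r h) : Eˣ) : E) else 0 with hf
  have hf1 : ∀ j s : ℕ, f (j * N' + s) = f s := by
    intro j s
    have h0 : (j * N' + s).Coprime N' ↔ s.Coprime N' := by
      rw [add_comm, Nat.coprime_add_mul_right_left]
    by_cases h : s.Coprime N'
    · simp only [hf, dif_pos h, dif_pos (h0.2 h)]
      refine congrArg (fun u => ((χ' u : Eˣ) : E)) (Units.ext ?_)
      rw [ZMod.coe_unitOfCoprime, ZMod.coe_unitOfCoprime]
      push_cast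
      rw [ZMod.natCast_self, mul_zero, zero_add]
    · simp only [hf, dif_neg h, dif_neg (fun h1 => h (h0.1 h1))]
  have hf2 : ∀ r : ℕ, f (r * ℓ) = (χ' (ZMod.unitOfCoprime ℓ hcop) : E) * f r := by
    intro r
    have h0 : (r * ℓ).Coprime N' ↔ r.Coprime N' := by
      rw [Nat.coprime_mul_iff_left]
      exact ⟨fun h => h.1, fun h => ⟨h, hcop⟩⟩
    by_cases h : r.Coprime N'
    · simp only [hf, dif_pos h, dif_pos (h0.2 h)]
      rw [← Units.val_mul, ← map_mul]
      refine congrArg (fun u => ((χ' u : Eˣ) : E)) (Units.ext ?_)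
      rw [Units.val_mul, ZMod.coe_unitOfCoprime, ZMod.coe_unitOfCoprime, ZMod.coe_unitOfCoprime]
      push_cast
      ring
    · simp only [hf, dif_neg h, dif_neg (fun h1 => h (h0.1 h1)), mul_zero]
  have hS : ∀ M : ℕ, 0 < M →
      ∑ r ∈ Finset.range (M * N'), f r * ((bb (M * N') n r : ℚ) : E) =
        ∑ s ∈ Finset.range N', f s * ((bb N' n s : ℚ) : E) := by
    intro M hM
    rw [dist_split, Finset.sum_comm]
    refine Finset.sum_congr rfl fun s _ => ?_
    rw [← dist_bb M N' n s hM hN' hn, Rat.cast_sum, Finset.mul_sum]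
    refine Finset.sum_congr rfl fun j _ => ?_
    rw [hf1 j s]
  have hT : TT N' n χ' = ∑ s ∈ Finset.range N', f s * ((bb N' n s : ℚ) : E) := by
    have h1 : TT N' n χ' =
        ∑ r : (ZMod N')ˣ, (fun s : ℕ => f s * ((bb N' n s : ℚ) : E)) (r : ZMod N').val := by
      unfold TT
      refine Finset.sum_congr rfl fun r _ => ?_
      have h2 : f (r : ZMod N').val = (χ' r : E) := by
        simp only [hf, dif_pos (ZMod.val_coe_unit_coprime r)]
        refine congrArg (fun u => ((χ' u : Eˣ) : E)) (Units.ext ?_)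
        rw [ZMod.coe_unitOfCoprime, ZMod.natCast_zmod_val]
      show _ = f (r : ZMod N').val * _
      rw [h2]
    rw [h1, dist_units N' (fun s : ℕ => f s * ((bb N' n s : ℚ) : E)), Finset.sum_filter]
    refine Finset.sum_congr rfl fun s _ => ?_
    by_cases h : s.Coprime N'
    · rw [if_pos h]
    · rw [if_neg h]
      simp only [hf, dif_neg h, zero_mul]
  have hL : TT (ℓ ^ k * N') n (χ'.comp (ZMod.unitsMap (dvd_mul_left N' (ℓ ^ k)))) =
      ∑ r ∈ Finset.range (ℓ ^ k * N'),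
        if ℓ ∣ r then 0 else f r * ((bb (ℓ ^ k * N') n r : ℚ) : E) := by
    have h1 : TT (ℓ ^ k * N') n (χ'.comp (ZMod.unitsMap (dvd_mul_left N' (ℓ ^ k)))) =
        ∑ r : (ZMod (ℓ ^ k * N'))ˣ, (fun s : ℕ => f s * ((bb (ℓ ^ k * N') n s : ℚ) : E))
          (r : ZMod (ℓ ^ k * N')).val := by
      unfold TT
      refine Finset.sum_congr rfl fun r _ => ?_
      have h0 : (r : ZMod (ℓ ^ k * N')).val.Coprime N' :=
        (ZMod.val_coe_unit_coprime r).coprime_dvd_right (dvd_mul_left N' (ℓ ^ k))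
      have h2 : f (r : ZMod (ℓ ^ k * N')).val =
          ((χ'.comp (ZMod.unitsMap (dvd_mul_left N' (ℓ ^ k)))) r : E) := by
        simp only [hf, dif_pos h0]
        rw [MonoidHom.comp_apply]
        refine congrArg (fun u => ((χ' u : Eˣ) : E)) (Units.ext ?_)
        rw [ZMod.coe_unitOfCoprime, ZMod.unitsMap_val, ZMod.natCast_val]
      show _ = f (r : ZMod (ℓ ^ k * N')).val * _
      rw [h2]
    rw [h1, dist_units (ℓ ^ k * N') (fun s : ℕ => f s * ((bb (ℓ ^ k * N') n s : ℚ) : E)),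
      Finset.sum_filter]
    refine Finset.sum_congr rfl fun s _ => ?_
    have h3 : s.Coprime (ℓ ^ k * N') ↔ ¬ ℓ ∣ s ∧ s.Coprime N' := by
      rw [Nat.coprime_mul_iff_right, Nat.coprime_pow_right_iff hk, Nat.coprime_comm,
        hℓ.coprime_iff_not_dvd]
    by_cases h : ℓ ∣ s
    · rw [if_pos h, if_neg (fun h4 => (h3.1 h4).1 h)]
    · rw [if_neg h]
      by_cases h4 : s.Coprime N'
      · rw [if_pos (h3.2 ⟨h, h4⟩)]
      · rw [if_neg (fun h5 => h4 (h3.1 h5).2)]
        simp only [hf, dif_neg h4, zero_mul]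
  obtain ⟨k', rfl⟩ : ∃ k', k = k' + 1 := ⟨k - 1, by omega⟩
  have hℓ0 : (ℓ : ℚ) ≠ 0 := by exact_mod_cast hℓ.ne_zero
  have hN0 : (N' : ℚ) ≠ 0 := by exact_mod_cast hN'.ne'
  have h1 : ∑ r ∈ Finset.range (ℓ ^ (k' + 1) * N'),
      (if ℓ ∣ r then f r * ((bb (ℓ ^ (k' + 1) * N') n r : ℚ) : E) else 0) =
      (χ' (ZMod.unitOfCoprime ℓ hcop) : E) * (ℓ : E) ^ (n - 1) *
        ∑ s ∈ Finset.range N', f s * ((bb N' n s : ℚ) : E) := by
    rw [← hS (ℓ ^ k') (pow_pos hℓ.pos _), Finset.mul_sum]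
    have h2 : ℓ ^ (k' + 1) * N' = (ℓ ^ k' * N') * ℓ := by ring
    have h3 : ∀ j : ℕ, bb (ℓ ^ (k' + 1) * N') n (j * ℓ) =
        (ℓ : ℚ) ^ (n - 1) * bb (ℓ ^ k' * N') n j := by
      intro j
      unfold bb
      have h4 : (((j * ℓ : ℕ) : ℚ)) / ((ℓ ^ (k' + 1) * N' : ℕ) : ℚ) =
          (j : ℚ) / ((ℓ ^ k' * N' : ℕ) : ℚ) := by
        push_cast
        rw [pow_succ]
        field_simp
      rw [h4, h2]
      push_cast
      rw [mul_pow ((ℓ : ℚ) ^ k' * N') (ℓ : ℚ)]
      ring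
    have h5 : ∀ r : ℕ, (if ℓ ∣ r then f r * ((bb (ℓ ^ (k' + 1) * N') n r : ℚ) : E) else 0) =
        (fun r : ℕ => if ℓ ∣ r then f r * ((bb (ℓ ^ (k' + 1) * N') n r : ℚ) : E) else 0) r :=
      fun _ => rfl
    rw [Finset.sum_congr rfl fun r _ => h5 r]
    rw [h2, dist_split]
    refine Finset.sum_congr rfl fun j _ => ?_
    rw [Finset.sum_eq_single 0]
    · show (if ℓ ∣ j * ℓ + 0 then _ else _) = _
      rw [add_zero, if_pos (dvd_mul_left ℓ j), ← h2, h3 j, hf2 j]
      push_cast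
      ring
    · intro s hs hs0
      show (if ℓ ∣ j * ℓ + s then _ else _) = _
      rw [if_neg]
      intro h6
      have h7 : ℓ ∣ s := (Nat.dvd_add_right (dvd_mul_left ℓ j)).1 h6
      exact absurd (Nat.le_of_dvd (Nat.pos_of_ne_zero hs0) h7)
        (not_le.2 (Finset.mem_range.1 hs))
    · intro h
      exact absurd (Finset.mem_range.2 hℓ.pos) h
  have h6 : ∑ r ∈ Finset.range (ℓ ^ (k' + 1) * N'),
      (if ℓ ∣ r then 0 else f r * ((bb (ℓ ^ (k' + 1) * N') n r : ℚ) : E)) =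
      ∑ r ∈ Finset.range (ℓ ^ (k' + 1) * N'), f r * ((bb (ℓ ^ (k' + 1) * N') n r : ℚ) : E) -
      ∑ r ∈ Finset.range (ℓ ^ (k' + 1) * N'),
      (if ℓ ∣ r then f r * ((bb (ℓ ^ (k' + 1) * N') n r : ℚ) : E) else 0) := by
    rw [← Finset.sum_sub_distrib]
    refine Finset.sum_congr rfl fun r _ => ?_
    by_cases h : ℓ ∣ r
    · rw [if_pos h, if_pos h, sub_self]
    · rw [if_neg h, if_neg h, sub_zero]
  rw [hL, h6, h1, hS (ℓ ^ (k' + 1)) (pow_pos hℓ.pos _), hT]
  ring

end Pool.Agent.AAP
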