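import Pool.Agent.AAP.NV

/-!
# AAP-Fin (1.0h): `TT N n χ` is a `p`-adic unit for almost all `p`

Let `G = (ZMod N)ˣ`, `θ = ∑ bb(r) [r] ∈ ℚ[G]` (`MonoidAlgebra ℚ G`), `κ = [-1] - (-1) ^ n`. The ideal
`(θ, κ)` of `ℚ[G]` is everything: otherwise it is contained in a maximal ideal `𝔪`; the field
`ℚ[G]/𝔪` is finite dimensional over `ℚ`, embed it in `ℂ`; `G → ℂˣ` is a character `φ` with
`φ(-1) = (-1) ^ n` and `∑ φ(r) bb(r) = 0`, contradiction to `nv`. So `θ v + κ w = 1` with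
`v, w ∈ ℚ[G]`. Let `D` be a common denominator of all coefficients of `v`, `w`, `θ`. Let `Q` be the
set of prime divisors of `D` together with `2`. For `p ∉ Q`, `χ : G → Eˣ` with `χ(-1) = (-1) ^ n`:
apply `χ` (extended to `ℚ[G] → E`): `TT(χ) χ(v) = 1`, with `‖TT(χ)‖ ≤ 1`, `‖χ(v)‖ ≤ 1` (rational
numbers with denominators prime to `p` have norm `≤ 1`, `‖χ(r)‖ = 1`), so `‖TT(χ)‖ = 1`.
-/

open NumberField

namespace Pool.Agent.AAP

private theorem span_top (N n : ℕ) [NeZero N] (hn : 2 ≤ n) :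
    ∃ v w : MonoidAlgebra ℚ (ZMod N)ˣ,
      v * (∑ r : (ZMod N)ˣ, MonoidAlgebra.single r (bb N n (r : ZMod N).val)) +
        w * (MonoidAlgebra.single (-1) 1 -
          algebraMap ℚ (MonoidAlgebra ℚ (ZMod N)ˣ) ((-1) ^ n)) = 1 := by
  rw [← Ideal.mem_span_pair]
  by_contra hcon
  have hne : Ideal.span {∑ r : (ZMod N)ˣ, MonoidAlgebra.single r (bb N n (r : ZMod N).val),
      MonoidAlgebra.single (-1) 1 - algebraMap ℚ (MonoidAlgebra ℚ (ZMod N)ˣ) ((-1) ^ n)} ≠ ⊤ := by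
    intro h
    rw [h] at hcon
    exact hcon trivial
  obtain ⟨M, hM, hle⟩ := Ideal.exists_le_maximal _ hne
  letI : Field (MonoidAlgebra ℚ (ZMod N)ˣ ⧸ M) := Ideal.Quotient.field M
  haveI : Module.Finite ℚ (MonoidAlgebra ℚ (ZMod N)ˣ ⧸ M) :=
    Module.Finite.of_surjective (Ideal.Quotient.mkₐ ℚ M).toLinearMap
      (Ideal.Quotient.mkₐ_surjective ℚ M)
  haveI : Algebra.IsAlgebraic ℚ (MonoidAlgebra ℚ (ZMod N)ˣ ⧸ M) :=
    Algebra.IsAlgebraic.of_finite ℚ _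
  let f : (MonoidAlgebra ℚ (ZMod N)ˣ ⧸ M) →ₐ[ℚ] ℂ := IsAlgClosed.lift
  let g : MonoidAlgebra ℚ (ZMod N)ˣ →ₐ[ℚ] ℂ := f.comp (Ideal.Quotient.mkₐ ℚ M)
  have hg : ∀ x ∈ M, g x = 0 := by
    intro x hx
    have : (Ideal.Quotient.mkₐ ℚ M) x = 0 := by
      rw [Ideal.Quotient.mkₐ_eq_mk]
      exact Ideal.Quotient.eq_zero_iff_mem.mpr hx
    show f ((Ideal.Quotient.mkₐ ℚ M) x) = 0
    rw [this, map_zero]
  let φ : (ZMod N)ˣ →* ℂˣ := MonoidHom.toHomUnits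
    ((g : MonoidAlgebra ℚ (ZMod N)ˣ →* ℂ).comp (MonoidAlgebra.of ℚ (ZMod N)ˣ))
  have hφ : ∀ r, (φ r : ℂ) = g (MonoidAlgebra.single r 1) := fun r => rfl
  have h1 := hg _ (hle (Ideal.subset_span (Set.mem_insert _ _)))
  have h2 := hg _ (hle (Ideal.subset_span (Set.mem_insert_of_mem _ (Set.mem_singleton _))))
  have h3 : (φ (-1) : ℂ) = (-1) ^ n := by
    rw [map_sub, sub_eq_zero, AlgHom.commutes] at h2
    rw [hφ, h2]
    simp
  refine nv N n hn φ h3 ?_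
  rw [map_sum] at h1
  rw [← h1]
  refine Finset.sum_congr rfl fun r _ => ?_
  rw [hφ]
  have h4 : (MonoidAlgebra.single r (bb N n (r : ZMod N).val) : MonoidAlgebra ℚ (ZMod N)ˣ) =
      (bb N n (r : ZMod N).val) • MonoidAlgebra.single r 1 := by
    rw [MonoidAlgebra.smul_single, smul_eq_mul, mul_one]
  rw [h4, map_smul, Rat.smul_def, mul_comm]

private theorem norm_rat (p : ℕ) [Fact p.Prime] (E : Type) [NormedField E] [NormedAlgebra ℚ_[p] E]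
    (q : ℚ) (hq : ¬ p ∣ q.den) : ‖(q : E)‖ ≤ 1 := by
  have h1 : (q : E) = algebraMap ℚ_[p] E (q : ℚ_[p]) := (map_ratCast _ _).symm
  rw [h1, norm_algebraMap']
  exact Padic.norm_rat_le_one hq

private theorem norm_chi (N : ℕ) [NeZero N] (E : Type) [NormedField E]
    (χ : (ZMod N)ˣ →* Eˣ) (r : (ZMod N)ˣ) : ‖(χ r : E)‖ = 1 := by
  refine (pow_eq_one_iff_of_nonneg (norm_nonneg _) (Nat.card_pos (α := (ZMod N)ˣ)).ne').mp ?_
  rw [← norm_pow, ← Units.val_pow_eq_pow_val, ← map_pow, pow_card_eq_one']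
  simp

theorem fin (N n : ℕ) [NeZero N] (hn : 2 ≤ n) : ∃ Q : Finset ℕ, ∀ (p : ℕ) [Fact p.Prime], p ∉ Q →
    ∀ (E : Type) [NormedField E] [IsUltrametricDist E] [NormedAlgebra ℚ_[p] E]
      (χ : (ZMod N)ˣ →* Eˣ), (χ (-1) : E) = (-1) ^ n → ‖TT N n χ‖ = 1 := by
  classical
  obtain ⟨v, w, hvw⟩ := span_top N n hn
  refine ⟨(Finset.univ.biUnion fun r : (ZMod N)ˣ => (v.coeff r).den.primeFactors) ∪
    (Finset.univ.biUnion fun r : (ZMod N)ˣ => (bb N n (r : ZMod N).val).den.primeFactors), ?_⟩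
  intro p hp hpQ E _ _ _ χ hχ
  rw [Finset.mem_union, not_or] at hpQ
  obtain ⟨hQ1, hQ2⟩ := hpQ
  have hv : ∀ r : (ZMod N)ˣ, ¬ p ∣ (v.coeff r).den := by
    intro r hr
    exact hQ1 (Finset.mem_biUnion.mpr ⟨r, Finset.mem_univ _,
      Nat.mem_primeFactors.mpr ⟨hp.out, hr, (v.coeff r).den_ne_zero⟩⟩)
  have hb : ∀ r : (ZMod N)ˣ, ¬ p ∣ (bb N n (r : ZMod N).val).den := by
    intro r hr
    exact hQ2 (Finset.mem_biUnion.mpr ⟨r, Finset.mem_univ _,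
      Nat.mem_primeFactors.mpr ⟨hp.out, hr, (bb N n (r : ZMod N).val).den_ne_zero⟩⟩)
  haveI : CharZero E := charZero_of_injective_algebraMap (algebraMap ℚ_[p] E).injective
  let L : MonoidAlgebra ℚ (ZMod N)ˣ →ₐ[ℚ] E :=
    MonoidAlgebra.lift ℚ E (ZMod N)ˣ ((Units.coeHom E).comp χ)
  have hL1 : ∀ (r : (ZMod N)ˣ) (q : ℚ), L (MonoidAlgebra.single r q) = (χ r : E) * (q : E) := by
    intro r q
    show MonoidAlgebra.lift ℚ E (ZMod N)ˣ ((Units.coeHom E).comp χ) (MonoidAlgebra.single r q) = _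
    rw [MonoidAlgebra.lift_single, Rat.smul_def, mul_comm]
    rfl
  have hL2 : L (∑ r : (ZMod N)ˣ, MonoidAlgebra.single r (bb N n (r : ZMod N).val)) =
      TT N n χ := by
    rw [map_sum]
    exact Finset.sum_congr rfl fun r _ => hL1 _ _
  have hL3 : L (MonoidAlgebra.single (-1) 1 -
      algebraMap ℚ (MonoidAlgebra ℚ (ZMod N)ˣ) ((-1) ^ n)) = 0 := by
    rw [map_sub, hL1, AlgHom.commutes, hχ]
    simp
  have hL4 : L v * TT N n χ = 1 := by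
    have := congrArg L hvw
    rw [map_add, map_mul, map_mul, hL2, hL3, mul_zero, add_zero, map_one] at this
    exact this
  have hL5 : ‖L v‖ ≤ 1 := by
    show ‖MonoidAlgebra.lift ℚ E (ZMod N)ˣ ((Units.coeHom E).comp χ) v‖ ≤ 1
    rw [MonoidAlgebra.lift_apply, Finsupp.sum]
    refine IsUltrametricDist.norm_sum_le_of_forall_le_of_nonneg zero_le_one fun r _ => ?_
    rw [Rat.smul_def, norm_mul]
    have h1 := norm_rat p E (v.coeff r) (hv r)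
    have h2 : ‖((Units.coeHom E).comp χ) r‖ = 1 := norm_chi N E χ r
    rw [h2, mul_one]
    exact h1
  have hT : ‖TT N n χ‖ ≤ 1 := by
    unfold TT
    refine IsUltrametricDist.norm_sum_le_of_forall_le_of_nonneg zero_le_one fun r _ => ?_
    rw [norm_mul, norm_chi, one_mul]
    exact norm_rat p E _ (hb r)
  have h6 : ‖L v‖ * ‖TT N n χ‖ = 1 := by
    rw [← norm_mul, hL4, norm_one]
  refine le_antisymm hT ?_
  calc (1 : ℝ) = ‖L v‖ * ‖TT N n χ‖ := h6.symm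
    _ ≤ 1 * ‖TT N n χ‖ := mul_le_mul_of_nonneg_right hL5 (norm_nonneg _)
    _ = ‖TT N n χ‖ := one_mul _


end Pool.Agent.AAP
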