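import Pool.Agent.AAP.NV
import Pool.Agent.AAP.BernInt
import Pool.Agent.AAP.DetG
import Pool.Agent.AAP.Bd

/-!
# AAP2-FinQ: the size of the exceptional primes of generalized Bernoulli numbers

Let `G = (ZMod N)ˣ`, `D = N (n+1)!`, `z_r = D bb N n r` (`bernInt`), and
`Θ(r) = z_r + (-1) ^ n z_{-r} + [r = 1] - (-1) ^ n [r = -1]`. For `φ : G →* ℂˣ`:
`∑ Θ φ = (1 + (-1) ^ n φ(-1)) D T(φ) + (1 - (-1) ^ n φ(-1))` with `T(φ) = ∑ φ(r) bb N n r`; as
`φ(-1) = ± 1` this is `2 D T(φ) ≠ 0` (`nv`) or `2`. The group determinant `detG` and `D` give the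
number `F n`.
-/

open NumberField Nat

namespace Pool.Agent.AAP

private def fqT {G : Type} [CommGroup G] [DecidableEq G] (m : G) (e : ℤ) (z : G → ℤ) (r : G) : ℤ :=
  z r + e * z (m * r) + (if r = 1 then 1 else 0) - e * (if r = m then 1 else 0)

private theorem fq_sum {G : Type} [CommGroup G] [Fintype G] [DecidableEq G] {R : Type*}
    [CommRing R] (m : G) (hm : m * m = 1) (e : ℤ) (z : G → ℤ) (χ : G →* Rˣ) :
    ∑ r, ((fqT m e z r : ℤ) : R) * χ r =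
      (1 + e * χ m) * ∑ r, (z r : R) * χ r + (1 - e * χ m) := by
  have h1 : ∑ r, (z (m * r) : R) * χ r = (χ m : R) * ∑ r, (z r : R) * χ r := by
    rw [← Equiv.sum_comp (Equiv.mulLeft m), Finset.mul_sum]
    refine Finset.sum_congr rfl fun r _ => ?_
    rw [Equiv.coe_mulLeft, ← mul_assoc m m r, hm, one_mul, map_mul, Units.val_mul]
    ring
  have h2 : ∑ r, ((if r = 1 then (1 : ℤ) else 0 : ℤ) : R) * χ r = 1 := by
    rw [Finset.sum_eq_single 1]
    · simp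
    · intro r _ hr
      rw [if_neg hr]
      simp
    · intro h
      exact absurd (Finset.mem_univ _) h
  have h3 : ∑ r, ((if r = m then (1 : ℤ) else 0 : ℤ) : R) * χ r = χ m := by
    rw [Finset.sum_eq_single m]
    · simp
    · intro r _ hr
      rw [if_neg hr]
      simp
    · intro h
      exact absurd (Finset.mem_univ _) h
  have h4 : ∀ r, ((fqT m e z r : ℤ) : R) * χ r = (z r : R) * χ r + e * ((z (m * r) : R) * χ r) +
      ((if r = 1 then (1 : ℤ) else 0 : ℤ) : R) * χ r -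
      e * (((if r = m then (1 : ℤ) else 0 : ℤ) : R) * χ r) := by
    intro r
    unfold fqT
    push_cast
    ring
  rw [Finset.sum_congr rfl fun r _ => h4 r, Finset.sum_sub_distrib, Finset.sum_add_distrib,
    Finset.sum_add_distrib, ← Finset.mul_sum, ← Finset.mul_sum, h1, h2, h3]
  ring

private theorem fq_bound {G : Type} [CommGroup G] [DecidableEq G] (m : G) (e : ℤ) (he : |e| = 1)
    (z : G → ℤ) (B : ℕ) (hB : 1 ≤ B) (hz : ∀ r, |z r| ≤ (B : ℤ)) (r : G) :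
    |fqT m e z r| ≤ ((4 * B : ℕ) : ℤ) := by
  have h1 : |e * z (m * r)| ≤ (B : ℤ) := by
    rw [abs_mul, he, one_mul]
    exact hz _
  have h2 : |(if r = 1 then (1 : ℤ) else 0)| ≤ 1 := by
    split_ifs <;> simp
  have h3 : |e * (if r = m then (1 : ℤ) else 0)| ≤ 1 := by
    rw [abs_mul, he, one_mul]
    split_ifs <;> simp
  have h4 : (1 : ℤ) ≤ (B : ℤ) := by exact_mod_cast hB
  have h0 := hz r
  unfold fqT
  push_cast
  rw [abs_le] at *
  constructor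
  · linarith [h0.1, h1.1, h2.1, h3.2]
  · linarith [h0.2, h1.2, h2.2, h3.1]

private theorem fq_norm_chi (N : ℕ) [NeZero N] (E : Type) [NormedField E]
    (χ : (ZMod N)ˣ →* Eˣ) (r : (ZMod N)ˣ) : ‖(χ r : E)‖ = 1 := by
  refine (pow_eq_one_iff_of_nonneg (norm_nonneg _) (Nat.card_pos (α := (ZMod N)ˣ)).ne').mp ?_
  rw [← norm_pow, ← Units.val_pow_eq_pow_val, ← map_pow, pow_card_eq_one']
  simp

private theorem fq_norm_int (p : ℕ) [Fact p.Prime] (E : Type) [NormedField E]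
    [NormedAlgebra ℚ_[p] E] (k : ℤ) : ‖(k : E)‖ ≤ 1 := by
  have h1 : (k : E) = algebraMap ℚ_[p] E (k : ℚ_[p]) := (map_intCast _ _).symm
  rw [h1, norm_algebraMap']
  exact Padic.norm_int_le_one k

private theorem fq_norm_nat (p : ℕ) [Fact p.Prime] (E : Type) [NormedField E]
    [NormedAlgebra ℚ_[p] E] (k : ℕ) (hk : ¬ p ∣ k) : ‖(k : E)‖ = 1 := by
  have h1 : (k : E) = algebraMap ℚ_[p] E (k : ℚ_[p]) := (map_natCast _ _).symm
  rw [h1, norm_algebraMap']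
  exact Padic.norm_natCast_eq_one_iff.2
    ((Nat.Prime.coprime_iff_not_dvd Fact.out).2 hk)

private theorem fq_key (N : ℕ) [NeZero N] (n : ℕ) (hn : 2 ≤ n) : ∃ M : ℕ, M ≠ 0 ∧
    M ≤ (N * (n + 1)!) * ((Fintype.card (ZMod N)ˣ)! *
      (4 * ((n + 1)! ^ 2 * (2 * N) ^ n)) ^ Fintype.card (ZMod N)ˣ) ∧
    ∀ (p : ℕ) [Fact p.Prime], ¬ p ∣ M → ∀ (E : Type) [NormedField E] [IsUltrametricDist E]
      [NormedAlgebra ℚ_[p] E] (χ : (ZMod N)ˣ →* Eˣ), (χ (-1) : E) = (-1) ^ n →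
        ‖(TT N n χ : E)‖ = 1 := by
  classical
  have hN : 1 ≤ N := Nat.pos_of_ne_zero (NeZero.ne N)
  have hz : ∀ r : (ZMod N)ˣ, ∃ z : ℤ,
      (z : ℚ) = ((N * (n + 1)! : ℕ) : ℚ) * bb N n (r : ZMod N).val ∧
      |z| ≤ (((n + 1)! ^ 2 * (2 * N) ^ n : ℕ) : ℤ) :=
    fun r => bernInt N n _ hN (by omega) (ZMod.val_lt _).le
  choose z hz1 hz2 using hz
  have hB0 : 1 ≤ (n + 1)! ^ 2 * (2 * N) ^ n := by
    have h1 : 0 < (n + 1)! := Nat.factorial_pos _
    have h2 : 0 < 2 * N := by omega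
    exact Nat.mul_pos (Nat.pow_pos h1) (Nat.pow_pos h2)
  have hm : (-1 : (ZMod N)ˣ) * (-1) = 1 := by simp
  have he : |((-1 : ℤ) ^ n)| = 1 := by simp
  have hee : ((-1 : ℤ) ^ n) * (-1) ^ n = 1 := by rw [← mul_pow]; simp
  -- the sum over `Θ`
  have hD0 : N * (n + 1)! ≠ 0 := Nat.mul_ne_zero (by omega) (Nat.factorial_ne_zero _)
  obtain ⟨M, hM0, hM1, hM2⟩ := detG (fqT (-1) ((-1) ^ n) z) (4 * ((n + 1)! ^ 2 * (2 * N) ^ n))
    (fun r => fq_bound (-1) _ he z _ hB0 hz2 r) (by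
      intro ψ
      rw [fq_sum (-1) hm]
      have h1 : (ψ (-1) : ℂ) * ψ (-1) = 1 := by
        rw [← Units.val_mul, ← map_mul, hm, map_one, Units.val_one]
      have h0 : (((-1) ^ n : ℤ) : ℂ) * (((-1) ^ n : ℤ) : ℂ) = 1 := by
        rw [← Int.cast_mul, hee, Int.cast_one]
      have h2 : ((((-1) ^ n : ℤ) : ℂ) * ψ (-1)) * ((((-1) ^ n : ℤ) : ℂ) * ψ (-1)) = 1 := by
        linear_combination (((ψ (-1) : ℂ) * ψ (-1))) * h0 + h1
      rcases mul_self_eq_one_iff.1 h2 with h3 | h3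
      · rw [h3]
        have h4 : (ψ (-1) : ℂ) = (-1) ^ n := by
          have h5 : (ψ (-1) : ℂ) = (((-1) ^ n : ℤ) : ℂ) := by
            linear_combination (((-1) ^ n : ℤ) : ℂ) * h3 - (ψ (-1) : ℂ) * h0
          rw [h5]
          push_cast
          rfl
        have h5 := nv N n hn ψ h4
        have h6 : ∑ r, (z r : ℂ) * ψ r = ((N * (n + 1)! : ℕ) : ℂ) *
            ∑ r : (ZMod N)ˣ, (ψ r : ℂ) * ((bb N n (r : ZMod N).val : ℚ) : ℂ) := by
          rw [Finset.mul_sum]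
          refine Finset.sum_congr rfl fun r _ => ?_
          have h4 : (z r : ℂ) = ((N * (n + 1)! : ℕ) : ℂ) *
              ((bb N n (r : ZMod N).val : ℚ) : ℂ) := by
            have h5 := congrArg (Rat.cast : ℚ → ℂ) (hz1 r)
            push_cast at h5 ⊢
            exact h5
          rw [h4]
          ring
        rw [h6, sub_self, add_zero]
        refine mul_ne_zero ?_ (mul_ne_zero ?_ h5)
        · norm_num
        · exact_mod_cast hD0
      · rw [h3]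
        have h4 : (1 + (-1 : ℂ)) * ∑ r, (z r : ℂ) * ψ r + (1 - -1) = 2 := by ring
        rw [h4]
        exact two_ne_zero)
  refine ⟨(N * (n + 1)!) * M, Nat.mul_ne_zero hD0 hM0, Nat.mul_le_mul_left _ hM1, ?_⟩
  intro p hp hpM E _ _ _ χ hχ
  have : CharZero E := charZero_of_injective_algebraMap (algebraMap ℚ_[p] E).injective
  have hpD : ¬ p ∣ N * (n + 1)! := fun h => hpM (h.mul_right _)
  have hpM' : ¬ p ∣ M := fun h => hpM (h.mul_left _)
  have h1 : ¬ ‖∑ g, (fqT (-1) ((-1) ^ n) z g : E) * χ g‖ < 1 := fun h => hpM' (hM2 p E χ h)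
  rw [fq_sum (-1) hm] at h1
  have h2 : (((-1) ^ n : ℤ) : E) * χ (-1) = 1 := by
    rw [hχ]
    push_cast
    rw [← mul_pow]
    simp
  rw [h2] at h1
  have h3 : ∑ r, (z r : E) * χ r = ((N * (n + 1)! : ℕ) : E) * TT N n χ := by
    unfold TT
    rw [Finset.mul_sum]
    refine Finset.sum_congr rfl fun r _ => ?_
    have h4 : (z r : E) = ((N * (n + 1)! : ℕ) : E) * ((bb N n (r : ZMod N).val : ℚ) : E) := by
      have h5 := congrArg (Rat.cast : ℚ → E) (hz1 r)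
      push_cast at h5 ⊢
      exact h5
    rw [h4]
    ring
  have h4 : ‖∑ r, (z r : E) * χ r‖ ≤ 1 := by
    refine IsUltrametricDist.norm_sum_le_of_forall_le_of_nonneg zero_le_one fun r _ => ?_
    rw [norm_mul, fq_norm_chi, mul_one]
    exact fq_norm_int p E _
  have h5 : (1 + 1 : E) * ∑ r, (z r : E) * χ r + (1 - 1) = ((2 : ℤ) : E) * ∑ r, (z r : E) * χ r := by
    push_cast
    ring
  rw [h5, norm_mul, not_lt] at h1
  have h6 := fq_norm_int p E 2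
  have h7 : ‖∑ r, (z r : E) * χ r‖ = 1 := by
    refine le_antisymm h4 (h1.trans ?_)
    calc ‖((2 : ℤ) : E)‖ * ‖∑ r, (z r : E) * χ r‖ ≤ 1 * ‖∑ r, (z r : E) * χ r‖ :=
          mul_le_mul_of_nonneg_right h6 (norm_nonneg _)
      _ = ‖∑ r, (z r : E) * χ r‖ := one_mul _
  rw [h3, norm_mul, fq_norm_nat p E _ hpD, one_mul] at h7
  exact h7

theorem finQ (N : ℕ) [NeZero N] : ∃ F : ℕ → ℕ, Bd F ∧ ∀ n, 2 ≤ n → F n ≠ 0 ∧
    ∀ (p : ℕ) [Fact p.Prime], ¬ p ∣ F n → ∀ (E : Type) [NormedField E] [IsUltrametricDist E]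
      [NormedAlgebra ℚ_[p] E] (χ : (ZMod N)ˣ →* Eˣ), (χ (-1) : E) = (-1) ^ n →
        ‖(TT N n χ : E)‖ = 1 := by
  have h1 : ∀ n : ℕ, ∃ M : ℕ, M ≤ (N * (n + 1)!) * ((Fintype.card (ZMod N)ˣ)! *
      (4 * ((n + 1)! ^ 2 * (2 * N) ^ n)) ^ Fintype.card (ZMod N)ˣ) ∧ (2 ≤ n → M ≠ 0 ∧
      ∀ (p : ℕ) [Fact p.Prime], ¬ p ∣ M → ∀ (E : Type) [NormedField E] [IsUltrametricDist E]
        [NormedAlgebra ℚ_[p] E] (χ : (ZMod N)ˣ →* Eˣ), (χ (-1) : E) = (-1) ^ n →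
          ‖(TT N n χ : E)‖ = 1) := by
    intro n
    by_cases hn : 2 ≤ n
    · obtain ⟨M, h1, h2, h3⟩ := fq_key N n hn
      exact ⟨M, h2, fun _ => ⟨h1, h3⟩⟩
    · exact ⟨0, Nat.zero_le _, fun h => absurd h hn⟩
  choose F hF1 hF2 using h1
  refine ⟨F, Bd.mono ?_ fun n _ => hF1 n, hF2⟩
  have hf : Bd fun n => (n + 1)! := by
    have := Bd.fact 1 1
    simpa using this
  have hl : Bd fun n => (2 * N) ^ n := by
    have := Bd.pow_lin (2 * N) 1 0
    simpa using this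
  exact ((Bd.const N).mul hf).mul ((Bd.const _).mul
    (((Bd.const 4).mul ((hf.pow 2).mul hl)).pow _))

end Pool.Agent.AAP
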