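import Mathlib

/-!
# AAP-MatA (0.6h): relations of a matrix with negative off-diagonal entries

`M` real matrix with `M i w < 0` for `w ≠ i` and `∑_w M i w = 0` for all `i`.
(1) If `∑_i c_i M i w = 0` for all `w`, then `c > 0` everywhere, or `c ≤ 0` everywhere
(let `P = {i : c_i > 0}`; if `P` is neither empty nor everything, sum the relation over `w ∈ P`:
`0 = ∑_i c_i ∑_{w ∈ P} M i w`; for `i ∈ P` the inner sum is `-∑_{w ∉ P} M i w > 0`, for `i ∉ P` it is
negative and `c_i ≤ 0`, so the total is positive, contradiction).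
(2) So two relations `c`, `c'` with `c' ≠ 0` are proportional: `c' i` is nowhere zero and
`c - (c i₀ / c' i₀) c'` has a zero at `i₀`, so it is zero
(apply (1) to it and to its negative).
-/

namespace Pool.Agent.AAP

theorem rel_pos {ι : Type*} [Fintype ι] (M : ι → ι → ℝ) (h1 : ∀ i w, w ≠ i → M i w < 0)
    (h2 : ∀ i, ∑ w, M i w = 0) (c : ι → ℝ) (hc : ∀ w, ∑ i, c i * M i w = 0) :
    (∀ i, 0 < c i) ∨ ∀ i, c i ≤ 0 := by
  classical
  by_contra hcon
  push Not at hcon
  obtain ⟨⟨i1, hi1⟩, i2, hi2⟩ := hcon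
  have hsum : ∑ i, c i * ∑ w ∈ Finset.univ.filter (fun w => 0 < c w), M i w = 0 := by
    simp only [Finset.mul_sum]
    rw [Finset.sum_comm]
    exact Finset.sum_eq_zero fun w _ => hc w
  have hsplit : ∀ i, ∑ w ∈ Finset.univ.filter (fun w => 0 < c w), M i w =
      - ∑ w ∈ Finset.univ.filter (fun w => ¬ 0 < c w), M i w := by
    intro i
    have := Finset.sum_filter_add_sum_filter_not Finset.univ (fun w => 0 < c w) (M i)
    rw [h2 i] at this
    linarith
  have hpos : 0 < ∑ i, c i * ∑ w ∈ Finset.univ.filter (fun w => 0 < c w), M i w := by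
    refine Finset.sum_pos' (fun i _ => ?_) ⟨i2, Finset.mem_univ _, ?_⟩
    · by_cases hi : 0 < c i
      · rw [hsplit]
        refine mul_nonneg hi.le (neg_nonneg.mpr (Finset.sum_nonpos fun w hw => ?_))
        refine (h1 i w ?_).le
        rintro rfl
        exact (Finset.mem_filter.mp hw).2 hi
      · refine mul_nonneg_of_nonpos_of_nonpos (not_lt.mp hi) (Finset.sum_nonpos fun w hw => ?_)
        refine (h1 i w ?_).le
        rintro rfl
        exact hi (Finset.mem_filter.mp hw).2
    · rw [hsplit]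
      refine mul_pos hi2 (neg_pos.mpr (Finset.sum_neg (fun w hw => ?_) ⟨i1, ?_⟩))
      · refine h1 i2 w ?_
        rintro rfl
        exact (Finset.mem_filter.mp hw).2 hi2
      · simp only [Finset.mem_filter, Finset.mem_univ, true_and]
        exact not_lt.mpr hi1
  exact hpos.ne' hsum

theorem rel_unique {ι : Type*} [Fintype ι] (M : ι → ι → ℝ) (h1 : ∀ i w, w ≠ i → M i w < 0)
    (h2 : ∀ i, ∑ w, M i w = 0) (c c' : ι → ℝ) (hc : ∀ w, ∑ i, c i * M i w = 0)
    (hc' : ∀ w, ∑ i, c' i * M i w = 0) (hpos : ∀ i, 0 < c' i) :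
    ∃ t : ℝ, ∀ i, c i = t * c' i := by
  by_cases hne : Nonempty ι
  · obtain ⟨i0⟩ := hne
    have hrel : ∀ s t : ℝ, ∀ w, ∑ i, (s * c i + t * c' i) * M i w = 0 := by
      intro s t w
      have h3 : ∑ i, (s * c i + t * c' i) * M i w =
          s * ∑ i, c i * M i w + t * ∑ i, c' i * M i w := by
        rw [Finset.mul_sum, Finset.mul_sum, ← Finset.sum_add_distrib]
        exact Finset.sum_congr rfl fun i _ => by ring
      rw [h3, hc, hc', mul_zero, mul_zero, add_zero]
    refine ⟨c i0 / c' i0, fun i => ?_⟩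
    have h0 : c i0 = c i0 / c' i0 * c' i0 := (div_mul_cancel₀ _ (hpos i0).ne').symm
    have h4 : c i - c i0 / c' i0 * c' i ≤ 0 := by
      rcases rel_pos M h1 h2 (fun i => 1 * c i + (-(c i0 / c' i0)) * c' i) (hrel _ _) with h | h
      · have := h i0
        linarith
      · have := h i
        linarith
    have h5 : 0 ≤ c i - c i0 / c' i0 * c' i := by
      rcases rel_pos M h1 h2 (fun i => (-1) * c i + (c i0 / c' i0) * c' i) (hrel _ _) with h | h
      · have := h i0
        linarith
      · have := h i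
        linarith
    linarith
  · exact ⟨0, fun i => (hne ⟨i⟩).elim⟩

end Pool.Agent.AAP
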