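import Pool.Agent.AAP.DefsD
import Pool.Agent.AAP.MatA

/-!
# AAP-URel (1.5h): units with one relation

`L/F` cyclic with generator `σ`, `d = #Gal(L/F)`, `L` totally real. There are units `η_w`, `w`
running through the infinite places of `F`, such that the conjugates `σ^i η_w` generate a subgroup
of finite index of `(𝓞 L)ˣ` and satisfy exactly the constant relations.
PROOF. For each place `w` of `F` choose a place `w' ` of `L` above `w`. The places of `L` are the
`σ^i w'`, `(i, w) ∈ Fin d × InfinitePlace F`, all different (Mathlib: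
`InfinitePlace` orbits are the places over the same place of `F`,
`InfinitePlace.card_isUnramified..`, and `#InfinitePlace L = [L:ℚ] = d [F:ℚ]`, `L` and `F` being
totally real). `dirichletUnitTheorem.exists_unit` gives `u_w` with `log |u_w|_{w''} < 0` for all
`w'' ≠ w'`. Let `M (i,w) (k,v) = log |σ^i u_w|_{σ^k v'}` (all places have mult 1): off-diagonal
entries are negative, row sums zero (product formula `sum_mult_mul_log`). There are
`d #places = rank + 1` rows, so there is a nontrivial integral relation `c` between the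
`σ^i u_w` modulo torsion (rank of the unit group is `#places - 1`; e.g. linear algebra over ℚ
in `(𝓞 L)ˣ/torsion ≅ ℤ^rank`, `NumberField.Units.basisModTorsion`). By `rel_pos` we may assume
`c > 0`. Shifting by `σ` gives another relation, so by `rel_unique` `c(i+1,w) = t c(i,w)`, `t > 0`,
`t ^ d = 1`, `t = 1`: `c(i, w) = c_w`. Put `η_w = u_w ^ (2 c_w)` (units are `±` so torsion is killed
by squares, `L` is totally real): `∏ σ^i η_w = 1`. If `∏ (σ^i η_w)^{a(i,w)} = 1`, then `a(i,w) c_w`
is a relation, so `a(i,w) c_w = t c_w`, `a` is constant. Finite index: by `rel_unique` any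
`rank` many of the rows are independent (drop one), Mathlib `isMaxRank_iff_closure_finiteIndex`
(`IsMaxRank` = linear independence of the logarithms), and a larger subgroup has finite index too.
-/

open NumberField

namespace Pool.Agent.AAP

section

variable {F L : Type} [Field F] [NumberField F] [Field L] [NumberField L] [Algebra F L]

private theorem urel_act (τ : Gal(L/F)) (x : (𝓞 L)ˣ) (w : InfinitePlace L) :
    w (((ua F L τ x : (𝓞 L)ˣ) : 𝓞 L) : L) = (τ⁻¹ • w) ((x : 𝓞 L) : L) := by
  rw [ua_apply, InfinitePlace.smul_apply]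
  rfl

/-- the place number `i` -/
private noncomputable def pl (σ : Gal(L/F)) (s : InfinitePlace F → InfinitePlace L) {d : ℕ}
    (i : Fin d × InfinitePlace F) : InfinitePlace L := σ ^ (i.1 : ℕ) • s i.2

omit [NumberField F] [NumberField L] in
private theorem comap_smul' (τ : Gal(L/F)) (w : InfinitePlace L) :
    (τ • w).comap (algebraMap F L) = w.comap (algebraMap F L) := by
  ext x
  rw [InfinitePlace.comap_apply, InfinitePlace.comap_apply, InfinitePlace.smul_apply]
  congr 1
  exact τ.symm.commutes x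

private theorem pl_bij [IsGalois F L] [IsTotallyReal L] (σ : Gal(L/F))
    (hσ : ∀ τ, τ ∈ Subgroup.zpowers σ) {d : ℕ} (hd : d = Nat.card Gal(L/F))
    (s : InfinitePlace F → InfinitePlace L) (hs : ∀ v, (s v).comap (algebraMap F L) = v) :
    Function.Bijective (pl (d := d) σ s) := by
  have hord : orderOf σ = d := by rw [hd]; exact orderOf_eq_card_of_forall_mem_zpowers hσ
  have hcm : ∀ i : Fin d × InfinitePlace F, (pl σ s i).comap (algebraMap F L) = i.2 := by
    intro i
    unfold pl
    rw [comap_smul', hs]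
  constructor
  · intro i j hij
    have h1 : i.2 = j.2 := by rw [← hcm i, ← hcm j, hij]
    obtain ⟨i1, i2⟩ := i
    obtain ⟨j1, j2⟩ := j
    simp only at h1
    subst h1
    have h2 : σ ^ (i1 : ℕ) • s i2 = σ ^ (j1 : ℕ) • s i2 := hij
    have h3 : ((σ ^ (j1 : ℕ))⁻¹ * σ ^ (i1 : ℕ)) • s i2 = s i2 := by
      rw [mul_smul, h2, inv_smul_smul]
    have h4 : (σ ^ (j1 : ℕ))⁻¹ * σ ^ (i1 : ℕ) ∈ MulAction.stabilizer Gal(L/F) (s i2) := h3
    have hun : (s i2).IsUnramified F := (IsTotallyReal.isReal (s i2)).isUnramified F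
    rw [hun.stabilizer_eq_bot, Subgroup.mem_bot] at h4
    have h5 : σ ^ (i1 : ℕ) = σ ^ (j1 : ℕ) := by
      have := mul_eq_one_iff_eq_inv.1 h4
      rw [inv_eq_iff_eq_inv, inv_inv] at this
      exact this.symm
    have h6 := pow_injOn_Iio_orderOf (x := σ)
      (show (i1 : ℕ) ∈ Set.Iio (orderOf σ) by rw [hord]; exact i1.2)
      (show (j1 : ℕ) ∈ Set.Iio (orderOf σ) by rw [hord]; exact j1.2) h5
    rw [Fin.ext h6]
  · intro w
    have hdpos : 0 < d := by rw [← hord]; exact orderOf_pos σ
    obtain ⟨τ, hτ⟩ := InfinitePlace.exists_smul_eq_of_comap_eq (k := F)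
      (w := s (w.comap (algebraMap F L))) (w' := w) (hs _)
    obtain ⟨z, hz⟩ := Subgroup.mem_zpowers_iff.1 (hσ τ)
    have h7 : σ ^ (z % d).toNat = τ := by
      rw [← hz, ← hord]
      have h8 : ((z % (orderOf σ : ℤ)).toNat : ℤ) = z % (orderOf σ : ℤ) :=
        Int.toNat_of_nonneg (Int.emod_nonneg _ (by rw [hord]; exact_mod_cast hdpos.ne'))
      rw [← zpow_natCast, h8, zpow_mod_orderOf]
    refine ⟨(⟨(z % d).toNat, ?_⟩, w.comap (algebraMap F L)), ?_⟩
    · have h9 : z % (d : ℤ) < d := Int.emod_lt_of_pos _ (by exact_mod_cast hdpos)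
      have h10 : 0 ≤ z % (d : ℤ) := Int.emod_nonneg _ (by exact_mod_cast hdpos.ne')
      omega
    · show σ ^ (z % d).toNat • s _ = w
      rw [h7, hτ]

end

private theorem urel_zsum {A ι : Type} [CommGroup A] (t : Finset ι) (g : ι → ℤ) (x : A) :
    ∏ k ∈ t, x ^ g k = x ^ ∑ k ∈ t, g k := by
  classical
  induction t using Finset.induction_on with
  | empty => simp
  | insert a t ha ih => rw [Finset.prod_insert ha, Finset.sum_insert ha, zpow_add, ih]

private theorem urel_nm {A : Type} [CommGroup A] (s : MulAut A) {d : ℕ} (hs : s ^ d = 1) (x : A)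
    (k : ℕ) : ∏ i ∈ Finset.range d, (s ^ i) ((s ^ k) x) = ∏ i ∈ Finset.range d, (s ^ i) x := by
  induction k with
  | zero => simp
  | succ k ih =>
    rw [← ih]
    generalize hy : (s ^ k) x = y
    have h1 : (s ^ (k + 1)) x = s y := by
      rw [pow_succ', MulAut.mul_apply, hy]
    rw [h1]
    have h2 : ∏ i ∈ Finset.range (d + 1), (s ^ i) y = (∏ i ∈ Finset.range d, (s ^ i) (s y)) * y := by
      rw [Finset.prod_range_succ']
      simp only [pow_succ, MulAut.mul_apply, pow_zero, MulAut.one_apply]
    have h3 : ∏ i ∈ Finset.range (d + 1), (s ^ i) y = (∏ i ∈ Finset.range d, (s ^ i) y) * y := by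
      rw [Finset.prod_range_succ, hs, MulAut.one_apply]
    exact mul_right_cancel (h2.symm.trans h3)

theorem urel (F L : Type) [Field F] [NumberField F] [Field L] [NumberField L] [Algebra F L]
    [IsGalois F L] [IsTotallyReal L] (σ : Gal(L/F)) (hσ : ∀ τ, τ ∈ Subgroup.zpowers σ)
    (d : ℕ) (hd : d = Nat.card Gal(L/F)) :
    ∃ η : InfinitePlace F → (𝓞 L)ˣ,
      (∀ a : Fin d × InfinitePlace F → ℤ,
        ∏ i, (((ua F L σ) ^ (i.1 : ℕ)) (η i.2)) ^ a i = 1 → ∃ c : ℤ, ∀ i, a i = c) ∧
      (∏ i : Fin d × InfinitePlace F, (((ua F L σ) ^ (i.1 : ℕ)) (η i.2)) = 1) ∧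
      (Subgroup.closure (Set.range fun i : Fin d × InfinitePlace F =>
        ((ua F L σ) ^ (i.1 : ℕ)) (η i.2))).index ≠ 0 := by
  classical
  have hord : orderOf σ = d := by rw [hd]; exact orderOf_eq_card_of_forall_mem_zpowers hσ
  have hdpos : 0 < d := by rw [← hord]; exact orderOf_pos σ
  -- the places
  have hsurj : ∀ v : InfinitePlace F, ∃ w : InfinitePlace L, w.comap (algebraMap F L) = v :=
    fun v => InfinitePlace.comap_surjective v
  choose s hs using hsurj
  have hbij := pl_bij σ hσ hd s hs
  -- the units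
  have hu0 : ∀ w : InfinitePlace L, ∃ u : (𝓞 L)ˣ, ∀ w' : InfinitePlace L, w' ≠ w →
      Real.log (w' ((u : 𝓞 L) : L)) < 0 := fun w =>
    NumberField.Units.dirichletUnitTheorem.exists_unit L w
  choose u hu using fun v => hu0 (s v)
  set U : Fin d × InfinitePlace F → (𝓞 L)ˣ := fun i => ((ua F L σ) ^ (i.1 : ℕ)) (u i.2) with hU
  set M : Fin d × InfinitePlace F → Fin d × InfinitePlace F → ℝ := fun i w =>
    Real.log (pl σ s w ((U i : 𝓞 L) : L)) with hM
  have hsum0 : ∀ x : (𝓞 L)ˣ,
      ∑ w : Fin d × InfinitePlace F, Real.log (pl σ s w ((x : 𝓞 L) : L)) = 0 := by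
    intro x
    have h1 := NumberField.Units.sum_mult_mul_log x
    rw [← (Equiv.ofBijective _ hbij).sum_comp] at h1
    rw [← h1]
    refine Finset.sum_congr rfl fun w _ => ?_
    rw [IsTotallyReal.mult_eq, Nat.cast_one, one_mul]
    rfl
  have h1 : ∀ i w, w ≠ i → M i w < 0 := by
    intro i w hw
    simp only [hM, hU]
    rw [← map_pow, urel_act]
    apply hu
    intro h
    apply hw
    apply hbij.1
    show pl σ s w = σ ^ (i.1 : ℕ) • s i.2
    rw [← h, smul_inv_smul]
  have h2 : ∀ i, ∑ w, M i w = 0 := fun i => hsum0 (U i)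
  -- logarithms of relations
  have hlog : ∀ (a : Fin d × InfinitePlace F → ℤ) (w : InfinitePlace L),
      Real.log (w ((((∏ i, U i ^ a i : (𝓞 L)ˣ)) : 𝓞 L) : L)) =
        ∑ i, (a i : ℝ) * Real.log (w ((U i : 𝓞 L) : L)) := by
    intro a w
    let f : Additive (𝓞 L)ˣ →+ ℝ :=
      { toFun := fun x => Real.log (w ((x.toMul : 𝓞 L) : L))
        map_zero' := by simp
        map_add' := fun x y => by
          have hx : w ((x.toMul : 𝓞 L) : L) ≠ 0 := (NumberField.Units.pos_at_place x.toMul w).ne'
          have hy : w ((y.toMul : 𝓞 L) : L) ≠ 0 := (NumberField.Units.pos_at_place y.toMul w).ne'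
          rw [← Real.log_mul hx hy, ← map_mul]
          rfl }
    have h3 : f (Additive.ofMul (∏ i, U i ^ a i)) =
        ∑ i, (a i : ℝ) * f (Additive.ofMul (U i)) := by
      rw [ofMul_prod, map_sum]
      refine Finset.sum_congr rfl fun i _ => ?_
      rw [ofMul_zpow, map_zsmul, zsmul_eq_mul]
    exact h3
  have hrel : ∀ a : Fin d × InfinitePlace F → ℤ, ∏ i, U i ^ a i = 1 →
      ∀ w, ∑ i, (a i : ℝ) * M i w = 0 := by
    intro a ha w
    have h3 := hlog a (pl σ s w)
    rw [ha] at h3
    simp only [hM]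
    rw [← h3]
    simp
  -- a relation
  have hcard : Fintype.card (Fin d × InfinitePlace F) = NumberField.Units.rank L + 1 := by
    rw [Fintype.card_congr (Equiv.ofBijective _ hbij)]
    have : 0 < Fintype.card (InfinitePlace L) := Fintype.card_pos
    unfold NumberField.Units.rank
    omega
  obtain ⟨g, hg1, hg2⟩ : ∃ g : Fin d × InfinitePlace F → ℤ,
      ∏ i, U i ^ g i = 1 ∧ ∃ i, g i ≠ 0 := by
    have h3 : ¬ LinearIndependent ℤ (fun i => Additive.ofMul (U i)) := by
      intro h4
      have h5 := h4.fintype_card_le_finrank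
      rw [NumberField.Units.finrank_eq, hcard] at h5
      omega
    rw [Fintype.not_linearIndependent_iff] at h3
    obtain ⟨g, hg1, hg2⟩ := h3
    refine ⟨g, ?_, hg2⟩
    apply Additive.ofMul.injective
    rw [ofMul_prod, ofMul_one, ← hg1]
    exact Finset.sum_congr rfl fun i _ => ofMul_zpow _ _
  obtain ⟨g, hg1, hg2⟩ : ∃ g : Fin d × InfinitePlace F → ℤ,
      ∏ i, U i ^ g i = 1 ∧ ∀ i, 0 < g i := by
    rcases rel_pos M h1 h2 (fun i => (g i : ℝ)) (hrel g hg1) with h3 | h3
    · exact ⟨g, hg1, fun i => by exact_mod_cast h3 i⟩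
    · have hneg : ∏ i, U i ^ (-g i) = 1 := by
        simp only [zpow_neg, Finset.prod_inv_distrib, hg1, inv_one]
      rcases rel_pos M h1 h2 (fun i => ((-g i : ℤ) : ℝ)) (hrel (fun i => -g i) hneg) with h4 | h4
      · exact ⟨fun i => -g i, hneg, fun i => by exact_mod_cast h4 i⟩
      · exfalso
        obtain ⟨i, hi⟩ := hg2
        have h5 := h3 i
        have h6 := h4 i
        have h7 : g i ≤ 0 := by exact_mod_cast h5
        have h8 : -g i ≤ 0 := by exact_mod_cast h6
        omega
  -- the norm of the relation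
  set C : InfinitePlace F → ℤ := fun v => ∑ k : Fin d, g (k, v) with hC
  have hCpos : ∀ v, 0 < C v := by
    intro v
    have : Nonempty (Fin d) := ⟨⟨0, hdpos⟩⟩
    exact Finset.sum_pos (fun k _ => hg2 (k, v)) Finset.univ_nonempty
  have hσd : (ua F L σ) ^ d = 1 := by
    rw [← map_pow, ← hord, pow_orderOf_eq_one, map_one]
  have hN : ∀ i : Fin d × InfinitePlace F,
      nm (ua F L σ) d (U i) = ∏ k : Fin d, U (k, i.2) := by
    intro i
    show ∏ k ∈ Finset.range d, ((ua F L σ) ^ k) (((ua F L σ) ^ (i.1 : ℕ)) (u i.2)) = _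
    rw [urel_nm _ hσd, Finset.prod_range]
  have hnorm : ∏ v, (∏ i : Fin d, U (i, v)) ^ C v = 1 := by
    have h3 := congrArg (nm (ua F L σ) d) hg1
    rw [map_one, map_prod] at h3
    rw [← h3, Fintype.prod_prod_type_right]
    refine Finset.prod_congr rfl fun v _ => ?_
    have h4 : ∀ k : Fin d, nm (ua F L σ) d (U (k, v) ^ g (k, v)) =
        (∏ i : Fin d, U (i, v)) ^ g (k, v) := fun k => by rw [map_zpow, hN]
    simp_rw [h4]
    rw [urel_zsum]
  set W : Fin d × InfinitePlace F → (𝓞 L)ˣ := fun i => U i ^ C i.2 with hW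
  have hWe : ∀ i : Fin d × InfinitePlace F,
      ((ua F L σ) ^ (i.1 : ℕ)) (u i.2 ^ C i.2) = W i := fun i => by
    rw [map_zpow]
  have hprod : ∏ i, W i = 1 := by
    rw [← hnorm, Fintype.prod_prod_type_right]
    refine Finset.prod_congr rfl fun v _ => ?_
    exact Finset.prod_zpow (fun i : Fin d => U (i, v)) Finset.univ (C v)
  have hCrel : ∀ w, ∑ i : Fin d × InfinitePlace F, ((C i.2 : ℤ) : ℝ) * M i w = 0 :=
    hrel (fun i => C i.2) hprod
  have hCpos' : ∀ i : Fin d × InfinitePlace F, (0 : ℝ) < ((C i.2 : ℤ) : ℝ) := fun i => by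
    exact_mod_cast hCpos i.2
  have i0 : Fin d × InfinitePlace F := (⟨0, hdpos⟩, Classical.arbitrary _)
  refine ⟨fun v => u v ^ C v, ?_, ?_, ?_⟩
  · intro a ha
    simp only [hWe] at ha
    have h3 : ∏ i, U i ^ (C i.2 * a i) = 1 := by
      rw [← ha]
      exact Finset.prod_congr rfl fun i _ => zpow_mul _ _ _
    obtain ⟨t, ht⟩ := rel_unique M h1 h2 (fun i => ((C i.2 * a i : ℤ) : ℝ))
      (fun i => ((C i.2 : ℤ) : ℝ)) (hrel _ h3) hCrel hCpos'
    have h4 : ∀ i, (a i : ℝ) = t := by
      intro i
      have h5 := ht i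
      simp only [Int.cast_mul] at h5
      rw [mul_comm] at h5
      exact mul_right_cancel₀ (hCpos' i).ne' h5
    exact ⟨a i0, fun i => by
      have := (h4 i).trans (h4 i0).symm
      exact_mod_cast this⟩
  · simp only [hWe]
    exact hprod
  · simp only [hWe]
    set r := NumberField.Units.rank L with hr
    let e : Fin (r + 1) ≃ Fin d × InfinitePlace F := (Fintype.equivFinOfCardEq hcard).symm
    let v : Fin r → (𝓞 L)ˣ := fun j => W (e j.castSucc)
    have hlogW : ∀ i (w : InfinitePlace L), Real.log (w ((W i : 𝓞 L) : L)) =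
        ((C i.2 : ℤ) : ℝ) * Real.log (w ((U i : 𝓞 L) : L)) := by
      intro i w
      have h3 := hlog (fun k => if k = i then C i.2 else 0) w
      have h4 : ∏ k, U k ^ (if k = i then C i.2 else 0) = W i := by
        rw [Finset.prod_eq_single i]
        · rw [if_pos rfl]
        · intro k _ hk
          rw [if_neg hk, zpow_zero]
        · intro h
          exact absurd (Finset.mem_univ i) h
      rw [h4, Finset.sum_eq_single i] at h3
      · rw [h3, if_pos rfl]
      · intro k _ hk
        rw [if_neg hk, Int.cast_zero, zero_mul]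
      · intro h
        exact absurd (Finset.mem_univ i) h
    have hmax : NumberField.Units.IsMaxRank v := by
      unfold NumberField.Units.IsMaxRank
      rw [Fintype.linearIndependent_iff]
      intro b hb
      have hS : ∀ w : InfinitePlace L, w ≠ NumberField.Units.dirichletUnitTheorem.w₀ →
          ∑ j, b j * Real.log (w ((v j : 𝓞 L) : L)) = 0 := by
        intro w hw
        have h3 := congrFun hb ⟨w, hw⟩
        rw [Finset.sum_apply] at h3
        rw [← Pi.zero_apply (M := fun _ : {w : InfinitePlace L //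
          w ≠ NumberField.Units.dirichletUnitTheorem.w₀} => ℝ) ⟨w, hw⟩, ← h3]
        refine Finset.sum_congr rfl fun j _ => ?_
        rw [Pi.smul_apply, NumberField.Units.dirichletUnitTheorem.logEmbedding_component,
          IsTotallyReal.mult_eq, Nat.cast_one, one_mul, smul_eq_mul]
      have hS0 : ∀ w : InfinitePlace L, ∑ j, b j * Real.log (w ((v j : 𝓞 L) : L)) = 0 := by
        intro w
        by_cases hw : w = NumberField.Units.dirichletUnitTheorem.w₀
        · have h3 : ∑ w' : InfinitePlace L, ∑ j, b j * Real.log (w' ((v j : 𝓞 L) : L)) = 0 := by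
            rw [Finset.sum_comm]
            refine Finset.sum_eq_zero fun j _ => ?_
            rw [← Finset.mul_sum]
            have h4 := NumberField.Units.sum_mult_mul_log (v j)
            have h5 : ∑ w' : InfinitePlace L, Real.log (w' ((v j : 𝓞 L) : L)) = 0 := by
              rw [← h4]
              refine Finset.sum_congr rfl fun w' _ => ?_
              rw [IsTotallyReal.mult_eq, Nat.cast_one, one_mul]
            rw [h5, mul_zero]
          rw [Finset.sum_eq_single w] at h3
          · exact h3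
          · intro w' _ hw'
            exact hS w' (by rw [← hw]; exact hw')
          · intro h
            exact absurd (Finset.mem_univ w) h
        · exact hS w hw
      set c : Fin d × InfinitePlace F → ℝ := fun i =>
        (Fin.snoc (α := fun _ => ℝ) (fun j : Fin r => b j * ((C (e j.castSucc).2 : ℤ) : ℝ)) 0 :
          Fin (r + 1) → ℝ) (e.symm i) with hc
      have hcrel : ∀ w, ∑ i, c i * M i w = 0 := by
        intro w
        rw [← e.sum_comp, Fin.sum_univ_castSucc]
        simp only [hc, Equiv.symm_apply_apply, Fin.snoc_castSucc, Fin.snoc_last, zero_mul,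
          add_zero]
        rw [← hS0 (pl σ s w)]
        refine Finset.sum_congr rfl fun j _ => ?_
        rw [hlogW, mul_assoc]
      obtain ⟨t, ht⟩ := rel_unique M h1 h2 c (fun i => ((C i.2 : ℤ) : ℝ)) hcrel hCrel hCpos'
      have ht0 : t = 0 := by
        have h3 := ht (e (Fin.last r))
        simp only [hc, Equiv.symm_apply_apply, Fin.snoc_last] at h3
        have h4 := hCpos' (e (Fin.last r))
        rcases mul_eq_zero.1 h3.symm with h5 | h5
        · exact h5
        · exact absurd h5 h4.ne'
      intro j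
      have h3 := ht (e j.castSucc)
      simp only [hc, Equiv.symm_apply_apply, Fin.snoc_castSucc, ht0, zero_mul] at h3
      rcases mul_eq_zero.1 h3 with h5 | h5
      · exact h5
      · exact absurd h5 (hCpos' (e j.castSucc)).ne'
    have hfin := NumberField.Units.isMaxRank_iff_closure_finiteIndex.1 hmax
    have hle : Subgroup.closure (Set.range v) ≤ Subgroup.closure (Set.range fun i => W i) := by
      apply Subgroup.closure_mono
      rintro _ ⟨j, rfl⟩
      exact ⟨e j.castSucc, rfl⟩
    exact (Subgroup.finiteIndex_of_le hle).index_ne_zero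

end Pool.Agent.AAP
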