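import Pool.Agent.AAP.Lang
import Pool.Agent.AAP.BIdx
import Pool.Agent.AAP.URel

/-! # The Herbrand quotient of the units of a totally real cyclic extension -/

open NumberField

namespace Pool.Agent.AAP

theorem s_nm {A : Type*} [CommGroup A] (s : MulAut A) (d : ℕ) (hs : s ^ d = 1) (x : A) :
    s (nm s d x) = nm s d x := by
  change s (∏ i ∈ Finset.range d, (s ^ i) x) = ∏ i ∈ Finset.range d, (s ^ i) x
  rw [map_prod]
  have h1 : ∀ i, s ((s ^ i) x) = (s ^ (i + 1)) x := by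
    intro i
    rw [pow_succ', MulAut.mul_apply]
  simp_rw [h1]
  have h2 := Finset.prod_range_succ (fun i => (s ^ i) x) d
  rw [Finset.prod_range_succ'] at h2
  rw [hs, pow_zero] at h2
  exact mul_right_cancel h2

theorem dv_nm {A : Type*} [CommGroup A] (s : MulAut A) (d : ℕ) (hs : s ^ d = 1) (x : A) :
    dv s (nm s d x) = 1 := by
  change s (nm s d x) / nm s d x = 1
  rw [s_nm s d hs, div_self']

theorem nm_s {A : Type*} [CommGroup A] (s : MulAut A) (d : ℕ) (x : A) :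
    nm s d (s x) = s (nm s d x) := by
  change ∏ i ∈ Finset.range d, (s ^ i) (s x) = s (∏ i ∈ Finset.range d, (s ^ i) x)
  rw [map_prod]
  refine Finset.prod_congr rfl fun i _ => ?_
  rw [← MulAut.mul_apply, ← MulAut.mul_apply, ← pow_succ, ← pow_succ']

theorem nm_dv {A : Type*} [CommGroup A] (s : MulAut A) (d : ℕ) (hs : s ^ d = 1) (x : A) :
    nm s d (dv s x) = 1 := by
  change nm s d (s x / x) = 1
  rw [map_div, nm_s, s_nm s d hs, div_self']

theorem herb (F L : Type) [Field F] [NumberField F] [Field L] [NumberField L] [Algebra F L]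
    [IsGalois F L] [IsTotallyReal L] (σ : Gal(L/F)) (hσ : ∀ τ, τ ∈ Subgroup.zpowers σ)
    (d : ℕ) (hd : d = Nat.card Gal(L/F)) :
    (dv (ua F L σ)).range.relIndex (nm (ua F L σ) d).ker =
      (nm (ua F L σ) d).range.relIndex (dv (ua F L σ)).ker * d ∧
    (dv (ua F L σ)).range.relIndex (nm (ua F L σ) d).ker ≠ 0 ∧
    (nm (ua F L σ) d).range.relIndex (dv (ua F L σ)).ker ≠ 0 := by
  have hd0 : 0 < d := by rw [hd]; exact Nat.card_pos
  have hs : (ua F L σ) ^ d = 1 := by rw [← map_pow, hd, pow_card_eq_one', map_one]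
  obtain ⟨η, h1, h2, h3⟩ := urel F L σ hσ d hd
  obtain ⟨e1, e2, e3, e4⟩ := bidx d hd0 (ua F L σ) hs η h1 h2 _ rfl
  have hfg : ∀ x, dv (ua F L σ) (nm (ua F L σ) d x) = 1 := dv_nm _ d hs
  have hgf : ∀ x, nm (ua F L σ) d (dv (ua F L σ) x) = 1 := nm_dv _ d hs
  obtain ⟨k1, k2, k3⟩ := lang (dv (ua F L σ)) (nm (ua F L σ) d) hfg hgf _ e1 e2 h3
    (by rw [e4]; exact hd0.ne') (by rw [e3]; exact one_ne_zero)
  rw [e3, e4, mul_one] at k1
  exact ⟨k1, k2, k3⟩

end Pool.Agent.AAP
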