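import Pool.Agent.AAP.DefsD

/-!
# AAP-Lang (0.6h): the Herbrand quotient of a subgroup of finite index

`f g = g f = 1`, `B ≤ A` of finite index, stable under `f`, `g`. Let `A_f = ker f`, `A^f = f(A)`.
`[A : B] = [f A : f B] [A_f : B_f]` (exact sequence `A_f/B_f → A/B → fA/fB`), the same for `g`, and
`[A_g : fA] [fA : fB] = [A_g : B_g] [B_g : fB]`, `[A_f : gA] [gA : gB] = [A_f : B_f] [B_f : gB]`.
Hence `[A_g : fA] [B_f : gB] = [A_f : gA] [B_g : fB]`, and `[A_g : fA]`, `[A_f : gA]` are nonzero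
(finite) if `[B_g : fB]`, `[B_f : gB]` are. (`Subgroup.relIndex`, `relIndex_mul_relIndex`,
`Subgroup.index_map`/`index_comap`.)
-/

namespace Pool.Agent.AAP

private theorem lang_index {A : Type*} [CommGroup A] (f : A →* A) (B : Subgroup A) :
    (B.map f).relIndex f.range * B.relIndex f.ker = B.index := by
  have h1 : (B ⊔ f.ker).index = (B.map f).relIndex f.range := by
    rw [← Subgroup.index_comap, Subgroup.comap_map_eq]
  have h2 := Subgroup.relIndex_mul_index (H := B) (K := B ⊔ f.ker) le_sup_left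
  rw [Subgroup.relIndex_sup_left, h1] at h2
  rw [mul_comm]
  exact h2

private theorem lang_chain {A : Type*} [CommGroup A] (f g : A →* A)
    (hgf : ∀ x, g (f x) = 1) (B : Subgroup A) (hBf : B.map f ≤ B) :
    (B.map f).relIndex f.range * f.range.relIndex g.ker =
      (B.map f).relIndex (g.ker ⊓ B) * B.relIndex g.ker := by
  have hfr : f.range ≤ g.ker := by
    rintro _ ⟨x, rfl⟩
    exact hgf x
  have hmr : B.map f ≤ f.range := by
    rintro _ ⟨x, _, rfl⟩
    exact ⟨x, rfl⟩
  have h1 := Subgroup.relIndex_mul_relIndex (B.map f) f.range g.ker hmr hfr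
  have h2 := Subgroup.relIndex_mul_relIndex (B.map f) (g.ker ⊓ B) g.ker
    (le_inf (hmr.trans hfr) hBf) inf_le_left
  rw [Subgroup.inf_relIndex_left] at h2
  rw [h1, h2]

theorem lang {A : Type*} [CommGroup A] (f g : A →* A) (hfg : ∀ x, f (g x) = 1)
    (hgf : ∀ x, g (f x) = 1) (B : Subgroup A) (hBf : B.map f ≤ B) (hBg : B.map g ≤ B)
    (hB : B.index ≠ 0) (h1 : (B.map f).relIndex (g.ker ⊓ B) ≠ 0)
    (h2 : (B.map g).relIndex (f.ker ⊓ B) ≠ 0) :
    f.range.relIndex g.ker * (B.map g).relIndex (f.ker ⊓ B) =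
      g.range.relIndex f.ker * (B.map f).relIndex (g.ker ⊓ B) ∧
    f.range.relIndex g.ker ≠ 0 ∧ g.range.relIndex f.ker ≠ 0 := by
  have e1 := lang_index f B
  have e2 := lang_index g B
  have e3 := lang_chain f g hgf B hBf
  have e4 := lang_chain g f hfg B hBg
  generalize (B.map f).relIndex f.range = b at e1 e3
  generalize B.relIndex f.ker = c' at e1 e4
  generalize (B.map g).relIndex g.range = b' at e2 e4
  generalize B.relIndex g.ker = c at e2 e3
  generalize f.range.relIndex g.ker = a at e3 ⊢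
  generalize g.range.relIndex f.ker = a' at e4 ⊢
  generalize (B.map f).relIndex (g.ker ⊓ B) = d at e3 h1 ⊢
  generalize (B.map g).relIndex (f.ker ⊓ B) = d' at e4 h2 ⊢
  generalize B.index = N at e1 e2 hB
  have hb : b ≠ 0 := by
    rintro rfl
    exact hB (by rw [← e1, zero_mul])
  have hc' : c' ≠ 0 := by
    rintro rfl
    exact hB (by rw [← e1, mul_zero])
  have hb' : b' ≠ 0 := by
    rintro rfl
    exact hB (by rw [← e2, zero_mul])
  have hc : c ≠ 0 := by
    rintro rfl
    exact hB (by rw [← e2, mul_zero])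
  refine ⟨?_, ?_, ?_⟩
  · have hbb : 0 < b * b' := Nat.pos_of_ne_zero (mul_ne_zero hb hb')
    apply Nat.eq_of_mul_eq_mul_left hbb
    calc b * b' * (a * d') = (b * a) * (b' * d') := by ring
      _ = (d * c) * (b' * d') := by rw [e3]
      _ = (b' * c) * (d * d') := by ring
      _ = N * (d * d') := by rw [e2]
      _ = (b * c') * (d * d') := by rw [e1]
      _ = (d' * c') * (b * d) := by ring
      _ = (b' * a') * (b * d) := by rw [e4]
      _ = b * b' * (a' * d) := by ring
  · rintro rfl
    rw [mul_zero] at e3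
    exact mul_ne_zero h1 hc e3.symm
  · rintro rfl
    rw [mul_zero] at e4
    exact mul_ne_zero h2 hc' e4.symm

end Pool.Agent.AAP
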