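import Pool.Agent.AAP.Cyc

/-!
# AAP-Loc: decomposition groups of cyclotomic fields

`stabP`: an automorphism `σ ζ = ζ ^ a` of the `m`-th cyclotomic field, `m = ℓ ^ k m'`, with
`a ≡ ℓ ^ i mod m'` acts as `x ↦ x ^ (ℓ ^ i)` modulo every prime over `ℓ`, so it fixes the primes over `ℓ`.
`loc`: in the decomposition groups there are elements which the character `χ ω ^ (n - 1)` does not send
to a number congruent to one.
-/

open NumberField Pointwise

namespace Pool.Agent.AAP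

private theorem loc_exA (m1 m2 : ℕ) (co : m1.Coprime m2) (m : ℕ) [NeZero m] (hm : m = m1 * m2)
    (a1 a2 : ℕ) (h1 : a1.Coprime m1) (h2 : a2.Coprime m2) :
    ∃ u : (ZMod m)ˣ, (((u : ZMod m).val : ℕ) : ZMod m1) = a1 ∧
      (((u : ZMod m).val : ℕ) : ZMod m2) = a2 := by
  obtain ⟨a, ha1, ha2⟩ := Nat.chineseRemainder co a1 a2
  have hc1 : a.Coprime m1 := by
    rw [Nat.Coprime, ha1.gcd_eq]
    exact h1
  have hc2 : a.Coprime m2 := by
    rw [Nat.Coprime, ha2.gcd_eq]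
    exact h2
  have hc : a.Coprime m := by
    rw [hm]
    exact hc1.mul_right hc2
  refine ⟨ZMod.unitOfCoprime a hc, ?_, ?_⟩
  · rw [ZMod.coe_unitOfCoprime, ZMod.val_natCast, ZMod.natCast_eq_natCast_iff]
    exact ((Nat.mod_modEq a m).of_dvd (hm ▸ dvd_mul_right m1 m2)).trans ha1
  · rw [ZMod.coe_unitOfCoprime, ZMod.val_natCast, ZMod.natCast_eq_natCast_iff]
    exact ((Nat.mod_modEq a m).of_dvd (hm ▸ dvd_mul_left m2 m1)).trans ha2

private theorem loc_norm {p : ℕ} [Fact p.Prime] {E : Type*} [NormedField E]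
    [NormedAlgebra ℚ_[p] E] (a j : ℕ) (h : ‖(a : E) ^ j - 1‖ < 1) : (a : ZMod p) ^ j = 1 := by
  have h1 : (a : E) ^ j - 1 = algebraMap ℚ_[p] E (((a : ℤ) ^ j - 1 : ℤ) : ℚ_[p]) := by
    rw [map_intCast]
    push_cast
    rfl
  rw [h1, norm_algebraMap', Padic.norm_intCast_lt_one_iff] at h
  have h2 := (ZMod.intCast_zmod_eq_zero_iff_dvd _ p).2 h
  push_cast at h2
  exact sub_eq_zero.1 h2

private theorem loc_pow {E : Type*} [NormedField E] [IsUltrametricDist E] {y : E}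
    (h : ‖y - 1‖ < 1) (j : ℕ) : ‖y ^ j - 1‖ < 1 := by
  have hy : ‖y‖ ≤ 1 := by
    have h1 : y = (y - 1) + 1 := by ring
    rw [h1]
    exact (IsUltrametricDist.norm_add_le_max _ _).trans (max_le h.le (by rw [norm_one]))
  induction j with
  | zero => rw [pow_zero, sub_self, norm_zero]; exact one_pos
  | succ j ih =>
    have h1 : y ^ (j + 1) - 1 = y ^ j * (y - 1) + (y ^ j - 1) := by ring
    rw [h1]
    refine (IsUltrametricDist.norm_add_le_max _ _).trans_lt (max_lt ?_ ih)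
    rw [norm_mul, norm_pow]
    calc ‖y‖ ^ j * ‖y - 1‖ ≤ 1 * ‖y - 1‖ :=
          mul_le_mul_of_nonneg_right (pow_le_one₀ (norm_nonneg _) hy) (norm_nonneg _)
      _ < 1 := by rwa [one_mul]

theorem stabP (m ℓ k m' i : ℕ) [NeZero m] (hℓ : ℓ.Prime) (hm : m = ℓ ^ k * m')
    (hcop : ℓ.Coprime m') (K : Type) [Field K] [NumberField K] [IsCyclotomicExtension {m} ℚ K]
    (σ : Gal(K/ℚ)) (h : (((gq m K σ : (ZMod m)ˣ) : ZMod m).val : ZMod m') = (ℓ : ZMod m') ^ i)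
    (P : Ideal (𝓞 K)) (hP : P.IsPrime) (hℓP : (ℓ : 𝓞 K) ∈ P) : σ • P = P := by
  have hζ := zt_spec m K
  set z : 𝓞 K := hζ.toInteger with hz
  have hσz : σ • z = z ^ ((gq m K σ : (ZMod m)ˣ) : ZMod m).val := by
    apply RingOfIntegers.ext
    show σ (zt m K) = algebraMap (𝓞 K) K (z ^ _)
    rw [map_pow]
    exact gq_spec m K σ
  have hm0 : m ≠ 0 := NeZero.ne m
  have : Fact ℓ.Prime := ⟨hℓ⟩
  have : IsDomain (𝓞 K ⧸ P) := Ideal.Quotient.isDomain P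
  have : CharP (𝓞 K ⧸ P) ℓ := by
    have h1 : ((ℓ : ℕ) : 𝓞 K ⧸ P) = 0 := by
      rw [← map_natCast (Ideal.Quotient.mk P), Ideal.Quotient.eq_zero_iff_mem]
      exact hℓP
    exact (CharP.charP_iff_prime_eq_zero hℓ).2 h1
  have : ExpChar (𝓞 K ⧸ P) ℓ := ExpChar.prime hℓ
  have hzm : z ^ m = 1 := hζ.toInteger_isPrimitiveRoot.pow_eq_one
  have hzm' : (Ideal.Quotient.mk P z) ^ m' = 1 := by
    have h1 : ((Ideal.Quotient.mk P z) ^ m') ^ ℓ ^ k = 1 := by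
      rw [← pow_mul, mul_comm, ← hm, ← map_pow, hzm, map_one]
    have h2 : iterateFrobenius (𝓞 K ⧸ P) ℓ k ((Ideal.Quotient.mk P z) ^ m') =
        iterateFrobenius (𝓞 K ⧸ P) ℓ k 1 := by
      rw [iterateFrobenius_def, iterateFrobenius_def, h1, one_pow]
    exact iterateFrobenius_inj (𝓞 K ⧸ P) ℓ k h2
  have hval : ((gq m K σ : (ZMod m)ˣ) : ZMod m).val ≡ ℓ ^ i [MOD m'] := by
    rw [← ZMod.natCast_eq_natCast_iff, h, Nat.cast_pow]
  have hgen : (Ideal.Quotient.mk P z) ^ ((gq m K σ : (ZMod m)ˣ) : ZMod m).val =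
      (Ideal.Quotient.mk P z) ^ ℓ ^ i := by
    have h1 : ∀ b : ℕ, (Ideal.Quotient.mk P z) ^ b = (Ideal.Quotient.mk P z) ^ (b % m') := by
      intro b
      conv_lhs => rw [← Nat.div_add_mod b m']
      rw [pow_add, pow_mul, hzm', one_pow, one_mul]
    rw [h1, h1 (ℓ ^ i), hval]
  let f1 : 𝓞 K →+* 𝓞 K ⧸ P :=
    (Ideal.Quotient.mk P).comp (MulSemiringAction.toRingHom (Gal(K/ℚ)) (𝓞 K) σ)
  let f2 : 𝓞 K →+* 𝓞 K ⧸ P := (iterateFrobenius (𝓞 K ⧸ P) ℓ i).comp (Ideal.Quotient.mk P)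
  have hf : f1.toIntAlgHom = f2.toIntAlgHom := by
    apply hζ.integralPowerBasis.algHom_ext
    rw [hζ.integralPowerBasis_gen]
    show Ideal.Quotient.mk P (σ • z) = iterateFrobenius (𝓞 K ⧸ P) ℓ i (Ideal.Quotient.mk P z)
    rw [hσz, map_pow, hgen, iterateFrobenius_def]
  have key : ∀ x : 𝓞 K, σ • x ∈ P ↔ x ∈ P := by
    intro x
    have h1 : Ideal.Quotient.mk P (σ • x) = (Ideal.Quotient.mk P x) ^ ℓ ^ i :=
      DFunLike.congr_fun hf x
    rw [← Ideal.Quotient.eq_zero_iff_mem, h1, ← Ideal.Quotient.eq_zero_iff_mem]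
    exact pow_eq_zero_iff (pow_ne_zero i hℓ.ne_zero)
  ext x
  rw [Ideal.mem_pointwise_smul_iff_inv_smul_mem, ← key, smul_inv_smul]

theorem loc (N n p : ℕ) [NeZero (N * p)] [Fact p.Prime] (hn : 2 ≤ n) (hnp : n < p)
    (hpN : ¬ p ∣ N) (hℓ : ∀ ℓ : ℕ, ℓ.Prime → ℓ ∣ N → ¬ p ∣ ℓ ^ ((n - 1) * N.totient) - 1)
    (K : Type) [Field K] [NumberField K] [IsCyclotomicExtension {N * p} ℚ K]
    {E : Type*} [NormedField E] [IsUltrametricDist E] [NormedAlgebra ℚ_[p] E]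
    (χ : (ZMod N)ˣ →* Eˣ) (P : Ideal (𝓞 K)) (hP : P.IsPrime)
    (hPℓ : ∃ ℓ : ℕ, ℓ.Prime ∧ ℓ ∣ N * p ∧ (ℓ : 𝓞 K) ∈ P) :
    ∃ σ : Gal(K/ℚ), σ • P = P ∧
      1 ≤ ‖(χ (ZMod.unitsMap (dvd_mul_right N p) (gq (N * p) K σ)) : E) *
        (((gq (N * p) K σ : (ZMod (N * p))ˣ) : ZMod (N * p)).val : E) ^ (n - 1) - 1‖ := by
  have hNp : N * p ≠ 0 := NeZero.ne (N * p)
  have hN0 : N ≠ 0 := left_ne_zero_of_mul hNp
  have hp : p.Prime := Fact.out
  obtain ⟨ℓ, hℓp, hℓN, hℓP⟩ := hPℓ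
  have hmap : ∀ u : (ZMod (N * p))ˣ, ((ZMod.unitsMap (dvd_mul_right N p) u : (ZMod N)ˣ) : ZMod N) =
      (((u : ZMod (N * p)).val : ℕ) : ZMod N) := by
    intro u
    rw [ZMod.unitsMap_val, ZMod.natCast_val]
  by_cases hdN : ℓ ∣ N
  · obtain ⟨k, N', hN', hNk⟩ := Nat.exists_eq_pow_mul_and_not_dvd hN0 ℓ hℓp.ne_one
    have hℓne : ℓ ≠ p := fun h => hpN (h ▸ hdN)
    have hcN' : ℓ.Coprime N' := (Nat.Prime.coprime_iff_not_dvd hℓp).2 hN'
    have hcp : ℓ.Coprime p := (Nat.coprime_primes hℓp hp).2 hℓne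
    have hc : ℓ.Coprime (N' * p) := hcN'.mul_right hcp
    have hm : N * p = ℓ ^ k * (N' * p) := by rw [hNk, mul_assoc]
    obtain ⟨u, hu1, hu2⟩ := loc_exA (ℓ ^ k) (N' * p) (hc.pow_left k) (N * p) hm 1 ℓ
      (Nat.coprime_one_left _) hc
    have hgu : gq (N * p) K ((gq (N * p) K).symm u) = u := (gq (N * p) K).apply_symm_apply u
    refine ⟨(gq (N * p) K).symm u, ?_, ?_⟩
    · refine stabP (N * p) ℓ k (N' * p) 1 hℓp hm hc K _ ?_ P hP hℓP
      rw [hgu, hu2, pow_one]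
    · rw [hgu]
      by_contra hlt
      rw [not_le] at hlt
      have h1 := loc_pow hlt N.totient
      have h2 : ((χ (ZMod.unitsMap (dvd_mul_right N p) u) : E)) ^ N.totient = 1 := by
        rw [← Units.val_pow_eq_pow_val, ← map_pow, ZMod.pow_totient, map_one, Units.val_one]
      rw [mul_pow, h2, one_mul, ← pow_mul] at h1
      have h3 := loc_norm (p := p) _ _ h1
      have h4 : (((u : ZMod (N * p)).val : ℕ) : ZMod p) = (ℓ : ZMod p) := by
        rw [ZMod.natCast_eq_natCast_iff] at hu2 ⊢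
        exact hu2.of_dvd (dvd_mul_left p N')
      rw [h4] at h3
      refine hℓ ℓ hℓp hdN ?_
      rw [← ZMod.natCast_eq_zero_iff, Nat.cast_sub (Nat.one_le_pow _ _ hℓp.pos)]
      push_cast
      rw [h3, sub_self]
  · have hℓeq : ℓ = p := by
      rcases (Nat.Prime.dvd_mul hℓp).1 hℓN with h | h
      · exact absurd h hdN
      · exact (Nat.prime_dvd_prime_iff_eq hℓp hp).1 h
    subst hℓeq
    have hcop : ℓ.Coprime N := (Nat.Prime.coprime_iff_not_dvd hℓp).2 hpN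
    obtain ⟨g, hg⟩ := IsCyclic.exists_generator (α := (ZMod ℓ)ˣ)
    have hord : orderOf g = ℓ - 1 := by
      rw [orderOf_eq_card_of_forall_mem_zpowers hg, Nat.card_eq_fintype_card, ZMod.card_units]
    obtain ⟨u, hu1, hu2⟩ := loc_exA N ℓ hcop.symm (N * ℓ) rfl 1 (g : ZMod ℓ).val
      (Nat.coprime_one_left _) (ZMod.val_coe_unit_coprime g)
    have hgu : gq (N * ℓ) K ((gq (N * ℓ) K).symm u) = u := (gq (N * ℓ) K).apply_symm_apply u
    refine ⟨(gq (N * ℓ) K).symm u, ?_, ?_⟩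
    · refine stabP (N * ℓ) ℓ 1 N 0 hℓp (by rw [pow_one, mul_comm]) hcop K _ ?_ P hP hℓP
      rw [hgu, hu1, pow_zero, Nat.cast_one]
    · rw [hgu]
      have h1 : ZMod.unitsMap (dvd_mul_right N ℓ) u = 1 := by
        apply Units.ext
        rw [hmap, hu1, Nat.cast_one, Units.val_one]
      rw [h1, map_one, Units.val_one, one_mul]
      by_contra hlt
      rw [not_le] at hlt
      have h2 := loc_norm (p := ℓ) _ _ hlt
      rw [hu2, ZMod.natCast_zmod_val] at h2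
      have h3 : g ^ (n - 1) = 1 := by
        apply Units.ext
        rw [Units.val_pow_eq_pow_val, h2, Units.val_one]
      have h4 := orderOf_dvd_of_pow_eq_one h3
      have h5 := Nat.le_of_dvd (by omega) h4
      omega

end Pool.Agent.AAP
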