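import Pool.Agent.AAP.Dist
import Pool.Agent.AAP.Loc
import Pool.Agent.AAP.Cg

/-!
# AAP2-LocTT (1.2h): a unit Bernoulli number forces the local conditions

`P` is a prime of `K = ℚ(ζ_{Np})` over the prime number `ℓ ∣ N p`. Assume that
`‖χ(σ) a ^ (n-1) - 1‖ < 1` for all `σ` with `σ P = P` (`a` = the value of `gq σ`).
(a) `ℓ = p`: by `stabP` (with `m = p ^ 1 * N`, `i = 0`) this holds for all `σ` with `a ≡ 1 mod N`; take
`a ≡ 1 mod N`, `a ≡ g mod p`, `g` a primitive root modulo `p`: `‖g ^ (n-1) - 1‖ < 1`,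
`p - 1 ∣ n - 1`, a contradiction to `1 ≤ n - 1 < p - 1` (see the proof of `loc` in `Loc.lean`).
(b) `ℓ ∣ N`, `ℓ ≠ p`, `N = ℓ ^ k N'`, `ℓ ∤ N'`: by `stabP` (`m = ℓ ^ k * (N' p)`) it holds if
`a ≡ ℓ ^ i mod N' p` for some `i`. With `i = 0`: `χ(b) ≡ 1` for all units `b` modulo `N` with
`b ≡ 1 mod N'` (lift `b` to `a` with `a ≡ 1 mod p`); `χ(b) ^ φ(N) = 1` and `p ∤ φ(N)`, so
`χ(b) = 1` (if `x ^ m = 1`, `‖m‖ = 1`, `‖x - 1‖ < 1` then `x = 1`, as
`0 = (x ^ m - 1)/(x - 1) = ∑ x ^ i ≡ m` otherwise). Hence `χ = χ' ∘ unitsMap` for a character `χ'`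
modulo `N'` (`unitsMap` is surjective, `ZMod.unitsMap_surjective`). With `i = 1`:
`χ'(ℓ) ℓ ^ (n-1) ≡ 1`. By `tt_dist` `TT N n χ = (1 - χ'(ℓ) ℓ ^ (n-1)) TT N' n χ'`, and
`‖TT N' n χ'‖ ≤ 1` (`tt_le`: the rational numbers `bb N' n r` are `p`-integral as `p > n + 1` and
`p ∤ N'`), so `‖TT N n χ‖ < 1`, a contradiction.
(`N = ℓ ^ k * N'` is an equality of natural numbers, you can `subst` it.)
-/

open NumberField Pointwise

namespace Pool.Agent.AAP

private theorem lt_unit {p : ℕ} [Fact p.Prime] {m : ℕ} (h : ¬ p ∣ m) : ‖(m : ℚ_[p])‖ = 1 :=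
  Padic.norm_natCast_eq_one_iff.2 ((Nat.Prime.coprime_iff_not_dvd Fact.out).2 h)

private theorem lt_unitE {p : ℕ} [Fact p.Prime] (E : Type*) [NormedField E] [NormedAlgebra ℚ_[p] E]
    {m : ℕ} (h : ¬ p ∣ m) : ‖(m : E)‖ = 1 := by
  have h1 : (m : E) = algebraMap ℚ_[p] E (m : ℚ_[p]) := (map_natCast _ _).symm
  rw [h1, norm_algebraMap', lt_unit h]

private theorem lt_bern {p : ℕ} [Fact p.Prime] : ∀ k : ℕ, k + 1 < p →
    ((_root_.bernoulli k : ℚ) : ℚ_[p]) ∈ PadicInt.subring p := by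
  intro k
  induction k using Nat.strong_induction_on with
  | _ k ih =>
    intro hk
    rcases Nat.eq_zero_or_pos k with rfl | hk0
    · rw [_root_.bernoulli_zero, Rat.cast_one]
      exact Subring.one_mem _
    · have h1 := sum_bernoulli (k + 1)
      rw [Finset.sum_range_succ, if_neg (by omega), Nat.choose_succ_self_right] at h1
      have h2 : ((k + 1 : ℕ) : ℚ_[p]) * ((_root_.bernoulli k : ℚ) : ℚ_[p]) =
          - ∑ i ∈ Finset.range k, (((k + 1).choose i : ℕ) : ℚ_[p]) *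
            ((_root_.bernoulli i : ℚ) : ℚ_[p]) := by
        have h3 : ((k + 1 : ℕ) : ℚ) * _root_.bernoulli k =
            - ∑ i ∈ Finset.range k, (((k + 1).choose i : ℕ) : ℚ) * _root_.bernoulli i := by
          linarith
        have h4 := congrArg (fun x : ℚ => (x : ℚ_[p])) h3
        simp only [Rat.cast_mul, Rat.cast_natCast, Rat.cast_neg, Rat.cast_sum] at h4
        exact h4
      have h3 : ‖((k + 1 : ℕ) : ℚ_[p]) * ((_root_.bernoulli k : ℚ) : ℚ_[p])‖ ≤ 1 := by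
        rw [← PadicInt.mem_subring_iff, h2]
        refine Subring.neg_mem _ (Subring.sum_mem _ fun i hi => Subring.mul_mem _ ?_ ?_)
        · exact natCast_mem _ _
        · rw [Finset.mem_range] at hi
          exact ih i hi (by omega)
      rw [norm_mul, lt_unit (fun h => absurd (Nat.le_of_dvd (by omega) h) (by omega)),
        one_mul] at h3
      exact (PadicInt.mem_subring_iff p).2 h3

private theorem lt_bb {p : ℕ} [Fact p.Prime] (N n r : ℕ) (hpN : ¬ p ∣ N) (hnp : n + 1 < p) :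
    ‖((bb N n r : ℚ) : ℚ_[p])‖ ≤ 1 := by
  rw [← PadicInt.mem_subring_iff]
  unfold bb Polynomial.bernoulli
  rw [Polynomial.eval_finsetSum]
  simp only [Rat.cast_mul, Rat.cast_sum, Rat.cast_pow, Rat.cast_natCast, Polynomial.eval_monomial,
    Rat.cast_div]
  refine Subring.mul_mem _ (Subring.pow_mem _ (natCast_mem _ _) _)
    (Subring.sum_mem _ fun i hi => Subring.mul_mem _ (Subring.mul_mem _ ?_ (natCast_mem _ _))
      (Subring.pow_mem _ ?_ _))
  · rw [Finset.mem_range] at hi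
    exact lt_bern i (by omega)
  · rw [PadicInt.mem_subring_iff, norm_div, lt_unit hpN, div_one, ← PadicInt.mem_subring_iff]
    exact natCast_mem _ _

private theorem lt_chi (N : ℕ) [NeZero N] {E : Type*} [NormedField E]
    (χ : (ZMod N)ˣ →* Eˣ) (r : (ZMod N)ˣ) : ‖(χ r : E)‖ = 1 := by
  refine (pow_eq_one_iff_of_nonneg (norm_nonneg _) (Nat.card_pos (α := (ZMod N)ˣ)).ne').mp ?_
  rw [← norm_pow, ← Units.val_pow_eq_pow_val, ← map_pow, pow_card_eq_one']
  simp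

theorem tt_le (N n p : ℕ) [NeZero N] [Fact p.Prime] (hnp : n + 1 < p) (hpN : ¬ p ∣ N)
    {E : Type*} [NormedField E] [IsUltrametricDist E] [NormedAlgebra ℚ_[p] E]
    (χ : (ZMod N)ˣ →* Eˣ) : ‖(TT N n χ : E)‖ ≤ 1 := by
  unfold TT
  refine IsUltrametricDist.norm_sum_le_of_forall_le_of_nonneg zero_le_one fun r _ => ?_
  rw [norm_mul, lt_chi, one_mul]
  have h1 : ((bb N n (r : ZMod N).val : ℚ) : E) =
      algebraMap ℚ_[p] E ((bb N n (r : ZMod N).val : ℚ) : ℚ_[p]) := (map_ratCast _ _).symm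
  rw [h1, norm_algebraMap']
  exact lt_bb N n _ hpN hnp

private theorem lt_exA (m1 m2 : ℕ) (co : m1.Coprime m2) (m : ℕ) [NeZero m] (hm : m = m1 * m2)
    (a1 a2 : ℕ) (h1 : a1.Coprime m1) (h2 : a2.Coprime m2) :
    ∃ u : (ZMod m)ˣ, (u : ZMod m).val ≡ a1 [MOD m1] ∧ (u : ZMod m).val ≡ a2 [MOD m2] := by
  obtain ⟨a, ha1, ha2⟩ := Nat.chineseRemainder co a1 a2
  have hc1 : a.Coprime m1 := by
    rw [Nat.Coprime, ha1.gcd_eq]
    exact h1
  have hc2 : a.Coprime m2 := by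
    rw [Nat.Coprime, ha2.gcd_eq]
    exact h2
  have hc : a.Coprime m := by
    rw [hm]
    exact hc1.mul_right hc2
  refine ⟨ZMod.unitOfCoprime a hc, ?_, ?_⟩
  · rw [ZMod.coe_unitOfCoprime, ZMod.val_natCast]
    exact ((Nat.mod_modEq a m).of_dvd (hm ▸ dvd_mul_right m1 m2)).trans ha1
  · rw [ZMod.coe_unitOfCoprime, ZMod.val_natCast]
    exact ((Nat.mod_modEq a m).of_dvd (hm ▸ dvd_mul_left m2 m1)).trans ha2

private theorem lt_norm {p : ℕ} [Fact p.Prime] {E : Type*} [NormedField E]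
    [NormedAlgebra ℚ_[p] E] {a b : ℕ} (h : a ≡ b [MOD p]) : Cg (a : E) (b : E) := by
  have h1 : (a : E) - b = algebraMap ℚ_[p] E (((a : ℤ) - b : ℤ) : ℚ_[p]) := by
    rw [map_intCast]
    push_cast
    rfl
  rw [Cg, h1, norm_algebraMap', Padic.norm_intCast_lt_one_iff]
  exact (Nat.modEq_iff_dvd.1 h.symm)

private theorem lt_normI {p : ℕ} [Fact p.Prime] {E : Type*} [NormedField E]
    [NormedAlgebra ℚ_[p] E] (a j : ℕ) (h : ‖(a : E) ^ j - 1‖ < 1) : (a : ZMod p) ^ j = 1 := by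
  have h1 : (a : E) ^ j - 1 = algebraMap ℚ_[p] E (((a : ℤ) ^ j - 1 : ℤ) : ℚ_[p]) := by
    rw [map_intCast]
    push_cast
    rfl
  rw [h1, norm_algebraMap', Padic.norm_intCast_lt_one_iff] at h
  have h2 := (ZMod.intCast_zmod_eq_zero_iff_dvd _ p).2 h
  push_cast at h2
  exact sub_eq_zero.1 h2

private theorem lt_nle {p : ℕ} [Fact p.Prime] (E : Type*) [NormedField E]
    [NormedAlgebra ℚ_[p] E] (a : ℕ) : ‖(a : E)‖ ≤ 1 := by
  have h1 : (a : E) = algebraMap ℚ_[p] E (a : ℚ_[p]) := (map_natCast _ _).symm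
  rw [h1, norm_algebraMap', ← PadicInt.mem_subring_iff]
  exact natCast_mem _ _

private theorem lt_one {E : Type*} [NormedField E] [IsUltrametricDist E] {x : E} {m : ℕ}
    (hx : x ^ m = 1) (hm : ‖(m : E)‖ = 1) (h : Cg x 1) : x = 1 := by
  by_contra hne
  have h1 : (x - 1) * ∑ i ∈ Finset.range m, x ^ i = 0 := by
    rw [mul_geom_sum, hx, sub_self]
  have h2 : ∑ i ∈ Finset.range m, x ^ i = 0 :=
    (mul_eq_zero.1 h1).resolve_left (sub_ne_zero.2 hne)
  have h3 : Cg (∑ i ∈ Finset.range m, x ^ i) (∑ i ∈ Finset.range m, (1 : E)) :=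
    Cg.sum _ _ _ fun i _ => by
      have := h.pow (by rw [norm_one]) i
      rwa [one_pow] at this
  rw [h2, Finset.sum_const, Finset.card_range, nsmul_eq_mul, mul_one, Cg, zero_sub, norm_neg,
    hm] at h3
  exact lt_irrefl _ h3

theorem locTT (N n p : ℕ) [NeZero N] [NeZero (N * p)] [Fact p.Prime] (hn : 2 ≤ n)
    (hnp : n + 1 < p) (hpN : ¬ p ∣ N) (hpφ : ¬ p ∣ N.totient)
    (K : Type) [Field K] [NumberField K] [IsCyclotomicExtension {N * p} ℚ K]
    {E : Type*} [NormedField E] [IsUltrametricDist E] [NormedAlgebra ℚ_[p] E]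
    (χ : (ZMod N)ˣ →* Eˣ) (hT : ‖(TT N n χ : E)‖ = 1) (P : Ideal (𝓞 K)) (hP : P.IsPrime)
    (hPℓ : ∃ ℓ : ℕ, ℓ.Prime ∧ ℓ ∣ N * p ∧ (ℓ : 𝓞 K) ∈ P) :
    ∃ σ : Gal(K/ℚ), σ • P = P ∧
      1 ≤ ‖(χ (ZMod.unitsMap (dvd_mul_right N p) (gq (N * p) K σ)) : E) *
        (((gq (N * p) K σ : (ZMod (N * p))ˣ) : ZMod (N * p)).val : E) ^ (n - 1) - 1‖ := by
  have hNp : N * p ≠ 0 := NeZero.ne (N * p)
  have hN0 : N ≠ 0 := left_ne_zero_of_mul hNp
  have hp : p.Prime := Fact.out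
  by_contra hcon
  push Not at hcon
  have H : ∀ (u : (ZMod (N * p))ˣ) (σ : Gal(K/ℚ)), gq (N * p) K σ = u → σ • P = P →
      Cg ((χ (ZMod.unitsMap (dvd_mul_right N p) u) : E) *
        ((u : ZMod (N * p)).val : E) ^ (n - 1)) 1 := by
    rintro u σ rfl hσ
    exact hcon σ hσ
  clear hcon
  obtain ⟨ℓ, hℓp, hℓN, hℓP⟩ := hPℓ
  by_cases hdN : ℓ ∣ N
  · obtain ⟨k, N', hN', hNk⟩ := Nat.exists_eq_pow_mul_and_not_dvd hN0 ℓ hℓp.ne_one
    have hk : 0 < k := by
      rcases Nat.eq_zero_or_pos k with h | h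
      · rw [h, pow_zero, one_mul] at hNk
        exact absurd (hNk ▸ hdN) hN'
      · exact h
    have hℓne : ℓ ≠ p := fun h => hpN (h ▸ hdN)
    subst hNk
    have hN'0 : N' ≠ 0 := right_ne_zero_of_mul hN0
    have : NeZero N' := ⟨hN'0⟩
    have hcN' : ℓ.Coprime N' := (Nat.Prime.coprime_iff_not_dvd hℓp).2 hN'
    have hcp : ℓ.Coprime p := (Nat.coprime_primes hℓp hp).2 hℓne
    have hc : ℓ.Coprime (N' * p) := hcN'.mul_right hcp
    have hm : ℓ ^ k * N' * p = ℓ ^ k * (N' * p) := by rw [mul_assoc]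
    have hpN' : ¬ p ∣ N' := fun h => hpN (Dvd.dvd.mul_left h _)
    have hN'p : N'.Coprime p := ((Nat.Prime.coprime_iff_not_dvd hp).2 hpN').symm
    have hNcp : (ℓ ^ k * N').Coprime p := ((Nat.Prime.coprime_iff_not_dvd hp).2 hpN).symm
    have hdv : N' ∣ ℓ ^ k * N' := dvd_mul_left N' (ℓ ^ k)
    have hmap : ∀ u : (ZMod (ℓ ^ k * N' * p))ˣ,
        ((ZMod.unitsMap (dvd_mul_right (ℓ ^ k * N') p) u : (ZMod (ℓ ^ k * N'))ˣ) :
          ZMod (ℓ ^ k * N')) =
        (((u : ZMod (ℓ ^ k * N' * p)).val : ℕ) : ZMod (ℓ ^ k * N')) := by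
      intro u
      rw [ZMod.unitsMap_val, ZMod.natCast_val]
    have hmap' : ∀ u : (ZMod (ℓ ^ k * N'))ˣ,
        ((ZMod.unitsMap hdv u : (ZMod N')ˣ) : ZMod N') =
        (((u : ZMod (ℓ ^ k * N')).val : ℕ) : ZMod N') := by
      intro u
      rw [ZMod.unitsMap_val, ZMod.natCast_val]
    -- the character is defined modulo `N'`
    have hker : (ZMod.unitsMap hdv).ker ≤ χ.ker := by
      intro b hb
      rw [MonoidHom.mem_ker] at hb ⊢
      have hb1 : (b : ZMod (ℓ ^ k * N')).val ≡ 1 [MOD N'] := by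
        rw [← ZMod.natCast_eq_natCast_iff, ← hmap', hb, Nat.cast_one, Units.val_one]
      obtain ⟨u, hu1, hu2⟩ := lt_exA (ℓ ^ k * N') p hNcp (ℓ ^ k * N' * p) rfl
        (b : ZMod (ℓ ^ k * N')).val 1 (ZMod.val_coe_unit_coprime b) (Nat.coprime_one_left _)
      have hub : ZMod.unitsMap (dvd_mul_right (ℓ ^ k * N') p) u = b := by
        apply Units.ext
        rw [hmap]
        have h1 := (ZMod.natCast_eq_natCast_iff _ _ _).2 hu1
        rw [h1, ZMod.natCast_zmod_val]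
      have hst : (gq (ℓ ^ k * N' * p) K).symm u • P = P := by
        refine stabP (ℓ ^ k * N' * p) ℓ k (N' * p) 0 hℓp hm hc K _ ?_ P hP hℓP
        rw [(gq (ℓ ^ k * N' * p) K).apply_symm_apply u, pow_zero, ← Nat.cast_one,
          ZMod.natCast_eq_natCast_iff]
        exact (Nat.modEq_and_modEq_iff_modEq_mul hN'p).1
          ⟨(hu1.of_dvd hdv).trans hb1, hu2⟩
      have h1 := H u _ ((gq (ℓ ^ k * N' * p) K).apply_symm_apply u) hst
      rw [hub] at h1
      have h2 : Cg (((u : ZMod (ℓ ^ k * N' * p)).val : E) ^ (n - 1)) 1 := by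
        have h3 := (lt_norm (p := p) (E := E) hu2).pow (by rw [Nat.cast_one, norm_one]) (n - 1)
        rwa [Nat.cast_one, one_pow] at h3
      have h3 : Cg ((χ b : E) * ((u : ZMod (ℓ ^ k * N' * p)).val : E) ^ (n - 1))
          ((χ b : E) * 1) := Cg.mul Cg.rfl h2 (lt_chi _ χ b).le (by rw [norm_one])
      rw [mul_one] at h3
      have h4 : Cg (χ b : E) 1 := h3.symm.trans h1
      apply Units.ext
      rw [Units.val_one]
      refine lt_one (m := (ℓ ^ k * N').totient) ?_ (lt_unitE (p := p) E hpφ) h4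
      rw [← Units.val_pow_eq_pow_val, ← map_pow, ZMod.pow_totient, map_one, Units.val_one]
    obtain ⟨χ', hχ'⟩ : ∃ χ' : (ZMod N')ˣ →* Eˣ, χ'.comp (ZMod.unitsMap hdv) = χ :=
      ⟨(ZMod.unitsMap hdv).liftOfSurjective (ZMod.unitsMap_surjective hdv) ⟨χ, hker⟩,
        MonoidHom.liftOfRightInverse_comp _ _ _ _⟩
    -- the value at `ℓ`
    obtain ⟨u, hu1, hu2⟩ := lt_exA (ℓ ^ k) (N' * p) (hc.pow_left k) (ℓ ^ k * N' * p) hm 1 ℓ
      (Nat.coprime_one_left _) hc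
    have hst : (gq (ℓ ^ k * N' * p) K).symm u • P = P := by
      refine stabP (ℓ ^ k * N' * p) ℓ k (N' * p) 1 hℓp hm hc K _ ?_ P hP hℓP
      rw [(gq (ℓ ^ k * N' * p) K).apply_symm_apply u, pow_one, ZMod.natCast_eq_natCast_iff]
      exact hu2
    have h1 := H u _ ((gq (ℓ ^ k * N' * p) K).apply_symm_apply u) hst
    have h2 : χ (ZMod.unitsMap (dvd_mul_right (ℓ ^ k * N') p) u) =
        χ' (ZMod.unitOfCoprime ℓ hcN') := by
      rw [← hχ', MonoidHom.comp_apply]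
      congr 1
      apply Units.ext
      rw [hmap', ZMod.coe_unitOfCoprime, ZMod.natCast_eq_natCast_iff]
      have h3 := hmap u
      have h4 : ((ZMod.unitsMap (dvd_mul_right (ℓ ^ k * N') p) u : (ZMod (ℓ ^ k * N'))ˣ) :
          ZMod (ℓ ^ k * N')).val ≡ (u : ZMod (ℓ ^ k * N' * p)).val [MOD ℓ ^ k * N'] := by
        rw [← ZMod.natCast_eq_natCast_iff, ZMod.natCast_zmod_val]
        exact h3
      exact (h4.of_dvd hdv).trans (hu2.of_dvd (dvd_mul_right N' p))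
    have h3 : Cg (((u : ZMod (ℓ ^ k * N' * p)).val : E) ^ (n - 1)) ((ℓ : E) ^ (n - 1)) :=
      (lt_norm (p := p) (E := E) (hu2.of_dvd (dvd_mul_left p N'))).pow (lt_nle (p := p) E ℓ) _
    rw [h2] at h1
    have h4 : Cg ((χ' (ZMod.unitOfCoprime ℓ hcN') : E) * (ℓ : E) ^ (n - 1)) 1 := by
      refine Cg.trans (Cg.symm ?_) h1
      refine Cg.mul Cg.rfl h3 (lt_chi _ χ' _).le ?_
      rw [norm_pow]
      exact pow_le_one₀ (norm_nonneg _) (lt_nle (p := p) E ℓ)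
    have : CharZero E := charZero_of_injective_algebraMap (algebraMap ℚ_[p] E).injective
    have h5 := tt_dist N' k ℓ n hℓp hk hcN' (by omega) χ'
    have h6 : χ'.comp (ZMod.unitsMap (dvd_mul_left N' (ℓ ^ k))) = χ := hχ'
    rw [h6] at h5
    rw [h5, norm_mul] at hT
    have h7 := tt_le N' n p hnp hpN' χ'
    have h8 : ‖(1 : E) - (χ' (ZMod.unitOfCoprime ℓ hcN') : E) * (ℓ : E) ^ (n - 1)‖ < 1 := h4.symm
    have h9 : ‖(1 : E) - (χ' (ZMod.unitOfCoprime ℓ hcN') : E) * (ℓ : E) ^ (n - 1)‖ *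
        ‖(TT N' n χ' : E)‖ < 1 := by
      refine lt_of_le_of_lt (mul_le_mul_of_nonneg_left h7 (norm_nonneg _)) ?_
      rw [mul_one]
      exact h8
    rw [hT] at h9
    exact lt_irrefl _ h9
  · have hℓeq : ℓ = p := by
      rcases (Nat.Prime.dvd_mul hℓp).1 hℓN with h | h
      · exact absurd h hdN
      · exact (Nat.prime_dvd_prime_iff_eq hℓp hp).1 h
    subst hℓeq
    have hcop : ℓ.Coprime N := (Nat.Prime.coprime_iff_not_dvd hℓp).2 hpN
    obtain ⟨g, hg⟩ := IsCyclic.exists_generator (α := (ZMod ℓ)ˣ)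
    have hord : orderOf g = ℓ - 1 := by
      rw [orderOf_eq_card_of_forall_mem_zpowers hg, Nat.card_eq_fintype_card, ZMod.card_units]
    obtain ⟨u, hu1, hu2⟩ := lt_exA N ℓ hcop.symm (N * ℓ) rfl 1 (g : ZMod ℓ).val
      (Nat.coprime_one_left _) (ZMod.val_coe_unit_coprime g)
    have hst : (gq (N * ℓ) K).symm u • P = P := by
      refine stabP (N * ℓ) ℓ 1 N 0 hℓp (by rw [pow_one, mul_comm]) hcop K _ ?_ P hP hℓP
      rw [(gq (N * ℓ) K).apply_symm_apply u, pow_zero, ← Nat.cast_one,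
        ZMod.natCast_eq_natCast_iff]
      exact hu1
    have h0 := H u _ ((gq (N * ℓ) K).apply_symm_apply u) hst
    have h1 : ZMod.unitsMap (dvd_mul_right N ℓ) u = 1 := by
      apply Units.ext
      rw [ZMod.unitsMap_val, ← ZMod.natCast_val, Units.val_one, ← Nat.cast_one,
        ZMod.natCast_eq_natCast_iff]
      exact hu1
    rw [h1, map_one, Units.val_one, one_mul] at h0
    have h2 := lt_normI (p := ℓ) _ _ h0
    rw [(ZMod.natCast_eq_natCast_iff _ _ _).2 hu2, ZMod.natCast_zmod_val] at h2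
    have h3 : g ^ (n - 1) = 1 := by
      apply Units.ext
      rw [Units.val_pow_eq_pow_val, h2, Units.val_one]
    have h4 := orderOf_dvd_of_pow_eq_one h3
    have h5 := Nat.le_of_dvd (by omega) h4
    omega

end Pool.Agent.AAP
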