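import Pool.Agent.AAP.Cg
import Pool.Agent.AAP.Defs

/-!
# Even Galois representations at almost all primes: inertia of finite order prime to `p`
-/

open NumberField Pointwise Matrix

namespace Pool.Agent.AAP

open Pool.Agent.Helper60.FM

section

variable {E : Type*} [NormedField E] [IsUltrametricDist E]

theorem eq_one_of_pow {m : ℕ} (hm : ‖(m : E)‖ = 1) (a : E) (ha : ‖a - 1‖ < 1)
    (h : a ^ m = 1) : a = 1 := by
  by_contra hcon
  have h1 : ∑ i ∈ Finset.range m, a ^ i = 0 := by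
    have h2 := geom_sum_mul a m
    rw [h, sub_self] at h2
    exact (mul_eq_zero.1 h2).resolve_right (sub_ne_zero.2 hcon)
  have h3 : Cg (∑ i ∈ Finset.range m, a ^ i) (∑ i ∈ Finset.range m, (1 : E)) := by
    refine Cg.sum _ _ _ fun i _ => ?_
    have h4 := Cg.pow (show Cg a 1 from ha) (by rw [norm_one]) i
    rwa [one_pow] at h4
  rw [h1] at h3
  have h5 := h3.symm.norm_le (by rw [norm_zero]; exact zero_le_one)
  have h6 : ‖(∑ i ∈ Finset.range m, (1 : E)) - 0‖ < 1 := h3.symm
  rw [sub_zero, Finset.sum_const, Finset.card_range, nsmul_one, hm] at h6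
  exact lt_irrefl _ h6

theorem mat_geom (A : Matrix (Fin 2) (Fin 2) E) (s t : E) (hs : ‖s‖ < 1) (ht : ‖t‖ < 1)
    (hA : (A - 1) * (A - 1) = s • (A - 1) - t • (1 : Matrix (Fin 2) (Fin 2) E)) (k : ℕ) :
    ∃ x y : E, ‖x - k‖ < 1 ∧ ‖y‖ ≤ 1 ∧
      ∑ i ∈ Finset.range k, A ^ i = x • (1 : Matrix (Fin 2) (Fin 2) E) + y • (A - 1) := by
  induction k with
  | zero => exact ⟨0, 0, by simp, by simp, by simp⟩
  | succ k ih =>
    obtain ⟨x, y, hx, hy, h⟩ := ih
    have hx1 : ‖x‖ ≤ 1 := Cg.norm_le (show Cg x (k : E) from hx) (norm_natCast_le_one k)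
    have hyt : ‖y * t‖ < 1 := by
      rw [norm_mul]
      exact mul_lt_one_of_nonneg_of_lt_one_right hy (norm_nonneg _) ht
    refine ⟨1 + x - y * t, x + y + y * s, ?_, ?_, ?_⟩
    · have e1 : 1 + x - y * t - ((k + 1 : ℕ) : E) = (x - k) + -(y * t) := by
        push_cast
        ring
      rw [e1]
      exact norm_add_lt_one E hx (by rw [norm_neg]; exact hyt)
    · refine norm_add_le_one E (norm_add_le_one E hx1 hy) ?_
      rw [norm_mul]
      exact mul_le_one₀ hy (norm_nonneg _) hs.le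
    · have e1 : ∑ i ∈ Finset.range (k + 1), A ^ i = 1 + A * ∑ i ∈ Finset.range k, A ^ i := by
        rw [Finset.sum_range_succ', pow_zero, add_comm, Finset.mul_sum]
        congr 1
        exact Finset.sum_congr rfl fun i _ => pow_succ' A i
      rw [e1, h]
      have e2 : A * (x • (1 : Matrix (Fin 2) (Fin 2) E) + y • (A - 1)) =
          x • (1 : Matrix (Fin 2) (Fin 2) E) + (x + y) • (A - 1) + y • ((A - 1) * (A - 1)) := by
        have e3 : A = 1 + (A - 1) := by abel
        conv_lhs => rw [e3]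
        rw [add_mul, one_mul, mul_add, mul_smul_comm, mul_one, mul_smul_comm, add_smul,
          add_sub_cancel_left]
        abel
      rw [e2, hA]
      module

theorem mat_eq_one {m : ℕ} (hm : ‖(m : E)‖ = 1) (A : Matrix (Fin 2) (Fin 2) E) (s t : E)
    (hs : ‖s‖ < 1) (ht : ‖t‖ < 1)
    (hA : (A - 1) * (A - 1) = s • (A - 1) - t • (1 : Matrix (Fin 2) (Fin 2) E))
    (h : A ^ m = 1) : A = 1 := by
  obtain ⟨x, y, hx, hy, hsum⟩ := mat_geom A s t hs ht hA m
  have h1 : (∑ i ∈ Finset.range m, A ^ i) * (A - 1) = 0 := by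
    rw [geom_sum_mul, h, sub_self]
  rw [hsum, add_mul, smul_mul_assoc, one_mul, smul_mul_assoc, hA] at h1
  have hxn : ‖x‖ = 1 := Cg.norm_eq (show Cg x (m : E) from hx) hm
  have hys : ‖y * s‖ < 1 := by
    rw [norm_mul]
    exact mul_lt_one_of_nonneg_of_lt_one_right hy (norm_nonneg _) hs
  have hyt : ‖y * t‖ < 1 := by
    rw [norm_mul]
    exact mul_lt_one_of_nonneg_of_lt_one_right hy (norm_nonneg _) ht
  have hc : ‖x + y * s‖ = 1 := by
    refine Cg.norm_eq (y := x) ?_ hxn
    rw [Cg, add_sub_cancel_left]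
    exact hys
  have hc0 : x + y * s ≠ 0 := by
    intro h0
    rw [h0, norm_zero] at hc
    exact zero_ne_one hc
  have h2 : (x + y * s) • (A - 1) = (y * t) • (1 : Matrix (Fin 2) (Fin 2) E) := by
    rw [← sub_eq_zero, ← h1]
    module
  set b : E := (y * t) / (x + y * s) with hb
  have h3 : A - 1 = b • (1 : Matrix (Fin 2) (Fin 2) E) := by
    have h4 := congrArg (fun M => (x + y * s)⁻¹ • M) h2
    simp only [smul_smul] at h4
    rw [inv_mul_cancel₀ hc0, one_smul] at h4
    rw [h4, hb, div_eq_inv_mul]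
  have hbn : ‖b‖ < 1 := by
    rw [hb, norm_div, hc, div_one]
    exact hyt
  have h5 : A = (1 + b) • (1 : Matrix (Fin 2) (Fin 2) E) := by
    rw [add_smul, one_smul, ← h3]
    abel
  have h6 : (1 + b) ^ m = 1 := by
    rw [h5, smul_pow, one_pow] at h
    have h7 := congrFun (congrFun h 0) 0
    simpa using h7
  have h8 := eq_one_of_pow hm (1 + b) (by rwa [add_sub_cancel_left]) h6
  rw [h5, h8, one_smul]

end

/-- inertia acts trivially on roots of unity of order prime to the residue characteristic -/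
theorem fix_root {𝔓 : Ideal ZQ} (hP : 𝔓.IsPrime) {m : ℕ} (hm : (m : ZQ) ∉ 𝔓) {g : GQ}
    (hg : g ∈ In 𝔓) (ζ : Qb) (hζ : ζ ^ m = 1) : g ζ = ζ := by
  have hm0 : 0 < m := by
    rcases Nat.eq_zero_or_pos m with h | h
    · exfalso
      apply hm
      rw [h, Nat.cast_zero]
      exact 𝔓.zero_mem
    · exact h
  have hint : ∀ x : Qb, x ^ m = 1 → IsIntegral ℤ x := fun x hx =>
    IsIntegral.of_pow hm0 (by rw [hx]; exact isIntegral_one)
  let z : ZQ := ⟨ζ, hint ζ hζ⟩
  have hz0 : ζ ≠ 0 := by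
    rintro rfl
    rw [zero_pow hm0.ne'] at hζ
    exact zero_ne_one hζ
  have hu : (g ζ * ζ⁻¹) ^ m = 1 := by
    rw [mul_pow, ← map_pow, inv_pow, hζ, map_one, inv_one, mul_one]
  let u : ZQ := ⟨g ζ * ζ⁻¹, hint _ hu⟩
  have h1 : u - 1 ∈ 𝔓 := by
    have h2 : (u - 1) * z ∈ 𝔓 := by
      have h3 : (u - 1) * z = g • z - z := by
        apply Subtype.ext
        change (g ζ * ζ⁻¹ - 1) * ζ = g ζ - ζ
        rw [sub_mul, one_mul, inv_mul_cancel_right₀ hz0]
      rw [h3]
      exact hg z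
    refine (hP.mem_or_mem h2).resolve_right ?_
    intro hz
    apply hP.ne_top
    rw [Ideal.eq_top_iff_one]
    have h4 : z ^ m = 1 := Subtype.ext (by change ζ ^ m = 1; exact hζ)
    rw [← h4]
    exact 𝔓.pow_mem_of_mem hz m hm0
  by_contra hcon
  have hu1 : u ≠ 1 := by
    intro h
    apply hcon
    have h5 : g ζ * ζ⁻¹ = 1 := congrArg Subtype.val h
    rwa [mul_inv_eq_one₀ hz0] at h5
  apply hm
  have h6 : (∑ i ∈ Finset.range m, u ^ i) = 0 := by
    have h7 := geom_sum_mul u m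
    have h8 : u ^ m = 1 := Subtype.ext hu
    rw [h8, sub_self] at h7
    exact (mul_eq_zero.1 h7).resolve_right (sub_ne_zero.2 hu1)
  have h9 : (m : ZQ) = -∑ i ∈ Finset.range m, (u ^ i - 1) := by
    rw [Finset.sum_sub_distrib, h6]
    simp
  rw [h9]
  refine 𝔓.neg_mem (𝔓.sum_mem fun i _ => ?_)
  exact Ideal.mem_of_dvd _ (sub_one_dvd_pow_sub_one u i) h1

/-- At all prime ideals of `ZQ` which do not contain `m`, the elements of the inertia group act
with finite order prime to `p`. -/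
def TameOut {H : Type*} [Group H] (p m : ℕ) (V : GQ →* H) : Prop :=
  ∀ 𝔓 : Ideal ZQ, 𝔓.IsPrime → (m : ZQ) ∉ 𝔓 → ∀ g ∈ In 𝔓, ∃ k : ℕ, ¬ p ∣ k ∧ V g ^ k = 1

theorem UnrOut.tameOut {H : Type*} [Group H] {p m : ℕ} (hp : p.Prime) {V : GQ →* H}
    (h : UnrOut m V) : TameOut p m V := by
  intro 𝔓 hP hm g hg
  exact ⟨1, hp.one_lt.not_ge ∘ Nat.le_of_dvd one_pos, by rw [pow_one]; exact h 𝔓 hP hm g hg⟩

theorem unrOut_of_tame (n N p : ℕ) [NeZero N] [Fact p.Prime] (hp : 2 < p) {E : Type*}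
    [NormedField E] [IsUltrametricDist E] [NormedAlgebra ℚ_[p] E] (V : GQ →* GL (Fin 2) E)
    (hred : Red p n N V) (h : TameOut p (N * p) V) : UnrOut (N * p) V := by
  intro 𝔓 hP hm g hg
  obtain ⟨α, β, j, hred⟩ := hred
  have h2 : ‖(2 : E)‖ = 1 := by
    have h1 := norm_natCast_eq_one (p := p) (E := E) (n := 2)
      (fun h => by have := Nat.le_of_dvd (by norm_num) h; omega)
    exact_mod_cast h1
  have hN : (N : ZQ) ∉ 𝔓 := by
    intro h1
    apply hm
    rw [Nat.cast_mul]
    exact 𝔓.mul_mem_right _ h1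
  have hpP : (p : ZQ) ∉ 𝔓 := by
    intro h1
    apply hm
    rw [Nat.cast_mul]
    exact 𝔓.mul_mem_left _ h1
  -- traces
  have htr : ∀ g ∈ In 𝔓, ‖tr V g - 2‖ < 1 := by
    intro g hg
    have h1 : ActsAs N g (((1 : (ZMod N)ˣ) : ZMod N)).val := by
      intro ζ hζ
      rw [fix_root hP hN hg ζ hζ]
      rw [Units.val_one]
      rcases Nat.lt_or_ge 1 N with h3 | h3
      · have : Fact (1 < N) := ⟨h3⟩
        rw [ZMod.val_one, pow_one]
      · have h4 : N = 1 := le_antisymm h3 (Nat.pos_of_ne_zero (NeZero.ne N))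
        subst h4
        rw [pow_one] at hζ
        rw [hζ, one_pow]
    have h3 : ActsAs p g 1 := by
      intro ζ hζ
      rw [fix_root hP hpP hg ζ hζ, pow_one]
    have h4 := hred g 1 1 h1 h3
    rw [map_one, map_one, Units.val_one, Nat.cast_one, one_pow, one_pow, one_mul, one_mul] at h4
    have h5 : (1 : E) + 1 = 2 := by norm_num
    rw [h5] at h4
    exact h4
  obtain ⟨k, hk, hkV⟩ := h 𝔓 hP hm g hg
  set A : Matrix (Fin 2) (Fin 2) E := (V g : Matrix (Fin 2) (Fin 2) E) with hA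
  have hs : ‖tr V g - 2‖ < 1 := htr g hg
  have hs2 : ‖trace (A * A) - 2‖ < 1 := by
    have h3 := htr (g * g) ((In 𝔓).mul_mem hg hg)
    have h4 : tr V (g * g) = trace (A * A) := by
      change trace (V (g * g) : Matrix (Fin 2) (Fin 2) E) = _
      rw [map_mul, Units.val_mul]
    rw [h4] at h3
    exact h3
  have htA : ‖trace A - 2‖ < 1 := hs
  have e1 := trace_mul_self A
  have hdet : ‖det A - 1‖ < 1 := by
    have h3 : 2 * (det A - 1) = (trace A - 2) * (trace A + 2) - (trace (A * A) - 2) := by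
      rw [e1]
      ring
    have h4 : ‖2 * (det A - 1)‖ < 1 := by
      rw [h3]
      have h5 : ‖trace A + 2‖ ≤ 1 := by
        have h6 : trace A + 2 = (trace A - 2) + (2 + 2) := by ring
        rw [h6]
        exact norm_add_le_one E htA.le (norm_add_le_one E h2.le h2.le)
      have h7 : ‖(trace A - 2) * (trace A + 2)‖ < 1 := by
        rw [norm_mul]
        exact mul_lt_one_of_nonneg_of_lt_one_left (norm_nonneg _) htA h5
      rw [sub_eq_add_neg]
      exact norm_add_lt_one E h7 (by rw [norm_neg]; exact hs2)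
    rwa [norm_mul, h2, one_mul] at h4
  have hCH : (A - 1) * (A - 1) = (trace A - 2) • (A - 1) -
      (1 - trace A + det A) • (1 : Matrix (Fin 2) (Fin 2) E) := by
    have h3 : A * A = trace A • A - det A • (1 : Matrix (Fin 2) (Fin 2) E) := by
      ext i j
      rw [Matrix.trace_fin_two, Matrix.det_fin_two]
      fin_cases i <;> fin_cases j <;>
        simp [Matrix.mul_apply, Fin.sum_univ_two] <;> ring
    have h4 : (A - 1) * (A - 1) = A * A - A - A + 1 := by noncomm_ring
    rw [h4, h3]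
    module
  have ht : ‖1 - trace A + det A‖ < 1 := by
    have h3 : 1 - trace A + det A = (det A - 1) + -(trace A - 2) := by ring
    rw [h3]
    exact norm_add_lt_one E hdet (by rw [norm_neg]; exact htA)
  have hkn : ‖(k : E)‖ = 1 := norm_natCast_eq_one (p := p) hk
  have h3 := mat_eq_one hkn A (trace A - 2) (1 - trace A + det A) htA ht hCH (by
    rw [hA, ← Units.val_pow_eq_pow_val, hkV, Units.val_one])
  exact Units.ext h3

end Pool.Agent.AAP
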