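import Pool.Agent.AAP.RedC
import Pool.Agent.AAP.Tame

/-!
# Even Galois representations: the criterion with generalized Bernoulli numbers
-/

open NumberField Pointwise Matrix

namespace Pool.Agent.AAP

open Pool.Agent.Helper60.FM

theorem uu_norm2 (N n p c : ℕ) [NeZero N] [NeZero (N * p)] [Fact p.Prime] (hn : 2 ≤ n)
    (hnp : n + 1 < p) (hpN : ¬ p ∣ N) (hcN : c ≡ 1 [MOD N]) (hpc : ¬ p ∣ c)
    (hpd : ¬ p ∣ c ^ n - 1)
    {E : Type*} [NormedField E] [IsUltrametricDist E] [NormedAlgebra ℚ_[p] E]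
    (χ : (ZMod N)ˣ →* Eˣ) (hT : ‖(TT N n χ : E)‖ = 1) :
    ‖(uu N p c n χ : E)‖ = 1 := by
  have hp1 : ‖(p : E)‖ < 1 := (norm_natCast_lt_one_iff (p := p) p).2 dvd_rfl
  have hp0 : 0 < ‖(p : E)‖ := by
    have h1 : (p : E) = algebraMap ℚ_[p] E (p : ℚ_[p]) := by simp
    rw [h1, norm_algebraMap', norm_pos_iff]
    exact Nat.cast_ne_zero.2 (Fact.out : p.Prime).ne_zero
  have hc0 : 0 < c := Nat.pos_of_ne_zero (by rintro rfl; exact hpc (dvd_zero p))
  have hA := numA2 N n p c hn hcN hpc χ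
  have hB := numB N n p hn hnp hpN χ
  have hD : ‖(c : E) ^ n - 1‖ = 1 := by
    have h1 : (c : E) ^ n - 1 = ((c ^ n - 1 : ℕ) : E) := by
      rw [Nat.cast_sub (Nat.one_le_pow _ _ hc0)]
      push_cast
      rfl
    rw [h1]
    exact norm_natCast_eq_one (p := p) hpd
  have hN : ‖(N : E)‖ = 1 := norm_natCast_eq_one (p := p) hpN
  set X : E := (n : E) * N * c ^ (n - 1) * uu N p c n χ with hX
  set Y : E := ((c : E) ^ n - 1) * N * TT N n χ with hY
  have h1 : ‖(p : E) * (X - Y)‖ ≤ ‖(p : E)‖ ^ 2 := by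
    have e1 : (p : E) * (X - Y) = ((n : E) * (N * p) * c ^ (n - 1) * uu N p c n χ -
      ((c : E) ^ n - 1) * ss N p n χ) +
      ((c : E) ^ n - 1) * (ss N p n χ - (p : E) * N * TT N n χ) := by
      rw [hX, hY]
      ring
    rw [e1]
    refine (IsUltrametricDist.norm_add_le_max _ _).trans (max_le hA ?_)
    rw [norm_mul, hD, one_mul]
    exact hB
  have h2 : ‖X - Y‖ < 1 := by
    rw [norm_mul, sq] at h1
    exact (le_of_mul_le_mul_left h1 hp0).trans_lt hp1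
  have h3 : ‖Y‖ = 1 := by
    rw [hY, norm_mul, norm_mul, hD, hN, hT, one_mul, one_mul]
  have h4 : ‖X‖ = 1 := Cg.norm_eq h2 h3
  have h5 : ‖(uu N p c n χ : E)‖ ≤ 1 := by
    refine IsUltrametricDist.norm_sum_le_of_forall_le_of_nonneg zero_le_one fun a _ => ?_
    rw [norm_mul, norm_mul, norm_chi, mul_one, norm_pow]
    exact mul_le_one₀ (norm_natCast_le_one _) (pow_nonneg (norm_nonneg _) _)
      (pow_le_one₀ (norm_nonneg _) (norm_natCast_le_one _))
  refine le_antisymm h5 ?_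
  rw [hX, norm_mul] at h4
  have h6 : ‖(n : E) * N * c ^ (n - 1)‖ ≤ 1 := by
    have e1 : (n : E) * N * c ^ (n - 1) = ((n * N * c ^ (n - 1) : ℕ) : E) := by
      push_cast
      rfl
    rw [e1]
    exact norm_natCast_le_one _
  calc (1 : ℝ) = ‖(n : E) * N * c ^ (n - 1)‖ * ‖(uu N p c n χ : E)‖ := h4.symm
    _ ≤ 1 * ‖(uu N p c n χ : E)‖ := mul_le_mul_of_nonneg_right h6 (norm_nonneg _)
    _ = _ := one_mul _

theorem redCrit (n N p : ℕ) [NeZero N] [Fact p.Prime] (hn : 2 ≤ n) (hnp : n + 1 < p)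
    (hpN : ¬ p ∣ N) (hpφ : ¬ p ∣ N.totient)
    {E : Type} [NormedField E] [IsUltrametricDist E] [CompleteSpace E] [NormedAlgebra ℚ_[p] E]
    (V : GQ →* GL (Fin 2) E) (hV : Continuous V) (hunr : UnrOut (N * p) V) (heven : IsEven V)
    (α β : (ZMod N)ˣ →* Eˣ) (k : ℕ) (hred : ∀ (g : GQ) (a : (ZMod N)ˣ) (b : ℕ),
      ActsAs N g (a : ZMod N).val → ActsAs p g b →
        ‖tr V g - (b : E) ^ k * (α a + β a * (b : E) ^ n)‖ < 1)
    (hT : ‖(TT N n (β / α) : E)‖ = 1) : HasLine V := by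
  have hpp : p.Prime := Fact.out
  have hNp : NeZero (N * p) := ⟨mul_ne_zero (NeZero.ne N) hpp.ne_zero⟩
  obtain ⟨g, hg⟩ := IsCyclic.exists_generator (α := (ZMod p)ˣ)
  have hord : orderOf g = p - 1 := by
    rw [orderOf_eq_card_of_forall_mem_zpowers hg, Nat.card_eq_fintype_card,
      ZMod.card_units_eq_totient, Nat.totient_prime hpp]
  have co : N.Coprime p := ((Nat.Prime.coprime_iff_not_dvd hpp).2 hpN).symm
  obtain ⟨c, hcN, hcp, hclt⟩ : ∃ c : ℕ, c ≡ 1 [MOD N] ∧ c ≡ (g : ZMod p).val [MOD p] ∧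
      c < N * p := by
    refine ⟨Nat.chineseRemainder co 1 (g : ZMod p).val, (Nat.chineseRemainder co _ _).2.1,
      (Nat.chineseRemainder co _ _).2.2, ?_⟩
    exact Nat.chineseRemainder_lt_mul co _ _ (NeZero.ne N) hpp.ne_zero
  have hcast : (c : ZMod p) = (g : ZMod p) := by
    have h1 := (ZMod.natCast_eq_natCast_iff _ _ _).2 hcp
    rw [h1, ZMod.natCast_zmod_val]
  have hpc : ¬ p ∣ c := by
    intro h
    rw [← ZMod.natCast_eq_zero_iff, hcast] at h
    exact g.ne_zero h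
  have hpow : ∀ i : ℕ, 0 < i → i < p - 1 → ¬ p ∣ c ^ i - 1 := by
    intro i hi hi' h
    have hc0 : 0 < c := Nat.pos_of_ne_zero (by rintro rfl; exact hpc (dvd_zero p))
    rw [← ZMod.natCast_eq_zero_iff, Nat.cast_sub (Nat.one_le_pow _ _ hc0), Nat.cast_pow, hcast,
      Nat.cast_one, sub_eq_zero] at h
    have h2 : g ^ i = 1 := by
      ext
      rw [Units.val_pow_eq_pow_val, h, Units.val_one]
    have h3 := orderOf_dvd_of_pow_eq_one h2
    rw [hord] at h3
    exact absurd (Nat.le_of_dvd hi h3) (not_le.2 hi')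
  have hc1 : 1 < c := by
    rcases Nat.lt_trichotomy c 1 with h | h | h
    · exfalso
      have h0 : c = 0 := by omega
      rw [h0] at hpc
      exact hpc (dvd_zero p)
    · exfalso
      have h1 := hpow 1 one_pos (by omega)
      rw [h] at h1
      exact h1 (by norm_num)
    · exact h
  refine redCore n N p c (by omega) hnp hpN hc1 hclt
    (by rw [Nat.Coprime, hcN.gcd_eq, Nat.gcd_one_left]) hpc V hV hunr heven α β k hred ?_ ?_
  · intro K _ _ _ P hP hPℓ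
    exact locTT N n p hn hnp hpN hpφ K (β / α) hT P hP hPℓ
  · intro _
    exact uu_norm2 N n p c hn hnp hpN hcN hpc (hpow n (by omega) (by omega)) (β / α) hT

theorem not_dvd_of_acts (p : ℕ) [Fact p.Prime] (g : GQ) (b : ℕ) (h : ActsAs p g b) :
    ¬ p ∣ b := by
  have hpp : p.Prime := Fact.out
  rintro ⟨c, rfl⟩
  obtain ⟨ζ, hζ⟩ : ∃ ζ : Qb, IsPrimitiveRoot ζ p :=
    HasEnoughRootsOfUnity.exists_primitiveRoot Qb p
  have h1 := h ζ hζ.pow_eq_one
  rw [pow_mul, hζ.pow_eq_one, one_pow] at h1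
  have h2 : ζ = 1 := g.injective (by rw [h1, map_one])
  rw [h2] at hζ
  exact hpp.one_lt.ne' (hζ.unique IsPrimitiveRoot.one)

theorem redSwap (n N p : ℕ) [Fact p.Prime] (hnp : n + 1 < p)
    {E : Type} [NormedField E] [IsUltrametricDist E] [NormedAlgebra ℚ_[p] E]
    (V : GQ →* GL (Fin 2) E)
    (α β : (ZMod N)ˣ →* Eˣ) (k : ℕ) (hα : ∀ a, ‖(α a : E)‖ = 1)
    (hred : ∀ (g : GQ) (a : (ZMod N)ˣ) (b : ℕ),
      ActsAs N g (a : ZMod N).val → ActsAs p g b →
        ‖tr V g - (b : E) ^ k * (α a + β a * (b : E) ^ n)‖ < 1) (g : GQ) (a : (ZMod N)ˣ) (b : ℕ)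
    (h1 : ActsAs N g (a : ZMod N).val) (h2 : ActsAs p g b) :
    ‖tr V g - (b : E) ^ (k + n) * (β a + α a * (b : E) ^ (p - 1 - n))‖ < 1 := by
  have hb := not_dvd_of_acts p g b h2
  have hb1 : Cg ((b : E) ^ (p - 1)) 1 := by
    have h3 : (p : ℕ) ∣ b ^ (p - 1) - 1 := by
      have h4 : (b : ZMod p) ≠ 0 := by
        rw [Ne, ZMod.natCast_eq_zero_iff]
        exact hb
      have h5 := ZMod.pow_card_sub_one_eq_one h4
      rw [← ZMod.natCast_eq_zero_iff, Nat.cast_sub (Nat.one_le_pow _ _ (Nat.pos_of_ne_zero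
        (by rintro rfl; exact hb (dvd_zero p)))), Nat.cast_pow, h5, Nat.cast_one, sub_self]
    rw [Cg]
    have h4 := (norm_natCast_lt_one_iff (p := p) (E := E) _).2 h3
    rwa [Nat.cast_sub (Nat.one_le_pow _ _ (Nat.pos_of_ne_zero
        (by rintro rfl; exact hb (dvd_zero p)))), Nat.cast_pow, Nat.cast_one] at h4
  have h3 : Cg (tr V g) ((b : E) ^ k * (α a + β a * (b : E) ^ n)) := hred g a b h1 h2
  refine h3.trans ?_
  have e1 : (b : E) ^ (k + n) * (β a + α a * (b : E) ^ (p - 1 - n)) =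
      (b : E) ^ (k + n) * β a + (b : E) ^ k * α a * (b : E) ^ (p - 1) := by
    have e2 : (b : E) ^ (p - 1) = (b : E) ^ n * (b : E) ^ (p - 1 - n) := by
      rw [← pow_add]
      congr 1
      omega
    rw [e2]
    ring
  have e3 : (b : E) ^ k * (α a + β a * (b : E) ^ n) =
      (b : E) ^ (k + n) * β a + (b : E) ^ k * α a * 1 := by ring
  rw [e1, e3]
  refine Cg.add Cg.rfl (Cg.mul Cg.rfl hb1.symm ?_ ?_)
  · rw [norm_mul, hα, mul_one, norm_pow]
    exact pow_le_one₀ (norm_nonneg _) (norm_natCast_le_one _)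
  · rw [norm_pow]
    exact pow_le_one₀ (norm_nonneg _) (norm_natCast_le_one _)

end Pool.Agent.AAP
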