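import Pool.Agent.AAP.Tame

/-!
# Inertia of finite order prime to `p` at one prime ideal

The same proof as in `Tame.lean`.
-/

open NumberField Pointwise Matrix

namespace Pool.Agent.AAP

open Pool.Agent.Helper60.FM

theorem one_of_tame (n N p : ℕ) [NeZero N] [Fact p.Prime] (hp : 2 < p) {E : Type*}
    [NormedField E] [IsUltrametricDist E] [NormedAlgebra ℚ_[p] E] (V : GQ →* GL (Fin 2) E)
    (hred : Red p n N V) (𝔓 : Ideal ZQ) (hP : 𝔓.IsPrime) (hm : ((N * p : ℕ) : ZQ) ∉ 𝔓) (g : GQ)
    (hg : g ∈ In 𝔓) (k : ℕ) (hk : ¬ p ∣ k) (hkV : V g ^ k = 1) : V g = 1 := by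
  obtain ⟨α, β, j, hred⟩ := hred
  have h2 : ‖(2 : E)‖ = 1 := by
    have h1 := norm_natCast_eq_one (p := p) (E := E) (n := 2)
      (fun h => by have := Nat.le_of_dvd (by norm_num) h; omega)
    exact_mod_cast h1
  have hN : (N : ZQ) ∉ 𝔓 := by
    intro h1
    apply hm
    rw [Nat.cast_mul]
    exact 𝔓.mul_mem_right _ h1
  have hpP : (p : ZQ) ∉ 𝔓 := by
    intro h1
    apply hm
    rw [Nat.cast_mul]
    exact 𝔓.mul_mem_left _ h1
  -- traces
  have htr : ∀ g ∈ In 𝔓, ‖tr V g - 2‖ < 1 := by
    intro g hg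
    have h1 : ActsAs N g (((1 : (ZMod N)ˣ) : ZMod N)).val := by
      intro ζ hζ
      rw [fix_root hP hN hg ζ hζ]
      rw [Units.val_one]
      rcases Nat.lt_or_ge 1 N with h3 | h3
      · have : Fact (1 < N) := ⟨h3⟩
        rw [ZMod.val_one, pow_one]
      · have h4 : N = 1 := le_antisymm h3 (Nat.pos_of_ne_zero (NeZero.ne N))
        subst h4
        rw [pow_one] at hζ
        rw [hζ, one_pow]
    have h3 : ActsAs p g 1 := by
      intro ζ hζ
      rw [fix_root hP hpP hg ζ hζ, pow_one]
    have h4 := hred g 1 1 h1 h3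
    rw [map_one, map_one, Units.val_one, Nat.cast_one, one_pow, one_pow, one_mul, one_mul] at h4
    have h5 : (1 : E) + 1 = 2 := by norm_num
    rw [h5] at h4
    exact h4
  set A : Matrix (Fin 2) (Fin 2) E := (V g : Matrix (Fin 2) (Fin 2) E) with hA
  have hs : ‖tr V g - 2‖ < 1 := htr g hg
  have hs2 : ‖trace (A * A) - 2‖ < 1 := by
    have h3 := htr (g * g) ((In 𝔓).mul_mem hg hg)
    have h4 : tr V (g * g) = trace (A * A) := by
      change trace (V (g * g) : Matrix (Fin 2) (Fin 2) E) = _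
      rw [map_mul, Units.val_mul]
    rw [h4] at h3
    exact h3
  have htA : ‖trace A - 2‖ < 1 := hs
  have e1 := trace_mul_self A
  have hdet : ‖det A - 1‖ < 1 := by
    have h3 : 2 * (det A - 1) = (trace A - 2) * (trace A + 2) - (trace (A * A) - 2) := by
      rw [e1]
      ring
    have h4 : ‖2 * (det A - 1)‖ < 1 := by
      rw [h3]
      have h5 : ‖trace A + 2‖ ≤ 1 := by
        have h6 : trace A + 2 = (trace A - 2) + (2 + 2) := by ring
        rw [h6]
        exact norm_add_le_one E htA.le (norm_add_le_one E h2.le h2.le)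
      have h7 : ‖(trace A - 2) * (trace A + 2)‖ < 1 := by
        rw [norm_mul]
        exact mul_lt_one_of_nonneg_of_lt_one_left (norm_nonneg _) htA h5
      rw [sub_eq_add_neg]
      exact norm_add_lt_one E h7 (by rw [norm_neg]; exact hs2)
    rwa [norm_mul, h2, one_mul] at h4
  have hCH : (A - 1) * (A - 1) = (trace A - 2) • (A - 1) -
      (1 - trace A + det A) • (1 : Matrix (Fin 2) (Fin 2) E) := by
    have h3 : A * A = trace A • A - det A • (1 : Matrix (Fin 2) (Fin 2) E) := by
      ext i j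
      rw [Matrix.trace_fin_two, Matrix.det_fin_two]
      fin_cases i <;> fin_cases j <;>
        simp [Matrix.mul_apply, Fin.sum_univ_two] <;> ring
    have h4 : (A - 1) * (A - 1) = A * A - A - A + 1 := by noncomm_ring
    rw [h4, h3]
    module
  have ht : ‖1 - trace A + det A‖ < 1 := by
    have h3 : 1 - trace A + det A = (det A - 1) + -(trace A - 2) := by ring
    rw [h3]
    exact norm_add_lt_one E hdet (by rw [norm_neg]; exact htA)
  have hkn : ‖(k : E)‖ = 1 := norm_natCast_eq_one (p := p) hk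
  have h3 := mat_eq_one hkn A (trace A - 2) (1 - trace A + det A) htA ht hCH (by
    rw [hA, ← Units.val_pow_eq_pow_val, hkV, Units.val_one])
  exact Units.ext h3

end Pool.Agent.AAP
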