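import Pool.Agent.AAP.DefsE
import Pool.Agent.AAP.Lift

/-!
# The two definitions of unramified at one prime

The same proof as in `Unr.lean`.
-/

open NumberField Pointwise

namespace Pool.Agent.AAP

open Pool.Agent.Helper60.FM

private theorem unrB_injective (F : IntermediateField ℚ Qb) : Function.Injective (toZ F) := by
  intro x y h
  have h1 : ((x : F) : Qb) = ((y : F) : Qb) := by
    rw [← coe_toZ, ← coe_toZ, h]
  exact RingOfIntegers.ext (Subtype.ext h1)

private theorem unrB_integral (F : IntermediateField ℚ Qb) : (toZ F).IsIntegral := by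
  intro z
  have h1 : IsIntegral ℤ z := integralClosure.isIntegral z
  obtain ⟨p, hp, hz⟩ := h1
  refine ⟨p.map (algebraMap ℤ (𝓞 F)), hp.map _, ?_⟩
  rw [Polynomial.eval₂_map, RingHom.ext_int ((toZ F).comp (algebraMap ℤ (𝓞 F))) (algebraMap ℤ ZQ)]
  exact hz

/-- a prime of `ZQ` over a prime of the ring of integers of a subfield -/
private theorem unrB_over (F : IntermediateField ℚ Qb) (P : Ideal (𝓞 F)) (hP : P.IsPrime) :
    ∃ 𝔓 : Ideal ZQ, 𝔓.IsPrime ∧ Over F 𝔓 P := by
  let _ : Algebra (𝓞 F) ZQ := (toZ F).toAlgebra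
  have _ : Algebra.IsIntegral (𝓞 F) ZQ := ⟨fun z => unrB_integral F z⟩
  have hker : RingHom.ker (algebraMap (𝓞 F) ZQ) ≤ P := by
    have h1 : RingHom.ker (algebraMap (𝓞 F) ZQ) = ⊥ :=
      (RingHom.injective_iff_ker_eq_bot _).mp (unrB_injective F)
    rw [h1]
    exact bot_le
  obtain ⟨Q, hQ, hQ2⟩ := Ideal.exists_ideal_over_prime_of_isIntegral_of_isDomain P hker
  refine ⟨Q, hQ, fun x => ?_⟩
  rw [← hQ2]
  rfl

theorem unramAt_of_pt {H : Type*} [Group H] (V : GQ →* H) (ℓ : ℕ)
    (hV : ∀ 𝔓 : Ideal ZQ, 𝔓.IsPrime → (ℓ : ZQ) ∈ 𝔓 → ∀ g ∈ In 𝔓, V g = 1) : UnramAt V ℓ := by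
  intro M hfd hgal hker P hP hℓP σ hσ
  have hnorm : Normal ℚ M := hgal.to_normal
  obtain ⟨𝔓, hPP, hov⟩ := unrB_over M P hP
  have hsurj : Function.Surjective (res M) := AlgEquiv.restrictNormalHom_surjective Qb
  obtain ⟨h, hh⟩ := hsurj σ
  have hhx : ∀ x : M, h (x : Qb) = ((σ x : M) : Qb) := by
    intro x
    have hx : ((res M h x : M) : Qb) = h (x : Qb) := AlgEquiv.restrictNormal_commutes h M x
    rw [← hh]
    exact hx.symm
  have hkerM : (res M).ker = M.fixingSubgroup := by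
    have hcomm : ∀ (g : GQ) (x : M), ((res M g x : M) : Qb) = g (x : Qb) := fun g x =>
      AlgEquiv.restrictNormal_commutes g M x
    ext g
    rw [MonoidHom.mem_ker, IntermediateField.mem_fixingSubgroup_iff]
    constructor
    · intro hg x hx
      have h1 := hcomm g ⟨x, hx⟩
      rw [hg] at h1
      exact h1.symm
    · intro hg
      apply AlgEquiv.ext
      intro x
      apply Subtype.ext
      rw [hcomm]
      exact hg (x : Qb) x.2
  have hcoe : ∀ (y : 𝓞 M), toZ M (σ • y) = h • toZ M y := by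
    intro y
    apply Subtype.ext
    rw [coe_toZ]
    exact (hhx (y : M)).symm
  have hlift := lift_inertia M.fixingSubgroup (IntermediateField.fixingSubgroup_isClosed M) 𝔓 hPP h
    (fun k hk => by
      rw [← hkerM] at hk ⊢
      exact (MonoidHom.normal_ker (res M)).conj_mem k hk h)
    (fun k hk => by
      rw [← hkerM] at hk ⊢
      have := (MonoidHom.normal_ker (res M)).conj_mem k hk h⁻¹
      rwa [inv_inv] at this)
    (fun x hx => by
      have h1 : (x : Qb) ∈ IntermediateField.fixedField M.fixingSubgroup := by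
        rw [IntermediateField.mem_fixedField_iff]
        intro f hf
        exact congrArg Subtype.val (hx f hf)
      rw [InfiniteGalois.fixedField_fixingSubgroup] at h1
      have h2 : IsIntegral ℤ (⟨(x : Qb), h1⟩ : M) := by
        have h3 : IsIntegral ℤ (x : Qb) := x.2
        exact (isIntegral_algHom_iff (M.val.toRingHom.toIntAlgHom) Subtype.val_injective).mp h3
      set y : 𝓞 M := ⟨⟨(x : Qb), h1⟩, h2⟩ with hy
      have h3 : x = toZ M y := Subtype.ext rfl
      rw [h3, ← hcoe, ← map_sub]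
      exact (hov _).mpr (hσ y))
  obtain ⟨k, hk, hhk⟩ := hlift
  have hℓ𝔓 : (ℓ : ZQ) ∈ 𝔓 := by
    have h1 : toZ M (ℓ : 𝓞 M) = (ℓ : ZQ) := map_natCast _ _
    rw [← h1]
    exact (hov _).mpr hℓP
  have h1 : V (h * k) = 1 := hV 𝔓 hPP hℓ𝔓 _ hhk
  have h2 : h * k ∈ M.fixingSubgroup := hker (MonoidHom.mem_ker.mpr h1)
  rw [← hkerM] at h2 hk
  have h3 : res M (h * k) = 1 := MonoidHom.mem_ker.mp h2
  rw [map_mul, MonoidHom.mem_ker.mp hk, mul_one] at h3
  rw [← hh]
  exact h3

end Pool.Agent.AAP
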