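import Pool.Agent.AAP.RedE
import Pool.Agent.AAP.RedD
import Pool.Agent.AAP.UnrB
import Pool.Agent.AAP.TameB

/-!
# Even Galois representations: the criterion, with arbitrary ramification at most primes
-/

open NumberField Pointwise Matrix

namespace Pool.Agent.AAP

open Pool.Agent.Helper60.FM

/-- Frobenius at a prime not dividing `N p` -/
theorem locFrob (n N p : ℕ) [NeZero N] [NeZero (N * p)] [Fact p.Prime]
    {E : Type} [NormedField E] [IsUltrametricDist E] [NormedAlgebra ℚ_[p] E]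
    (α β : (ZMod N)ˣ →* Eˣ) (ℓ : ℕ) (hℓ : ℓ.Prime) (hm : ¬ ℓ ∣ N * p) (a : (ZMod N)ˣ)
    (ha : (a : ZMod N) = ℓ) (h : 1 ≤ ‖(β a : E) * (ℓ : E) ^ (n - 1) - α a‖)
    (K : Type) [Field K] [NumberField K] [IsCyclotomicExtension {N * p} ℚ K]
    (P : Ideal (𝓞 K)) (hP : P.IsPrime) (hℓP : (ℓ : 𝓞 K) ∈ P) :
    ∃ σ : Gal(K/ℚ), σ • P = P ∧
      1 ≤ ‖((β / α) (ZMod.unitsMap (dvd_mul_right N p) (gq (N * p) K σ)) : E) *
        (((gq (N * p) K σ : (ZMod (N * p))ˣ) : ZMod (N * p)).val : E) ^ (n - 1) - 1‖ := by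
  have hp1 : ‖(p : E)‖ < 1 := (norm_natCast_lt_one_iff (p := p) p).2 dvd_rfl
  have hco : ℓ.Coprime (N * p) := (Nat.Prime.coprime_iff_not_dvd hℓ).2 hm
  obtain ⟨σ, hσ⟩ := (gq (N * p) K).surjective (ZMod.unitOfCoprime ℓ hco)
  refine ⟨σ, ?_, ?_⟩
  · refine stabP (N * p) ℓ 0 (N * p) 1 hℓ (by rw [pow_zero, one_mul]) hco K σ ?_ P hP hℓP
    rw [hσ, ZMod.coe_unitOfCoprime, ZMod.natCast_val, ZMod.cast_id, pow_one]
  · rw [hσ]
    have h1 : ZMod.unitsMap (dvd_mul_right N p) (ZMod.unitOfCoprime ℓ hco) = a := by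
      ext
      rw [ZMod.unitsMap_val, ZMod.coe_unitOfCoprime, ZMod.cast_natCast (dvd_mul_right N p), ha]
    have h2 : Cg (((((ZMod.unitOfCoprime ℓ hco : (ZMod (N * p))ˣ) : ZMod (N * p)).val : ℕ)) : E)
        (ℓ : E) := by
      rw [ZMod.coe_unitOfCoprime, ZMod.val_natCast]
      have h3 : ((ℓ % (N * p) : ℕ) : E) - (ℓ : E) = (p : E) * (-((N * (ℓ / (N * p)) : ℕ) : E)) := by
        have h4 : (ℓ : E) = ((N * p * (ℓ / (N * p)) + ℓ % (N * p) : ℕ) : E) := by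
          rw [Nat.div_add_mod]
        conv_lhs => rw [h4]
        push_cast
        ring
      rw [Cg, h3, norm_mul, norm_neg]
      exact mul_lt_one_of_nonneg_of_lt_one_left (norm_nonneg _) hp1 (norm_natCast_le_one _)
    rw [h1]
    set v : E := (((((ZMod.unitOfCoprime ℓ hco : (ZMod (N * p))ˣ) : ZMod (N * p)).val : ℕ)) : E)
      with hv
    by_contra hcon
    rw [not_le] at hcon
    apply absurd h
    rw [not_le]
    have hχ : ((β / α) a : E) * α a = β a := by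
      change ((β a / α a : Eˣ) : E) * α a = β a
      rw [← Units.val_mul, div_mul_cancel]
    have h5 : Cg (((β / α) a : E) * (ℓ : E) ^ (n - 1)) 1 := by
      refine Cg.trans (Cg.mul Cg.rfl (Cg.pow h2.symm (norm_natCast_le_one _) _)
        (norm_chi _ _).le ?_) hcon
      rw [norm_pow]
      exact pow_le_one₀ (norm_nonneg _) (norm_natCast_le_one _)
    have h6 : Cg (α a * (((β / α) a : E) * (ℓ : E) ^ (n - 1))) (α a * 1) := by
      refine Cg.mul Cg.rfl h5 (norm_chi α _).le ?_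
      rw [norm_one]
    have h7 : (α a : E) * (((β / α) a : E) * (ℓ : E) ^ (n - 1)) = β a * (ℓ : E) ^ (n - 1) := by
      rw [← hχ]
      ring
    rw [h7, mul_one] at h6
    exact h6

theorem redCritS (n N p : ℕ) [NeZero N] [Fact p.Prime] (hn : 2 ≤ n) (hnp : n + 1 < p)
    (hpN : ¬ p ∣ N) (hpφ : ¬ p ∣ N.totient)
    {E : Type} [NormedField E] [IsUltrametricDist E] [CompleteSpace E] [NormedAlgebra ℚ_[p] E]
    (V : GQ →* GL (Fin 2) E) (hV : Continuous V) (heven : IsEven V)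
    (α β : (ZMod N)ˣ →* Eˣ) (k : ℕ) (hred : ∀ (g : GQ) (a : (ZMod N)ˣ) (b : ℕ),
      ActsAs N g (a : ZMod N).val → ActsAs p g b →
        ‖tr V g - (b : E) ^ k * (α a + β a * (b : E) ^ n)‖ < 1)
    (htame : ∀ (ℓ : ℕ) (a : (ZMod N)ˣ), ℓ.Prime → ℓ ≠ p → (a : ZMod N) = ℓ →
      ‖(β a : E) * (ℓ : E) ^ (n - 1) - α a‖ < 1 → ∀ 𝔓 : Ideal ZQ, 𝔓.IsPrime → (ℓ : ZQ) ∈ 𝔓 →
        ∀ g ∈ In 𝔓, ∃ m : ℕ, ¬ p ∣ m ∧ V g ^ m = 1)
    (hT : ‖(TT N n (β / α) : E)‖ = 1) : HasLine V := by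
  classical
  have hpp : p.Prime := Fact.out
  have hNp : NeZero (N * p) := ⟨mul_ne_zero (NeZero.ne N) hpp.ne_zero⟩
  obtain ⟨g, hg⟩ := IsCyclic.exists_generator (α := (ZMod p)ˣ)
  have hord : orderOf g = p - 1 := by
    rw [orderOf_eq_card_of_forall_mem_zpowers hg, Nat.card_eq_fintype_card,
      ZMod.card_units_eq_totient, Nat.totient_prime hpp]
  have co : N.Coprime p := ((Nat.Prime.coprime_iff_not_dvd hpp).2 hpN).symm
  obtain ⟨c, hcN, hcp, hclt⟩ : ∃ c : ℕ, c ≡ 1 [MOD N] ∧ c ≡ (g : ZMod p).val [MOD p] ∧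
      c < N * p := by
    refine ⟨Nat.chineseRemainder co 1 (g : ZMod p).val, (Nat.chineseRemainder co _ _).2.1,
      (Nat.chineseRemainder co _ _).2.2, ?_⟩
    exact Nat.chineseRemainder_lt_mul co _ _ (NeZero.ne N) hpp.ne_zero
  have hcast : (c : ZMod p) = (g : ZMod p) := by
    have h1 := (ZMod.natCast_eq_natCast_iff _ _ _).2 hcp
    rw [h1, ZMod.natCast_zmod_val]
  have hpc : ¬ p ∣ c := by
    intro h
    rw [← ZMod.natCast_eq_zero_iff, hcast] at h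
    exact g.ne_zero h
  have hpow : ∀ i : ℕ, 0 < i → i < p - 1 → ¬ p ∣ c ^ i - 1 := by
    intro i hi hi' h
    have hc0 : 0 < c := Nat.pos_of_ne_zero (by rintro rfl; exact hpc (dvd_zero p))
    rw [← ZMod.natCast_eq_zero_iff, Nat.cast_sub (Nat.one_le_pow _ _ hc0), Nat.cast_pow, hcast,
      Nat.cast_one, sub_eq_zero] at h
    have h2 : g ^ i = 1 := by
      ext
      rw [Units.val_pow_eq_pow_val, h, Units.val_one]
    have h3 := orderOf_dvd_of_pow_eq_one h2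
    rw [hord] at h3
    exact absurd (Nat.le_of_dvd hi h3) (not_le.2 hi')
  have hc1 : 1 < c := by
    rcases Nat.lt_trichotomy c 1 with h | h | h
    · exfalso
      have h0 : c = 0 := by omega
      rw [h0] at hpc
      exact hpc (dvd_zero p)
    · exfalso
      have h1 := hpow 1 one_pos (by omega)
      rw [h] at h1
      exact h1 (by norm_num)
    · exact h
  refine redCoreS n N p c (by omega) hnp hpN hc1 hclt
    (by rw [Nat.Coprime, hcN.gcd_eq, Nat.gcd_one_left]) hpc V hV heven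
    ({ℓ | ℓ ∣ N * p} ∪ {ℓ | ℓ.Prime ∧ ∃ a : (ZMod N)ˣ, (a : ZMod N) = ℓ ∧
      1 ≤ ‖(β a : E) * (ℓ : E) ^ (n - 1) - α a‖}) ?_ α β k hred ?_ ?_
  · intro ℓ hℓ hℓS
    rw [Set.mem_union, not_or] at hℓS
    obtain ⟨h1, h2⟩ := hℓS
    have h1' : ¬ ℓ ∣ N * p := h1
    have hℓN : ℓ.Coprime N := (Nat.Prime.coprime_iff_not_dvd hℓ).2
      fun h => h1' (h.mul_right p)
    have hℓp : ℓ ≠ p := by
      rintro rfl
      exact h1' (dvd_mul_left _ _)
    have h3 : ‖(β (ZMod.unitOfCoprime ℓ hℓN) : E) * (ℓ : E) ^ (n - 1) -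
        α (ZMod.unitOfCoprime ℓ hℓN)‖ < 1 := by
      by_contra hcon
      rw [not_lt] at hcon
      exact h2 ⟨hℓ, _, ZMod.coe_unitOfCoprime ℓ hℓN, hcon⟩
    refine unramAt_of_pt V ℓ ?_
    intro 𝔓 hP hℓP g hg
    obtain ⟨m, hm, hmV⟩ := htame ℓ _ hℓ hℓp (ZMod.coe_unitOfCoprime ℓ hℓN) h3 𝔓 hP hℓP g hg
    refine one_of_tame n N p (by omega) V ⟨α, β, k, hred⟩ 𝔓 hP ?_ g hg m hm hmV
    intro hmem
    have h4 : IsCoprime (ℓ : ℤ) ((N * p : ℕ) : ℤ) := Nat.isCoprime_iff_coprime.mpr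
      ((Nat.Prime.coprime_iff_not_dvd hℓ).mpr h1')
    obtain ⟨a, b, hab⟩ := h4
    have h5 : (1 : ZQ) ∈ 𝔓 := by
      have h6 : (1 : ZQ) = (a : ZQ) * (ℓ : ZQ) + (b : ZQ) * ((N * p : ℕ) : ZQ) := by
        exact_mod_cast congrArg (fun z : ℤ => (z : ZQ)) hab.symm
      rw [h6]
      exact 𝔓.add_mem (𝔓.mul_mem_left _ hℓP) (𝔓.mul_mem_left _ hmem)
    exact hP.ne_top ((Ideal.eq_top_iff_one 𝔓).mpr h5)
  · intro K _ _ _ P hP hPS
    obtain ⟨ℓ, hℓS, hℓP⟩ := hPS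
    by_cases hdv : ℓ ∣ N * p
    · have h1 : ∃ ℓ : ℕ, ℓ.Prime ∧ ℓ ∣ N * p ∧ (ℓ : 𝓞 K) ∈ P := by
        have h2 : ((∏ q ∈ (N * p).primeFactorsList.toFinset,
            q ^ (N * p).factorization q : ℕ) : 𝓞 K) ∈ P := by
          have h3 : ∏ q ∈ (N * p).primeFactorsList.toFinset, q ^ (N * p).factorization q =
              N * p := Nat.prod_factorization_pow_eq_self (NeZero.ne _)
          rw [h3]
          obtain ⟨e, he⟩ := hdv
          rw [he, Nat.cast_mul]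
          exact Ideal.mul_mem_right _ _ hℓP
        rw [Nat.cast_prod] at h2
        obtain ⟨q, hq, hqP⟩ := (Ideal.IsPrime.prod_mem_iff (hp := hP)).1 h2
        rw [Nat.cast_pow] at hqP
        rw [List.mem_toFinset] at hq
        exact ⟨q, Nat.prime_of_mem_primeFactorsList hq, Nat.dvd_of_mem_primeFactorsList hq,
          hP.mem_of_pow_mem _ hqP⟩
      exact locTT N n p hn hnp hpN hpφ K (β / α) hT P hP h1
    · rcases hℓS with h | h
      · exact absurd h hdv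
      · obtain ⟨hℓ, a, ha, ha1⟩ := h
        exact locFrob n N p α β ℓ hℓ hdv a ha ha1 K P hP hℓP
  · intro _
    exact uu_norm2 N n p c hn hnp hpN hcN hpc (hpow n (by omega) (by omega)) (β / α) hT

end Pool.Agent.AAP
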