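import Pool.Agent.AAP.Stmt

/-!
# Even Galois representations at almost all primes: definitions of the statement, second part
-/

open Matrix

namespace Pool.Agent.AAP

variable {E : Type} [NormedField E]

/-- the semisimple reduction of `V` is `ω ^ j ⊗ (α ⊕ β ω ^ n)`, with `ω` the cyclotomic character
modulo `p` -/
def SumType (p n N : ℕ) (α β : (ZMod N)ˣ →* Eˣ) (j : ℕ) (V : Gam →* GL2 E) : Prop :=
  ∀ (g : Gam) (a : (ZMod N)ˣ) (b : ℕ), Acts N g (a : ZMod N).val → Acts p g b →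
    Equ (trc V g) ((b : E) ^ j * (α a + β a * (b : E) ^ n))

/-- at all primes `𝔓` of the ring of all algebraic integers which contain `ℓ`, the elements of the
inertia group act on `V` with finite order prime to `p` -/
def TameAt (p ℓ : ℕ) (V : Gam →* GL2 E) : Prop :=
  ∀ 𝔓 : Ideal AI, 𝔓.IsPrime → (ℓ : AI) ∈ 𝔓 → ∀ g, Iner 𝔓 g → ∃ k : ℕ, ¬ p ∣ k ∧ V g ^ k = 1

/-- the semisimple reduction of `V` is `ω ^ j ⊗ (α ⊕ β ω ^ n)` with `α`, `β` characters modulo `N`,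
and `V` is `TameAt` all primes `ℓ` not dividing `N p` with `β(ℓ) ℓ ^ (n - 1) ≡ α(ℓ)` -/
def ReducibleType (p n N : ℕ) (V : Gam →* GL2 E) : Prop :=
  ∃ (α β : (ZMod N)ˣ →* Eˣ) (j : ℕ), SumType p n N α β j V ∧
    ∀ (ℓ : ℕ) (a : (ZMod N)ˣ), ℓ.Prime → ℓ ≠ p → (a : ZMod N) = ℓ →
      Equ (β a * (ℓ : E) ^ (n - 1)) (α a : E) → TameAt p ℓ V

end Pool.Agent.AAP
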