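import Pool.Agent.AAP.MainQ
import Pool.Agent.AAP.RedF
import Pool.Agent.AAP.Stmt2

/-!
# Even Galois representations at almost all primes, with arbitrary ramification at most primes
-/

open NumberField Pointwise Matrix Nat

namespace Pool.Agent.AAP

open Pool.Agent.Helper60.FM

theorem redMainR (N : ℕ) (hN : 1 ≤ N) : ∃ F : ℕ → ℕ, Bd F ∧ ∀ n, 2 ≤ n → F n ≠ 0 ∧
    ∀ (p : ℕ) [Fact p.Prime], 2 < p → ¬ p ∣ F n → ∀ (E : Type) [NormedField E]
      [IsUltrametricDist E] [CompleteSpace E] [NormedAlgebra ℚ_[p] E] (V : Gam →* GL2 E),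
        Continuous V → Even2 V → ReducibleType p n N V → Line V := by
  classical
  have hNZ : NeZero N := ⟨by omega⟩
  obtain ⟨F, hF, hF'⟩ := finQ N
  refine ⟨fun n => F n * ((1 * n + 1)! * (N * N.totient)), ?_, ?_⟩
  · exact hF.mul ((Bd.fact 1 1).mul (Bd.const _))
  · intro n hn
    have hφ : 0 < N.totient := Nat.totient_pos.2 (by omega)
    refine ⟨mul_ne_zero (hF' n hn).1 (mul_ne_zero (Nat.factorial_ne_zero _)
      (mul_ne_zero (by omega) hφ.ne')), ?_⟩
    intro p _ hp2 hp E _ _ _ _ V hV heven hred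
    have hpp : p.Prime := Fact.out
    rw [hpp.dvd_mul, hpp.dvd_mul, hpp.dvd_mul, not_or, not_or, not_or] at hp
    obtain ⟨h1, h2, h3, h4⟩ := hp
    have hp1 : n + 1 < p := by
      by_contra hcon
      exact h2 (Nat.dvd_factorial hpp.pos (by omega))
    obtain ⟨α, β, k, hred, htame⟩ := hred
    have hV' : Continuous (old V) := hV
    have heven' : IsEven (old V) := heven
    have hred' : ∀ (g : GQ) (a : (ZMod N)ˣ) (b : ℕ), ActsAs N g (a : ZMod N).val → ActsAs p g b →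
        ‖tr (old V) g - (b : E) ^ k * (α a + β a * (b : E) ^ n)‖ < 1 := hred
    have hpar := parity n N p hp2 (old V) heven' α β k hred'
    refine redCritS n N p hn hp1 h3 h4 (old V) hV' heven' α β k hred' ?_
      ((hF' n hn).2 p h1 E (β / α) hpar)
    intro ℓ a hℓ hℓp ha h 𝔓 hP hℓP g hg
    exact htame ℓ a hℓ hℓp ha h 𝔓 hP hℓP g ((iner_iff 𝔓 (g : Gam)).2 hg)

theorem mainThmR (N : ℕ) (hN : 1 ≤ N) : ∃ C : ℕ, ∀ n : ℕ, 2 ≤ n → ∃ M : ℕ,
    0 < M ∧ M ≤ (C * n) ^ (C * n) ∧ ∀ (p : ℕ) [Fact p.Prime], ¬ p ∣ M →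
      ∀ (E : Type) [NormedField E] [IsUltrametricDist E] [CompleteSpace E] [NormedAlgebra ℚ_[p] E]
        (V : Gam →* GL2 E), Continuous V → Even2 V →
          (ReducibleType p n N V ∨ (DihType p N V ∧ FLType p n V)) → Line V := by
  classical
  have hNZ : NeZero N := ⟨by omega⟩
  obtain ⟨F₁, hb₁, h₁⟩ := redMainR N hN
  obtain ⟨F₂, hb₂, h₂⟩ := dihMainQ N hN
  obtain ⟨C, hC⟩ := (hb₁.mul hb₂).mul (Bd.const 2)
  refine ⟨C, fun n hn => ⟨F₁ n * F₂ n * 2, ?_, hC n (by omega), ?_⟩⟩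
  · exact Nat.pos_of_ne_zero (mul_ne_zero (mul_ne_zero (h₁ n hn).1 (h₂ n (by omega)).1) two_ne_zero)
  intro p _ hp E _ _ _ _ V hV heven h
  have hpp : p.Prime := Fact.out
  rw [hpp.dvd_mul, hpp.dvd_mul, not_or, not_or] at hp
  obtain ⟨⟨hp1, hp2⟩, hp3⟩ := hp
  have hlt : 2 < p := by
    rcases lt_or_eq_of_le hpp.two_le with h | h
    · exact h
    · exact absurd (by rw [← h]) hp3
  have heven' : IsEven (old V) := heven
  rcases h with h | ⟨hd, hf⟩
  · exact (h₁ n hn).2 p hlt hp1 E V hV heven h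
  · exact ((h₂ n (by omega)).2 p hp2 E (old V) heven' (dih_of p N V hd) (fl_of p n V hf)).elim

theorem mainThmRC (N : ℕ) (hN : 1 ≤ N) : ∃ (C : ℕ) (P : ℕ → Finset ℕ),
    (∀ n, (P n).card ≤ C * n) ∧ (∀ Y, ((Finset.Icc 2 Y).biUnion P).card ≤ C * Y ^ 2) ∧
      ∀ n, 2 ≤ n → ∀ (p : ℕ) [Fact p.Prime], p ∉ P n →
        ∀ (E : Type) [NormedField E] [IsUltrametricDist E] [CompleteSpace E]
          [NormedAlgebra ℚ_[p] E] (V : Gam →* GL2 E), Continuous V → Even2 V →
            (ReducibleType p n N V ∨ (DihType p N V ∧ FLType p n V)) → Line V := by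
  classical
  obtain ⟨C, hC⟩ := mainThmR N hN
  choose M hM0 hMC hM using hC
  have hC1 : ∀ n, 1 ≤ n → (C * n) ^ (C * n) ≤ ((C + 1) * n) ^ ((C + 1) * n) := by
    intro n hn
    rcases Nat.eq_zero_or_pos C with h | h
    · rw [h, zero_mul, pow_zero, zero_add, one_mul]
      exact Nat.one_le_pow _ _ hn
    · exact (Nat.pow_le_pow_left (Nat.mul_le_mul_right n (Nat.le_succ C)) _).trans
        (Nat.pow_le_pow_right (Nat.mul_pos (Nat.succ_pos C) hn)
          (Nat.mul_le_mul_right n (Nat.le_succ C)))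
  let P : ℕ → Finset ℕ := fun n => if h : 2 ≤ n then (M n h).primeFactors else ∅
  have hP : ∀ n, (P n).card ≤ 2 * (C + 1) * n := by
    intro n
    by_cases h : 2 ≤ n
    · have h1 : P n = (M n h).primeFactors := dif_pos h
      rw [h1, mul_assoc]
      exact (card_primeFactors_lt (M n h) ((C + 1) * n) (hM0 n h)
        (Nat.mul_pos (Nat.succ_pos C) (by omega)) ((hMC n h).trans (hC1 n (by omega)))).le
    · have h1 : P n = ∅ := dif_neg h
      rw [h1, Finset.card_empty]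
      exact Nat.zero_le _
  refine ⟨2 * (C + 1), P, hP, ?_, ?_⟩
  · intro Y
    refine Finset.card_biUnion_le.trans ?_
    refine (Finset.sum_le_card_nsmul (Finset.Icc 2 Y) (fun n => (P n).card) (2 * (C + 1) * Y)
      (fun n hn => (hP n).trans (Nat.mul_le_mul_left _ (Finset.mem_Icc.1 hn).2))).trans ?_
    rw [Nat.card_Icc, smul_eq_mul]
    calc (Y + 1 - 2) * (2 * (C + 1) * Y) ≤ Y * (2 * (C + 1) * Y) :=
          Nat.mul_le_mul_right _ (by omega)
      _ = 2 * (C + 1) * Y ^ 2 := by ring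
  · intro n hn p _ hp
    have h1 : P n = (M n hn).primeFactors := dif_pos hn
    refine hM n hn p ?_
    intro hdvd
    apply hp
    rw [h1, Nat.mem_primeFactors]
    exact ⟨Fact.out, hdvd, (hM0 n hn).ne'⟩

end Pool.Agent.AAP
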