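import Pool.Agent.AAP.Cyc

/-!
# AAP-NV (1.2h): generalized Bernoulli numbers do not vanish

`∑_r φ(r) N ^ (n-1) B_n(r/N) = - n L(φ, 1 - n)` for a Dirichlet character `φ` modulo `N` of parity
`(-1) ^ n`, `n ≥ 2`, and it is not zero.
PROOF (Mathlib): `DirichletCharacter.LFunction`/`ZMod.LFunction` at `1 - n` is
`N ^ (n-1) ∑ φ(r) ζ(1 - n, r/N)`, and `HurwitzZeta.hurwitzZeta_neg_nat` gives the Bernoulli
polynomials. Nonvanishing: for the primitive character `φ₀` of conductor `f` inducing `φ`,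
`L(φ, s) = L(φ₀, s) ∏_{ℓ ∣ N} (1 - φ₀(ℓ) ℓ ^ (-s))` (`DirichletCharacter.LFunction_changeLevel`), and
at `s = 1 - n` the factors `1 - φ₀(ℓ) ℓ ^ (n-1)` are nonzero as `n ≥ 2`. The functional equation
(`DirichletCharacter.IsPrimitive.completedLFunction_one_sub`) relates `L(φ₀, 1 - n)` to
`L(φ₀⁻¹, n) ≠ 0` (`n ≥ 2 > 1`), and the Gamma factor at `1 - n` has no pole for the parity
`(-1) ^ n` (`gammaFactor_even/odd`): the completed `L`-function at `n` is not zero.
ALTERNATIVE: Fourier series of the Bernoulli functions (Mathlib `hasSum_one_div_nat_pow_mul_fourier`)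
and Gauss sums, `|L(n, φ₀⁻¹)| ≥ 2 - ζ(2) > 0`.
-/

open NumberField

namespace Pool.Agent.AAP

open DirichletCharacter Complex

/-- the Gamma factor -/
private theorem nv_gamma {f : ℕ} {ψ : DirichletCharacter ℂ f} {m : ℕ}
    (hp : ψ (-1) = (-1) ^ (m + 1)) : gammaFactor ψ (-(m : ℂ)) ≠ 0 := by
  rcases Nat.even_or_odd (m + 1) with he | ho
  · have hev : ψ.Even := by
      rw [he.neg_one_pow] at hp
      exact hp
    rw [hev.gammaFactor_def, Ne, Gammaℝ_eq_zero_iff]
    rintro ⟨k, hk⟩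
    have h1 : (m : ℂ) = ((2 * k : ℕ) : ℂ) := by
      push_cast
      linear_combination -hk
    have h2 : m = 2 * k := Nat.cast_injective h1
    obtain ⟨j, hj⟩ := he
    omega
  · have hod : ψ.Odd := by
      rw [ho.neg_one_pow] at hp
      exact hp
    rw [hod.gammaFactor_def, Ne, Gammaℝ_eq_zero_iff]
    rintro ⟨k, hk⟩
    have h1 : (m : ℂ) = ((2 * k + 1 : ℕ) : ℂ) := by
      push_cast
      linear_combination -hk
    have h2 : m = 2 * k + 1 := Nat.cast_injective h1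
    obtain ⟨j, hj⟩ := ho
    omega

/-- primitive characters -/
private theorem nv_prim {f : ℕ} [NeZero f] {ψ : DirichletCharacter ℂ f} (hψ : ψ.IsPrimitive)
    {m : ℕ} (hm : 1 ≤ m) (hp : ψ (-1) = (-1) ^ (m + 1)) : LFunction ψ (-(m : ℂ)) ≠ 0 := by
  have hinv : (ψ⁻¹).IsPrimitive := by
    rw [isPrimitive_def, conductor_inv]
    exact hψ
  intro h0
  have hm0 : (m : ℂ) ≠ 0 := Nat.cast_ne_zero.2 (by omega)
  have h1 : completedLFunction ψ (-(m : ℂ)) = 0 := by
    rw [LFunction_eq_completed_div_gammaFactor ψ _ (Or.inl (neg_ne_zero.2 hm0))] at h0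
    exact (div_eq_zero_iff.1 h0).resolve_right (nv_gamma hp)
  have h2 := hinv.completedLFunction_one_sub (-(m : ℂ))
  rw [inv_inv, h1, mul_zero] at h2
  have h5 : (1 - -(m : ℂ)) ≠ 0 := by
    have : (1 - -(m : ℂ)) = ((m + 1 : ℕ) : ℂ) := by
      push_cast
      ring
    rw [this]
    exact Nat.cast_ne_zero.2 (by omega)
  have h3 : LFunction ψ⁻¹ (1 - -(m : ℂ)) = 0 := by
    rw [LFunction_eq_completed_div_gammaFactor _ _ (Or.inl h5), h2, zero_div]
  refine LFunction_ne_zero_of_one_le_re ψ⁻¹ (Or.inr ?_) ?_ h3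
  · intro h
    apply hm0
    linear_combination h
  · simp

/-- all characters -/
private theorem nv_L {N : ℕ} [NeZero N] (χ : DirichletCharacter ℂ N) {m : ℕ} (hm : 1 ≤ m)
    (hp : χ (-1) = (-1) ^ (m + 1)) : LFunction χ (-(m : ℂ)) ≠ 0 := by
  have : NeZero χ.conductor := ⟨χ.conductor_ne_zero⟩
  have hprim := χ.primitiveCharacter_isPrimitive
  have hp' : χ.primitiveCharacter (-1) = (-1) ^ (m + 1) := by
    have h1 := χ.primitiveCharacter_apply_of_isCoprime (a := -1) (isCoprime_one_left.neg_left)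
    push_cast at h1
    rw [h1, hp]
  have h := LFunction_changeLevel χ.conductor_dvd_level χ.primitiveCharacter (s := -(m : ℂ))
    (Or.inr (by
      intro h
      have h1 : ((m + 1 : ℕ) : ℂ) = ((0 : ℕ) : ℂ) := by
        push_cast
        linear_combination -h
      have h2 := Nat.cast_injective h1
      omega))
  rw [changeLevel_primitiveCharacter] at h
  rw [h]
  refine mul_ne_zero (nv_prim hprim hm hp') (Finset.prod_ne_zero_iff.2 fun p hpp => ?_)
  have hpr := Nat.prime_of_mem_primeFactors hpp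
  rw [neg_neg, cpow_natCast]
  intro h0
  have h1 : χ.primitiveCharacter (p : ZMod χ.conductor) * (p : ℂ) ^ m = 1 := by
    linear_combination -h0
  have h2 := congrArg norm h1
  rw [norm_mul, norm_one, norm_pow, Complex.norm_natCast] at h2
  have h3 : ‖χ.primitiveCharacter (p : ZMod χ.conductor)‖ = 1 := by
    by_cases hu : IsUnit (p : ZMod χ.conductor)
    · obtain ⟨u, hu⟩ := hu
      rw [← hu]
      exact χ.primitiveCharacter.unit_norm_eq_one u
    · rw [MulChar.map_nonunit _ hu, norm_zero, zero_mul] at h2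
      exact absurd h2 zero_ne_one
  rw [h3, one_mul] at h2
  have h4 : (1 : ℝ) < (p : ℝ) ^ m := one_lt_pow₀ (by exact_mod_cast hpr.one_lt) (by omega)
  linarith

/-- the value of the `L`-function -/
private theorem nv_val {N : ℕ} [NeZero N] (χ : DirichletCharacter ℂ N) {m : ℕ} (hm : 1 ≤ m) :
    LFunction χ (-(m : ℂ)) = (-1 / (m + 1)) *
      ∑ r : ZMod N, χ r * ((bb N (m + 1) r.val : ℚ) : ℂ) := by
  rw [LFunction, ZMod.LFunction, neg_neg, cpow_natCast, Finset.mul_sum, Finset.mul_sum]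
  refine Finset.sum_congr rfl fun r _ => ?_
  have hx : (r.val / N : ℝ) ∈ Set.Icc (0 : ℝ) 1 := Set.mem_Icc.mpr ⟨by positivity,
    (div_le_one (Nat.cast_pos.mpr <| NeZero.pos _)).mpr <| Nat.cast_le.mpr (ZMod.val_lt r).le⟩
  rw [ZMod.toAddCircle_apply, HurwitzZeta.hurwitzZeta_neg_nat (by omega) hx]
  have h1 : (((r.val / N : ℝ)) : ℂ) = algebraMap ℚ ℂ ((r.val : ℚ) / N) := by
    rw [eq_ratCast]
    push_cast
    rfl
  rw [h1, Polynomial.eval_map_algebraMap, Polynomial.aeval_algebraMap_apply, eq_ratCast, bb,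
    Nat.add_sub_cancel]
  push_cast
  rw [Polynomial.coe_aeval_eq_eval]
  ring

theorem nv (N n : ℕ) [NeZero N] (hn : 2 ≤ n) (φ : (ZMod N)ˣ →* ℂˣ)
    (hφ : (φ (-1) : ℂ) = (-1) ^ n) :
    ∑ r : (ZMod N)ˣ, (φ r : ℂ) * ((bb N n (r : ZMod N).val : ℚ) : ℂ) ≠ 0 := by
  obtain ⟨m, rfl⟩ : ∃ m, n = m + 1 := ⟨n - 1, by omega⟩
  intro h0
  have h1 : ∑ r : (ZMod N)ˣ, (φ r : ℂ) * ((bb N (m + 1) (r : ZMod N).val : ℚ) : ℂ) =
      ∑ r : ZMod N, (MulChar.ofUnitHom φ : DirichletCharacter ℂ N) r *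
        ((bb N (m + 1) r.val : ℚ) : ℂ) := by
    refine Fintype.sum_of_injective (fun r : (ZMod N)ˣ => (r : ZMod N)) Units.val_injective _ _
      ?_ ?_
    · intro r hr
      have hu : ¬ IsUnit r := fun ⟨u, hu⟩ => hr ⟨u, hu⟩
      rw [MulChar.map_nonunit _ hu, zero_mul]
    · intro r
      rw [MulChar.ofUnitHom_coe]
  refine nv_L (MulChar.ofUnitHom φ : DirichletCharacter ℂ N) (m := m) (by omega) ?_ ?_
  · have h2 : (-1 : ZMod N) = ((-1 : (ZMod N)ˣ) : ZMod N) := by simp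
    rw [h2, MulChar.ofUnitHom_coe]
    exact hφ
  · rw [nv_val _ (by omega), ← h1, h0, mul_zero]

end Pool.Agent.AAP
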