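import Pool.Agent.AAP.Cyc

/-!
# AAP-NumA (0.8h): the congruence between `uu` and the power sums

`m = N p`, `c = N + 1`. For `a` prime to `m`, `0 < a < m`: `c a = m ⌊c a / m⌋ + r_a` with
`0 ≤ r_a < m`, `r_a ≡ c a mod m`, so `r_a` runs over the same residues. Modulo `p ^ 2` (as `p ∣ m`,
`n ≥ 1`) `(c a) ^ n = (r_a + m ⌊c a/m⌋) ^ n ≡ r_a ^ n + n m ⌊c a/m⌋ (c a) ^ (n-1)`
(note `r_a ≡ c a mod p` and the factor `m`). Multiply by `χ(a) = χ(c a) = χ(r_a)` (`c ≡ 1 mod N`)
and sum: `n m c^(n-1) ∑ χ(a) ⌊c a/m⌋ a^(n-1) ≡ c^n ∑ χ(a) a^n - ∑ χ(r) r^n`.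
All natural numbers have norm at most one in `E`; numbers divisible by `p ^ 2` have norm at most
`‖p‖ ^ 2`; `‖χ(a)‖ = 1`.
-/

open NumberField

namespace Pool.Agent.AAP

theorem numA (N n p : ℕ) [NeZero (N * p)] [Fact p.Prime] (hn : 2 ≤ n) (hpc : ¬ p ∣ N + 1)
    {E : Type*} [NormedField E] [IsUltrametricDist E] [NormedAlgebra ℚ_[p] E]
    (χ : (ZMod N)ˣ →* Eˣ) :
    ‖(n : E) * (N * p) * (N + 1) ^ (n - 1) * uu N p (N + 1) n χ -
      (((N : E) + 1) ^ n - 1) * ss N p n χ‖ ≤ ‖(p : E)‖ ^ 2 := by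
  have hp : p.Prime := Fact.out
  have hcop : Nat.Coprime (N + 1) (N * p) :=
    Nat.Coprime.mul_right (by simp) ((Nat.Prime.coprime_iff_not_dvd hp).2 hpc).symm
  let cu : (ZMod (N * p))ˣ := ZMod.unitOfCoprime (N + 1) hcop
  have hχc : χ (ZMod.unitsMap (dvd_mul_right N p) cu) = 1 := by
    have h1 : ZMod.unitsMap (dvd_mul_right N p) cu = 1 := by
      apply Units.ext
      rw [ZMod.unitsMap_def, Units.coe_map, ZMod.coe_unitOfCoprime]
      simp
    rw [h1, map_one]
  have hr : ∀ a : (ZMod (N * p))ˣ, ((cu * a : (ZMod (N * p))ˣ) : ZMod (N * p)).val =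
      ((N + 1) * (a : ZMod (N * p)).val) % (N * p) := by
    intro a
    have h1 : ((cu * a : (ZMod (N * p))ˣ) : ZMod (N * p)) =
        (((N + 1) * (a : ZMod (N * p)).val : ℕ) : ZMod (N * p)) := by
      rw [Units.val_mul, ZMod.coe_unitOfCoprime, Nat.cast_mul, ZMod.natCast_zmod_val]
    rw [h1, ZMod.val_natCast]
  have hχ1 : ∀ a : (ZMod (N * p))ˣ,
      ‖(χ (ZMod.unitsMap (dvd_mul_right N p) a) : E)‖ = 1 := by
    intro a
    have h1 : ((χ (ZMod.unitsMap (dvd_mul_right N p) a) : Eˣ) : E) ^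
        Fintype.card (ZMod (N * p))ˣ = 1 := by
      rw [← Units.val_pow_eq_pow_val, ← map_pow, ← map_pow, pow_card_eq_one, map_one, map_one,
        Units.val_one]
    exact (isOfFinOrder_iff_pow_eq_one.2 ⟨_, Fintype.card_pos, h1⟩).norm_eq_one
  -- the terms
  have key : ∀ a : (ZMod (N * p))ˣ, ‖(χ (ZMod.unitsMap (dvd_mul_right N p) a) : E) *
      ((n : E) * (N * p) * (fl (N + 1) (N * p) a : E) *
        (((N : E) + 1) * ((a : ZMod (N * p)).val : E)) ^ (n - 1) -
        (((N : E) + 1) * ((a : ZMod (N * p)).val : E)) ^ n +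
        (((cu * a : (ZMod (N * p))ˣ) : ZMod (N * p)).val : E) ^ n)‖ ≤ ‖(p : E)‖ ^ 2 := by
    intro a
    rw [norm_mul, hχ1, one_mul]
    have hra := hr a
    generalize ((cu * a : (ZMod (N * p))ˣ) : ZMod (N * p)).val = w at hra ⊢
    obtain ⟨k, hk⟩ := Polynomial.powAddExpansion (((N + 1) * (a : ZMod (N * p)).val : ℕ) : ℤ)
      (-((N * p * fl (N + 1) (N * p) a : ℕ) : ℤ)) n
    have h1 : (((N + 1) * (a : ZMod (N * p)).val : ℕ) : ℤ) +
        (-((N * p * fl (N + 1) (N * p) a : ℕ) : ℤ)) =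
        (w : ℤ) := by
      rw [hra]
      have h2 := Nat.div_add_mod ((N + 1) * (a : ZMod (N * p)).val) (N * p)
      unfold fl
      have h3 : (((N + 1) * (a : ZMod (N * p)).val : ℕ) : ℤ) =
          ((N * p * ((N + 1) * (a : ZMod (N * p)).val / (N * p)) : ℕ) : ℤ) +
            (((N + 1) * (a : ZMod (N * p)).val % (N * p) : ℕ) : ℤ) := by
        rw [← Nat.cast_add, h2]
      rw [h3]
      ring
    rw [h1] at hk
    have h2 := congrArg (fun t : ℤ => (t : E)) hk
    push_cast at h2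
    rw [h2]
    have h3 : (n : E) * (N * p) * (fl (N + 1) (N * p) a : E) *
        (((N : E) + 1) * ((a : ZMod (N * p)).val : E)) ^ (n - 1) -
        (((N : E) + 1) * ((a : ZMod (N * p)).val : E)) ^ n +
        ((((N : E) + 1) * ((a : ZMod (N * p)).val : E)) ^ n +
          (n : E) * (((N : E) + 1) * ((a : ZMod (N * p)).val : E)) ^ (n - 1) *
            -((N : E) * p * (fl (N + 1) (N * p) a : E)) +
          (k : E) * (-((N : E) * p * (fl (N + 1) (N * p) a : E))) ^ 2) =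
        ((k * ((N * fl (N + 1) (N * p) a : ℕ) : ℤ) ^ 2 : ℤ) : E) * (p : E) ^ 2 := by
      push_cast
      ring
    rw [h3, norm_mul, norm_pow]
    refine (mul_le_mul_of_nonneg_right
      (IsUltrametricDist.norm_intCast_le_one E _) (by positivity)).trans (le_of_eq (one_mul _))
  have hss : ss N p n χ = ∑ a : (ZMod (N * p))ˣ,
      (χ (ZMod.unitsMap (dvd_mul_right N p) a) : E) *
        (((cu * a : (ZMod (N * p))ˣ) : ZMod (N * p)).val : E) ^ n := by
    unfold ss
    rw [← Equiv.sum_comp (Equiv.mulLeft cu)]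
    refine Finset.sum_congr rfl fun a _ => ?_
    rw [Equiv.coe_mulLeft, map_mul, map_mul, hχc, one_mul]
  have e : (n : E) * (N * p) * (N + 1) ^ (n - 1) * uu N p (N + 1) n χ -
      (((N : E) + 1) ^ n - 1) * ss N p n χ = ∑ a : (ZMod (N * p))ˣ,
      (χ (ZMod.unitsMap (dvd_mul_right N p) a) : E) *
      ((n : E) * (N * p) * (fl (N + 1) (N * p) a : E) *
        (((N : E) + 1) * ((a : ZMod (N * p)).val : E)) ^ (n - 1) -
        (((N : E) + 1) * ((a : ZMod (N * p)).val : E)) ^ n +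
        (((cu * a : (ZMod (N * p))ˣ) : ZMod (N * p)).val : E) ^ n) := by
    simp only [mul_add, mul_sub, Finset.sum_add_distrib, Finset.sum_sub_distrib]
    rw [← hss]
    have e1 : ∑ a : (ZMod (N * p))ˣ, (χ (ZMod.unitsMap (dvd_mul_right N p) a) : E) *
        ((n : E) * (N * p) * (fl (N + 1) (N * p) a : E) *
        (((N : E) + 1) * ((a : ZMod (N * p)).val : E)) ^ (n - 1)) =
        (n : E) * (N * p) * (N + 1) ^ (n - 1) * uu N p (N + 1) n χ := by
      unfold uu
      rw [Finset.mul_sum]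
      refine Finset.sum_congr rfl fun a _ => ?_
      rw [mul_pow]
      ring
    have e2 : ∑ a : (ZMod (N * p))ˣ, (χ (ZMod.unitsMap (dvd_mul_right N p) a) : E) *
        (((N : E) + 1) * ((a : ZMod (N * p)).val : E)) ^ n = ((N : E) + 1) ^ n * ss N p n χ := by
      unfold ss
      rw [Finset.mul_sum]
      refine Finset.sum_congr rfl fun a _ => ?_
      rw [mul_pow]
      ring
    rw [e1, e2]
    ring
  rw [e]
  exact IsUltrametricDist.norm_sum_le_of_forall_le_of_nonneg (by positivity) fun a _ => key a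

end Pool.Agent.AAP
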