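import Pool.Agent.AAP.Cyc

/-!
# AAP-NumB (1.0h): power sums and Bernoulli numbers

`∑_{a < N p, (a, N p) = 1} χ(a) a ^ n ≡ p N TT N n χ mod p ^ 2` (norms at most `‖p‖ ^ 2`).
PROOF: the residues `a` in `[0, N p)` prime to `N p` are those prime to `N` minus those
prime to `N` and divisible by `p`; the latter contribute `0 mod p ^ n`, `n ≥ 2`. Write the first
ones as `a = r + N j`, `0 ≤ r < N` prime to `N` (`r = 0` if `N = 1`), `0 ≤ j < p`:
`∑_{j<p} (r + N j) ^ n = N ^ n ∑_{j<p} (j + r/N) ^ n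
 = N ^ n / (n+1) * (B_{n+1}(p + r/N) - B_{n+1}(r/N))` (Mathlib: `Polynomial.sum_range_pow_...`, or
`Polynomial.bernoulli_eval_one_add`: `B_{n+1}(1 + x) = B_{n+1}(x) + (n+1) x ^ n`), and by Taylor
(`Polynomial.derivative_bernoulli_add_one`, `B_{n+1}(x + p) - B_{n+1}(x) =
∑_{i ≥ 1} C(n+1,i) p ^ i B_{n+1-i}(x)`) this is
`N ^ n (p B_n(r/N) + p ^ 2 * (p-integral))`: the denominators of `B_k(x)`, `k ≤ n`, `x ∈ ℤ[1/N]`,
contain only primes dividing `(n+1)! N`, and `p > n + 1`, `p ∤ N` (for Bernoulli numbers: by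
induction from `∑_{i ≤ k} C(k+1, i) B_i = 0`, the numbers `(k+1)! B_k` are integers).
-/

open NumberField

namespace Pool.Agent.AAP

private theorem nb_unit {p : ℕ} [Fact p.Prime] {m : ℕ} (h : ¬ p ∣ m) : ‖(m : ℚ_[p])‖ = 1 :=
  Padic.norm_natCast_eq_one_iff.2 ((Nat.Prime.coprime_iff_not_dvd Fact.out).2 h)

private theorem nb_inv {p : ℕ} [Fact p.Prime] {m : ℕ} (h : ¬ p ∣ m) :
    ((m : ℚ_[p]))⁻¹ ∈ PadicInt.subring p := by
  rw [PadicInt.mem_subring_iff, norm_inv, nb_unit h, inv_one]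

private theorem nb_bern {p : ℕ} [Fact p.Prime] : ∀ k : ℕ, k + 1 < p →
    ((_root_.bernoulli k : ℚ) : ℚ_[p]) ∈ PadicInt.subring p := by
  intro k
  induction k using Nat.strong_induction_on with
  | _ k ih =>
    intro hk
    rcases Nat.eq_zero_or_pos k with rfl | hk0
    · rw [_root_.bernoulli_zero, Rat.cast_one]
      exact Subring.one_mem _
    · have h1 := sum_bernoulli (k + 1)
      rw [Finset.sum_range_succ, if_neg (by omega), Nat.choose_succ_self_right] at h1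
      have h2 : ((k + 1 : ℕ) : ℚ_[p]) * ((_root_.bernoulli k : ℚ) : ℚ_[p]) =
          - ∑ i ∈ Finset.range k, (((k + 1).choose i : ℕ) : ℚ_[p]) *
            ((_root_.bernoulli i : ℚ) : ℚ_[p]) := by
        have h3 : ((k + 1 : ℕ) : ℚ) * _root_.bernoulli k =
            - ∑ i ∈ Finset.range k, (((k + 1).choose i : ℕ) : ℚ) * _root_.bernoulli i := by
          linarith
        have h4 := congrArg (fun x : ℚ => (x : ℚ_[p])) h3
        simp only [Rat.cast_mul, Rat.cast_natCast, Rat.cast_neg, Rat.cast_sum] at h4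
        exact h4
      have h3 : ‖((k + 1 : ℕ) : ℚ_[p]) * ((_root_.bernoulli k : ℚ) : ℚ_[p])‖ ≤ 1 := by
        rw [← PadicInt.mem_subring_iff, h2]
        refine Subring.neg_mem _ (Subring.sum_mem _ fun i hi => Subring.mul_mem _ ?_ ?_)
        · exact natCast_mem _ _
        · rw [Finset.mem_range] at hi
          exact ih i hi (by omega)
      rw [norm_mul, nb_unit (fun h => absurd (Nat.le_of_dvd (by omega) h) (by omega)),
        one_mul] at h3
      exact (PadicInt.mem_subring_iff p).2 h3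

/-- power sums modulo `p ^ 2` -/
private theorem nb_pow {p : ℕ} [Fact p.Prime] {i : ℕ} (hi : i + 1 < p) :
    ∃ y ∈ PadicInt.subring p, (∑ j ∈ Finset.range p, (j : ℚ_[p]) ^ i) -
      p * ((_root_.bernoulli i : ℚ) : ℚ_[p]) = (p : ℚ_[p]) ^ 2 * y := by
  refine ⟨∑ k ∈ Finset.range i, ((_root_.bernoulli k : ℚ) : ℚ_[p]) * (((i + 1).choose k : ℕ) : ℚ_[p]) *
    (p : ℚ_[p]) ^ (i - 1 - k) * ((i + 1 : ℕ) : ℚ_[p])⁻¹, ?_, ?_⟩
  · refine Subring.sum_mem _ fun k hk => ?_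
    rw [Finset.mem_range] at hk
    refine Subring.mul_mem _ (Subring.mul_mem _ (Subring.mul_mem _ (nb_bern k (by omega))
      (natCast_mem _ _)) (Subring.pow_mem _ (natCast_mem _ _) _)) (nb_inv ?_)
    exact fun h => absurd (Nat.le_of_dvd (by omega) h) (by omega)
  · have h1 := sum_range_pow p i
    have h2 := congrArg (fun x : ℚ => (x : ℚ_[p])) h1
    simp only [Rat.cast_mul, Rat.cast_natCast, Rat.cast_sum, Rat.cast_pow, Rat.cast_div,
      Rat.cast_add, Rat.cast_one] at h2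
    rw [h2, Finset.sum_range_succ, Nat.choose_succ_self_right, Finset.mul_sum]
    have h3 : ((i : ℚ_[p]) + 1) ≠ 0 := by
      exact_mod_cast (Nat.succ_ne_zero i)
    have h4 : i + 1 - i = 1 := by omega
    rw [h4, pow_one]
    have h5 : ((_root_.bernoulli i : ℚ) : ℚ_[p]) * ((i + 1 : ℕ) : ℚ_[p]) * (p : ℚ_[p]) /
        ((i : ℚ_[p]) + 1) = p * ((_root_.bernoulli i : ℚ) : ℚ_[p]) := by
      push_cast
      field_simp
    rw [h5, add_sub_cancel_right]
    refine Finset.sum_congr rfl fun k hk => ?_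
    rw [Finset.mem_range] at hk
    have h6 : i + 1 - k = 2 + (i - 1 - k) := by omega
    rw [h6, pow_add]
    push_cast
    field_simp

/-- the key congruence -/
private theorem nb_key {p : ℕ} [Fact p.Prime] (N n r : ℕ) (hN : N ≠ 0) (hn : 1 ≤ n)
    (hnp : n + 1 < p) :
    ‖(∑ j ∈ Finset.range p, ((r + N * j : ℕ) : ℚ_[p]) ^ n) -
      p * N * ((bb N n r : ℚ) : ℚ_[p])‖ ≤ ‖(p : ℚ_[p])‖ ^ 2 := by
  have hN' : (N : ℚ_[p]) ≠ 0 := Nat.cast_ne_zero.2 hN
  have hNQ : (N : ℚ) ≠ 0 := Nat.cast_ne_zero.2 hN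
  have h1 : ∑ j ∈ Finset.range p, ((r + N * j : ℕ) : ℚ_[p]) ^ n =
      ∑ i ∈ Finset.range (n + 1), (N : ℚ_[p]) ^ i * (r : ℚ_[p]) ^ (n - i) * (n.choose i : ℕ) *
        ∑ j ∈ Finset.range p, (j : ℚ_[p]) ^ i := by
    simp only [Finset.mul_sum]
    rw [Finset.sum_comm]
    refine Finset.sum_congr rfl fun j _ => ?_
    have h2 : ((r + N * j : ℕ) : ℚ_[p]) = (N : ℚ_[p]) * j + r := by
      push_cast
      ring
    rw [h2, add_pow]
    refine Finset.sum_congr rfl fun i _ => ?_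
    rw [mul_pow]
    ring
  have h2 : (N : ℚ) * bb N n r = ∑ i ∈ Finset.range (n + 1), (N : ℚ) ^ i * (r : ℚ) ^ (n - i) *
      (n.choose i : ℕ) * _root_.bernoulli i := by
    unfold bb Polynomial.bernoulli
    rw [Polynomial.eval_finsetSum, ← mul_assoc, ← pow_succ', Nat.sub_add_cancel hn,
      Finset.mul_sum]
    refine Finset.sum_congr rfl fun i hi => ?_
    rw [Finset.mem_range] at hi
    rw [Polynomial.eval_monomial, div_pow]
    have h3 : (N : ℚ) ^ n = (N : ℚ) ^ i * (N : ℚ) ^ (n - i) := by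
      rw [← pow_add]
      congr 1
      omega
    rw [h3]
    field_simp
  have h3 : (p : ℚ_[p]) * N * ((bb N n r : ℚ) : ℚ_[p]) =
      ∑ i ∈ Finset.range (n + 1), (N : ℚ_[p]) ^ i * (r : ℚ_[p]) ^ (n - i) * (n.choose i : ℕ) *
        (p * ((_root_.bernoulli i : ℚ) : ℚ_[p])) := by
    have h4 := congrArg (fun x : ℚ => (x : ℚ_[p])) h2
    simp only [Rat.cast_mul, Rat.cast_natCast, Rat.cast_sum, Rat.cast_pow] at h4
    rw [mul_assoc, h4, Finset.mul_sum]
    refine Finset.sum_congr rfl fun i _ => ?_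
    ring
  rw [h1, h3, ← Finset.sum_sub_distrib]
  refine IsUltrametricDist.norm_sum_le_of_forall_le_of_nonneg (by positivity) fun i hi => ?_
  rw [Finset.mem_range] at hi
  obtain ⟨y, hy, h4⟩ := nb_pow (p := p) (i := i) (by omega)
  rw [← mul_sub, h4, norm_mul _ ((p : ℚ_[p]) ^ 2 * y), norm_mul ((p : ℚ_[p]) ^ 2) y, norm_pow (p : ℚ_[p])]
  have h5 : ‖(N : ℚ_[p]) ^ i * (r : ℚ_[p]) ^ (n - i) * (n.choose i : ℕ)‖ ≤ 1 := by
    rw [← PadicInt.mem_subring_iff]
    exact Subring.mul_mem _ (Subring.mul_mem _ (Subring.pow_mem _ (natCast_mem _ _) _)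
      (Subring.pow_mem _ (natCast_mem _ _) _)) (natCast_mem _ _)
  have h6 : ‖y‖ ≤ 1 := (PadicInt.mem_subring_iff p).1 hy
  have h7 : 0 ≤ ‖(p : ℚ_[p])‖ ^ 2 := by positivity
  calc ‖(N : ℚ_[p]) ^ i * (r : ℚ_[p]) ^ (n - i) * (n.choose i : ℕ)‖ * (‖(p : ℚ_[p])‖ ^ 2 * ‖y‖)
      ≤ 1 * (‖(p : ℚ_[p])‖ ^ 2 * 1) := by
        refine mul_le_mul h5 (mul_le_mul_of_nonneg_left h6 h7) (by positivity) zero_le_one
    _ = ‖(p : ℚ_[p])‖ ^ 2 := by ring

/-- the residues prime to `N p` -/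
private theorem nb_sum (N p : ℕ) [NeZero N] [NeZero (N * p)] [Fact p.Prime] {E : Type*}
    [AddCommMonoid E] (F : (ZMod N)ˣ → ℕ → E) :
    ∑ a : (ZMod (N * p))ˣ, F (ZMod.unitsMap (dvd_mul_right N p) a) (a : ZMod (N * p)).val =
      ∑ x ∈ (Finset.univ : Finset ((ZMod N)ˣ × Fin p)).filter
        (fun x => ¬ p ∣ (x.1 : ZMod N).val + N * (x.2 : ℕ)),
        F x.1 ((x.1 : ZMod N).val + N * (x.2 : ℕ)) := by
  classical
  have hN : 0 < N := Nat.pos_of_ne_zero (NeZero.ne N)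
  have hp : p.Prime := Fact.out
  have hval : ∀ a : (ZMod (N * p))ˣ, ((ZMod.unitsMap (dvd_mul_right N p) a : (ZMod N)ˣ) :
      ZMod N).val = (a : ZMod (N * p)).val % N := by
    intro a
    rw [ZMod.unitsMap_val, ZMod.cast_eq_val, ZMod.val_natCast]
  have hlt : ∀ a : (ZMod (N * p))ˣ, (a : ZMod (N * p)).val / N < p := by
    intro a
    exact Nat.div_lt_of_lt_mul (ZMod.val_lt _)
  have hrec : ∀ a : (ZMod (N * p))ˣ, ((ZMod.unitsMap (dvd_mul_right N p) a : (ZMod N)ˣ) :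
      ZMod N).val + N * ((a : ZMod (N * p)).val / N) = (a : ZMod (N * p)).val := by
    intro a
    rw [hval, Nat.mod_add_div]
  refine Finset.sum_bij (fun a _ => (ZMod.unitsMap (dvd_mul_right N p) a,
    (⟨(a : ZMod (N * p)).val / N, hlt a⟩ : Fin p))) ?_ ?_ ?_ ?_
  · intro a _
    rw [Finset.mem_filter]
    refine ⟨Finset.mem_univ _, ?_⟩
    show ¬ p ∣ ((ZMod.unitsMap (dvd_mul_right N p) a : (ZMod N)ˣ) : ZMod N).val +
      N * ((a : ZMod (N * p)).val / N)
    rw [hrec]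
    have h1 := (ZMod.val_coe_unit_coprime a).coprime_mul_left_right
    intro h2
    exact (Nat.Prime.coprime_iff_not_dvd hp).1 h1.symm h2
  · intro a _ b _ hab
    have h1 := congrArg Prod.fst hab
    have h2 : (a : ZMod (N * p)).val / N = (b : ZMod (N * p)).val / N :=
      congrArg (fun x : (ZMod N)ˣ × Fin p => (x.2 : ℕ)) hab
    apply Units.ext
    apply ZMod.val_injective
    rw [← hrec a, ← hrec b, h2]
    have h3 : ZMod.unitsMap (dvd_mul_right N p) a = ZMod.unitsMap (dvd_mul_right N p) b := h1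
    rw [h3]
  · rintro ⟨r, j⟩ hx
    have hx2 : ¬ p ∣ (r : ZMod N).val + N * (j : ℕ) := (Finset.mem_filter.1 hx).2
    have hc : ((r : ZMod N).val + N * (j : ℕ)).Coprime (N * p) := by
      refine Nat.Coprime.mul_right ?_ ((Nat.Prime.coprime_iff_not_dvd hp).2 hx2).symm
      rw [Nat.coprime_add_mul_left_left]
      exact ZMod.val_coe_unit_coprime r
    have hm : (r : ZMod N).val + N * (j : ℕ) < N * p := by
      have h1 := ZMod.val_lt (r : ZMod N)
      have h2 := j.2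
      calc (r : ZMod N).val + N * (j : ℕ) < N + N * (j : ℕ) := by omega
        _ = N * ((j : ℕ) + 1) := by ring
        _ ≤ N * p := Nat.mul_le_mul_left _ h2
    have hv : ((ZMod.unitOfCoprime _ hc : (ZMod (N * p))ˣ) : ZMod (N * p)).val =
        (r : ZMod N).val + N * (j : ℕ) := by
      rw [ZMod.coe_unitOfCoprime, ZMod.val_natCast_of_lt hm]
    refine ⟨ZMod.unitOfCoprime _ hc, Finset.mem_univ _, ?_⟩
    refine Prod.ext ?_ ?_
    · apply Units.ext
      apply ZMod.val_injective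
      show ((ZMod.unitsMap (dvd_mul_right N p) (ZMod.unitOfCoprime _ hc) : (ZMod N)ˣ) :
        ZMod N).val = (r : ZMod N).val
      rw [hval, hv, Nat.add_mul_mod_self_left, Nat.mod_eq_of_lt (ZMod.val_lt _)]
    · apply Fin.ext
      show ((ZMod.unitOfCoprime _ hc : (ZMod (N * p))ˣ) : ZMod (N * p)).val / N = (j : ℕ)
      rw [hv, Nat.add_mul_div_left _ _ hN, Nat.div_eq_of_lt (ZMod.val_lt _), zero_add]
  · intro a _
    show _ = F (ZMod.unitsMap (dvd_mul_right N p) a)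
      (((ZMod.unitsMap (dvd_mul_right N p) a : (ZMod N)ˣ) : ZMod N).val +
        N * ((a : ZMod (N * p)).val / N))
    rw [hrec]

theorem numB (N n p : ℕ) [NeZero N] [NeZero (N * p)] [Fact p.Prime] (hn : 2 ≤ n) (hnp : n + 1 < p)
    (hpN : ¬ p ∣ N) {E : Type*} [NormedField E] [IsUltrametricDist E] [NormedAlgebra ℚ_[p] E]
    (χ : (ZMod N)ˣ →* Eˣ) :
    ‖ss N p n χ - (p : E) * N * TT N n χ‖ ≤ ‖(p : E)‖ ^ 2 := by
  classical
  have hN : N ≠ 0 := NeZero.ne N
  -- norms of natural numbers and of values of the character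
  have hφ : ∀ x : ℚ_[p], ‖algebraMap ℚ_[p] E x‖ = ‖x‖ := fun x => norm_algebraMap' E x
  have hpE : ‖(p : E)‖ = ‖(p : ℚ_[p])‖ := by
    rw [← hφ, map_natCast]
  have hp1 : ‖(p : E)‖ ≤ 1 := by
    rw [hpE, ← PadicInt.mem_subring_iff]
    exact natCast_mem _ _
  have hnat : ∀ m : ℕ, ‖(m : E)‖ ≤ 1 := by
    intro m
    rw [← map_natCast (algebraMap ℚ_[p] E) m, hφ, ← PadicInt.mem_subring_iff]
    exact natCast_mem _ _
  have hχ : ∀ r, ‖(χ r : E)‖ = 1 := by
    intro r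
    have h1 : (χ r : E) ^ Fintype.card (ZMod N)ˣ = 1 := by
      rw [← Units.val_pow_eq_pow_val, ← map_pow, pow_card_eq_one, map_one, Units.val_one]
    have h2 : ‖(χ r : E)‖ ^ Fintype.card (ZMod N)ˣ = 1 := by
      rw [← norm_pow, h1, norm_one]
    exact (pow_eq_one_iff_of_nonneg (norm_nonneg _) Fintype.card_ne_zero).1 h2
  -- the sum over all residues prime to `N`
  obtain ⟨T, hT⟩ : ∃ T : (ZMod N)ˣ × Fin p → E, ∀ x, T x = (χ x.1 : E) *
      (((x.1 : ZMod N).val + N * (x.2 : ℕ) : ℕ) : E) ^ n := ⟨_, fun _ => rfl⟩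
  have h1 : ss N p n χ = ∑ x ∈ (Finset.univ : Finset ((ZMod N)ˣ × Fin p)).filter
      (fun x => ¬ p ∣ (x.1 : ZMod N).val + N * (x.2 : ℕ)), T x := by
    unfold ss
    rw [nb_sum N p (fun r m => (χ r : E) * (m : E) ^ n)]
    exact Finset.sum_congr rfl fun x _ => (hT x).symm
  have h2 := Finset.sum_filter_add_sum_filter_not (Finset.univ : Finset ((ZMod N)ˣ × Fin p))
    (fun x => p ∣ (x.1 : ZMod N).val + N * (x.2 : ℕ)) T
  have h3 : ‖∑ x ∈ (Finset.univ : Finset ((ZMod N)ˣ × Fin p)).filter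
      (fun x => p ∣ (x.1 : ZMod N).val + N * (x.2 : ℕ)), T x‖ ≤ ‖(p : E)‖ ^ 2 := by
    refine IsUltrametricDist.norm_sum_le_of_forall_le_of_nonneg (by positivity) fun x hx => ?_
    obtain ⟨m, hm⟩ := (Finset.mem_filter.1 hx).2
    rw [hT, hm, norm_mul, hχ, one_mul, norm_pow, Nat.cast_mul, norm_mul]
    have h4 : ‖(p : E)‖ * ‖(m : E)‖ ≤ ‖(p : E)‖ := mul_le_of_le_one_right (norm_nonneg _) (hnat m)
    calc (‖(p : E)‖ * ‖(m : E)‖) ^ n ≤ ‖(p : E)‖ ^ n :=
          pow_le_pow_left₀ (mul_nonneg (norm_nonneg _) (norm_nonneg _)) h4 n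
      _ ≤ ‖(p : E)‖ ^ 2 := pow_le_pow_of_le_one (norm_nonneg _) hp1 hn
  have h4 : ‖∑ x, T x - (p : E) * N * TT N n χ‖ ≤ ‖(p : E)‖ ^ 2 := by
    have h5 : ∑ x, T x - (p : E) * N * TT N n χ = ∑ r : (ZMod N)ˣ, (χ r : E) *
        algebraMap ℚ_[p] E ((∑ j ∈ Finset.range p,
          (((r : ZMod N).val + N * j : ℕ) : ℚ_[p]) ^ n) -
            p * N * ((bb N n (r : ZMod N).val : ℚ) : ℚ_[p])) := by
      unfold TT
      rw [Fintype.sum_prod_type, Finset.mul_sum, ← Finset.sum_sub_distrib]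
      refine Finset.sum_congr rfl fun r _ => ?_
      rw [map_sub, map_sum, map_mul, map_mul, map_natCast, map_natCast, map_ratCast, mul_sub,
        Finset.sum_range]
      simp only [hT, map_pow, map_natCast]
      rw [Finset.mul_sum]
      ring
    rw [h5]
    refine IsUltrametricDist.norm_sum_le_of_forall_le_of_nonneg (by positivity) fun r _ => ?_
    rw [norm_mul, hχ, one_mul, hφ, hpE]
    exact nb_key N n _ hN (by omega) hnp
  have h5 : ss N p n χ - (p : E) * N * TT N n χ = (∑ x, T x - (p : E) * N * TT N n χ) -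
      ∑ x ∈ (Finset.univ : Finset ((ZMod N)ˣ × Fin p)).filter
        (fun x => p ∣ (x.1 : ZMod N).val + N * (x.2 : ℕ)), T x := by
    rw [h1, ← h2]
    ring
  rw [h5, sub_eq_add_neg]
  refine (IsUltrametricDist.norm_add_le_max _ _).trans (max_le h4 ?_)
  rw [norm_neg]
  exact h3

end Pool.Agent.AAP
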