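import Pool.Agent.AAP.RedB

/-!
# Even Galois representations: the parity of the characters
-/

open NumberField Pointwise Matrix

namespace Pool.Agent.AAP

open Pool.Agent.Helper60.FM

theorem acts_cc (N p : ℕ) [NeZero N] [Fact p.Prime] (c : GQ) (hc : IsCC c) :
    ActsAs N c ((-1 : (ZMod N)ˣ) : ZMod N).val ∧ ActsAs p c (p - 1) := by
  classical
  have hpp : p.Prime := Fact.out
  have hNp : NeZero (N * p) := ⟨mul_ne_zero (NeZero.ne N) hpp.ne_zero⟩
  obtain ⟨K, _, _, hK, _⟩ := exists_cyc (N * p)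
  have : IsAbelianGalois ℚ K := IsCyclotomicExtension.isAbelianGalois {N * p} ℚ K
  let j : K →+* Qb := (IsAlgClosed.lift : K →ₐ[ℚ] Qb).toRingHom
  let σ : Gal(K/ℚ) := (geqv K j).symm (res (imField K j) c)
  have hσ : ∀ x, j (σ x) = c (j x) := geqv_symm_res K j c
  have h1 := gq_conj (N * p) K j c hc σ hσ
  have h2 := acts (N * p) K j c σ hσ N (dvd_mul_right N p)
  have h3 := acts (N * p) K j c σ hσ p (dvd_mul_left p N)
  rw [h1] at h2 h3
  have hA1 : ZMod.unitsMap (dvd_mul_right N p) (-1) = -1 := by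
    ext
    rw [ZMod.unitsMap_val, Units.val_neg, Units.val_one, Units.val_neg, Units.val_one,
      ZMod.cast_neg (dvd_mul_right N p), ZMod.cast_one (dvd_mul_right N p)]
  have hB1 : ZMod.unitsMap (dvd_mul_left p N) (-1) = -1 := by
    ext
    rw [ZMod.unitsMap_val, Units.val_neg, Units.val_one, Units.val_neg, Units.val_one,
      ZMod.cast_neg (dvd_mul_left p N), ZMod.cast_one (dvd_mul_left p N)]
  rw [hA1] at h2
  rw [hB1] at h3
  refine ⟨h2, ?_⟩
  have h4 : ((-1 : (ZMod p)ˣ) : ZMod p).val = p - 1 := by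
    rw [Units.val_neg, Units.val_one]
    rcases p with _ | q
    · exact absurd hpp Nat.not_prime_zero
    · exact ZMod.val_neg_one q
  rwa [h4] at h3

theorem parity (n N p : ℕ) [NeZero N] [Fact p.Prime] (hp : 2 < p)
    {E : Type} [NormedField E] [IsUltrametricDist E] [NormedAlgebra ℚ_[p] E]
    (V : GQ →* GL (Fin 2) E) (heven : IsEven V)
    (α β : (ZMod N)ˣ →* Eˣ) (k : ℕ) (hred : ∀ (g : GQ) (a : (ZMod N)ˣ) (b : ℕ),
      ActsAs N g (a : ZMod N).val → ActsAs p g b →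
        ‖tr V g - (b : E) ^ k * (α a + β a * (b : E) ^ n)‖ < 1) :
    (((β / α) (-1) : Eˣ) : E) = (-1) ^ n := by
  classical
  have hpp : p.Prime := Fact.out
  have hp1 : ‖(p : E)‖ < 1 := (norm_natCast_lt_one_iff (p := p) p).2 dvd_rfl
  have h2E : ‖(2 : E)‖ = 1 := by
    have h1 := norm_natCast_eq_one (p := p) (E := E) (n := 2)
      (fun h => by have := Nat.le_of_dvd (by norm_num) h; omega)
    exact_mod_cast h1
  obtain ⟨c, hc⟩ := exists_isCC
  obtain ⟨hA, hB⟩ := acts_cc N p c hc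
  have h1 := hred c (-1) (p - 1) hA hB
  have h2 : Cg (((p - 1 : ℕ) : E)) (-1) := by
    rw [Cg, Nat.cast_sub hpp.one_le, Nat.cast_one]
    have : (p : E) - 1 - -1 = p := by ring
    rwa [this]
  have hle : ‖(-1 : E)‖ ≤ 1 := by rw [norm_neg, norm_one]
  have hαn : ∀ a, ‖(α a : E)‖ = 1 := fun σ => norm_chi α _
  have hβn : ∀ a, ‖(β a : E)‖ = 1 := fun σ => norm_chi β _
  have hle' : ∀ i : ℕ, ‖(-1 : E) ^ i‖ ≤ 1 := fun i => by
    rw [norm_pow]
    exact pow_le_one₀ (norm_nonneg _) hle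
  have h3 : Cg (tr V c) ((-1 : E) ^ k * (α (-1) + β (-1) * (-1) ^ n)) := by
    refine Cg.trans (show Cg _ _ from h1) ?_
    refine Cg.mul (h2.pow hle k) (Cg.add Cg.rfl (Cg.mul Cg.rfl (h2.pow hle n) (hβn _).le ?_))
      (hle' k) ?_
    · exact hle' n
    · refine norm_add_le_one E (hαn _).le ?_
      rw [norm_mul, hβn, one_mul]
      exact hle' n
  have hsq : ∀ χ : (ZMod N)ˣ →* Eˣ, (χ (-1) : E) * χ (-1) = 1 := by
    intro χ
    rw [← Units.val_mul, ← map_mul, neg_mul_neg, one_mul, map_one, Units.val_one]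
  have hm : ∀ i : ℕ, ((-1 : E) ^ i) * (-1) ^ i = 1 := by
    intro i
    rw [← pow_add, ← two_mul, pow_mul, neg_one_sq, one_pow]
  have h4 : ‖trace (V c : Matrix (Fin 2) (Fin 2) E) - (-1) ^ k * β (-1) * (-1) ^ n -
      (-1) ^ k * α (-1)‖ < 1 := by
    have e1 : trace (V c : Matrix (Fin 2) (Fin 2) E) - (-1) ^ k * β (-1) * (-1) ^ n -
      (-1) ^ k * α (-1) = tr V c - ((-1 : E) ^ k * (α (-1) + β (-1) * (-1) ^ n)) := by
      change tr V c - (-1) ^ k * β (-1) * (-1) ^ n - (-1) ^ k * α (-1) = _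
      ring
    rw [e1]
    exact h3
  have h5 := chi_eq_of_det_one h2E V ((-1) ^ k * β (-1) * (-1) ^ n) ((-1) ^ k * α (-1)) c
    (isCC_mul_self hc) ?_ ?_ h4 (heven c hc)
  · have h6 : (β (-1) : E) * (-1) ^ n = α (-1) := by
      have h7 : ((-1 : E)) ^ k ≠ 0 := pow_ne_zero _ (neg_ne_zero.2 one_ne_zero)
      apply mul_left_cancel₀ h7
      rw [← h5]
      ring
    change ((β (-1) / α (-1) : Eˣ) : E) = _
    rw [Units.val_div_eq_div_val, div_eq_iff (Units.ne_zero _), ← h6]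
    calc (β (-1) : E) = β (-1) * ((-1) ^ n * (-1) ^ n) := by rw [hm, mul_one]
      _ = _ := by ring
  · calc ((-1 : E) ^ k * β (-1) * (-1) ^ n) * ((-1 : E) ^ k * β (-1) * (-1) ^ n) =
        ((-1 : E) ^ k * (-1) ^ k) * ((β (-1) : E) * β (-1)) * ((-1) ^ n * (-1) ^ n) := by ring
      _ = 1 := by rw [hm, hm, hsq]; norm_num
  · calc ((-1 : E) ^ k * α (-1)) * ((-1 : E) ^ k * α (-1)) =
        ((-1 : E) ^ k * (-1) ^ k) * ((α (-1) : E) * α (-1)) := by ring
      _ = 1 := by rw [hm, hsq]; norm_num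

end Pool.Agent.AAP
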