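import Pool.Agent.AAP.Cg
import Pool.Agent.AAP.Defs
import Pool.Agent.AAP.NumA
import Pool.Agent.AAP.NumB

/-!
# Even Galois representations at almost all primes: the unit `uu`, roots of unity
-/

open NumberField Pointwise Matrix

namespace Pool.Agent.AAP

open Pool.Agent.Helper60.FM

theorem uu_norm (N n p : ℕ) [NeZero N] [NeZero (N * p)] [Fact p.Prime] (hn : 2 ≤ n)
    (hnp : n + 1 < p) (hpN : ¬ p ∣ N) (hpc : ¬ p ∣ N + 1) (hpd : ¬ p ∣ (N + 1) ^ n - 1)
    {E : Type*} [NormedField E] [IsUltrametricDist E] [NormedAlgebra ℚ_[p] E]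
    (χ : (ZMod N)ˣ →* Eˣ) (hT : ‖(TT N n χ : E)‖ = 1) :
    ‖(uu N p (N + 1) n χ : E)‖ = 1 := by
  have hp1 : ‖(p : E)‖ < 1 := (norm_natCast_lt_one_iff (p := p) p).2 dvd_rfl
  have hp0 : 0 < ‖(p : E)‖ := by
    have h1 : (p : E) = algebraMap ℚ_[p] E (p : ℚ_[p]) := by simp
    rw [h1, norm_algebraMap', norm_pos_iff]
    exact Nat.cast_ne_zero.2 (Fact.out : p.Prime).ne_zero
  have hA := numA N n p hn hpc χ
  have hB := numB N n p hn hnp hpN χ
  have hD : ‖((N : E) + 1) ^ n - 1‖ = 1 := by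
    have h1 : ((N : E) + 1) ^ n - 1 = (((N + 1) ^ n - 1 : ℕ) : E) := by
      rw [Nat.cast_sub (Nat.one_le_pow _ _ (Nat.succ_pos N))]
      push_cast
      rfl
    rw [h1]
    exact norm_natCast_eq_one (p := p) hpd
  have hN : ‖(N : E)‖ = 1 := norm_natCast_eq_one (p := p) hpN
  set X : E := (n : E) * N * (N + 1) ^ (n - 1) * uu N p (N + 1) n χ with hX
  set Y : E := (((N : E) + 1) ^ n - 1) * N * TT N n χ with hY
  have h1 : ‖(p : E) * (X - Y)‖ ≤ ‖(p : E)‖ ^ 2 := by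
    have e1 : (p : E) * (X - Y) = ((n : E) * (N * p) * (N + 1) ^ (n - 1) * uu N p (N + 1) n χ -
      (((N : E) + 1) ^ n - 1) * ss N p n χ) +
      (((N : E) + 1) ^ n - 1) * (ss N p n χ - (p : E) * N * TT N n χ) := by
      rw [hX, hY]
      ring
    rw [e1]
    refine (IsUltrametricDist.norm_add_le_max _ _).trans (max_le hA ?_)
    rw [norm_mul, hD, one_mul]
    exact hB
  have h2 : ‖X - Y‖ < 1 := by
    rw [norm_mul, sq] at h1
    exact (le_of_mul_le_mul_left h1 hp0).trans_lt hp1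
  have h3 : ‖Y‖ = 1 := by
    rw [hY, norm_mul, norm_mul, hD, hN, hT, one_mul, one_mul]
  have h4 : ‖X‖ = 1 := Cg.norm_eq h2 h3
  have h5 : ‖(uu N p (N + 1) n χ : E)‖ ≤ 1 := by
    refine IsUltrametricDist.norm_sum_le_of_forall_le_of_nonneg zero_le_one fun a _ => ?_
    rw [norm_mul, norm_mul, norm_chi, mul_one, norm_pow]
    exact mul_le_one₀ (norm_natCast_le_one _) (pow_nonneg (norm_nonneg _) _)
      (pow_le_one₀ (norm_nonneg _) (norm_natCast_le_one _))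
  refine le_antisymm h5 ?_
  rw [hX, norm_mul] at h4
  have h6 : ‖(n : E) * N * (N + 1) ^ (n - 1)‖ ≤ 1 := by
    have e1 : (n : E) * N * (N + 1) ^ (n - 1) = ((n * N * (N + 1) ^ (n - 1) : ℕ) : E) := by
      push_cast
      rfl
    rw [e1]
    exact norm_natCast_le_one _
  calc (1 : ℝ) = ‖(n : E) * N * (N + 1) ^ (n - 1)‖ * ‖(uu N p (N + 1) n χ : E)‖ := h4.symm
    _ ≤ 1 * ‖(uu N p (N + 1) n χ : E)‖ := mul_le_mul_of_nonneg_right h6 (norm_nonneg _)
    _ = _ := one_mul _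

theorem val_unitsMap {a b : ℕ} [NeZero b] (h : a ∣ b) (u : (ZMod b)ˣ) :
    ((ZMod.unitsMap h u : (ZMod a)ˣ) : ZMod a).val = (u : ZMod b).val % a := by
  rw [ZMod.unitsMap_val, ← ZMod.natCast_val, ZMod.val_natCast]

section

variable (m : ℕ) [NeZero m] (K : Type) [Field K] [NumberField K] [IsCyclotomicExtension {m} ℚ K]

theorem gq_pow (σ : Gal(K/ℚ)) (i : ℕ) :
    σ (zt m K ^ i) = (zt m K ^ i) ^ ((gq m K σ : (ZMod m)ˣ) : ZMod m).val := by
  rw [map_pow, gq_spec, ← pow_mul, ← pow_mul, mul_comm]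

theorem acts (j : K →+* Qb) (g : GQ) (σ : Gal(K/ℚ)) (hg : ∀ x, j (σ x) = g (j x)) (d : ℕ)
    (hd : d ∣ m) : ActsAs d g ((ZMod.unitsMap hd (gq m K σ) : (ZMod d)ˣ) : ZMod d).val := by
  intro x hx
  have h1 : IsPrimitiveRoot (j (zt m K)) m := (zt_spec m K).map_of_injective j.injective
  have h2 : x ^ m = 1 := by
    obtain ⟨e, rfl⟩ := hd
    rw [pow_mul, hx, one_pow]
  obtain ⟨i, _, hi⟩ := h1.eq_pow_of_pow_eq_one h2
  have h3 : x = j (zt m K ^ i) := by rw [map_pow, hi]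
  rw [val_unitsMap, h3, ← hg, gq_pow, map_pow, ← h3]
  conv_lhs => rw [← Nat.div_add_mod ((gq m K σ : (ZMod m)ˣ) : ZMod m).val d, pow_add, pow_mul, hx,
    one_pow, one_mul]

theorem gq_conj (j : K →+* Qb) (c : GQ) (hc : IsCC c) (σ : Gal(K/ℚ))
    (hg : ∀ x, j (σ x) = c (j x)) : gq m K σ = -1 := by
  obtain ⟨ι, hι⟩ := hc
  have h1 : IsPrimitiveRoot (j (zt m K)) m := (zt_spec m K).map_of_injective j.injective
  have h2 : σ (zt m K) * zt m K = 1 := by
    apply j.injective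
    apply ι.injective
    rw [map_mul, map_mul, hg, hι, map_one, map_one, ← Complex.normSq_eq_conj_mul_self]
    have h3 : ‖ι (j (zt m K))‖ = 1 := by
      have h4 : (ι (j (zt m K))) ^ m = 1 := by rw [← map_pow, h1.pow_eq_one, map_one]
      exact Complex.norm_eq_one_of_pow_eq_one h4 (NeZero.ne m)
    rw [Complex.normSq_eq_norm_sq, h3]
    norm_num
  rw [gq_spec, ← pow_succ] at h2
  have h4 := ((zt_spec m K).pow_eq_one_iff_dvd _).1 h2
  ext
  rw [← ZMod.natCast_eq_zero_iff] at h4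
  push_cast at h4
  rw [ZMod.natCast_val, ZMod.cast_id] at h4
  rw [Units.val_neg, Units.val_one]
  exact eq_neg_of_add_eq_zero_left h4

end

end Pool.Agent.AAP
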