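import Pool.Agent.AAP.StickP

/-!
# AAP-StickAll (1.0h): Stickelberger's theorem for all ideals

From `stickP` (prime ideals not containing `m`) to all ideals: (1) products of ideals:
`σ • (IJ) = (σ • I)(σ • J)`, products of principal ideals are principal; so the claim holds for all
ideals prime to `m`. (2) Every nonzero ideal `𝔞` has nonzero `x, y ∈ 𝓞 K` and an ideal `𝔟` prime to
`m` (no prime factor contains `m`) with `x 𝔞 = y 𝔟`: choose an ideal `𝔠` with `𝔞 𝔠 = (y)`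
principal, and by the Chinese remainder theorem `x ∈ 𝔠` with `x 𝔠⁻¹ = 𝔟` prime to `m`
(`IsDedekindDomain` approximation, e.g. `Ideal.exists_mul_add_mem_pow_succ`,
`IsDedekindDomain.exists_...`; or: `𝔠 / 𝔠 𝔪` is cyclic where `𝔪 = (m)`:
`𝔠 = (x) + 𝔠𝔪` for some `x`, then `(x) = 𝔠 𝔟` with `𝔟 + 𝔪 = 1`; Mathlib:
`Ideal.exists_sup_span_eq` or similar, in `Mathlib/RingTheory/DedekindDomain/Ideal`), then
`𝔞 (x) = 𝔞 𝔠 𝔟 = (y) 𝔟`. (3) `∏ (σ • (x))^k` is principal, cancel.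
-/

open NumberField Pointwise

namespace Pool.Agent.AAP

section

variable {R G ι : Type} [CommRing R] [Group G] [MulSemiringAction G R]

private theorem span_prod (s : Finset ι) (f : ι → Ideal R) (h : ∀ i ∈ s, (f i).IsPrincipal) :
    (∏ i ∈ s, f i).IsPrincipal := by
  classical
  induction s using Finset.induction_on with
  | empty =>
    rw [Finset.prod_empty]
    exact ⟨1, Ideal.one_eq_top.trans Ideal.span_singleton_one.symm⟩
  | insert i s hi ih =>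
    rw [Finset.prod_insert hi]
    obtain ⟨x, hx⟩ := h i (Finset.mem_insert_self i s)
    obtain ⟨y, hy⟩ := ih fun j hj => h j (Finset.mem_insert_of_mem hj)
    refine ⟨x * y, ?_⟩
    rw [hx, hy]
    exact Ideal.span_singleton_mul_span_singleton x y

private theorem pow_princ {I : Ideal R} (h : I.IsPrincipal) (n : ℕ) : (I ^ n).IsPrincipal := by
  obtain ⟨x, hx⟩ := h
  refine ⟨x ^ n, ?_⟩
  rw [hx]
  exact Ideal.span_singleton_pow x n

private theorem smul_princ (g : G) (x : R) : (g • Ideal.span {x} : Ideal R) = Ideal.span {g • x} := by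
  rw [Ideal.pointwise_smul_def, Ideal.map_span, Set.image_singleton]
  rfl

private theorem princ_span [Fintype ι] (s : ι → G) (k : ι → ℕ) (x : R) :
    (∏ i, (s i • Ideal.span {x} : Ideal R) ^ k i).IsPrincipal := by
  refine span_prod _ _ fun i _ => pow_princ ?_ _
  rw [smul_princ]
  exact ⟨_, rfl⟩

private theorem princ_mul [Fintype ι] (s : ι → G) (k : ι → ℕ) (I J : Ideal R) :
    ∏ i, (s i • (I * J)) ^ k i = (∏ i, (s i • I) ^ k i) * ∏ i, (s i • J) ^ k i := by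
  rw [← Finset.prod_mul_distrib]
  refine Finset.prod_congr rfl fun i _ => ?_
  rw [smul_mul', mul_pow]

private theorem mul_princ {I J : Ideal R} (hI : I.IsPrincipal) (hJ : J.IsPrincipal) :
    (I * J).IsPrincipal := by
  obtain ⟨x, hx⟩ := hI
  obtain ⟨y, hy⟩ := hJ
  refine ⟨x * y, ?_⟩
  rw [hx, hy]
  exact Ideal.span_singleton_mul_span_singleton x y

private theorem smul_ne (g : G) {I : Ideal R} (h : I ≠ ⊥) : g • I ≠ ⊥ := by
  intro h1
  apply h
  have h2 : g⁻¹ • (g • I) = I := inv_smul_smul g I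
  rw [← h2, h1, Ideal.smul_bot]

end

private theorem cancel_princ {R : Type} [CommRing R] [IsDedekindDomain R]
    {I J : Ideal R} (hJ : J ≠ ⊥) (hJp : J.IsPrincipal) (hIJ : (I * J).IsPrincipal) :
    I.IsPrincipal := by
  obtain ⟨z, hz⟩ := hJp
  obtain ⟨w, hw⟩ := hIJ
  have hz' : J = Ideal.span {z} := hz
  have hw' : I * J = Ideal.span {w} := hw
  have h1 : w ∈ Ideal.span {z} := by
    rw [← hz']
    have h2 : w ∈ I * J := hw' ▸ Ideal.mem_span_singleton_self w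
    exact Ideal.mul_le_right h2
  obtain ⟨w', rfl⟩ := Ideal.mem_span_singleton'.1 h1
  refine ⟨w', ?_⟩
  have h3 : I * J = Ideal.span {w'} * J := by
    rw [hw', hz', Ideal.span_singleton_mul_span_singleton]
  exact mul_right_cancel₀ hJ h3

private theorem exists_coprime {R : Type} [CommRing R] [IsDedekindDomain R] (m : R)
    (hm : m ≠ 0) {𝔞 : Ideal R} (h0 : 𝔞 ≠ ⊥) :
    ∃ (x y : R) (𝔟 : Ideal R), x ≠ 0 ∧ y ≠ 0 ∧ 𝔟 ⊔ Ideal.span {m} = ⊤ ∧
      𝔞 * Ideal.span {x} = Ideal.span {y} * 𝔟 := by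
  obtain ⟨y, hy, hy0⟩ := Submodule.exists_mem_ne_zero_of_ne_bot h0
  obtain ⟨𝔠, h𝔠⟩ := Ideal.dvd_iff_le.2 ((Ideal.span_singleton_le_iff_mem 𝔞).2 hy)
  have hy1 : Ideal.span {y} ≠ ⊥ := by
    rw [Ne, Ideal.span_singleton_eq_bot]
    exact hy0
  have h𝔠0 : 𝔠 ≠ ⊥ := by
    intro h
    rw [h, Ideal.mul_bot] at h𝔠
    exact hy1 h𝔠
  have hm1 : Ideal.span {m} ≠ ⊥ := by
    rw [Ne, Ideal.span_singleton_eq_bot]
    exact hm
  obtain ⟨x, hx0, hx⟩ : ∃ x : R, x ≠ 0 ∧ 𝔠 * Ideal.span {m} ⊔ Ideal.span {x} = 𝔠 := by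
    obtain ⟨x, hx⟩ := IsDedekindDomain.exists_sup_span_eq
      (Ideal.mul_le_left : 𝔠 * Ideal.span {m} ≤ 𝔠) (mul_ne_zero h𝔠0 hm1)
    by_cases hx0 : x = 0
    · obtain ⟨x', hx', hx0'⟩ := Submodule.exists_mem_ne_zero_of_ne_bot h𝔠0
      refine ⟨x', hx0', ?_⟩
      have h1 : 𝔠 * Ideal.span {m} = 𝔠 := by
        rw [hx0, Ideal.span_singleton_zero, sup_bot_eq] at hx
        exact hx
      rw [h1, sup_eq_left]
      exact (Ideal.span_singleton_le_iff_mem 𝔠).2 hx'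
    · exact ⟨x, hx0, hx⟩
  have hx𝔠 : Ideal.span {x} ≤ 𝔠 := by
    rw [← hx]
    exact le_sup_right
  obtain ⟨𝔟, h𝔟⟩ := Ideal.dvd_iff_le.2 hx𝔠
  refine ⟨x, y, 𝔟, hx0, hy0, ?_, ?_⟩
  · have h1 : 𝔠 * (𝔟 ⊔ Ideal.span {m}) = 𝔠 * ⊤ := by
      rw [Ideal.mul_sup, ← h𝔟, sup_comm, hx, Ideal.mul_top]
    exact mul_left_cancel₀ h𝔠0 h1
  · rw [h𝔟, h𝔠, mul_assoc]

theorem stickAll (m c : ℕ) [NeZero m] (hm : 2 < m) (hc : 1 < c) (hcm : c < m) (hcop : c.Coprime m)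
    (K : Type) [Field K] [NumberField K] [IsCyclotomicExtension {m} ℚ K]
    (𝔞 : Ideal (𝓞 K)) (h0 : 𝔞 ≠ ⊥) :
    (∏ a : (ZMod m)ˣ, ((gq m K).symm a⁻¹ • 𝔞) ^ fl c m a).IsPrincipal := by
  have key : ∀ 𝔟 : Ideal (𝓞 K), 𝔟 ≠ ⊥ → 𝔟 ⊔ Ideal.span {(m : 𝓞 K)} = ⊤ →
      (∏ a : (ZMod m)ˣ, ((gq m K).symm a⁻¹ • 𝔟) ^ fl c m a).IsPrincipal := by
    intro 𝔟
    refine UniqueFactorizationMonoid.induction_on_prime 𝔟 ?_ ?_ ?_
    · intro h
      exact absurd rfl h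
    · intro I hI _ _
      have h1 : I = Ideal.span {1} := by
        rw [Ideal.isUnit_iff.1 hI, Ideal.span_singleton_one]
      rw [h1]
      exact princ_span _ _ _
    · intro I P hI0 hP ih _ hcopr
      have hPp : P.IsPrime := Ideal.isPrime_of_prime hP
      have hP0 : P ≠ ⊥ := hP.ne_zero
      have h1 : P ⊔ Ideal.span {(m : 𝓞 K)} = ⊤ := by
        rw [eq_top_iff, ← hcopr]
        exact sup_le_sup_right Ideal.mul_le_left _
      have h2 : I ⊔ Ideal.span {(m : 𝓞 K)} = ⊤ := by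
        rw [eq_top_iff, ← hcopr]
        exact sup_le_sup_right Ideal.mul_le_right _
      have h3 : (m : 𝓞 K) ∉ P := by
        intro h
        rw [sup_eq_left.2 ((Ideal.span_singleton_le_iff_mem P).2 h)] at h1
        exact hPp.ne_top h1
      rw [princ_mul]
      exact mul_princ (stickP m c hm hc hcm hcop K P hPp hP0 h3) (ih hI0 h2)
  have hm0 : (m : 𝓞 K) ≠ 0 := by
    exact_mod_cast (NeZero.ne m)
  obtain ⟨x, y, 𝔟, hx0, hy0, hb, he⟩ := exists_coprime (m : 𝓞 K) hm0 h0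
  have hx1 : Ideal.span {x} ≠ ⊥ := by
    rw [Ne, Ideal.span_singleton_eq_bot]
    exact hx0
  have hb0 : 𝔟 ≠ ⊥ := by
    intro h
    rw [h, Ideal.mul_bot] at he
    exact mul_ne_zero h0 hx1 he
  refine cancel_princ (J := ∏ a : (ZMod m)ˣ, ((gq m K).symm a⁻¹ • Ideal.span {x}) ^ fl c m a)
    ?_ (princ_span _ _ _) ?_
  · refine Finset.prod_ne_zero_iff.2 fun a _ => pow_ne_zero _ (smul_ne _ hx1)
  · rw [← princ_mul, he, princ_mul]
    exact mul_princ (princ_span _ _ _) (key 𝔟 hb0 hb)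

end Pool.Agent.AAP
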