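import Pool.Agent.AAP.DefsE
import Pool.Agent.AAP.Lift

/-!
# AAP-Unr (0.7h): the two definitions of unramified

Let `M/ℚ` be finite Galois in `Qb` with `ker V ≤ M.fixingSubgroup`, `P` a prime of `𝓞 M` with
`ℓ ∈ P`, `σ ∈ Gal(M/ℚ)` with `σ x - x ∈ P` for all `x`. Choose a prime `𝔓` of `ZQ` over `P` (integral
extension, `Ideal.exists_ideal_over_prime_of_isIntegral` for `toZ M`) and `h ∈ GQ` restricting to
`σ` (`AlgEquiv.restrictNormalHom_surjective`). `lift_inertia` for `H = M.fixingSubgroup`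
(closed: `IntermediateField.fixingSubgroup_isClosed`; normal as `M/ℚ` is; elements of `ZQ` fixed by
`H` are in `M`, `InfiniteGalois.fixedField_fixingSubgroup`): there is `k ∈ H` with `h k ∈ In 𝔓`.
`m ∉ 𝔓` as `ℓ ∈ 𝔓` and `m` is prime to `ℓ`. So `V (h k) = 1`, `h k ∈ M.fixingSubgroup`, `σ = 1`.
-/

open NumberField Pointwise

namespace Pool.Agent.AAP

open Pool.Agent.Helper60.FM

private theorem unr_toZ_injective (F : IntermediateField ℚ Qb) : Function.Injective (toZ F) := by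
  intro x y h
  have h1 : ((x : F) : Qb) = ((y : F) : Qb) := by
    rw [← coe_toZ, ← coe_toZ, h]
  exact RingOfIntegers.ext (Subtype.ext h1)

private theorem unr_toZ_integral (F : IntermediateField ℚ Qb) : (toZ F).IsIntegral := by
  intro z
  have h1 : IsIntegral ℤ z := integralClosure.isIntegral z
  obtain ⟨p, hp, hz⟩ := h1
  refine ⟨p.map (algebraMap ℤ (𝓞 F)), hp.map _, ?_⟩
  rw [Polynomial.eval₂_map, RingHom.ext_int ((toZ F).comp (algebraMap ℤ (𝓞 F))) (algebraMap ℤ ZQ)]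
  exact hz

/-- a prime of `ZQ` over a prime of the ring of integers of a subfield -/
private theorem unr_exists_over (F : IntermediateField ℚ Qb) (P : Ideal (𝓞 F)) (hP : P.IsPrime) :
    ∃ 𝔓 : Ideal ZQ, 𝔓.IsPrime ∧ Over F 𝔓 P := by
  let _ : Algebra (𝓞 F) ZQ := (toZ F).toAlgebra
  have _ : Algebra.IsIntegral (𝓞 F) ZQ := ⟨fun z => unr_toZ_integral F z⟩
  have hker : RingHom.ker (algebraMap (𝓞 F) ZQ) ≤ P := by
    have h1 : RingHom.ker (algebraMap (𝓞 F) ZQ) = ⊥ :=
      (RingHom.injective_iff_ker_eq_bot _).mp (unr_toZ_injective F)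
    rw [h1]
    exact bot_le
  obtain ⟨Q, hQ, hQ2⟩ := Ideal.exists_ideal_over_prime_of_isIntegral_of_isDomain P hker
  refine ⟨Q, hQ, fun x => ?_⟩
  rw [← hQ2]
  rfl

theorem unramAt_of_unrOut {H : Type*} [Group H] (m : ℕ) (V : GQ →* H) (hV : UnrOut m V) (ℓ : ℕ)
    (hℓ : ℓ.Prime) (hm : ¬ ℓ ∣ m) : UnramAt V ℓ := by
  intro M hfd hgal hker P hP hℓP σ hσ
  have hnorm : Normal ℚ M := hgal.to_normal
  obtain ⟨𝔓, hPP, hov⟩ := unr_exists_over M P hP
  have hsurj : Function.Surjective (res M) := AlgEquiv.restrictNormalHom_surjective Qb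
  obtain ⟨h, hh⟩ := hsurj σ
  have hhx : ∀ x : M, h (x : Qb) = ((σ x : M) : Qb) := by
    intro x
    have hx : ((res M h x : M) : Qb) = h (x : Qb) := AlgEquiv.restrictNormal_commutes h M x
    rw [← hh]
    exact hx.symm
  have hkerM : (res M).ker = M.fixingSubgroup := by
    have hcomm : ∀ (g : GQ) (x : M), ((res M g x : M) : Qb) = g (x : Qb) := fun g x =>
      AlgEquiv.restrictNormal_commutes g M x
    ext g
    rw [MonoidHom.mem_ker, IntermediateField.mem_fixingSubgroup_iff]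
    constructor
    · intro hg x hx
      have h1 := hcomm g ⟨x, hx⟩
      rw [hg] at h1
      exact h1.symm
    · intro hg
      apply AlgEquiv.ext
      intro x
      apply Subtype.ext
      rw [hcomm]
      exact hg (x : Qb) x.2
  have hcoe : ∀ (y : 𝓞 M), toZ M (σ • y) = h • toZ M y := by
    intro y
    apply Subtype.ext
    rw [coe_toZ]
    exact (hhx (y : M)).symm
  have hlift := lift_inertia M.fixingSubgroup (IntermediateField.fixingSubgroup_isClosed M) 𝔓 hPP h
    (fun k hk => by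
      rw [← hkerM] at hk ⊢
      exact (MonoidHom.normal_ker (res M)).conj_mem k hk h)
    (fun k hk => by
      rw [← hkerM] at hk ⊢
      have := (MonoidHom.normal_ker (res M)).conj_mem k hk h⁻¹
      rwa [inv_inv] at this)
    (fun x hx => by
      have h1 : (x : Qb) ∈ IntermediateField.fixedField M.fixingSubgroup := by
        rw [IntermediateField.mem_fixedField_iff]
        intro f hf
        exact congrArg Subtype.val (hx f hf)
      rw [InfiniteGalois.fixedField_fixingSubgroup] at h1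
      have h2 : IsIntegral ℤ (⟨(x : Qb), h1⟩ : M) := by
        have h3 : IsIntegral ℤ (x : Qb) := x.2
        exact (isIntegral_algHom_iff (M.val.toRingHom.toIntAlgHom) Subtype.val_injective).mp h3
      set y : 𝓞 M := ⟨⟨(x : Qb), h1⟩, h2⟩ with hy
      have h3 : x = toZ M y := Subtype.ext rfl
      rw [h3, ← hcoe, ← map_sub]
      exact (hov _).mpr (hσ y))
  obtain ⟨k, hk, hhk⟩ := hlift
  have hℓ𝔓 : (ℓ : ZQ) ∈ 𝔓 := by
    have h1 : toZ M (ℓ : 𝓞 M) = (ℓ : ZQ) := map_natCast _ _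
    rw [← h1]
    exact (hov _).mpr hℓP
  have hm𝔓 : (m : ZQ) ∉ 𝔓 := by
    intro hmem
    have hcop : Nat.Coprime ℓ m := (Nat.Prime.coprime_iff_not_dvd hℓ).mpr hm
    have h1 : IsCoprime (ℓ : ℤ) (m : ℤ) := Nat.isCoprime_iff_coprime.mpr hcop
    obtain ⟨a, b, hab⟩ := h1
    have h2 : (1 : ZQ) ∈ 𝔓 := by
      have h3 : (1 : ZQ) = (a : ZQ) * (ℓ : ZQ) + (b : ZQ) * (m : ZQ) := by
        exact_mod_cast congrArg (fun z : ℤ => (z : ZQ)) hab.symm
      rw [h3]
      exact 𝔓.add_mem (𝔓.mul_mem_left _ hℓ𝔓) (𝔓.mul_mem_left _ hmem)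
    exact hPP.ne_top ((Ideal.eq_top_iff_one 𝔓).mpr h2)
  have h1 : V (h * k) = 1 := hV 𝔓 hPP hm𝔓 _ hhk
  have h2 : h * k ∈ M.fixingSubgroup := hker (MonoidHom.mem_ker.mpr h1)
  rw [← hkerM] at h2 hk
  have h3 : res M (h * k) = 1 := MonoidHom.mem_ker.mp h2
  rw [map_mul, MonoidHom.mem_ker.mp hk, mul_one] at h3
  rw [← hh]
  exact h3

end Pool.Agent.AAP
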