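import Pool.Agent.AAP.RedA
import Pool.Agent.AAP.StickAll
import Pool.Agent.AAP.Cls
import Pool.Agent.AAP.Loc
import Pool.Agent.AAP.Teich
import Pool.Agent.AAP.Unr

/-!
# Even Galois representations at almost all primes: the reducible case at a good prime
-/

open NumberField Pointwise Matrix

namespace Pool.Agent.AAP

open Pool.Agent.Helper60.FM

theorem exists_cyc (m : ℕ) [NeZero m] : ∃ (K : Type) (_ : Field K) (_ : NumberField K)
    (_ : IsCyclotomicExtension {m} ℚ K), True := by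
  have h1 : @IsCyclotomicExtension {m} ℚ (CyclotomicField m ℚ) _ _
      (CyclotomicField.algebra m ℚ) := CyclotomicField.isCyclotomicExtension m ℚ
  have e : (CyclotomicField.algebra m ℚ : Algebra ℚ (CyclotomicField m ℚ)) =
      DivisionRing.toRatAlgebra := Subsingleton.elim _ _
  rw [e] at h1
  exact ⟨CyclotomicField m ℚ, inferInstance, IsCyclotomicExtension.numberField {m} ℚ _, h1,
    trivial⟩

theorem redAt (n N p : ℕ) [NeZero N] [NeZero (N * p)] [Fact p.Prime] (hn : 2 ≤ n)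
    (hnp : n + 1 < p) (hp : n * N.totient + 1 < p) (hpN : ¬ p ∣ N) (hpc : ¬ p ∣ N + 1)
    (hpd : ¬ p ∣ (N + 1) ^ n - 1)
    (hℓ : ∀ ℓ : ℕ, ℓ.Prime → ℓ ∣ N → ¬ p ∣ ℓ ^ ((n - 1) * N.totient) - 1)
    {E : Type} [NormedField E] [IsUltrametricDist E] [CompleteSpace E] [NormedAlgebra ℚ_[p] E]
    (hT : ∀ χ : (ZMod N)ˣ →* Eˣ, (χ (-1) : E) = (-1) ^ n → ‖(TT N n χ : E)‖ = 1)
    (V : GQ →* GL (Fin 2) E) (hV : Continuous V) (hunr : UnrOut (N * p) V) (heven : IsEven V)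
    (hred : Red p n N V) : HasLine V := by
  classical
  obtain ⟨K, _, _, hK, _⟩ := exists_cyc (N * p)
  have : IsAbelianGalois ℚ K := IsCyclotomicExtension.isAbelianGalois {N * p} ℚ K
  have hpp : p.Prime := Fact.out
  have hNp : (N * p) ≠ 0 := NeZero.ne _
  have hN0 : N ≠ 0 := NeZero.ne _
  let j : K →+* Qb := (IsAlgClosed.lift : K →ₐ[ℚ] Qb).toRingHom
  obtain ⟨t, ht⟩ := teich p E
  obtain ⟨α, β, k, hred⟩ := hred
  let A : Gal(K/ℚ) →* (ZMod N)ˣ :=
    (ZMod.unitsMap (dvd_mul_right N p)).comp (gq (N * p) K).toMonoidHom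
  let B : Gal(K/ℚ) →* (ZMod p)ˣ :=
    (ZMod.unitsMap (dvd_mul_left p N)).comp (gq (N * p) K).toMonoidHom
  have hA : ∀ σ, A σ = ZMod.unitsMap (dvd_mul_right N p) (gq (N * p) K σ) := fun _ => rfl
  have hB : ∀ σ, B σ = ZMod.unitsMap (dvd_mul_left p N) (gq (N * p) K σ) := fun _ => rfl
  let ω : Gal(K/ℚ) → ℕ := fun σ => ((B σ : (ZMod p)ˣ) : ZMod p).val
  have hωv : ∀ σ, ω σ = ((gq (N * p) K σ : (ZMod (N * p))ˣ) : ZMod (N * p)).val % p := by
    intro σ
    change ((B σ : (ZMod p)ˣ) : ZMod p).val = _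
    rw [hB, val_unitsMap]
  have hζ : IsPrimitiveRoot (zt (N * p) K ^ N) p :=
    (zt_spec (N * p) K).pow (Nat.pos_of_ne_zero hNp) rfl
  have hω : ∀ σ : Gal(K/ℚ), σ (zt (N * p) K ^ N) = (zt (N * p) K ^ N) ^ ω σ := by
    intro σ
    rw [gq_pow, hωv]
    conv_lhs => rw [← Nat.div_add_mod ((gq (N * p) K σ : (ZMod (N * p))ˣ) : ZMod (N * p)).val p,
      pow_add, pow_mul, hζ.pow_eq_one, one_pow, one_mul]
  -- norms
  have hp1 : ‖(p : E)‖ < 1 := (norm_natCast_lt_one_iff (p := p) p).2 dvd_rfl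
  have h2E : ‖(2 : E)‖ = 1 := by
    have h1 := norm_natCast_eq_one (p := p) (E := E) (n := 2)
      (fun h => by have := Nat.le_of_dvd (by norm_num) h; omega)
    exact_mod_cast h1
  have hωn : ∀ σ, ‖(ω σ : E)‖ = 1 := by
    intro σ
    apply norm_natCast_eq_one (p := p)
    intro h
    have h1 : ω σ < p := ZMod.val_lt _
    have h2 : ω σ = 0 := Nat.eq_zero_of_dvd_of_lt h h1
    have h3 : ((B σ : (ZMod p)ˣ) : ZMod p) = 0 := (ZMod.val_eq_zero _).1 h2
    exact (B σ).ne_zero h3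
  have hmodp : ∀ i : ℕ, Cg (i : E) ((i % p : ℕ) : E) := by
    intro i
    have h1 : (i : E) - ((i % p : ℕ) : E) = (p : E) * ((i / p : ℕ) : E) := by
      rw [sub_eq_iff_eq_add, ← Nat.cast_mul, ← Nat.cast_add, Nat.div_add_mod]
    rw [Cg, h1, norm_mul]
    exact mul_lt_one_of_nonneg_of_lt_one_left (norm_nonneg _) hp1 (norm_natCast_le_one _)
  have hgω : ∀ σ, Cg ((((gq (N * p) K σ : (ZMod (N * p))ˣ) : ZMod (N * p)).val : ℕ) : E) (ω σ) := by
    intro σ
    rw [hωv]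
    exact hmodp _
  have htω : ∀ σ, Cg (t (B σ) : E) (ω σ) := fun σ => ht (B σ)
  have hωone : ∀ σ, ‖(ω σ : E)‖ ≤ 1 := fun σ => (hωn σ).le
  have htn : ∀ σ, ‖(t (B σ) : E)‖ = 1 := fun σ => norm_chi t _
  have hαn : ∀ a, ‖(α a : E)‖ = 1 := fun σ => norm_chi α _
  have hβn : ∀ a, ‖(β a : E)‖ = 1 := fun σ => norm_chi β _
  let χ₁ : Gal(K/ℚ) →* Eˣ := (β.comp A) * (t.comp B) ^ (n + k)
  let χ₂ : Gal(K/ℚ) →* Eˣ := (α.comp A) * (t.comp B) ^ k
  have hχ₁ : ∀ σ, (χ₁ σ : E) = β (A σ) * (t (B σ) : E) ^ (n + k) := by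
    intro σ
    change (((β.comp A) σ * ((t.comp B) ^ (n + k)) σ : Eˣ) : E) = _
    rw [Units.val_mul, MonoidHom.pow_apply, Units.val_pow_eq_pow_val]
    rfl
  have hχ₂ : ∀ σ, (χ₂ σ : E) = α (A σ) * (t (B σ) : E) ^ k := by
    intro σ
    change (((α.comp A) σ * ((t.comp B) ^ k) σ : Eˣ) : E) = _
    rw [Units.val_mul, MonoidHom.pow_apply, Units.val_pow_eq_pow_val]
    rfl
  let χ : (ZMod N)ˣ →* Eˣ := β / α
  have hχβ : ∀ a, (χ a : E) * α a = β a := by
    intro a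
    change ((β a / α a : Eˣ) : E) * α a = β a
    rw [← Units.val_mul, div_mul_cancel]
  have hχn : ∀ a, ‖(χ a : E)‖ = 1 := fun a => norm_chi χ _
  -- residual trace
  have htr : ∀ (g : GQ) (σ : Gal(K/ℚ)), (∀ x, j (σ x) = g (j x)) →
      ‖trace (V g : Matrix (Fin 2) (Fin 2) E) - χ₁ σ - χ₂ σ‖ < 1 := by
    intro g σ hg
    have h1 := acts (N * p) K j g σ hg N (dvd_mul_right N p)
    have h2 := acts (N * p) K j g σ hg p (dvd_mul_left p N)
    have h3 := hred g (A σ) (ω σ) h1 h2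
    have h4 : Cg (trace (V g : Matrix (Fin 2) (Fin 2) E)) (χ₁ σ + χ₂ σ) := by
      refine Cg.trans (show Cg _ _ from h3) ?_
      have e1 : (ω σ : E) ^ k * (α (A σ) + β (A σ) * (ω σ : E) ^ n) =
        β (A σ) * (ω σ : E) ^ (n + k) + α (A σ) * (ω σ : E) ^ k := by ring
      rw [e1, hχ₁, hχ₂]
      refine Cg.add (Cg.mul Cg.rfl ?_ (hβn _).le ?_) (Cg.mul Cg.rfl ?_ (hαn _).le ?_)
      · exact ((htω σ).pow (hωone σ) _).symm
      · rw [norm_pow, htn, one_pow]
      · exact ((htω σ).pow (hωone σ) _).symm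
      · rw [norm_pow, htn, one_pow]
    rw [Cg, ← sub_sub] at h4
    exact h4
  -- parity
  have hpar : (χ (-1) : E) = (-1) ^ n := by
    obtain ⟨c, hc⟩ := exists_isCC
    let σ : Gal(K/ℚ) := (geqv K j).symm (res (imField K j) c)
    have hσ : ∀ x, j (σ x) = c (j x) := geqv_symm_res K j c
    have h1 := gq_conj (N * p) K j c hc σ hσ
    have hA1 : A σ = -1 := by
      rw [hA, h1]
      ext
      rw [ZMod.unitsMap_val, Units.val_neg, Units.val_one, Units.val_neg, Units.val_one,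
        ZMod.cast_neg (dvd_mul_right N p), ZMod.cast_one (dvd_mul_right N p)]
    have hB1 : B σ = -1 := by
      rw [hB, h1]
      ext
      rw [ZMod.unitsMap_val, Units.val_neg, Units.val_one, Units.val_neg, Units.val_one,
        ZMod.cast_neg (dvd_mul_left p N), ZMod.cast_one (dvd_mul_left p N)]
    have hsq : ∀ χ' : Gal(K/ℚ) →* Eˣ, (χ' σ : E) * χ' σ = 1 := by
      intro χ'
      have h2 : σ * σ = 1 := by
        apply (gq (N * p) K).injective
        rw [map_mul, h1, map_one, neg_mul_neg, one_mul]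
      rw [← Units.val_mul, ← map_mul, h2, map_one, Units.val_one]
    have h3 := chi_eq_of_det_one h2E V (χ₁ σ) (χ₂ σ) c (isCC_mul_self hc) (hsq χ₁) (hsq χ₂)
      (htr c σ hσ) (heven c hc)
    have ht1 : (t (-1) : E) = -1 := by
      have h4 : (t (-1) : E) * t (-1) = 1 := by
        rw [← Units.val_mul, ← map_mul, neg_mul_neg, one_mul, map_one, Units.val_one]
      rcases mul_self_eq_one_iff.1 h4 with h5 | h5
      · exfalso
        have h6 := ht (-1)
        rw [h5, Units.val_neg, Units.val_one] at h6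
        have h7 : ((-1 : ZMod p).val : E) = (p : E) - 1 := by
          have : (-1 : ZMod p).val = p - 1 := by
            rcases p with _ | q
            · exact absurd hpp Nat.not_prime_zero
            · exact ZMod.val_neg_one q
          rw [this, Nat.cast_sub hpp.one_le, Nat.cast_one]
        rw [h7] at h6
        have h8 : Cg (2 : E) 0 := by
          have h9 : (2 : E) = (1 - ((p : E) - 1)) + p := by ring
          rw [Cg, sub_zero, h9]
          exact norm_add_lt_one E h6 hp1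
        rw [Cg, sub_zero, h2E] at h8
        exact lt_irrefl _ h8
      · exact h5
    rw [hχ₁, hχ₂, hA1, hB1, ht1, ← hχβ, pow_add] at h3
    have h5 : (α (-1) : E) ≠ 0 := Units.ne_zero _
    have h6 : ((-1 : E)) ^ k ≠ 0 := pow_ne_zero _ (neg_ne_zero.2 one_ne_zero)
    have h7 : ((χ (-1) : E) * (-1) ^ n) * ((α (-1) : E) * (-1) ^ k) = 1 * ((α (-1) : E) * (-1) ^ k) := by
      rw [one_mul]
      refine Eq.trans ?_ h3
      ring
    have h8 := mul_right_cancel₀ (mul_ne_zero h5 h6) h7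
    have h9 : ((-1 : E) ^ n) * (-1) ^ n = 1 := by
      rw [← pow_add, ← two_mul, pow_mul, neg_one_sq, one_pow]
    calc (χ (-1) : E) = (χ (-1) : E) * ((-1 : E) ^ n * (-1) ^ n) := by rw [h9, mul_one]
      _ = ((χ (-1) : E) * (-1) ^ n) * (-1) ^ n := by ring
      _ = (-1) ^ n := by rw [h8, one_mul]
  -- the main theorem
  refine absMain p (by omega) K j (zt (N * p) K ^ N) hζ ω hω χ₁ χ₂
    {ℓ | ℓ ∣ N * p} ?_ ?_ ?_ V hV htr ?_ heven
  · -- decomposition groups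
    intro P hP hP0 hPℓ
    obtain ⟨ℓ', hℓ', hℓP⟩ := hPℓ
    have h1 : ∃ ℓ : ℕ, ℓ.Prime ∧ ℓ ∣ N * p ∧ (ℓ : 𝓞 K) ∈ P := by
      have h2 : ((∏ q ∈ (N * p).primeFactorsList.toFinset, q ^ (N * p).factorization q : ℕ) : 𝓞 K) ∈ P := by
        have h3 : ∏ q ∈ (N * p).primeFactorsList.toFinset, q ^ (N * p).factorization q = N * p :=
          Nat.prod_factorization_pow_eq_self hNp
        rw [h3]
        obtain ⟨e, he⟩ := hℓ'
        rw [he, Nat.cast_mul]
        exact Ideal.mul_mem_right _ _ hℓP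
      rw [Nat.cast_prod] at h2
      obtain ⟨q, hq, hqP⟩ := (Ideal.IsPrime.prod_mem_iff (hp := hP)).1 h2
      rw [Nat.cast_pow] at hqP
      rw [List.mem_toFinset] at hq
      exact ⟨q, Nat.prime_of_mem_primeFactorsList hq, Nat.dvd_of_mem_primeFactorsList hq,
        hP.mem_of_pow_mem _ hqP⟩
    obtain ⟨σ, hσ, hσ1⟩ := loc N n p hn (by omega) hpN hℓ K χ P hP h1
    refine ⟨σ, hσ, ?_⟩
    by_contra hcon
    push Not at hcon
    rw [← not_lt] at hσ1
    apply hσ1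
    rw [← hA]
    have h2 : Cg ((ω σ : E) * χ₂ σ) (χ₁ σ) := hcon
    set x : E := (t (B σ) : E) with hx
    have hx0 : x ≠ 0 := Units.ne_zero _
    have hα0 : (α (A σ) : E) ≠ 0 := Units.ne_zero _
    have h3 : Cg (x * χ₂ σ) (χ₁ σ) := by
      refine Cg.trans (Cg.mul (htω σ) Cg.rfl (hωone σ) ?_) h2
      exact (norm_chi χ₂ σ).le
    rw [hχ₁, hχ₂, ← hχβ] at h3
    -- multiply by the inverse
    have h4 : Cg ((x * (α (A σ) * x ^ k)) * (x * (α (A σ) * x ^ k))⁻¹)
        ((χ (A σ) * α (A σ) * x ^ (n + k)) * (x * (α (A σ) * x ^ k))⁻¹) := by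
      refine Cg.mul h3 Cg.rfl ?_ ?_
      · rw [norm_mul, norm_mul, norm_pow, htn, hχn, hαn]
        norm_num
      · rw [norm_inv, norm_mul, norm_mul, norm_pow, htn, hαn]
        norm_num
    rw [mul_inv_cancel₀ (mul_ne_zero hx0 (mul_ne_zero hα0 (pow_ne_zero _ hx0)))] at h4
    have h5 : (χ (A σ) * α (A σ) * x ^ (n + k)) * (x * (α (A σ) * x ^ k))⁻¹ =
        (χ (A σ) : E) * x ^ (n - 1) := by
      obtain ⟨n', rfl⟩ : ∃ n', n = n' + 1 := ⟨n - 1, by omega⟩
      rw [Nat.add_sub_cancel]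
      field_simp
      ring
    rw [h5] at h4
    refine Cg.trans (?_ : Cg _ ((χ (A σ) : E) * x ^ (n - 1))) h4.symm
    refine Cg.mul Cg.rfl ?_ (hχn _).le ?_
    · refine Cg.pow ((hgω σ).trans (htω σ).symm) (htn σ).le _
    · rw [norm_pow, htn, one_pow]
  · -- the class group
    intro 𝔞 h𝔞 h𝔞p hrel
    let ψ : Gal(K/ℚ) → E := fun σ => (ω σ : E) * (χ₂ σ * (χ₁ σ)⁻¹ : Eˣ)
    have hq : ∀ σ, ‖(((χ₂ σ * (χ₁ σ)⁻¹ : Eˣ)) : E)‖ = 1 := by
      intro σ
      rw [← map_inv, Units.val_mul, norm_mul, norm_chi, norm_chi, one_mul]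
    refine cls p hp1 ψ ?_ ?_ (fun σ => fl (N + 1) (N * p) (gq (N * p) K σ)⁻¹) ?_ 𝔞 h𝔞 h𝔞p ?_ hrel
    · intro σ
      change ‖(ω σ : E) * (χ₂ σ * (χ₁ σ)⁻¹ : Eˣ)‖ = 1
      rw [norm_mul, hωn, hq, one_mul]
    · intro σ τ
      change Cg ((ω (σ * τ) : E) * (χ₂ (σ * τ) * (χ₁ (σ * τ))⁻¹ : Eˣ)) (((ω σ : E) *
        (χ₂ σ * (χ₁ σ)⁻¹ : Eˣ)) * ((ω τ : E) * (χ₂ τ * (χ₁ τ)⁻¹ : Eˣ)))
      have h1 : ((χ₂ (σ * τ) * (χ₁ (σ * τ))⁻¹ : Eˣ) : E) =
          ((χ₂ σ * (χ₁ σ)⁻¹ : Eˣ) : E) * ((χ₂ τ * (χ₁ τ)⁻¹ : Eˣ) : E) := by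
        rw [← Units.val_mul, map_mul, map_mul, mul_inv]
        congr 1
        exact mul_mul_mul_comm _ _ _ _
      have h2 : Cg (ω (σ * τ) : E) ((ω σ : E) * ω τ) := by
        refine (htω _).symm.trans ?_
        rw [map_mul, map_mul, Units.val_mul]
        exact Cg.mul (htω σ) (htω τ) (hωone σ) (hωone τ)
      rw [h1, mul_mul_mul_comm]
      refine Cg.mul h2 Cg.rfl ?_ ?_
      · rw [norm_mul, hωn, hωn, one_mul]
      · rw [norm_mul, hq, hq, one_mul]
    · have h1 : Cg (∑ σ, ((fl (N + 1) (N * p) (gq (N * p) K σ)⁻¹ : ℕ) : E) * ψ σ)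
          (uu N p (N + 1) n χ) := by
        rw [uu, ← Equiv.sum_comp ((gq (N * p) K).toEquiv.trans (Equiv.inv _))]
        refine Cg.sum _ _ _ fun σ _ => ?_
        change Cg (((fl (N + 1) (N * p) (gq (N * p) K σ)⁻¹ : ℕ) : E) * ψ σ)
          ((fl (N + 1) (N * p) (gq (N * p) K σ)⁻¹ : E) *
            χ (ZMod.unitsMap (dvd_mul_right N p) (gq (N * p) K σ)⁻¹) *
            ((((gq (N * p) K σ)⁻¹ : (ZMod (N * p))ˣ) : ZMod (N * p)).val : E) ^ (n - 1))
        rw [mul_assoc, ← map_inv (gq (N * p) K), ← hA]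
        refine Cg.mul Cg.rfl ?_ (norm_natCast_le_one _) ?_
        · -- `ψ σ ≡ χ (σ⁻¹) ω(σ⁻¹) ^ (n-1)`
          have e1 : Cg (ψ σ) ((t (B σ) : E) * (χ₂ σ * (χ₁ σ)⁻¹ : Eˣ)) :=
            Cg.mul (htω σ).symm Cg.rfl (htn σ).le (hq σ).le
          have e2 : (t (B σ) : E) * (χ₂ σ * (χ₁ σ)⁻¹ : Eˣ) =
              (χ (A σ⁻¹) : E) * (t (B σ⁻¹) : E) ^ (n - 1) := by
            have e3 : (((χ₁ σ)⁻¹ : Eˣ) : E) = (χ₁ σ : E)⁻¹ := Units.val_inv_eq_inv_val _
            rw [Units.val_mul, e3, hχ₁, hχ₂, ← hχβ, map_inv, map_inv, map_inv, map_inv,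
              Units.val_inv_eq_inv_val, Units.val_inv_eq_inv_val]
            have hx0 : (t (B σ) : E) ≠ 0 := Units.ne_zero _
            have hα0 : (α (A σ) : E) ≠ 0 := Units.ne_zero _
            have hχ0 : (χ (A σ) : E) ≠ 0 := Units.ne_zero _
            obtain ⟨n', rfl⟩ : ∃ n', n = n' + 1 := ⟨n - 1, by omega⟩
            rw [Nat.add_sub_cancel, inv_pow]
            field_simp
            ring
          rw [e2] at e1
          refine e1.trans (Cg.mul Cg.rfl ?_ (hχn _).le ?_)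
          · exact Cg.pow ((htω _).trans (hgω _).symm) (norm_natCast_le_one _) _
          · rw [norm_pow]
            exact pow_le_one₀ (norm_nonneg _) (norm_natCast_le_one _)
        · rw [norm_mul, hχn, one_mul, norm_pow]
          exact pow_le_one₀ (norm_nonneg _) (norm_natCast_le_one _)
      exact h1.norm_eq (uu_norm N n p hn hnp hpN hpc hpd χ (hT χ hpar))
    · have h1 : (N + 1).Coprime (N * p) := by
        refine Nat.Coprime.mul_right ?_ ?_
        · simp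
        · exact ((Nat.Prime.coprime_iff_not_dvd hpp).2 hpc).symm
      have h2 := stickAll (N * p) (N + 1) (by nlinarith [Nat.pos_of_ne_zero hN0])
        (by have := Nat.pos_of_ne_zero hN0; omega)
        (by nlinarith [Nat.pos_of_ne_zero hN0]) h1 K 𝔞 h𝔞
      rw [← Equiv.prod_comp ((gq (N * p) K).toEquiv.trans (Equiv.inv _))] at h2
      have h3 : ∏ σ : Gal(K/ℚ), ((gq (N * p) K).symm
          (((gq (N * p) K).toEquiv.trans (Equiv.inv _)) σ)⁻¹ • 𝔞) ^
            fl (N + 1) (N * p) (((gq (N * p) K).toEquiv.trans (Equiv.inv _)) σ) =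
          ∏ σ : Gal(K/ℚ), (σ • 𝔞) ^ fl (N + 1) (N * p) (gq (N * p) K σ)⁻¹ := by
        refine Finset.prod_congr rfl fun σ _ => ?_
        change ((gq (N * p) K).symm (((gq (N * p) K σ)⁻¹)⁻¹) • 𝔞) ^
          fl (N + 1) (N * p) ((gq (N * p) K σ)⁻¹) = _
        rw [inv_inv, MulEquiv.symm_apply_apply]
      rw [h3] at h2
      exact h2
  · -- distinct characters
    by_contra hcon
    push Not at hcon
    have h1 : ∀ σ, Cg ((t (B σ) : E) ^ (n * N.totient)) 1 := by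
      intro σ
      have h2 : Cg (χ₁ σ : E) (χ₂ σ) := hcon σ
      rw [hχ₁, hχ₂, ← hχβ] at h2
      set x : E := (t (B σ) : E) with hx
      have hx0 : x ≠ 0 := Units.ne_zero _
      have hα0 : (α (A σ) : E) ≠ 0 := Units.ne_zero _
      have h3 : Cg ((χ (A σ) * α (A σ) * x ^ (n + k)) * (α (A σ) * x ^ k)⁻¹)
          ((α (A σ) * x ^ k) * (α (A σ) * x ^ k)⁻¹) := by
        refine Cg.mul h2 Cg.rfl ?_ ?_
        · rw [norm_mul, norm_pow, htn, hαn]
          norm_num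
        · rw [norm_inv, norm_mul, norm_pow, htn, hαn]
          norm_num
      rw [mul_inv_cancel₀ (mul_ne_zero hα0 (pow_ne_zero _ hx0))] at h3
      have h4 : (χ (A σ) * α (A σ) * x ^ (n + k)) * (α (A σ) * x ^ k)⁻¹ =
          (χ (A σ) : E) * x ^ n := by
        field_simp
        ring
      rw [h4] at h3
      have h5 := h3.pow (by rw [norm_one]) N.totient
      rw [one_pow, mul_pow, ← pow_mul, ← Units.val_pow_eq_pow_val, ← map_pow,
        ZMod.pow_totient, map_one, Units.val_one, one_mul] at h5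
      exact h5
    obtain ⟨g, hg⟩ := IsCyclic.exists_generator (α := (ZMod p)ˣ)
    obtain ⟨u, hu⟩ := ZMod.unitsMap_surjective (dvd_mul_left p N) g
    obtain ⟨σ, hσ⟩ := (gq (N * p) K).surjective u
    have hBσ : B σ = g := by rw [hB, hσ, hu]
    have h2 := h1 σ
    rw [hBσ] at h2
    have h3 : Cg ((t g : E)) (((g : ZMod p).val : ℕ) : E) := ht g
    have h4 := ((h3.pow (norm_natCast_le_one _) (n * N.totient)).symm.trans h2)
    have h5 : (p : ℕ) ∣ (g : ZMod p).val ^ (n * N.totient) - 1 := by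
      rw [← norm_natCast_lt_one_iff (p := p) (E := E), Nat.cast_sub, Nat.cast_pow, Nat.cast_one]
      · exact h4
      · refine Nat.one_le_pow _ _ (Nat.pos_of_ne_zero fun h => ?_)
        exact g.ne_zero ((ZMod.val_eq_zero _).1 h)
    have h6 : g ^ (n * N.totient) = 1 := by
      ext
      rw [Units.val_pow_eq_pow_val, Units.val_one]
      rw [← ZMod.natCast_eq_zero_iff, Nat.cast_sub, Nat.cast_pow, ZMod.natCast_val, ZMod.cast_id,
        Nat.cast_one, sub_eq_zero] at h5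
      · exact h5
      · refine Nat.one_le_pow _ _ (Nat.pos_of_ne_zero fun h => ?_)
        exact g.ne_zero ((ZMod.val_eq_zero _).1 h)
    have h7 : orderOf g = p - 1 := by
      rw [orderOf_eq_card_of_forall_mem_zpowers hg, Nat.card_eq_fintype_card,
        ZMod.card_units_eq_totient, Nat.totient_prime hpp]
    have h8 := orderOf_dvd_of_pow_eq_one h6
    rw [h7] at h8
    have h9 := Nat.le_of_dvd (Nat.mul_pos (by omega) (Nat.totient_pos.2
      (Nat.pos_of_ne_zero hN0))) h8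
    omega
  · -- unramified
    intro ℓ hℓ1 hℓ2
    exact unramAt_of_unrOut (N * p) V hunr ℓ hℓ1 hℓ2

end Pool.Agent.AAP
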