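import Pool.Agent.AAP.RedB
import Pool.Agent.AAP.Fin

/-!
# Even Galois representations at almost all primes: the reducible case
-/

open NumberField Pointwise Matrix

namespace Pool.Agent.AAP

open Pool.Agent.Helper60.FM

theorem redMain (n N : ℕ) (hn : 2 ≤ n) (hN : 1 ≤ N) : ∃ P : Finset ℕ, ∀ (p : ℕ) [Fact p.Prime],
    p ∉ P → ∀ (E : Type) [NormedField E] [IsUltrametricDist E] [CompleteSpace E]
      [NormedAlgebra ℚ_[p] E] (V : GQ →* GL (Fin 2) E), Continuous V → UnrOut (N * p) V →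
        IsEven V → Red p n N V → HasLine V := by
  classical
  have hNZ : NeZero N := ⟨by omega⟩
  obtain ⟨Q, hQ⟩ := fin N n hn
  let M : ℕ := (n + 2) + (n * N.totient + 2) + (N + 1) + (N + 1) ^ n +
    ∑ ℓ ∈ Finset.range (N + 1), ℓ ^ ((n - 1) * N.totient)
  have hM : M = (n + 2) + (n * N.totient + 2) + (N + 1) + (N + 1) ^ n +
    ∑ ℓ ∈ Finset.range (N + 1), ℓ ^ ((n - 1) * N.totient) := rfl
  refine ⟨Finset.range (M + 1) ∪ Q, ?_⟩
  intro p _ hp E _ _ _ _ V hV hunr heven hred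
  rw [Finset.mem_union, not_or, Finset.mem_range, not_lt] at hp
  obtain ⟨hpM, hpQ⟩ := hp
  have hpp : p.Prime := Fact.out
  have hNp : NeZero (N * p) := ⟨mul_ne_zero hNZ.ne hpp.ne_zero⟩
  have hlt : ∀ x : ℕ, 0 < x → x < p → ¬ p ∣ x := fun x h0 hx h =>
    absurd (Nat.le_of_dvd h0 h) (not_le.2 hx)
  have h1 : 1 < (N + 1) ^ n := Nat.one_lt_pow (by omega) (by omega)
  refine redAt n N p hn (by omega) (by omega) (hlt _ (by omega) (by omega))
    (hlt _ (by omega) (by omega)) (hlt _ (by omega) (by omega)) ?_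
    (fun χ hχ => hQ p hpQ E χ hχ) V hV hunr heven hred
  intro ℓ hℓ hℓN
  have h2 : ℓ ∈ Finset.range (N + 1) := by
    rw [Finset.mem_range]
    exact Nat.lt_succ_of_le (Nat.le_of_dvd (by omega) hℓN)
  have h3 : ℓ ^ ((n - 1) * N.totient) ≤
      ∑ ℓ ∈ Finset.range (N + 1), ℓ ^ ((n - 1) * N.totient) :=
    Finset.single_le_sum (f := fun ℓ => ℓ ^ ((n - 1) * N.totient))
      (fun _ _ => Nat.zero_le _) h2
  have h4 : 1 < ℓ ^ ((n - 1) * N.totient) :=
    Nat.one_lt_pow (Nat.mul_pos (by omega) (Nat.totient_pos.2 (by omega))).ne' hℓ.one_lt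
  exact hlt _ (by omega) (by omega)

end Pool.Agent.AAP
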