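import Pool.Agent.AAP.RedMain
import Pool.Agent.AAP.DihMain
import Pool.Agent.AAP.Tame

/-!
# Even Galois representations at almost all primes: definitions of the statement

`Gam` is the absolute Galois group of `ℚ` with the Krull topology, `g.ap x` is the image of `x`
under `g`, and `AI` is the ring of all algebraic integers.
-/

open Matrix

namespace Pool.Agent.AAP

/-- an algebraic closure of `ℚ` -/
abbrev Qbar : Type := AlgebraicClosure ℚ

/-- the absolute Galois group of `ℚ` with the Krull topology -/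
def Gam : Type := Gal(Qbar/ℚ)

noncomputable instance : Group Gam := AlgEquiv.aut (R := ℚ) (A₁ := Qbar)

noncomputable instance : TopologicalSpace Gam := krullTopology ℚ Qbar

/-- `g.ap x` is the image of `x` under the automorphism `g` -/
noncomputable def Gam.ap (g : Gam) (x : Qbar) : Qbar := DFunLike.coe (F := Gal(Qbar/ℚ)) g x

/-- `c` is a complex conjugation -/
def CC (c : Gam) : Prop := ∃ ι : Qbar →+* ℂ, ∀ x, ι (c.ap x) = starRingEnd ℂ (ι x)

/-- the ring of all algebraic integers -/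
def AI : Type := integralClosure ℤ Qbar

noncomputable instance : CommRing AI := Subalgebra.toCommRing (integralClosure ℤ Qbar)

/-- the inclusion -/
def AI.val (x : AI) : Qbar := (x : integralClosure ℤ Qbar).1

/-- `g` is in the inertia group of `𝔓`: `g x - x ∈ 𝔓` for all algebraic integers `x` -/
def Iner (𝔓 : Ideal AI) (g : Gam) : Prop := ∀ x y : AI, y.val = g.ap x.val → y - x ∈ 𝔓

/-- `g` is a Frobenius element at `𝔓`: `g x ≡ x ^ p` modulo `𝔓` for all algebraic integers `x` -/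
def Frob (p : ℕ) (𝔓 : Ideal AI) (g : Gam) : Prop :=
  ∀ x y : AI, y.val = g.ap x.val → y - x ^ p ∈ 𝔓

/-- `g` acts on the `m`-th roots of unity as raising to the `b`-th power -/
def Acts (m : ℕ) (g : Gam) (b : ℕ) : Prop := ∀ ζ : Qbar, ζ ^ m = 1 → g.ap ζ = ζ ^ b

/-- `g` fixes `δ` -/
def Fixes (δ : Qbar) (g : Gam) : Prop := g.ap δ = δ

section

variable {E : Type} [NormedField E]

/-- the group `GL₂(E)` -/
def GL2 (E : Type) [NormedField E] : Type := GL (Fin 2) E

noncomputable instance : Group (GL2 E) := Units.instGroup (α := Matrix (Fin 2) (Fin 2) E)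

instance : TopologicalSpace (GL2 E) :=
  Units.instTopologicalSpaceUnits (M := Matrix (Fin 2) (Fin 2) E)

/-- the matrix -/
def GL2.mat (A : GL2 E) : Matrix (Fin 2) (Fin 2) E := (A : GL (Fin 2) E).val

/-- congruence modulo the maximal ideal of the ring of integers -/
def Equ (x y : E) : Prop := ‖x - y‖ < 1

/-- `V` is even: `det V(c) = 1` for all complex conjugations `c` -/
def Even2 (V : Gam →* GL2 E) : Prop := ∀ c, CC c → det (V c).mat = 1

/-- `V` has a stable line (in other words it is reducible) -/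
def Line (V : Gam →* GL2 E) : Prop :=
  ∃ v : Fin 2 → E, v ≠ 0 ∧ ∀ g, ∃ c : E, (V g).mat *ᵥ v = c • v

/-- the trace of `V(g)` -/
noncomputable def trc (V : Gam →* GL2 E) (g : Gam) : E := trace (V g).mat

/-- at all primes `𝔓` of the ring of all algebraic integers which do not contain `m`, the elements
of the inertia group act on `V` with finite order prime to `p` -/
def Tame (p m : ℕ) (V : Gam →* GL2 E) : Prop :=
  ∀ 𝔓 : Ideal AI, 𝔓.IsPrime → (m : AI) ∉ 𝔓 → ∀ g, Iner 𝔓 g → ∃ k : ℕ, ¬ p ∣ k ∧ V g ^ k = 1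

/-- the semisimple reduction of `V` is `ω ^ j ⊗ (α ⊕ β ω ^ n)` with `α`, `β` characters modulo `N`
and `ω` the cyclotomic character modulo `p` -/
def RedType (p n N : ℕ) (V : Gam →* GL2 E) : Prop :=
  ∃ (α β : (ZMod N)ˣ →* Eˣ) (j : ℕ), ∀ (g : Gam) (a : (ZMod N)ˣ) (b : ℕ),
    Acts N g (a : ZMod N).val → Acts p g b →
      Equ (trc V g) ((b : E) ^ j * (α a + β a * (b : E) ^ n))

/-- `χ` is multiplicative on the subgroup of all `g` with `H g` -/
def IsChar (H : Gam → Prop) (χ : Gam → E) : Prop :=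
  χ 1 = 1 ∧ ∀ g h, H g → H h → χ (g * h) = χ g * χ h

/-- the reduction of `V` is induced from the character `χ` of the group of all `g` fixing `δ` -/
def Induced (δ : Qbar) (χ : Gam → E) (V : Gam →* GL2 E) : Prop :=
  (∀ s, ¬ Fixes δ s → Equ (trc V s) 0) ∧
    ∀ s h, ¬ Fixes δ s → Fixes δ h → Equ (trc V h) (χ h + χ (s * h * s⁻¹))

/-- the reduction of `V` is induced from a character `χ` of `Gal(Qbar/ℚ(√D))`, `D ∣ N`, with
`χ ^ N` unramified outside `p` -/
def DihType (p N : ℕ) (V : Gam →* GL2 E) : Prop :=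
  ∃ (D : ℤ) (δ : Qbar) (χ : Gam → E), D ∣ N ∧ δ ^ 2 = D ∧ (∀ q : ℚ, δ ≠ q) ∧
    IsChar (Fixes δ) χ ∧ IsOpen {g | Fixes δ g ∧ χ g = 1} ∧ Induced δ χ V ∧
    ∀ 𝔓 : Ideal AI, 𝔓.IsPrime → (p : AI) ∉ 𝔓 → ∀ h, Fixes δ h → Iner 𝔓 h → Equ (χ h ^ N) 1

/-- the restriction of the reduction of `V` to the inertia group at `𝔓` is `1 ⊕ ω ^ n` -/
def LevelOne (p n : ℕ) (𝔓 : Ideal AI) (V : Gam →* GL2 E) : Prop :=
  ∀ τ, Iner 𝔓 τ → ∀ b : ℕ, Acts p τ b → Equ (trc V τ) (1 + (b : E) ^ n)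

/-- `θ` is a fundamental character of level two of the inertia group at `𝔓`: its order is
`p ^ 2 - 1` and `θ (g τ g⁻¹) = θ (τ) ^ p` for all Frobenius elements `g` -/
def Fund (p : ℕ) (𝔓 : Ideal AI) (θ : Gam → E) : Prop :=
  IsChar (Iner 𝔓) θ ∧ (∃ τ, Iner 𝔓 τ ∧ orderOf (θ τ) = p ^ 2 - 1) ∧
    (∀ τ, Iner 𝔓 τ → θ τ ^ (p ^ 2 - 1) = 1) ∧
    ∀ g, Frob p 𝔓 g → ∀ τ, Iner 𝔓 τ → θ (g * τ * g⁻¹) = θ τ ^ p

/-- the reduction of `V` is at `p` of Fontaine-Laffaille type with weights `0` and `n`: its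
restriction to an inertia group at `p` is `1 ⊕ ω ^ n`, with `ω` the cyclotomic character, or it is
`θ ^ n ⊕ θ ^ (p n)`, with `θ` a fundamental character of level two -/
def FLType (p n : ℕ) (V : Gam →* GL2 E) : Prop :=
  ∃ 𝔓 : Ideal AI, 𝔓.IsPrime ∧ (p : AI) ∈ 𝔓 ∧ (LevelOne p n 𝔓 V ∨
    ∃ θ : Gam → E, Fund p 𝔓 θ ∧ ∀ τ, Iner 𝔓 τ → Equ (trc V τ) (θ τ ^ n + θ τ ^ (p * n)))

end

end Pool.Agent.AAP
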